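import Pool.Agent.Lib.PolyCol.Defs

/-!
Working definitions and small lemmas shared by all modules of the PolyCol package.
-/

namespace PolyCol

open Metric

/-- the unit complex number with argument `θ` -/
noncomputable def cis (θ : ℝ) : ℂ := Complex.exp (θ * Complex.I)

theorem norm_cis (θ : ℝ) : ‖cis θ‖ = 1 := Complex.norm_exp_ofReal_mul_I θ

theorem cis_ne_zero (θ : ℝ) : cis θ ≠ 0 := Complex.exp_ne_zero _

theorem cis_add (a b : ℝ) : cis (a + b) = cis a * cis b := by
  simp only [cis, ← Complex.exp_add]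
  push_cast
  ring_nf

theorem cis_re (θ : ℝ) : (cis θ).re = Real.cos θ := Complex.exp_ofReal_mul_I_re θ

theorem cis_im (θ : ℝ) : (cis θ).im = Real.sin θ := Complex.exp_ofReal_mul_I_im θ

theorem cis_add_two_pi (θ : ℝ) : cis (θ + 2 * Real.pi) = cis θ := by
  apply Complex.ext
  · rw [cis_re, cis_re, Real.cos_add_two_pi]
  · rw [cis_im, cis_im, Real.sin_add_two_pi]

theorem cis_sub_two_pi (θ : ℝ) : cis (θ - 2 * Real.pi) = cis θ := by
  rw [← cis_add_two_pi (θ - 2 * Real.pi)]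
  congr 1
  ring

theorem continuous_cis : Continuous cis := by
  unfold cis
  fun_prop

theorem cis_add_int (θ : ℝ) (k : ℤ) : cis (θ + k * (2 * Real.pi)) = cis θ := by
  apply Complex.ext
  · rw [cis_re, cis_re, Real.cos_add_int_mul_two_pi]
  · rw [cis_im, cis_im, Real.sin_add_int_mul_two_pi]

theorem cis_eq_iff (a b : ℝ) : cis a = cis b ↔ ∃ k : ℤ, a = b + k * (2 * Real.pi) := by
  unfold cis
  rw [Complex.exp_eq_exp_iff_exists_int]
  constructor
  · rintro ⟨k, hk⟩
    refine ⟨k, ?_⟩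
    have h := congrArg Complex.im hk
    simpa using h
  · rintro ⟨k, hk⟩
    refine ⟨k, ?_⟩
    rw [hk]
    push_cast
    ring

/-- chord formula: the point of the unit circle at parameter `θ + h` seen from the point at parameter `θ` -/
theorem cis_chord (θ h : ℝ) :
    cis (θ + h) = cis θ + ((2 * Real.sin (h / 2) : ℝ) : ℂ) * cis (θ + Real.pi / 2 + h / 2) := by
  have e1 : θ + h = (θ + h / 2) + h / 2 := by ring
  have e2 : θ = (θ + h / 2) - h / 2 := by ring
  have e3 : θ + Real.pi / 2 + h / 2 = (θ + h / 2) + Real.pi / 2 := by ring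
  apply Complex.ext
  · rw [Complex.add_re, Complex.re_ofReal_mul, cis_re, cis_re, cis_re]
    conv_lhs => rw [e1, Real.cos_add]
    conv_rhs => rw [e3, Real.cos_add_pi_div_two]; rw [e2, Real.cos_sub]
    ring_nf
  · rw [Complex.add_im, Complex.im_ofReal_mul, cis_im, cis_im, cis_im]
    conv_lhs => rw [e1, Real.sin_add]
    conv_rhs => rw [e3, Real.sin_add_pi_div_two]; rw [e2, Real.sin_sub]
    ring_nf

/-- points at parameters `60` degrees apart are at distance `1` -/
theorem cis_add_pi_div_three (θ : ℝ) :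
    cis (θ + Real.pi / 3) = cis θ + cis (θ + 2 * Real.pi / 3) := by
  have e1 : θ + 2 * Real.pi / 3 = (θ + Real.pi / 3) + Real.pi / 3 := by ring
  have hs : Real.sqrt 3 * Real.sqrt 3 = 3 := Real.mul_self_sqrt (by norm_num)
  apply Complex.ext
  · rw [Complex.add_re, cis_re, cis_re, cis_re, e1, Real.cos_add (θ + Real.pi / 3), Real.cos_add,
      Real.sin_add, Real.cos_pi_div_three, Real.sin_pi_div_three]
    linear_combination (Real.cos θ / 4) * hs
  · rw [Complex.add_im, cis_im, cis_im, cis_im, e1, Real.sin_add (θ + Real.pi / 3), Real.cos_add,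
      Real.sin_add, Real.cos_pi_div_three, Real.sin_pi_div_three]
    linear_combination (Real.sin θ / 4) * hs

/-- every complex number is `‖z‖ * cis θ` -/
theorem exists_polar (z : ℂ) : ∃ θ : ℝ, z = (‖z‖ : ℂ) * cis θ :=
  ⟨Complex.arg z, by rw [cis, Complex.norm_mul_exp_arg_mul_I]⟩

theorem exists_cis_of_norm_eq_one {z : ℂ} (hz : ‖z‖ = 1) : ∃ θ : ℝ, z = cis θ := by
  obtain ⟨θ, hθ⟩ := exists_polar z
  exact ⟨θ, by rw [hθ, hz]; simp⟩

namespace PolygonColoring

variable {S : Type} (C : PolygonColoring S)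

/-- the colour of a region -/
noncomputable def rc (R : Set ℂ) : S := C.color (Classical.epsilon fun x => x ∈ R)

theorem color_eq_rc {R : Set ℂ} (hR : R ∈ C.regions) {x : ℂ} (hx : x ∈ R) : C.color x = C.rc R :=
  C.color_const R hR x hx _ (Classical.epsilon_spec (p := fun x => x ∈ R) ⟨x, hx⟩)

theorem region_eq {R R' : Set ℂ} (hR : R ∈ C.regions) (hR' : R' ∈ C.regions) {x : ℂ}
    (hx : x ∈ R) (hx' : x ∈ R') : R = R' := by
  by_contra hne
  exact Set.disjoint_left.1 (C.regions_disjoint R hR R' hR' hne) hx hx'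

theorem border_eq {b b' : Set ℂ} (hb : b ∈ C.borders) (hb' : b' ∈ C.borders) {x : ℂ}
    (hx : x ∈ b) (hx' : x ∈ b') : b = b' := by
  by_contra hne
  exact Set.disjoint_left.1 (C.borders_disjoint b hb b' hb' hne) hx hx'

/-- points at distance `1` in regions lie in regions of different colours -/
theorem rc_ne_of_dist {R R' : Set ℂ} (hR : R ∈ C.regions) (hR' : R' ∈ C.regions) {x y : ℂ}
    (hx : x ∈ R) (hy : y ∈ R') (h : dist x y = 1) : C.rc R ≠ C.rc R' := by
  rw [← C.color_eq_rc hR hx, ← C.color_eq_rc hR' hy]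
  exact C.unit_dist x y h

/-! ### Local structure -/

/-- Local form at `p`: in the disc of radius `ε` around `p` (without `p`) the union of the borders
consists of the rays with directions in `D`; the ray with direction `e` is in the border `bd e`. -/
structure LocalForm (p : ℂ) (ε : ℝ) (D : Finset ℂ) (bd : ℂ → Set ℂ) : Prop where
  ε_pos : 0 < ε
  card_le : D.card ≤ 3
  card_le_two : p ∉ C.vertices → D.card ≤ 2
  norm_eq : ∀ e ∈ D, ‖e‖ = 1
  bd_mem : ∀ e ∈ D, bd e ∈ C.borders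
  on_bd : ∀ e ∈ D, ∀ s : ℝ, 0 < s → s < ε → p + s * e ∈ bd e
  off : ∀ e : ℂ, ‖e‖ = 1 → e ∉ D → ∀ s : ℝ, 0 < s → s < ε → ∃ R ∈ C.regions, p + s * e ∈ R

/-- every point has a local form -/
def HasLocalForms : Prop := ∀ p, ∃ ε D bd, C.LocalForm p ε D bd

/-- The sectors around `p` listed counterclockwise, starting at the direction `a` (which is not the
direction of a ray): the rays have directions `τ 1 < ... < τ n` in `(a, a + 2π)`, the region in
the sector `(τ j, τ (j+1))` is `X j` (`j = 0..n`, `X n = X 0`), the border at `τ j` is `b j`. -/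
structure Word (p : ℂ) (a ε : ℝ) (n : ℕ) (τ : ℕ → ℝ) (X b : ℕ → Set ℂ) : Prop where
  ε_pos : 0 < ε
  n_le : n ≤ 3
  n_le_two : p ∉ C.vertices → n ≤ 2
  start : τ 0 = a
  stop : τ (n + 1) = a + 2 * Real.pi
  mono : ∀ j ≤ n, τ j < τ (j + 1)
  reg : ∀ j ≤ n, X j ∈ C.regions
  last : X n = X 0
  sector : ∀ j ≤ n, ∀ θ, τ j < θ → θ < τ (j + 1) → ∀ s : ℝ, 0 < s → s < ε → p + s * cis θ ∈ X j
  base : ∀ s : ℝ, 0 < s → s < ε → p + s * cis a ∈ X 0
  bord : ∀ j, 1 ≤ j → j ≤ n → b j ∈ C.borders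
  ray : ∀ j, 1 ≤ j → j ≤ n → ∀ s : ℝ, 0 < s → s < ε → p + s * cis (τ j) ∈ b j

/-- every point `p` has a radius `ε` such that the words at `p` exist for every admissible base direction -/
def HasWords : Prop := ∀ p, ∃ ε : ℝ, 0 < ε ∧ ∀ a : ℝ,
  (∃ s : ℝ, 0 < s ∧ s < ε ∧ ∃ R ∈ C.regions, p + s * cis a ∈ R) →
    ∃ n τ X b, C.Word p a ε n τ X b

/-- near `p`, regions are radial -/
def Radial : Prop := ∀ p, ∃ ε : ℝ, 0 < ε ∧ ∀ θ s s' : ℝ, 0 < s → s < ε → 0 < s' → s' < ε →
  ∀ R ∈ C.regions, p + s * cis θ ∈ R → p + s' * cis θ ∈ R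

/-- alternation principle: no four directions around `p` in cyclic order with cyclically different regions -/
def Alt : Prop := ∀ p, ∃ ε : ℝ, 0 < ε ∧ ∀ s : ℝ, 0 < s → s < ε → ∀ t₁ t₂ t₃ t₄ : ℝ,
  t₁ < t₂ → t₂ < t₃ → t₃ < t₄ → t₄ < t₁ + 2 * Real.pi →
  ∀ R₁ ∈ C.regions, ∀ R₂ ∈ C.regions, ∀ R₃ ∈ C.regions, ∀ R₄ ∈ C.regions,
  p + s * cis t₁ ∈ R₁ → p + s * cis t₂ ∈ R₂ → p + s * cis t₃ ∈ R₃ → p + s * cis t₄ ∈ R₄ →
  R₁ ≠ R₂ → R₂ ≠ R₃ → R₃ ≠ R₄ → R₄ ≠ R₁ → False

/-- regions meeting a small disc around `p` have `p` in their closure -/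
def NearClosure : Prop := ∀ p, ∃ ε : ℝ, 0 < ε ∧
  ∀ R ∈ C.regions, (R ∩ ball p ε).Nonempty → p ∈ closure R

/-- a border that meets the closure of a region is contained in it -/
def CloseBorder : Prop := ∀ b ∈ C.borders, ∀ R ∈ C.regions, (b ∩ closure R).Nonempty → b ⊆ closure R

/-- different regions with a common boundary point have different colours -/
def Adj : Prop := ∀ p, ∀ X ∈ C.regions, ∀ Y ∈ C.regions, p ∈ closure X → p ∈ closure Y →
  C.rc X = C.rc Y → X = Y

/-- on each unit circle only finitely many points are not in regions -/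
def CircFin : Prop := ∀ c : ℂ, {x | x ∈ sphere c 1 ∧ ∀ R ∈ C.regions, x ∉ R}.Finite

/-- near each point of a unit circle, the other points of the circle are in regions -/
def CircReg : Prop := ∀ (c : ℂ) (θ : ℝ), ∃ h₀ : ℝ, 0 < h₀ ∧ ∀ h : ℝ, h ≠ 0 → |h| < h₀ →
  ∃ R ∈ C.regions, c + cis (θ + h) ∈ R

/-! ### Triple points -/

/-- `p` is in the closure of three different regions -/
def IsTri (p : ℂ) : Prop := ∃ X ∈ C.regions, ∃ Y ∈ C.regions, ∃ Z ∈ C.regions,
  X ≠ Y ∧ Y ≠ Z ∧ X ≠ Z ∧ p ∈ closure X ∧ p ∈ closure Y ∧ p ∈ closure Z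

/-- the colours of the regions at `p` -/
def cols (p : ℂ) : Set S := {i | ∃ R ∈ C.regions, p ∈ closure R ∧ C.rc R = i}

/-- some points of `X` and `Y` are at distance less than `1` -/
def near (X Y : Set ℂ) : Prop := ∃ x ∈ X, ∃ y ∈ Y, dist x y < 1

/-- the relation `a(u,v) = 1` -/
def lnk (u v : ℂ) : Prop := ∃ X ∈ C.regions, ∃ Y ∈ C.regions,
  C.rc X = C.rc Y ∧ u ∈ closure X ∧ v ∈ closure Y ∧ near X Y

/-! ### Unit circles as words -/

/-- the unit circle around `c` cut into arcs `(θ j, θ (j+1))`, arc `j` in region `Y j`, the set of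
breakpoints being invariant under rotation by 60 degrees -/
structure CircleWord (c : ℂ) (n : ℕ) (θ : ℤ → ℝ) (Y : ℤ → Set ℂ) : Prop where
  n_pos : 0 < n
  mono : StrictMono θ
  shift : ∀ j, θ (j + n) = θ j + Real.pi / 3
  reg : ∀ j, Y j ∈ C.regions
  arc : ∀ j t, θ j < t → t < θ (j + 1) → c + cis t ∈ Y j

/-! ### Borders of a given type, ends of a border in a disc -/

/-- the border `b` has a region with label `α` and a region with label `β` on its sides -/
def isAB {ι : Type} (g : Set ℂ → ι) (α β : ι) (b : Set ℂ) : Prop :=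
  ∃ X ∈ C.regions, ∃ Y ∈ C.regions, g X = α ∧ g Y = β ∧ b ⊆ closure X ∧ b ⊆ closure Y

/-- the labels `g` separate the regions at each point -/
def LabelInj {ι : Type} (g : Set ℂ → ι) : Prop := ∀ p, ∀ X ∈ C.regions, ∀ Y ∈ C.regions,
  p ∈ closure X → p ∈ closure Y → g X = g Y → X = Y

end PolygonColoring

/-- indicator of a proposition -/
noncomputable def ind (P : Prop) : ℕ := by
  classical
  exact if P then 1 else 0

theorem ind_of {P : Prop} (h : P) : ind P = 1 := by
  unfold ind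
  exact if_pos h

theorem ind_of_not {P : Prop} (h : ¬ P) : ind P = 0 := by
  unfold ind
  exact if_neg h

/-- `p` is an end of the segment `b ∩ K` -/
def IsEnd (K : Set ℂ) (p : ℂ) (b : Set ℂ) : Prop :=
  p ∉ b ∩ K ∧ ∃ e : ℂ, ‖e‖ = 1 ∧ ∃ s₀ : ℝ, 0 < s₀ ∧ ∀ s : ℝ, 0 < s → s < s₀ → p + s * e ∈ b ∩ K

end PolyCol
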