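import Pool.Agent.Lib.PolyCol.Basic

/-!
# Module 6: unit circles

* `circFin`: a point of `sphere c 1` in no region is a vertex or on a border (`cover`); finitely many vertices and
  borders meet `closedBall c 1` (`locally_finite`); a border is in a line, a line meets the circle in
  at most two points.
* `circReg`: from the finite set of `circFin`; `h ↦ c + cis (θ + h)` is injective for `|h| < π`, so only
  finitely many `h`, choose `h₀` smaller than the nonzero ones.
* `exists_circleWord`: let `B ⊂ [0, 2π)` be the finite set of bad parameters; reduce it mod `π/3` to a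
  finite set `B₀ ⊂ [0, π/3)`, nonempty after adding `0`, with elements `b_0 < ... < b_{n-1}`; put
  `θ (q n + r) = b_r + q π/3` (`0 ≤ r < n`).  All bad parameters are among the `θ j`.  Each open arc
  `{c + cis t | θ j < t < θ (j+1)}` is preconnected and covered by the disjoint open regions, so it is
  in one region `Y j`.
-/

namespace PolyCol
namespace PolygonColoring

open Metric

variable {S : Type} (C : PolygonColoring S)

/-- a line meets a circle in finitely many points -/
private theorem seg_sphere_finite {x y : ℂ} (hxy : x ≠ y) (c : ℂ) :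
    (sphere c 1 ∩ openSegment ℝ x y).Finite := by
  have hlead : ‖y - x‖ ^ 2 ≠ 0 := by
    have : ‖y - x‖ ≠ 0 := norm_ne_zero_iff.2 (sub_ne_zero.2 hxy.symm)
    exact pow_ne_zero 2 this
  let P : Polynomial ℝ := Polynomial.C (‖y - x‖ ^ 2) * Polynomial.X ^ 2 +
    Polynomial.C (2 * ((x - c).re * (y - x).re + (x - c).im * (y - x).im)) * Polynomial.X +
    Polynomial.C (‖x - c‖ ^ 2 - 1)
  have hP : P ≠ 0 := by
    intro h
    have h2 : P.coeff 2 = 0 := by rw [h]; simp
    simp only [P, Polynomial.coeff_add, Polynomial.coeff_C_mul, Polynomial.coeff_X_pow,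
      Polynomial.coeff_X, Polynomial.coeff_C] at h2
    norm_num at h2
    exact hxy (sub_eq_zero.1 h2).symm
  have hfin : {t : ℝ | P.eval t = 0}.Finite := by
    have := P.roots.toFinset.finite_toSet
    refine this.subset ?_
    intro t ht
    simp only [Finset.mem_coe, Multiset.mem_toFinset]
    exact (Polynomial.mem_roots hP).2 ht
  refine (hfin.image (fun t : ℝ => x + (t : ℂ) * (y - x))).subset ?_
  rintro z ⟨hz, hz2⟩
  rw [openSegment_eq_image'] at hz2
  obtain ⟨t, _, rfl⟩ := hz2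
  refine ⟨t, ?_, by simp⟩
  rw [mem_sphere, dist_eq_norm] at hz
  have h1 : ‖x + t • (y - x) - c‖ ^ 2 = 1 := by rw [hz]; norm_num
  rw [← Complex.normSq_eq_norm_sq, Complex.normSq_apply] at h1
  simp only [Complex.add_re, Complex.sub_re, Complex.add_im, Complex.sub_im, Complex.smul_re,
    Complex.smul_im, smul_eq_mul] at h1
  show P.eval t = 0
  simp only [P, Polynomial.eval_add, Polynomial.eval_mul, Polynomial.eval_C, Polynomial.eval_pow,
    Polynomial.eval_X]
  rw [← Complex.normSq_eq_norm_sq, ← Complex.normSq_eq_norm_sq, Complex.normSq_apply,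
    Complex.normSq_apply]
  simp only [Complex.sub_re, Complex.sub_im]
  linear_combination h1

theorem circFin : C.CircFin := by
  intro c
  obtain ⟨_, h2, h3⟩ := C.locally_finite c 1
  have hb : (⋃ b ∈ {b | b ∈ C.borders ∧ (b ∩ closedBall c 1).Nonempty},
      sphere c 1 ∩ b).Finite := by
    refine h2.biUnion ?_
    rintro b ⟨hb, _⟩
    obtain ⟨x, _, y, _, hxy, rfl⟩ := C.border_segment b hb
    exact seg_sphere_finite hxy c
  refine (h3.union hb).subset ?_
  rintro x ⟨hx, hxR⟩
  have hxb : x ∈ closedBall c 1 := sphere_subset_closedBall hx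
  rcases C.cover x with h | ⟨b, hb, hxb'⟩ | ⟨R, hR, hxR'⟩
  · exact Or.inl ⟨h, hxb⟩
  · right
    simp only [Set.mem_iUnion]
    exact ⟨b, ⟨hb, x, hxb', hxb⟩, hx, hxb'⟩
  · exact absurd hxR' (hxR R hR)

private theorem injOn_circ (c : ℂ) (a : ℝ) :
    Set.InjOn (fun t : ℝ => c + cis (a + t)) {t | |t| < Real.pi} := by
  intro t ht t' ht' h
  simp only [Set.mem_ofPred_eq] at ht ht'
  have h1 : cis (a + t) = cis (a + t') := add_left_cancel h
  obtain ⟨k, hk⟩ := (cis_eq_iff _ _).1 h1
  rw [abs_lt] at ht ht'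
  have hpi := Real.pi_pos
  have hk0 : k = 0 := by
    have h2 : t - t' = k * (2 * Real.pi) := by linarith
    have h3 : (k : ℝ) * (2 * Real.pi) < 1 * (2 * Real.pi) := by linarith
    have h4 : (-1 : ℝ) * (2 * Real.pi) < k * (2 * Real.pi) := by linarith
    have h5 : (k : ℝ) < 1 := lt_of_mul_lt_mul_right h3 (by positivity)
    have h6 : (-1 : ℝ) < k := lt_of_mul_lt_mul_right h4 (by positivity)
    have h7 : k < 1 := by exact_mod_cast h5
    have h8 : -1 < k := by exact_mod_cast h6
    omega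
  rw [hk0] at hk
  simp only [Int.cast_zero, zero_mul, add_zero] at hk
  linarith

private theorem mem_sphere_circ (c : ℂ) (t : ℝ) : c + cis t ∈ sphere c 1 := by
  rw [mem_sphere, dist_eq_norm, add_sub_cancel_left, norm_cis]

private theorem bad_finite (h : C.CircFin) (c : ℂ) (a : ℝ) :
    {t : ℝ | |t| < Real.pi ∧ ∀ R ∈ C.regions, c + cis (a + t) ∉ R}.Finite := by
  refine Set.Finite.of_injOn (f := fun t : ℝ => c + cis (a + t))
    (t := {x | x ∈ sphere c 1 ∧ ∀ R ∈ C.regions, x ∉ R}) ?_ ?_ (h c)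
  · intro t ht
    exact ⟨mem_sphere_circ c _, ht.2⟩
  · exact (injOn_circ c a).mono (fun t ht => ht.1)

theorem circReg (h : C.CircFin) : C.CircReg := by
  intro c θ
  have hfin := bad_finite C h c θ
  have hfin' := hfin.subset (Set.sdiff_subset (t := {(0 : ℝ)}))
  have hopen := hfin'.isClosed.isOpen_compl
  have h0 : (0 : ℝ) ∈ ({t : ℝ | |t| < Real.pi ∧ ∀ R ∈ C.regions, c + cis (θ + t) ∉ R} \ {0})ᶜ := by
    simp
  obtain ⟨ε, hε, hball⟩ := Metric.mem_nhds_iff.1 (hopen.mem_nhds h0)
  refine ⟨min ε Real.pi, lt_min hε Real.pi_pos, ?_⟩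
  intro t ht0 ht
  have h1 : t ∈ ball (0 : ℝ) ε := by
    rw [mem_ball, dist_eq_norm, sub_zero, Real.norm_eq_abs]
    exact ht.trans_le (min_le_left _ _)
  have h2 := hball h1
  by_contra hcon
  push Not at hcon
  exact h2 ⟨⟨ht.trans_le (min_le_right _ _), hcon⟩, ht0⟩

private theorem arc_region {c : ℂ} {a b : ℝ} (hab : a < b)
    (h : ∀ t, a < t → t < b → ∃ R ∈ C.regions, c + cis t ∈ R) :
    ∃ R ∈ C.regions, ∀ t, a < t → t < b → c + cis t ∈ R := by
  obtain ⟨R, hR, hm⟩ := h ((a + b) / 2) (by linarith) (by linarith)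
  refine ⟨R, hR, ?_⟩
  have hpre : IsPreconnected ((fun t : ℝ => c + cis t) '' Set.Ioo a b) := by
    refine isPreconnected_Ioo.image _ ?_
    exact (continuous_const.add continuous_cis).continuousOn
  have hopenV : IsOpen (⋃ R' ∈ C.regions \ {R}, R') :=
    isOpen_biUnion (fun R' hR' => C.region_open R' hR'.1)
  have hdisj : Disjoint R (⋃ R' ∈ C.regions \ {R}, R') := by
    rw [Set.disjoint_left]
    intro x hx hx'
    simp only [Set.mem_iUnion] at hx'
    obtain ⟨R', hR', hxR'⟩ := hx'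
    exact hR'.2 (C.region_eq hR'.1 hR hxR' hx)
  have hsub : (fun t : ℝ => c + cis t) '' Set.Ioo a b ⊆ R ∪ ⋃ R' ∈ C.regions \ {R}, R' := by
    rintro _ ⟨t, ht, rfl⟩
    obtain ⟨R', hR', hx⟩ := h t ht.1 ht.2
    by_cases he : R' = R
    · left
      rw [he] at hx
      exact hx
    · right
      simp only [Set.mem_iUnion]
      exact ⟨R', ⟨hR', he⟩, hx⟩
  have := hpre.subset_left_of_subset_union (C.region_open R hR) hopenV hdisj hsub
    ⟨_, ⟨(a + b) / 2, ⟨by linarith, by linarith⟩, rfl⟩, hm⟩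
  intro t h1 h2
  exact this ⟨t, ⟨h1, h2⟩, rfl⟩

/-- the reduced bad parameters -/
private def bad0 (c : ℂ) : Set ℝ :=
  {t | 0 ≤ t ∧ t < Real.pi / 3 ∧
    (t = 0 ∨ ∃ k : ℤ, ∀ R ∈ C.regions, c + cis (t + k * (Real.pi / 3)) ∉ R)}

private theorem bad0_finite (h : C.CircFin) (c : ℂ) : (bad0 C c).Finite := by
  have h1 : (⋃ r ∈ Finset.range 6, {t : ℝ | |t| < Real.pi ∧
      ∀ R ∈ C.regions, c + cis ((r : ℝ) * (Real.pi / 3) + t) ∉ R}).Finite :=
    (Finset.range 6).finite_toSet.biUnion (fun r _ => bad_finite C h c _)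
  refine (h1.union (Set.finite_singleton 0)).subset ?_
  rintro t ⟨ht0, ht1, ht⟩
  rcases ht with rfl | ⟨k, hk⟩
  · right; rfl
  · left
    simp only [Set.mem_iUnion]
    have hr : 0 ≤ k % 6 := Int.emod_nonneg _ (by norm_num)
    have hr' : k % 6 < 6 := Int.emod_lt_of_pos _ (by norm_num)
    refine ⟨(k % 6).toNat, ?_, ?_, ?_⟩
    · rw [Finset.mem_range]
      omega
    · rw [abs_lt]
      have := Real.pi_pos
      constructor <;> linarith
    · intro R hR
      have h2 := hk R hR
      have h3 : t + k * (Real.pi / 3) =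
          (((k % 6).toNat : ℕ) : ℝ) * (Real.pi / 3) + t + ((k / 6 : ℤ) : ℝ) * (2 * Real.pi) := by
        have h4 : (((k % 6).toNat : ℕ) : ℝ) = ((k % 6 : ℤ) : ℝ) := by
          have : (((k % 6).toNat : ℕ) : ℤ) = k % 6 := Int.toNat_of_nonneg hr
          exact_mod_cast congrArg (Int.cast : ℤ → ℝ) this
        have h5 : (k : ℝ) = ((k % 6 : ℤ) : ℝ) + 6 * ((k / 6 : ℤ) : ℝ) := by
          have := Int.emod_add_mul_ediv k 6
          have h6 := congrArg (Int.cast : ℤ → ℝ) this
          push_cast at h6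
          linarith
        rw [h4, h5]
        ring
      rw [h3, cis_add_int] at h2
      exact h2

theorem exists_circleWord (h : C.CircFin) (c : ℂ) : ∃ n θ Y, C.CircleWord c n θ Y := by
  classical
  have hpi := Real.pi_pos
  obtain ⟨s, hs⟩ := (bad0_finite C h c).exists_finset_coe
  have hmem : ∀ t, t ∈ s ↔ t ∈ bad0 C c := by
    intro t
    rw [← hs]
    rfl
  have h0s : (0 : ℝ) ∈ s := (hmem 0).2 ⟨le_refl _, by positivity, Or.inl rfl⟩
  have hn : 0 < s.card := Finset.card_pos.2 ⟨0, h0s⟩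
  set n := s.card with hn_def
  let b : Fin n ↪o ℝ := s.orderEmbOfFin hn_def.symm
  have hb : ∀ i, b i ∈ s := fun i => Finset.orderEmbOfFin_mem s _ i
  have hb0 : ∀ i, 0 ≤ b i := fun i => ((hmem _).1 (hb i)).1
  have hb1 : ∀ i, b i < Real.pi / 3 := fun i => ((hmem _).1 (hb i)).2.1
  have hsurj : ∀ t ∈ s, ∃ i, b i = t := by
    intro t ht
    have : t ∈ Set.range b := by
      rw [Finset.range_orderEmbOfFin]
      exact ht
    exact this
  have hnZ : (0 : ℤ) < n := by exact_mod_cast hn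
  have hidx : ∀ j : ℤ, (j % (n : ℤ)).toNat < n := by
    intro j
    have h1 := Int.emod_nonneg j (b := (n : ℤ)) (by omega)
    have h2 := Int.emod_lt_of_pos j hnZ
    omega
  let θ : ℤ → ℝ := fun j => b ⟨(j % (n : ℤ)).toNat, hidx j⟩ + ((j / (n : ℤ) : ℤ) : ℝ) * (Real.pi / 3)
  have hmono : StrictMono θ := by
    refine strictMono_int_of_lt_succ (fun j => ?_)
    have h1 := Int.emod_nonneg j (b := (n : ℤ)) (by omega)
    have h2 := Int.emod_lt_of_pos j hnZ
    have h3 := Int.emod_add_mul_ediv j n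
    by_cases hc : j % (n : ℤ) + 1 < n
    · have h4 : (j + 1) / (n : ℤ) = j / n ∧ (j + 1) % (n : ℤ) = j % n + 1 := by
        rw [Int.ediv_emod_unique hnZ]
        refine ⟨?_, by omega, hc⟩
        linarith
      show b _ + _ < b _ + _
      rw [h4.1]
      have h5 : b ⟨(j % (n : ℤ)).toNat, hidx j⟩ < b ⟨((j + 1) % (n : ℤ)).toNat, hidx (j + 1)⟩ := by
        apply b.strictMono
        rw [Fin.mk_lt_mk]
        rw [h4.2]
        omega
      linarith
    · have h4 : (j + 1) / (n : ℤ) = j / n + 1 ∧ (j + 1) % (n : ℤ) = 0 := by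
        rw [Int.ediv_emod_unique hnZ]
        refine ⟨?_, le_refl _, hnZ⟩
        have : j % (n : ℤ) + 1 = n := by omega
        rw [mul_add, mul_one]
        linarith
      show b _ + _ < b _ + _
      rw [h4.1]
      have h5 := hb1 ⟨(j % (n : ℤ)).toNat, hidx j⟩
      have h6 := hb0 ⟨((j + 1) % (n : ℤ)).toNat, hidx (j + 1)⟩
      push_cast
      linarith
  have hshift : ∀ j, θ (j + n) = θ j + Real.pi / 3 := by
    intro j
    have h1 : (j + (n : ℤ)) / (n : ℤ) = j / n + 1 := by
      rw [Int.add_ediv_of_dvd_right (dvd_refl _), Int.ediv_self (by omega)]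
    have h2 : (j + (n : ℤ)) % (n : ℤ) = j % n := Int.add_emod_right _ _
    show b ⟨((j + (n : ℤ)) % (n : ℤ)).toNat, _⟩ + (((j + (n : ℤ)) / (n : ℤ) : ℤ) : ℝ) * _ = _
    rw [h1]
    simp only [h2]
    push_cast
    show b _ + _ = b _ + _ + _
    ring
  have hall : ∀ t : ℝ, (∀ R ∈ C.regions, c + cis t ∉ R) → ∃ j, θ j = t := by
    intro t ht
    set k : ℤ := ⌊t / (Real.pi / 3)⌋ with hk
    have hk1 : (k : ℝ) * (Real.pi / 3) ≤ t := by
      have := Int.floor_le (t / (Real.pi / 3))
      rwa [le_div_iff₀ (by positivity)] at this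
    have hk2 : t < ((k : ℝ) + 1) * (Real.pi / 3) := by
      have := Int.lt_floor_add_one (t / (Real.pi / 3))
      rwa [div_lt_iff₀ (by positivity)] at this
    have h1 : t - k * (Real.pi / 3) ∈ s := by
      rw [hmem]
      refine ⟨by linarith, by linarith, Or.inr ⟨k, ?_⟩⟩
      intro R hR
      rw [sub_add_cancel]
      exact ht R hR
    obtain ⟨i, hi⟩ := hsurj _ h1
    refine ⟨k * n + (i : ℕ), ?_⟩
    have h2 : (k * (n : ℤ) + ((i : ℕ) : ℤ)) / (n : ℤ) = k ∧
        (k * (n : ℤ) + ((i : ℕ) : ℤ)) % (n : ℤ) = ((i : ℕ) : ℤ) := by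
      rw [Int.ediv_emod_unique hnZ]
      have := i.2
      refine ⟨by ring, by omega, by omega⟩
    show b ⟨((k * (n : ℤ) + ((i : ℕ) : ℤ)) % (n : ℤ)).toNat, _⟩ + _ = t
    rw [h2.1]
    simp only [h2.2, Int.toNat_natCast, Fin.eta]
    rw [hi]
    ring
  have harc : ∀ j, ∃ R ∈ C.regions, ∀ t, θ j < t → t < θ (j + 1) → c + cis t ∈ R := by
    intro j
    refine arc_region C (hmono (by omega)) ?_
    intro t h1 h2
    by_contra hcon
    push Not at hcon
    obtain ⟨l, rfl⟩ := hall t hcon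
    rw [hmono.lt_iff_lt] at h1 h2
    omega
  choose Y hY1 hY2 using harc
  exact ⟨n, θ, Y, hn, hmono, hshift, hY1, hY2⟩

end PolygonColoring
end PolyCol
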