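import Pool.Agent.Lib.PolyCol.Crossing

/-!
# Module 10a: steps of the circle word; no swap

(Use `dist_ne_one`, `crossing` of the module `Crossing` as black boxes.)

* `cw_ne`: `c + cis t` and `c + cis (t + π/3)` are at distance `1` (`cis_add_pi_div_three`), `rc_ne_of_dist`.
* `cw_period`: `θ (j + 6n) = θ j + 2π`, `cis` is `2π`-periodic, `region_eq`.
* `no_swap`: let `a = rc (Y j) ≠ b = rc (Y (j+1))`, `p = c + cis (θ (j+1))`, in the closures of `Y j` and `Y (j+1)`.
  `q = c + cis (θ (j+1) + π/3) = p + cis (θ (j+1) + 2π/3)` (`cis_add_pi_div_three`).  Apply `crossing` at `q` with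
  `c₁ = c`, `θ₁ = θ (j+1) + π/3 = θ (j+1+n)`, `A = {a, b}` (the arcs before and after `θ (j+1+n)` are `Y (j+n)`,
  `Y (j+1+n)`, of colours `b`, `a` if there is a swap), `c₂ = p`, `θ₂ = θ (j+1) + 2π/3` (`dist_ne_one`: the unit circle
  around `p` avoids the regions with colours `a`, `b`).
-/

namespace PolyCol
namespace PolygonColoring

open Metric

namespace CircleStepsAux

theorem mem_closure_of_arc {c : ℂ} {a b : ℝ} (hab : a < b) {Y : Set ℂ}
    (h : ∀ t, a < t → t < b → c + cis t ∈ Y) {t : ℝ} (ht : t ∈ Set.Icc a b) :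
    c + cis t ∈ closure Y := by
  have hcont : Continuous fun t : ℝ => c + cis t := continuous_const.add continuous_cis
  have h1 := image_closure_subset_closure_image (f := fun t : ℝ => c + cis t) (s := Set.Ioo a b) hcont
  have h2 : (fun t : ℝ => c + cis t) '' Set.Ioo a b ⊆ Y := by
    rintro _ ⟨t, ht, rfl⟩
    exact h t ht.1 ht.2
  have h3 : t ∈ closure (Set.Ioo a b) := by
    rw [closure_Ioo hab.ne]
    exact ht
  exact closure_mono h2 (h1 ⟨t, h3, rfl⟩)

theorem theta_six {S : Type} (C : PolygonColoring S) {c : ℂ} {n : ℕ} {θ : ℤ → ℝ} {Y : ℤ → Set ℂ}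
    (hw : C.CircleWord c n θ Y) (j : ℤ) : θ (j + 6 * n) = θ j + 2 * Real.pi := by
  have h : ∀ m : ℕ, θ (j + m * n) = θ j + m * (Real.pi / 3) := by
    intro m
    induction m with
    | zero => simp
    | succ m ih =>
      have e : j + ((m + 1 : ℕ) : ℤ) * n = (j + m * n) + n := by push_cast; ring
      rw [e, hw.shift, ih]
      push_cast
      ring
  have h6 := h 6
  have e : j + 6 * (n : ℤ) = j + ((6 : ℕ) : ℤ) * n := by push_cast; ring
  rw [e, h6]
  push_cast
  ring

end CircleStepsAux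

open CircleStepsAux

theorem cw_ne {S : Type} (C : PolygonColoring S) {c : ℂ} {n : ℕ} {θ : ℤ → ℝ} {Y : ℤ → Set ℂ}
    (hw : C.CircleWord c n θ Y) (j : ℤ) : C.rc (Y (j + n)) ≠ C.rc (Y j) := by
  have hlt : θ j < θ (j + 1) := hw.mono (by omega)
  set t := (θ j + θ (j + 1)) / 2 with ht
  have h1 : c + cis t ∈ Y j := hw.arc j t (by rw [ht]; linarith) (by rw [ht]; linarith)
  have h2 : c + cis (t + Real.pi / 3) ∈ Y (j + n) := by
    apply hw.arc
    · rw [hw.shift, ht]; linarith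
    · rw [show j + (n : ℤ) + 1 = (j + 1) + n by ring, hw.shift, ht]; linarith
  refine C.rc_ne_of_dist (hw.reg _) (hw.reg _) h2 h1 ?_
  rw [cis_add_pi_div_three, dist_eq_norm]
  have : c + (cis t + cis (t + 2 * Real.pi / 3)) - (c + cis t) = cis (t + 2 * Real.pi / 3) := by ring
  rw [this, norm_cis]

theorem cw_period {S : Type} (C : PolygonColoring S) {c : ℂ} {n : ℕ} {θ : ℤ → ℝ} {Y : ℤ → Set ℂ}
    (hw : C.CircleWord c n θ Y) (j : ℤ) : Y (j + 6 * n) = Y j := by
  have hlt : θ j < θ (j + 1) := hw.mono (by omega)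
  set t := (θ j + θ (j + 1)) / 2 with ht
  have h1 : c + cis t ∈ Y j := hw.arc j t (by rw [ht]; linarith) (by rw [ht]; linarith)
  have h2 : c + cis (t + 2 * Real.pi) ∈ Y (j + 6 * n) := by
    apply hw.arc
    · rw [theta_six C hw, ht]; linarith
    · rw [show j + 6 * (n : ℤ) + 1 = (j + 1) + 6 * n by ring, theta_six C hw, ht]; linarith
  rw [cis_add_two_pi] at h2
  exact C.region_eq (hw.reg _) (hw.reg _) h2 h1

theorem no_swap {S : Type} (C : PolygonColoring S) (hAlt : C.Alt) (hCR : C.CircReg)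
    {c : ℂ} {n : ℕ} {θ : ℤ → ℝ} {Y : ℤ → Set ℂ}
    (hw : C.CircleWord c n θ Y) (j : ℤ) (hne : C.rc (Y j) ≠ C.rc (Y (j + 1))) :
    ¬ (C.rc (Y (j + n)) = C.rc (Y (j + 1)) ∧ C.rc (Y (j + 1 + n)) = C.rc (Y j)) := by
  rintro ⟨hs1, hs2⟩
  have hlt0 : θ j < θ (j + 1) := hw.mono (by omega)
  have hlt1 : θ (j + 1) < θ (j + 1 + 1) := hw.mono (by omega)
  have hlt2 : θ (j + n) < θ (j + n + 1) := hw.mono (by omega)
  have hlt3 : θ (j + 1 + n) < θ (j + 1 + n + 1) := hw.mono (by omega)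
  have he : j + (n : ℤ) + 1 = j + 1 + n := by ring
  set p := c + cis (θ (j + 1)) with hp
  have hpj : p ∈ closure (Y j) :=
    mem_closure_of_arc hlt0 (hw.arc j) ⟨hlt0.le, le_rfl⟩
  have hpj1 : p ∈ closure (Y (j + 1)) :=
    mem_closure_of_arc hlt1 (hw.arc (j + 1)) ⟨le_rfl, hlt1.le⟩
  set q := c + cis (θ (j + 1) + Real.pi / 3) with hq
  have hq2 : q = p + cis (θ (j + 1) + 2 * Real.pi / 3) := by
    rw [hq, hp, cis_add_pi_div_three]; ring
  have hsin : Real.sin ((θ (j + 1) + Real.pi / 3) - (θ (j + 1) + 2 * Real.pi / 3)) ≠ 0 := by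
    have : (θ (j + 1) + Real.pi / 3) - (θ (j + 1) + 2 * Real.pi / 3) = -(Real.pi / 3) := by ring
    rw [this, Real.sin_neg, Real.sin_pi_div_three]
    have : (0:ℝ) < Real.sqrt 3 := Real.sqrt_pos.2 (by norm_num)
    intro h
    linarith
  set h₀ := min (θ (j + 1 + n + 1) - θ (j + 1 + n)) (θ (j + n + 1) - θ (j + n)) with hh₀
  have hpos : 0 < h₀ := lt_min (by linarith) (by linarith)
  refine C.crossing hAlt hCR q c p _ _ hq hq2 hsin {C.rc (Y j), C.rc (Y (j + 1))} h₀ hpos ?_ ?_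
  · intro h hh0 hh R hR hmem
    have ha := abs_lt.1 hh
    have hm1 : h₀ ≤ θ (j + 1 + n + 1) - θ (j + 1 + n) := min_le_left _ _
    have hm2 : h₀ ≤ θ (j + n + 1) - θ (j + n) := min_le_right _ _
    have hsh : θ (j + 1 + n) = θ (j + 1) + Real.pi / 3 := hw.shift _
    rcases lt_or_gt_of_ne hh0 with hneg | hposh
    · have hin : c + cis (θ (j + 1) + Real.pi / 3 + h) ∈ Y (j + n) := by
        apply hw.arc
        · have e : θ (j + n + 1) = θ (j + 1 + n) := by rw [he]
          linarith [ha.1]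
        · have e : θ (j + n + 1) = θ (j + 1 + n) := by rw [he]
          linarith
      rw [C.region_eq hR (hw.reg _) hmem hin, hs1]
      right
      rfl
    · have hin : c + cis (θ (j + 1) + Real.pi / 3 + h) ∈ Y (j + 1 + n) := by
        apply hw.arc
        · linarith
        · linarith [ha.2]
      rw [C.region_eq hR (hw.reg _) hmem hin, hs2]
      left
      rfl
  · intro h hh0 hh R hR hmem hA
    have hd : dist p (p + cis (θ (j + 1) + 2 * Real.pi / 3 + h)) = 1 := by
      rw [dist_eq_norm, ← norm_neg]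
      have : -(p - (p + cis (θ (j + 1) + 2 * Real.pi / 3 + h))) = cis (θ (j + 1) + 2 * Real.pi / 3 + h) := by
        ring
      rw [this, norm_cis]
    rcases hA with hA | hA
    · exact C.dist_ne_one (hw.reg j) hR hA.symm hpj hmem hd
    · exact C.dist_ne_one (hw.reg (j + 1)) hR (Set.mem_singleton_iff.1 hA).symm hpj1 hmem hd

end PolygonColoring
end PolyCol
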