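import Pool.Agent.Lib.PolyCol.Basic

/-!
# Module 4: closures of regions contain whole borders; adjacent regions have different colours

* `closeBorder`: let `b = openSegment x y`, `R` a region meeting `b` with its closure.  `b` is (pre)connected
  and `{q ∈ b | q ∈ closure R}` is closed in `b`; it is open in `b`: for `q ∈ b` the local form at `q` has
  `card D ≤ 2` (`q` is not a vertex) and `D ∋ ±e`, `e` the direction of `b` (small points `q ± s e` are on `b`,
  not in regions), so `D = {e, -e}`.  `R` has a point `q + s cis φ` with `s < ε` and `cis φ ≠ ±e`; the open half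
  disc containing it is connected, avoids the rays, so is covered by regions, hence it is contained in `R`;
  so all points `q ± s' e`, `s' < ε`, are in `closure R`.
* `adj`: `X ≠ Y`, `p ∈ closure X ∩ closure Y`.  By `cover` `p` is a vertex (then `adjacent_ne`, note
  `frontier X = closure X \ X` for open `X` and `p ∉ X`), or `p` is on a border `b` (then `b ⊆ closure X`,
  `b ⊆ closure Y` by `CloseBorder`, `b ∩ X = ∅`, so `b ⊆ frontier`; `adjacent_ne`), or `p` is in a region `R`
  (open, meets `X` and `Y`, so `X = R = Y`).  `rc` versus `color`: `color_eq_rc`.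
-/

namespace PolyCol
namespace PolygonColoring

open Metric

variable {S : Type} (C : PolygonColoring S)

namespace CloseAdjAux

/-- The open half disc. -/
def HD (q e : ℂ) (ε σ : ℝ) : Set ℂ :=
  {z | z ∈ ball q ε ∧ 0 < σ * ((z - q) * (starRingEnd ℂ) e).im}

lemma convex_HD (q e : ℂ) (ε σ : ℝ) : Convex ℝ (HD q e ε σ) := by
  intro z hz w hw a b ha hb hab
  refine ⟨(convex_ball q ε) hz.1 hw.1 ha hb hab, ?_⟩
  have h1 : σ * ((a • z + b • w - q) * (starRingEnd ℂ) e).im =
      a * (σ * ((z - q) * (starRingEnd ℂ) e).im) + b * (σ * ((w - q) * (starRingEnd ℂ) e).im) := by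
    have h2 : a • z + b • w - q = (a:ℂ) * (z - q) + (b:ℂ) * (w - q) := by
      rw [Complex.real_smul, Complex.real_smul]
      have h3 : (a:ℂ) + b = 1 := by exact_mod_cast hab
      linear_combination q * h3
    rw [h2, add_mul, Complex.add_im, mul_assoc, mul_assoc, Complex.im_ofReal_mul,
      Complex.im_ofReal_mul]
    ring
  rw [h1]
  have hz2 := hz.2
  have hw2 := hw.2
  rcases ha.eq_or_lt with h | h
  · have hb1 : b = 1 := by linarith
    rw [← h, hb1, zero_mul, one_mul, zero_add]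
    exact hw2
  · have h4 : 0 < a * (σ * ((z - q) * (starRingEnd ℂ) e).im) := mul_pos h hz2
    have h5 : 0 ≤ b * (σ * ((w - q) * (starRingEnd ℂ) e).im) := mul_nonneg hb hw2.le
    linarith

lemma mul_conj_self {e : ℂ} (he : ‖e‖ = 1) : e * (starRingEnd ℂ) e = 1 := by
  rw [Complex.mul_conj, Complex.normSq_eq_norm_sq, he]
  simp

/-- points of the diameter are limits of points of the half disc -/
lemma diam_closure {q e : ℂ} {ε σ t : ℝ} (he : ‖e‖ = 1) (hσ : σ = 1 ∨ σ = -1) (ht : |t| < ε) :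
    q + t * e ∈ closure (HD q e ε σ) := by
  rw [Metric.mem_closure_iff]
  intro δ hδ
  obtain ⟨η, hη0, hη1, hη2⟩ : ∃ η : ℝ, 0 < η ∧ η < δ ∧ |t| + η < ε := by
    refine ⟨min (δ / 2) ((ε - |t|) / 2), ?_, ?_, ?_⟩
    · exact lt_min (by linarith) (by linarith)
    · exact (min_le_left _ _).trans_lt (by linarith)
    · have := min_le_right (δ / 2) ((ε - |t|) / 2)
      linarith
  have hσa : |σ| = 1 := by rcases hσ with h | h <;> simp [h]
  have hσσ : σ * σ = 1 := by rcases hσ with h | h <;> simp [h]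
  refine ⟨q + t * e + ((η * σ : ℝ) : ℂ) * Complex.I * e, ⟨?_, ?_⟩, ?_⟩
  · rw [mem_ball, dist_eq_norm]
    have h1 : q + t * e + ((η * σ : ℝ) : ℂ) * Complex.I * e - q =
        ((t:ℂ) + ((η * σ : ℝ) : ℂ) * Complex.I) * e := by ring
    rw [h1, norm_mul, he, mul_one]
    refine (norm_add_le _ _).trans_lt ?_
    rw [norm_mul, Complex.norm_I, mul_one, Complex.norm_real, Complex.norm_real, Real.norm_eq_abs,
      Real.norm_eq_abs, abs_mul, hσa, mul_one, abs_of_pos hη0]
    exact hη2
  · have h1 : (q + t * e + ((η * σ : ℝ) : ℂ) * Complex.I * e - q) * (starRingEnd ℂ) e =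
        (t:ℂ) + ((η * σ : ℝ) : ℂ) * Complex.I := by
      have h2 := mul_conj_self he
      linear_combination ((t:ℂ) + ((η * σ : ℝ) : ℂ) * Complex.I) * h2
    rw [h1]
    have h3 : ((t:ℂ) + ((η * σ : ℝ) : ℂ) * Complex.I).im = η * σ := by
      simp
    rw [h3]
    have h4 : σ * (η * σ) = η := by
      calc σ * (η * σ) = η * (σ * σ) := by ring
        _ = η := by rw [hσσ, mul_one]
    rw [h4]
    exact hη0
  · rw [dist_eq_norm]
    have h1 : q + t * e - (q + t * e + ((η * σ : ℝ) : ℂ) * Complex.I * e) =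
        -(((η * σ : ℝ) : ℂ) * Complex.I * e) := by ring
    rw [h1, norm_neg, norm_mul, norm_mul, he, Complex.norm_I, mul_one, mul_one, Complex.norm_real,
      Real.norm_eq_abs, abs_mul, hσa, mul_one, abs_of_pos hη0]
    exact hη1

/-- points of an open segment through `q` -/
lemma seg_points {x y q : ℂ} (hxy : x ≠ y) (hq : q ∈ openSegment ℝ x y) :
    ∃ (e : ℂ) (r : ℝ), ‖e‖ = 1 ∧ 0 < r ∧ (∀ t : ℝ, |t| < r → q + t * e ∈ openSegment ℝ x y) ∧
      ∀ w ∈ openSegment ℝ x y, ∃ t : ℝ, w = q + t * e := by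
  have hne : (y - x : ℂ) ≠ 0 := sub_ne_zero.2 hxy.symm
  have hn : (0:ℝ) < ‖y - x‖ := norm_pos_iff.2 hne
  rw [openSegment_eq_image_lineMap] at hq
  obtain ⟨s, ⟨hs0, hs1⟩, rfl⟩ := hq
  have hL : ∀ u : ℝ, AffineMap.lineMap x y u = x + (u:ℂ) * (y - x) := by
    intro u
    rw [AffineMap.lineMap_apply, vsub_eq_sub, vadd_eq_add, Complex.real_smul, add_comm]
  have hnC : ((‖y - x‖ : ℝ) : ℂ) ≠ 0 := by exact_mod_cast hn.ne'
  refine ⟨((‖y - x‖⁻¹ : ℝ) : ℂ) * (y - x), min s (1 - s) * ‖y - x‖, ?_, ?_, ?_, ?_⟩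
  · rw [norm_mul, Complex.norm_real, Real.norm_eq_abs, abs_of_pos (inv_pos.2 hn),
      inv_mul_cancel₀ hn.ne']
  · exact mul_pos (lt_min hs0 (by linarith)) hn
  · intro t ht
    rw [openSegment_eq_image_lineMap]
    have h1 : |t * ‖y - x‖⁻¹| < min s (1 - s) := by
      rw [abs_mul, abs_of_pos (inv_pos.2 hn), ← div_eq_mul_inv, div_lt_iff₀ hn]
      exact ht
    have h2 := (abs_lt.1 h1).1
    have h3 := (abs_lt.1 h1).2
    have h4 := min_le_left s (1 - s)
    have h5 := min_le_right s (1 - s)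
    refine ⟨s + t * ‖y - x‖⁻¹, ⟨by linarith, by linarith⟩, ?_⟩
    rw [hL, hL]
    push_cast
    ring
  · intro w hw
    rw [openSegment_eq_image_lineMap] at hw
    obtain ⟨u, _, rfl⟩ := hw
    refine ⟨(u - s) * ‖y - x‖, ?_⟩
    rw [hL, hL]
    push_cast
    field_simp
    ring

end CloseAdjAux

open CloseAdjAux in
theorem closeBorder_local (h : C.HasLocalForms) {b R : Set ℂ} (hb : b ∈ C.borders)
    (hR : R ∈ C.regions) {q : ℂ} (hqb : q ∈ b) (hqR : q ∈ closure R) :
    ∃ ε : ℝ, 0 < ε ∧ b ∩ ball q ε ⊆ closure R := by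
  obtain ⟨ε, D, bd, hL⟩ := h q
  have hqv : q ∉ C.vertices := fun hv => C.vertex_border q hv b hb hqb
  obtain ⟨x, _, y, _, hxy, hbxy⟩ := C.border_segment b hb
  rw [hbxy] at hqb
  obtain ⟨e, r, he, hr, hin, hall⟩ := seg_points hxy hqb
  have hnotreg : ∀ w ∈ b, ∀ R' ∈ C.regions, w ∉ R' := fun w hw R' hR' hw' =>
    Set.disjoint_left.1 (C.border_region b hb R' hR') hw hw'
  -- the directions of the border belong to `D`
  have hdir : ∀ e' : ℂ, (e' = e ∨ e' = -e) → e' ∈ D := by
    intro e' he'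
    by_contra hc
    have hn' : ‖e'‖ = 1 := by
      rcases he' with rfl | rfl
      · exact he
      · rw [norm_neg, he]
    set s := min ε r / 2 with hs
    have hm : 0 < min ε r := lt_min hL.ε_pos hr
    have hs0 : 0 < s := by rw [hs]; linarith
    have hsε : s < ε := by
      have := min_le_left ε r
      rw [hs]; linarith
    have hsr : s < r := by
      have := min_le_right ε r
      rw [hs]; linarith
    obtain ⟨R', hR', hmem⟩ := hL.off e' hn' hc s hs0 hsε
    refine hnotreg _ ?_ R' hR' hmem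
    rw [hbxy]
    rcases he' with rfl | rfl
    · exact hin s (by rw [abs_of_pos hs0]; exact hsr)
    · have h1 := hin (-s) (by rw [abs_neg, abs_of_pos hs0]; exact hsr)
      have h2 : q + ((-s : ℝ) : ℂ) * e = q + (s:ℂ) * (-e) := by push_cast; ring
      rwa [h2] at h1
  have hene : e ≠ -e := by
    intro hc
    have h1 : e = 0 := by linear_combination hc / 2
    rw [h1, norm_zero] at he
    exact zero_ne_one he
  have hDsub : ∀ e' ∈ D, e' = e ∨ e' = -e := by
    intro e' he'
    by_contra hc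
    push Not at hc
    have h1 : ({e, -e, e'} : Finset ℂ) ⊆ D := by
      intro z hz
      simp only [Finset.mem_insert, Finset.mem_singleton] at hz
      rcases hz with rfl | rfl | rfl
      · exact hdir _ (Or.inl rfl)
      · exact hdir _ (Or.inr rfl)
      · exact he'
    have h2 := Finset.card_le_card h1
    have h3 : ({e, -e, e'} : Finset ℂ).card = 3 := by
      rw [Finset.card_eq_three]
      exact ⟨e, -e, e', hene, fun h => hc.1 h.symm, fun h => hc.2 h.symm, rfl⟩
    have h4 := hL.card_le_two hqv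
    omega
  -- a point of `R` in the disc
  obtain ⟨z, hzR, hzq⟩ := Metric.mem_closure_iff.1 hqR ε hL.ε_pos
  have hzne : z ≠ q := by
    rintro rfl
    exact hnotreg z (by rw [hbxy]; exact hqb) R hR hzR
  have hzq0 : z - q ≠ 0 := sub_ne_zero.2 hzne
  have hzn : 0 < ‖z - q‖ := norm_pos_iff.2 hzq0
  have hzε : ‖z - q‖ < ε := by rw [← dist_eq_norm, dist_comm]; exact hzq
  have hcc := mul_conj_self he
  -- points off the line are in regions
  have hreg : ∀ w, w ∈ ball q ε → ((w - q) * (starRingEnd ℂ) e).im ≠ 0 →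
      ∃ R' ∈ C.regions, w ∈ R' := by
    intro w hw him
    rw [mem_ball, dist_eq_norm] at hw
    have hw0 : w - q ≠ 0 := by
      intro h0
      rw [h0, zero_mul] at him
      exact him rfl
    have hwn : 0 < ‖w - q‖ := norm_pos_iff.2 hw0
    have hwC : ((‖w - q‖ : ℝ) : ℂ) ≠ 0 := by exact_mod_cast hwn.ne'
    have h1 : w = q + ((‖w - q‖ : ℝ) : ℂ) * (((‖w - q‖⁻¹ : ℝ) : ℂ) * (w - q)) := by
      push_cast
      field_simp
      ring
    have h2 : ‖((‖w - q‖⁻¹ : ℝ) : ℂ) * (w - q)‖ = 1 := by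
      rw [norm_mul, Complex.norm_real, Real.norm_eq_abs, abs_of_pos (inv_pos.2 hwn),
        inv_mul_cancel₀ hwn.ne']
    have h3 : ((‖w - q‖⁻¹ : ℝ) : ℂ) * (w - q) ∉ D := by
      intro hD
      apply him
      have h4 : ∃ c : ℝ, w - q = (c:ℂ) * e := by
        rcases hDsub _ hD with h5 | h5
        · refine ⟨‖w - q‖, ?_⟩
          rw [← h5]
          push_cast
          field_simp
        · refine ⟨-‖w - q‖, ?_⟩
          have h6 : e = -(((‖w - q‖⁻¹ : ℝ) : ℂ) * (w - q)) := by rw [h5]; ring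
          rw [h6]
          push_cast
          field_simp
      obtain ⟨c, hc⟩ := h4
      rw [hc, mul_assoc, hcc, mul_one, Complex.ofReal_im]
    obtain ⟨R', hR', hmem⟩ := hL.off _ h2 h3 ‖w - q‖ hwn hw
    rw [← h1] at hmem
    exact ⟨R', hR', hmem⟩
  have hzim : ((z - q) * (starRingEnd ℂ) e).im ≠ 0 := by
    intro him
    -- then `z` is on the line, so on a border
    have h1 : z - q = ((((z - q) * (starRingEnd ℂ) e).re : ℝ) : ℂ) * e := by
      have h2 : (z - q) * (starRingEnd ℂ) e = ((((z - q) * (starRingEnd ℂ) e).re : ℝ) : ℂ) := by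
        apply Complex.ext
        · rw [Complex.ofReal_re]
        · rw [Complex.ofReal_im, him]
      rw [← h2]
      have h3 : (z - q) * (starRingEnd ℂ) e * e = (z - q) * (e * (starRingEnd ℂ) e) := by ring
      rw [h3, hcc, mul_one]
    set c := ((z - q) * (starRingEnd ℂ) e).re with hc
    have hcn : |c| = ‖z - q‖ := by
      rw [h1, norm_mul, he, mul_one, Complex.norm_real, Real.norm_eq_abs]
    have hbd : ∃ b' ∈ C.borders, z ∈ b' := by
      rcases lt_trichotomy c 0 with hc0 | hc0 | hc0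
      · refine ⟨bd (-e), hL.bd_mem _ (hdir _ (Or.inr rfl)), ?_⟩
        have h4 := hL.on_bd _ (hdir _ (Or.inr rfl)) (-c) (by linarith) (by
          rw [← abs_of_neg hc0, hcn]; exact hzε)
        have h5 : q + ((-c : ℝ) : ℂ) * (-e) = z := by
          push_cast
          linear_combination -h1
        rwa [h5] at h4
      · rw [hc0, abs_zero] at hcn
        exact absurd hcn.symm hzn.ne'
      · refine ⟨bd e, hL.bd_mem _ (hdir _ (Or.inl rfl)), ?_⟩
        have h4 := hL.on_bd _ (hdir _ (Or.inl rfl)) c hc0 (by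
          rw [← abs_of_pos hc0, hcn]; exact hzε)
        have h5 : q + ((c : ℝ) : ℂ) * e = z := by
          linear_combination -h1
        rwa [h5] at h4
    obtain ⟨b', hb', hzb'⟩ := hbd
    exact Set.disjoint_left.1 (C.border_region b' hb' R hR) hzb' hzR
  obtain ⟨σ, hσ, hσz⟩ : ∃ σ : ℝ, (σ = 1 ∨ σ = -1) ∧
      0 < σ * ((z - q) * (starRingEnd ℂ) e).im := by
    rcases lt_or_gt_of_ne hzim with h1 | h1
    · exact ⟨-1, Or.inr rfl, by linarith⟩
    · exact ⟨1, Or.inl rfl, by linarith⟩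
  have hzH : z ∈ HD q e ε σ := ⟨by rw [mem_ball, dist_eq_norm]; exact hzε, hσz⟩
  have hHR : HD q e ε σ ⊆ R := by
    have hpre : IsPreconnected (HD q e ε σ) := (convex_HD q e ε σ).isPreconnected
    set V : Set ℂ := ⋃ R' ∈ {R' | R' ∈ C.regions ∧ R' ≠ R}, R' with hV
    have hVo : IsOpen V := isOpen_biUnion fun R' hR' => C.region_open R' hR'.1
    have hcov : HD q e ε σ ⊆ R ∪ V := by
      intro w hw
      have him : ((w - q) * (starRingEnd ℂ) e).im ≠ 0 := by
        intro h0
        have := hw.2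
        rw [h0, mul_zero] at this
        exact lt_irrefl _ this
      obtain ⟨R', hR', hw'⟩ := hreg w hw.1 him
      by_cases hRR : R' = R
      · left
        rwa [hRR] at hw'
      · right
        exact Set.mem_biUnion (show R' ∈ {R' | R' ∈ C.regions ∧ R' ≠ R} from ⟨hR', hRR⟩) hw'
    intro w hw
    rcases hcov hw with h1 | h1
    · exact h1
    · exfalso
      obtain ⟨u, _, huR, huV⟩ := hpre R V (C.region_open R hR) hVo hcov ⟨z, hzH, hzR⟩ ⟨w, hw, h1⟩
      simp only [hV, Set.mem_iUnion] at huV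
      obtain ⟨R', hR', hu'⟩ := huV
      exact hR'.2 (C.region_eq hR'.1 hR hu' huR)
  refine ⟨ε, hL.ε_pos, ?_⟩
  rintro w ⟨hwb, hwball⟩
  rw [hbxy] at hwb
  obtain ⟨t, rfl⟩ := hall w hwb
  have ht : |t| < ε := by
    rw [mem_ball, dist_eq_norm, add_sub_cancel_left, norm_mul, he, mul_one, Complex.norm_real,
      Real.norm_eq_abs] at hwball
    exact hwball
  exact closure_mono hHR (diam_closure he hσ ht)

theorem closeBorder (h : C.HasLocalForms) : C.CloseBorder := by
  intro b hb R hR hne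
  obtain ⟨x, _, y, _, hxy, hbxy⟩ := C.border_segment b hb
  have hpre : IsPreconnected b := by
    rw [hbxy]
    exact (convex_openSegment x y).isPreconnected
  by_contra hnot
  rw [Set.not_subset] at hnot
  obtain ⟨w, hwb, hwR⟩ := hnot
  have hloc : ∀ q : ℂ, ∃ ε : ℝ, q ∈ b ∩ closure R → 0 < ε ∧ b ∩ ball q ε ⊆ closure R := by
    intro q
    by_cases hq : q ∈ b ∩ closure R
    · obtain ⟨ε, h1, h2⟩ := C.closeBorder_local h hb hR hq.1 hq.2
      exact ⟨ε, fun _ => ⟨h1, h2⟩⟩
    · exact ⟨0, fun h => absurd h hq⟩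
  choose ε hε using hloc
  set U : Set ℂ := ⋃ q ∈ b ∩ closure R, ball q (ε q) with hU
  have hUo : IsOpen U := isOpen_biUnion fun q _ => isOpen_ball
  have hVo : IsOpen (closure R)ᶜ := isClosed_closure.isOpen_compl
  have hcov : b ⊆ U ∪ (closure R)ᶜ := by
    intro q hq
    by_cases hqR : q ∈ closure R
    · left
      exact Set.mem_biUnion (show q ∈ b ∩ closure R from ⟨hq, hqR⟩)
        (mem_ball_self (hε q ⟨hq, hqR⟩).1)
    · right
      exact hqR
  obtain ⟨q₀, hq₀⟩ := hne
  have hU0 : (b ∩ U).Nonempty :=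
    ⟨q₀, hq₀.1, Set.mem_biUnion hq₀ (mem_ball_self (hε q₀ hq₀).1)⟩
  obtain ⟨u, hub, huU, huV⟩ := hpre U _ hUo hVo hcov hU0 ⟨w, hwb, hwR⟩
  simp only [hU, Set.mem_iUnion] at huU
  obtain ⟨q, hq, huq⟩ := huU
  exact huV ((hε q hq).2 ⟨hub, huq⟩)

theorem adj (h : C.CloseBorder) : C.Adj := by
  intro p X hX Y hY hpX hpY hc
  by_contra hne
  obtain ⟨x, hx⟩ := (C.region_connected X hX).1
  obtain ⟨y, hy⟩ := (C.region_connected Y hY).1
  have hcol : C.color x = C.color y := by
    rw [C.color_eq_rc hX hx, C.color_eq_rc hY hy, hc]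
  rcases C.cover p with hv | ⟨b, hb, hpb⟩ | ⟨R, hR, hpR⟩
  · refine C.adjacent_ne X hX Y hY hne (Or.inl ⟨p, hv, ?_, ?_⟩) x hx y hy hcol
    · rw [(C.region_open X hX).frontier_eq]
      exact ⟨hpX, C.vertex_region p hv X hX⟩
    · rw [(C.region_open Y hY).frontier_eq]
      exact ⟨hpY, C.vertex_region p hv Y hY⟩
  · refine C.adjacent_ne X hX Y hY hne (Or.inr ⟨b, hb, ?_, ?_⟩) x hx y hy hcol
    · rw [(C.region_open X hX).frontier_eq]
      exact fun w hw => ⟨h b hb X hX ⟨p, hpb, hpX⟩ hw,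
        fun hw' => Set.disjoint_left.1 (C.border_region b hb X hX) hw hw'⟩
    · rw [(C.region_open Y hY).frontier_eq]
      exact fun w hw => ⟨h b hb Y hY ⟨p, hpb, hpY⟩ hw,
        fun hw' => Set.disjoint_left.1 (C.border_region b hb Y hY) hw hw'⟩
  · obtain ⟨u, hu1, hu2⟩ := mem_closure_iff.1 hpX R (C.region_open R hR) hpR
    obtain ⟨w, hw1, hw2⟩ := mem_closure_iff.1 hpY R (C.region_open R hR) hpR
    exact hne ((C.region_eq hX hR hu2 hu1).trans (C.region_eq hR hY hw1 hw2))

end PolygonColoring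
end PolyCol
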