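import Pool.Agent.Lib.PolyCol.CircleSteps

/-!
# Module 10b: the difference is not constant

(Use `dist_ne_one`, `near_lt`, `far_gt` of `Crossing` and `cw_ne`, `cw_period` as black boxes.)

`const_false`: `v` with three colours, all arcs of the unit circle of `v` have colours `ψ (F j)`,
`range ψ = (cols v)ᶜ`, `F (j+n) = F j + δ` for all `j`.  By `cw_ne` `δ ≠ 0`, so `F` is not constant: there is `j₀` with
`a = F j₀ ≠ b = F (j₀+1)`.  Let `θ_k = θ (j₀+1) + k π/3`, `p_k = v + cis θ_k`.  At `p_k` the colours on the circle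
change from `ψ (a + kδ)` to `ψ (b + kδ)`.  Let `m` be the third element of `ZMod 3`; `m + δ = a` or `m + δ = b`.
The unit circles around `v`, `p_{k+1}`, `p_{k-1}` pass through `p_k`; with `s = 2 sin (h/2)`, `h > 0` small, their
points at distance `s` from `p_k` have directions (relative to `θ_k`, see `cis_chord`)
  `v`: `π/2 + h/2` (colour `b_k = ψ (b+kδ)`), `-π/2 - h/2` (colour `a_k`);
  `p_{k+1}` (parameter `θ_k - π/3 ± h`): `π/6 + h/2`, `7π/6 - h/2`: colours not `a_{k+1}, b_{k+1}` (`dist_ne_one`);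
  `p_{k-1}` (parameter `θ_k + π/3 ± h`): `5π/6 + h/2`, `-π/6 - h/2`: colours not `a_{k-1}, b_{k-1}`.
All these points are in regions for small `h` (`CircReg`).
Case 1, `m + δ = b`: `Alt` with directions `π/2+ (b_k), 5π/6+ (a_k or in cols v), 7π/6- (b_k or in cols v),
3π/2- (a_k)` shows that the regions at `5π/6 +` and `7π/6 -` are the same region `γ_k`, its colour `g_k` is in
`cols v`.  The point at `5π/6 +` is in `ball v 1` (square of the distance: `2 + 2 cos (2π/3 + h) < 1`).
Case 2, `m + δ = a`: `Alt` with `π/6+ (a_k or cols v), π/2+ (b_k), 3π/2- (a_k), 11π/6- (b_k or cols v)` shows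
that the regions at `π/6 +` and `-π/6 -` are the same region `γ_k` with colour `g_k` in `cols v`.  The point
at `π/6 +` is outside `closedBall v 1` (square of the distance: `2 + 2 cos (2π/3 - h) > 1`).
In both cases `p_k ∈ closure γ_k` (`NearClosure`), `γ_k` contains a point at distance `1` of `p_{k+1}`, so
`g_k ≠ g_{k+1}` by `dist_ne_one`.  Let `G_k` be a region of colour `g_k` at `v` (depending only on the colour).
Case 1: `near γ_k G_k`, so all `x ∈ G_k` have `dist x p_k ≤ 1` (`near_lt`, limit).  Case 2: not near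
(`near_lt` and a limit would put the point at `π/6 +` in `closedBall v 1`), all `x ∈ G_k` have `dist x p_k ≥ 1` (`far_gt`).
`g_k = g_{k+3}` is impossible: Case 1: `dist x p_k ^2 + dist x p_{k+3} ^2 = 2 + 2 ‖x-v‖^2 > 2` (`x ≠ v`, choose `x`).
Case 2: with `x = v + s cis φ ∈ G` close to `v`, `Radial` and `s → 0`: `cos (φ - θ_k) ≤ 0` and `≥ 0`, so `= 0`, for an
open set of `φ` (`G` is open), contradiction.  `g_k = g_{k+2} = g_{k+4}` is impossible in the same way (sum of the
three squares is `3 + 3 ‖x-v‖^2`; the three cosines sum to zero).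
Finally no map `g : ℤ/6 → cols v` (3 colours) satisfies `g_k ≠ g_{k+1}`, `g_k ≠ g_{k+3}`, not
`g_k = g_{k+2} = g_{k+4}` (`decide` on `Fin 6 → Fin 3`).  (`p_{k+6} = p_k`; it is convenient to define things for
`k : ℕ` or `ℤ` and to use only `k = 0..5` with indices mod 6.)
-/

namespace PolyCol
namespace PolygonColoring

open Metric

namespace ConstDAux

variable {S : Type} (C : PolygonColoring S)

theorem cis_add_pi (x : ℝ) : cis (x + Real.pi) = - cis x := by
  apply Complex.ext
  · rw [Complex.neg_re, cis_re, cis_re, Real.cos_add_pi]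
  · rw [Complex.neg_im, cis_im, cis_im, Real.sin_add_pi]

/-- chord formula, positive side -/
theorem chord_pos (c : ℂ) (φ h : ℝ) :
    c + cis (φ + h) = (c + cis φ) + ((2 * Real.sin (h / 2) : ℝ) : ℂ) *
      cis (φ + Real.pi / 2 + h / 2) := by
  rw [cis_chord φ h]; ring

/-- chord formula, negative side -/
theorem chord_neg (c : ℂ) (φ h : ℝ) :
    c + cis (φ - h) = (c + cis φ) + ((2 * Real.sin (h / 2) : ℝ) : ℂ) *
      cis (φ + 3 * Real.pi / 2 - h / 2) := by
  have h1 := cis_chord φ (-h)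
  have e1 : φ + -h = φ - h := by ring
  have e2 : φ + Real.pi / 2 + -h / 2 = φ + Real.pi / 2 - h / 2 := by ring
  have e3 : φ + 3 * Real.pi / 2 - h / 2 = (φ + Real.pi / 2 - h / 2) + Real.pi := by ring
  rw [e1, e2, neg_div, Real.sin_neg] at h1
  rw [e3, cis_add_pi, h1]
  push_cast
  ring

theorem norm_cis_add_sq (α β : ℝ) : ‖cis α + cis β‖ ^ 2 = 2 + 2 * Real.cos (α - β) := by
  rw [← Complex.normSq_eq_norm_sq, Complex.normSq_apply, Complex.add_re, Complex.add_im, cis_re,
    cis_re, cis_im, cis_im, Real.cos_sub]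
  nlinarith [Real.sin_sq_add_cos_sq α, Real.sin_sq_add_cos_sq β]

theorem cos_two_pi_div_three : Real.cos (2 * Real.pi / 3) = -(1 / 2) := by
  have : 2 * Real.pi / 3 = Real.pi - Real.pi / 3 := by ring
  rw [this, Real.cos_pi_sub, Real.cos_pi_div_three]

/-- `c + cis φ`, seen from the neighbours on the unit circle -/
theorem next_eq (v : ℂ) (T : ℝ) :
    v + cis T = (v + cis (T + Real.pi / 3)) + cis (T - Real.pi / 3) := by
  have h1 := cis_add_pi_div_three T
  have h2 : cis (T + 2 * Real.pi / 3) = - cis (T - Real.pi / 3) := by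
    rw [← cis_add_pi]; congr 1; ring
  rw [h1, h2]; ring

theorem prev_eq (v : ℂ) (T : ℝ) :
    v + cis T = (v + cis (T - Real.pi / 3)) + cis (T + Real.pi / 3) := by
  have h1 := cis_add_pi_div_three (T - Real.pi / 3)
  have e1 : T - Real.pi / 3 + Real.pi / 3 = T := by ring
  have e2 : T - Real.pi / 3 + 2 * Real.pi / 3 = T + Real.pi / 3 := by ring
  rw [e1, e2] at h1
  rw [h1]; ring

theorem dist_add_cis (c : ℂ) (x : ℝ) : dist c (c + cis x) = 1 := by
  rw [dist_eq_norm, sub_add_cancel_left, norm_neg, norm_cis]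

/-- common part of the two local steps -/
theorem common (hNC : C.NearClosure) (hAlt : C.Alt) (hCR : C.CircReg) (v : ℂ) (T h₁ : ℝ)
    (h₁pos : 0 < h₁) :
    ∃ h s : ℝ, 0 < h ∧ h < h₁ ∧ h < 1 / 10 ∧ 0 < s ∧
      (∀ R ∈ C.regions, ∀ x : ℝ, (v + cis T) + s * cis x ∈ R → v + cis T ∈ closure R) ∧
      (∀ t₁ t₂ t₃ t₄ : ℝ, t₁ < t₂ → t₂ < t₃ → t₃ < t₄ → t₄ < t₁ + 2 * Real.pi →
        ∀ R₁ ∈ C.regions, ∀ R₂ ∈ C.regions, ∀ R₃ ∈ C.regions, ∀ R₄ ∈ C.regions,
        (v + cis T) + s * cis t₁ ∈ R₁ → (v + cis T) + s * cis t₂ ∈ R₂ →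
        (v + cis T) + s * cis t₃ ∈ R₃ → (v + cis T) + s * cis t₄ ∈ R₄ →
        R₁ ≠ R₂ → R₂ ≠ R₃ → R₃ ≠ R₄ → R₄ ≠ R₁ → False) ∧
      v + cis (T + h) = (v + cis T) + s * cis (T + Real.pi / 2 + h / 2) ∧
      v + cis (T - h) = (v + cis T) + s * cis (T + 3 * Real.pi / 2 - h / 2) ∧
      (v + cis (T + Real.pi / 3)) + cis (T - Real.pi / 3 + h) =
        (v + cis T) + s * cis (T + Real.pi / 6 + h / 2) ∧
      (v + cis (T + Real.pi / 3)) + cis (T - Real.pi / 3 - h) =
        (v + cis T) + s * cis (T + 7 * Real.pi / 6 - h / 2) ∧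
      (v + cis (T - Real.pi / 3)) + cis (T + Real.pi / 3 + h) =
        (v + cis T) + s * cis (T + 5 * Real.pi / 6 + h / 2) ∧
      (v + cis (T - Real.pi / 3)) + cis (T + Real.pi / 3 - h) =
        (v + cis T) + s * cis (T + 11 * Real.pi / 6 - h / 2) ∧
      (∃ R ∈ C.regions, (v + cis (T + Real.pi / 3)) + cis (T - Real.pi / 3 + h) ∈ R) ∧
      (∃ R ∈ C.regions, (v + cis (T + Real.pi / 3)) + cis (T - Real.pi / 3 - h) ∈ R) ∧
      (∃ R ∈ C.regions, (v + cis (T - Real.pi / 3)) + cis (T + Real.pi / 3 + h) ∈ R) ∧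
      (∃ R ∈ C.regions, (v + cis (T - Real.pi / 3)) + cis (T + Real.pi / 3 - h) ∈ R) := by
  obtain ⟨ε₁, hε₁, hA⟩ := hAlt (v + cis T)
  obtain ⟨ε₂, hε₂, hN⟩ := hNC (v + cis T)
  obtain ⟨k₁, hk₁, hR1⟩ := hCR (v + cis (T + Real.pi / 3)) (T - Real.pi / 3)
  obtain ⟨k₂, hk₂, hR2⟩ := hCR (v + cis (T - Real.pi / 3)) (T + Real.pi / 3)
  obtain ⟨h, h0, hlt⟩ : ∃ h : ℝ, 0 < h ∧ h < min (min (min h₁ (1 / 10)) (min ε₁ ε₂)) (min k₁ k₂) := by
    have hpos : 0 < min (min (min h₁ (1 / 10)) (min ε₁ ε₂)) (min k₁ k₂) :=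
      lt_min (lt_min (lt_min h₁pos (by norm_num)) (lt_min hε₁ hε₂)) (lt_min hk₁ hk₂)
    exact ⟨_, half_pos hpos, half_lt_self hpos⟩
  have l1 := lt_min_iff.1 hlt
  have l2 := lt_min_iff.1 l1.1
  have l3 := lt_min_iff.1 l2.1
  have l4 := lt_min_iff.1 l2.2
  have l5 := lt_min_iff.1 l1.2
  have hpi := Real.pi_gt_three
  have hs0 : 0 < 2 * Real.sin (h / 2) := by
    have := Real.sin_pos_of_pos_of_lt_pi (x := h / 2) (by linarith) (by linarith)
    linarith
  have hs1 : 2 * Real.sin (h / 2) ≤ h := by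
    have := Real.sin_le (x := h / 2) (by linarith)
    linarith
  refine ⟨h, 2 * Real.sin (h / 2), h0, l3.1, l3.2, hs0, ?_, ?_, chord_pos v T h, chord_neg v T h,
    ?_, ?_, ?_, ?_, ?_, ?_, ?_, ?_⟩
  · intro R hR x hx
    refine hN R hR ⟨_, hx, ?_⟩
    rw [Metric.mem_ball, dist_eq_norm, add_sub_cancel_left, norm_mul, norm_cis, mul_one,
      Complex.norm_real, Real.norm_eq_abs, abs_of_pos hs0]
    linarith
  · intro t₁ t₂ t₃ t₄ a1 a2 a3 a4 R₁ r1 R₂ r2 R₃ r3 R₄ r4
    exact hA _ hs0 (by linarith) t₁ t₂ t₃ t₄ a1 a2 a3 a4 R₁ r1 R₂ r2 R₃ r3 R₄ r4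
  · have := chord_pos (v + cis (T + Real.pi / 3)) (T - Real.pi / 3) h
    rw [← next_eq] at this
    rw [this]; congr 3; ring
  · have := chord_neg (v + cis (T + Real.pi / 3)) (T - Real.pi / 3) h
    rw [← next_eq] at this
    rw [this]; congr 3; ring
  · have := chord_pos (v + cis (T - Real.pi / 3)) (T + Real.pi / 3) h
    rw [← prev_eq] at this
    rw [this]; congr 3; ring
  · have := chord_neg (v + cis (T - Real.pi / 3)) (T + Real.pi / 3) h
    rw [← prev_eq] at this
    rw [this]; congr 3; ring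
  · exact hR1 h h0.ne' (by rw [abs_of_pos h0]; exact l5.1)
  · have := hR1 (-h) (neg_ne_zero.2 h0.ne')
      (by rw [abs_neg, abs_of_pos h0]; exact l5.1)
    rwa [← sub_eq_add_neg] at this
  · exact hR2 h h0.ne' (by rw [abs_of_pos h0]; exact l5.2)
  · have := hR2 (-h) (neg_ne_zero.2 h0.ne')
      (by rw [abs_neg, abs_of_pos h0]; exact l5.2)
    rwa [← sub_eq_add_neg] at this

/-- the local step, first case -/
theorem step1 (hNC : C.NearClosure) (hAlt : C.Alt) (hCR : C.CircReg) (v : ℂ) (T h₁ : ℝ)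
    (h₁pos : 0 < h₁) {A B : Set ℂ} (hA : A ∈ C.regions) (hB : B ∈ C.regions)
    (hAc : ∀ h : ℝ, 0 < h → h < h₁ → v + cis (T - h) ∈ A)
    (hBc : ∀ h : ℝ, 0 < h → h < h₁ → v + cis (T + h) ∈ B)
    (hAB : C.rc A ≠ C.rc B) (K : Set S) (hAK : C.rc A ∉ K) (hBK : C.rc B ∉ K)
    (H1 : ∀ R ∈ C.regions, ∀ y ∈ R, dist (v + cis (T + Real.pi / 3)) y = 1 →
      C.rc R ∈ K ∨ C.rc R = C.rc B)
    (H2 : ∀ R ∈ C.regions, ∀ y ∈ R, dist (v + cis (T - Real.pi / 3)) y = 1 →
      C.rc R ∈ K ∨ C.rc R = C.rc A) :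
    ∃ γ ∈ C.regions, v + cis T ∈ closure γ ∧ C.rc γ ∈ K ∧
      (∃ y ∈ γ, dist (v + cis (T + Real.pi / 3)) y = 1) ∧ ∃ y ∈ γ, dist y v < 1 := by
  obtain ⟨h, s, h0, h1, h2, s0, hN, hAl, c1, c2, c3, c4, c5, c6, r1, r2, r3, r4⟩ :=
    common C hNC hAlt hCR v T h₁ h₁pos
  have hpi := Real.pi_gt_three
  obtain ⟨W, hW, hWm⟩ := r2
  obtain ⟨U, hU, hUm⟩ := r3
  have mB := hBc h h0 h1
  have mA := hAc h h0 h1
  have cW := H1 W hW _ hWm (dist_add_cis _ _)
  have cU := H2 U hU _ hUm (dist_add_cis _ _)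
  have hUm' := hUm
  have hWm' := hWm
  rw [c1] at mB
  rw [c2] at mA
  rw [c4] at hWm'
  rw [c5] at hUm'
  have hUW : U = W := by
    by_contra hne
    refine hAl (T + Real.pi / 2 + h / 2) (T + 5 * Real.pi / 6 + h / 2)
      (T + 7 * Real.pi / 6 - h / 2) (T + 3 * Real.pi / 2 - h / 2) (by linarith) (by linarith)
      (by linarith) (by linarith) B hB U hU W hW A hA mB hUm' hWm' mA ?_ hne ?_ ?_
    · rintro rfl
      rcases cU with h | h
      · exact hBK h
      · exact hAB h.symm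
    · rintro rfl
      rcases cW with h | h
      · exact hAK h
      · exact hAB h
    · rintro rfl
      exact hAB rfl
  subst hUW
  refine ⟨U, hU, hN U hU _ hUm', ?_, ⟨_, hWm, dist_add_cis _ _⟩, ⟨_, hUm, ?_⟩⟩
  · rcases cU with h | h
    · exact h
    · rcases cW with h' | h'
      · exact h'
      · exact absurd (h.symm.trans h') hAB
  · rw [dist_eq_norm]
    have e : v + cis (T - Real.pi / 3) + cis (T + Real.pi / 3 + h) - v =
        cis (T + Real.pi / 3 + h) + cis (T - Real.pi / 3) := by ring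
    rw [e]
    have h3 := norm_cis_add_sq (T + Real.pi / 3 + h) (T - Real.pi / 3)
    have e2 : T + Real.pi / 3 + h - (T - Real.pi / 3) = 2 * Real.pi / 3 + h := by ring
    rw [e2] at h3
    have h4 : Real.cos (2 * Real.pi / 3 + h) < Real.cos (2 * Real.pi / 3) :=
      Real.cos_lt_cos_of_nonneg_of_le_pi (by linarith) (by linarith) (by linarith)
    rw [cos_two_pi_div_three] at h4
    nlinarith [norm_nonneg (cis (T + Real.pi / 3 + h) + cis (T - Real.pi / 3))]

/-- the local step, second case -/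
theorem step2 (hNC : C.NearClosure) (hAlt : C.Alt) (hCR : C.CircReg) (v : ℂ) (T h₁ : ℝ)
    (h₁pos : 0 < h₁) {A B : Set ℂ} (hA : A ∈ C.regions) (hB : B ∈ C.regions)
    (hAc : ∀ h : ℝ, 0 < h → h < h₁ → v + cis (T - h) ∈ A)
    (hBc : ∀ h : ℝ, 0 < h → h < h₁ → v + cis (T + h) ∈ B)
    (hAB : C.rc A ≠ C.rc B) (K : Set S) (hAK : C.rc A ∉ K) (hBK : C.rc B ∉ K)
    (H1 : ∀ R ∈ C.regions, ∀ y ∈ R, dist (v + cis (T + Real.pi / 3)) y = 1 →
      C.rc R ∈ K ∨ C.rc R = C.rc A)
    (H2 : ∀ R ∈ C.regions, ∀ y ∈ R, dist (v + cis (T - Real.pi / 3)) y = 1 →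
      C.rc R ∈ K ∨ C.rc R = C.rc B) :
    ∃ γ ∈ C.regions, v + cis T ∈ closure γ ∧ C.rc γ ∈ K ∧
      (∃ y ∈ γ, dist (v + cis (T + Real.pi / 3)) y = 1) ∧ ∃ y ∈ γ, 1 < dist y v := by
  obtain ⟨h, s, h0, h1, h2, s0, hN, hAl, c1, c2, c3, c4, c5, c6, r1, r2, r3, r4⟩ :=
    common C hNC hAlt hCR v T h₁ h₁pos
  have hpi := Real.pi_gt_three
  obtain ⟨U, hU, hUm⟩ := r1
  obtain ⟨W, hW, hWm⟩ := r4
  have mB := hBc h h0 h1
  have mA := hAc h h0 h1
  have cU := H1 U hU _ hUm (dist_add_cis _ _)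
  have cW := H2 W hW _ hWm (dist_add_cis _ _)
  have hUm' := hUm
  have hWm' := hWm
  rw [c1] at mB
  rw [c2] at mA
  rw [c3] at hUm'
  rw [c6] at hWm'
  have hUW : W = U := by
    by_contra hne
    refine hAl (T + Real.pi / 6 + h / 2) (T + Real.pi / 2 + h / 2)
      (T + 3 * Real.pi / 2 - h / 2) (T + 11 * Real.pi / 6 - h / 2) (by linarith) (by linarith)
      (by linarith) (by linarith) U hU B hB A hA W hW hUm' mB mA hWm' ?_ ?_ ?_ hne
    · rintro rfl
      rcases cU with h | h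
      · exact hBK h
      · exact hAB h.symm
    · rintro rfl
      exact hAB rfl
    · rintro rfl
      rcases cW with h | h
      · exact hAK h
      · exact hAB h
  subst hUW
  refine ⟨W, hW, hN W hW _ hUm', ?_, ⟨_, hUm, dist_add_cis _ _⟩, ⟨_, hUm, ?_⟩⟩
  · rcases cU with h | h
    · exact h
    · rcases cW with h' | h'
      · exact h'
      · exact absurd (h.symm.trans h') hAB
  · rw [dist_eq_norm]
    have e : v + cis (T + Real.pi / 3) + cis (T - Real.pi / 3 + h) - v =
        cis (T + Real.pi / 3) + cis (T - Real.pi / 3 + h) := by ring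
    rw [e]
    have h3 := norm_cis_add_sq (T + Real.pi / 3) (T - Real.pi / 3 + h)
    have e2 : T + Real.pi / 3 - (T - Real.pi / 3 + h) = 2 * Real.pi / 3 - h := by ring
    rw [e2] at h3
    have h4 : Real.cos (2 * Real.pi / 3) < Real.cos (2 * Real.pi / 3 - h) :=
      Real.cos_lt_cos_of_nonneg_of_le_pi (by linarith) (by linarith) (by linarith)
    rw [cos_two_pi_div_three] at h4
    nlinarith [norm_nonneg (cis (T + Real.pi / 3) + cis (T - Real.pi / 3 + h))]

/-- real part of `z * conj u`, as a polynomial -/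
theorem norm_sub_sq' (z u : ℂ) (hu : ‖u‖ = 1) :
    ‖u - z‖ ^ 2 = 1 + ‖z‖ ^ 2 - 2 * (z.re * u.re + z.im * u.im) := by
  have h1 : ‖u‖ ^ 2 = 1 := by rw [hu]; norm_num
  rw [← Complex.normSq_eq_norm_sq, Complex.normSq_apply] at h1 ⊢
  rw [← Complex.normSq_eq_norm_sq, Complex.normSq_apply]
  simp only [Complex.sub_re, Complex.sub_im]
  nlinarith

theorem sum_inner {m : ℕ} (u : Fin m → ℂ) (hsum : ∑ i, u i = 0) (z : ℂ) :
    ∑ i, (z.re * (u i).re + z.im * (u i).im) = 0 := by
  rw [Finset.sum_add_distrib, ← Finset.mul_sum, ← Finset.mul_sum]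
  have h1 : ∑ i, (u i).re = 0 := by rw [← Complex.re_sum, hsum]; rfl
  have h2 : ∑ i, (u i).im = 0 := by rw [← Complex.im_sum, hsum]; rfl
  rw [h1, h2]; ring

theorem exists_ne_of_region {G : Set ℂ} (hG : G ∈ C.regions) (v : ℂ) : ∃ x ∈ G, x ≠ v := by
  obtain ⟨x, hx⟩ := (C.region_connected G hG).nonempty
  obtain ⟨δ, hδ, hb⟩ := Metric.isOpen_iff.1 (C.region_open G hG) x hx
  by_cases h : x = v
  · refine ⟨x + ((δ / 2 : ℝ) : ℂ), hb ?_, ?_⟩
    · rw [Metric.mem_ball, dist_eq_norm, add_sub_cancel_left, Complex.norm_real, Real.norm_eq_abs,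
        abs_of_pos (half_pos hδ)]
      linarith
    · rw [h]
      intro h'
      have : ((δ / 2 : ℝ) : ℂ) = 0 := by
        have := congrArg (fun z => z - v) h'
        simpa using this
      rw [Complex.ofReal_eq_zero] at this
      linarith
  · exact ⟨x, hx, h⟩

theorem bal1 {v : ℂ} {G : Set ℂ} (hG : G ∈ C.regions) {m : ℕ} (hm : 0 < m) (u : Fin m → ℂ)
    (hu : ∀ i, ‖u i‖ = 1) (hsum : ∑ i, u i = 0) (H : ∀ i, ∀ x ∈ G, dist (v + u i) x ≤ 1) :
    False := by
  obtain ⟨x, hx, hxv⟩ := exists_ne_of_region C hG v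
  have h0 := sum_inner u hsum (x - v)
  have h1 : ∀ i, ‖x - v‖ ^ 2 ≤ 2 * ((x - v).re * (u i).re + (x - v).im * (u i).im) := by
    intro i
    have h2 := H i x hx
    rw [dist_eq_norm] at h2
    have h3 := norm_sub_sq' (x - v) (u i) (hu i)
    have e : u i - (x - v) = v + u i - x := by ring
    rw [e] at h3
    have h4 : ‖v + u i - x‖ ^ 2 ≤ 1 := by
      nlinarith [norm_nonneg (v + u i - x)]
    linarith
  have h2 : ∑ i : Fin m, ‖x - v‖ ^ 2 ≤
      ∑ i, 2 * ((x - v).re * (u i).re + (x - v).im * (u i).im) :=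
    Finset.sum_le_sum fun i _ => h1 i
  rw [← Finset.mul_sum, h0, mul_zero, Finset.sum_const, Finset.card_univ, Fintype.card_fin,
    nsmul_eq_mul] at h2
  have h3 : 0 < ‖x - v‖ := norm_pos_iff.2 (sub_ne_zero.2 hxv)
  have h4 : (0 : ℝ) < m := by exact_mod_cast hm
  have : 0 < (m : ℝ) * ‖x - v‖ ^ 2 := by positivity
  linarith

theorem bal2 (hRad : C.Radial) {v : ℂ} {G : Set ℂ} (hG : G ∈ C.regions) (hv : v ∈ closure G)
    {m : ℕ} (hm : 0 < m) (u : Fin m → ℂ)
    (hu : ∀ i, ‖u i‖ = 1) (hsum : ∑ i, u i = 0) (H : ∀ i, ∀ x ∈ G, 1 ≤ dist (v + u i) x) :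
    False := by
  obtain ⟨ε, hε, hR⟩ := hRad v
  -- inner products are nonpositive near `v`
  have key : ∀ z : ℂ, z ≠ 0 → ‖z‖ < ε → v + z ∈ G → ∀ i,
      z.re * (u i).re + z.im * (u i).im ≤ 0 := by
    intro z hz hzε hzG i
    obtain ⟨φ, hφ⟩ := exists_polar z
    have hz0 : 0 < ‖z‖ := norm_pos_iff.2 hz
    have hall : ∀ s : ℝ, 0 < s → s < ε → v + s * cis φ ∈ G := by
      intro s hs hs'
      refine hR φ ‖z‖ s hz0 hzε hs hs' G hG ?_
      rw [← hφ]; exact hzG
    by_contra hcon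
    push Not at hcon
    set c : ℝ := (cis φ).re * (u i).re + (cis φ).im * (u i).im with hc
    have hzc : z.re * (u i).re + z.im * (u i).im = ‖z‖ * c := by
      conv_lhs => rw [hφ]
      rw [Complex.re_ofReal_mul, Complex.im_ofReal_mul, hc]; ring
    have hcpos : 0 < c := by
      rw [hzc] at hcon
      exact (mul_pos_iff_of_pos_left hz0).1 hcon
    obtain ⟨s, hs0, hs⟩ : ∃ s : ℝ, 0 < s ∧ s < min ε c := by
      have : 0 < min ε c := lt_min hε hcpos
      exact ⟨_, half_pos this, half_lt_self this⟩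
    have h1 := lt_min_iff.1 hs
    have h2 := H i _ (hall s hs0 h1.1)
    rw [dist_eq_norm] at h2
    have h3 := norm_sub_sq' (s * cis φ) (u i) (hu i)
    have e : u i - s * cis φ = v + u i - (v + s * cis φ) := by ring
    rw [e, norm_mul, norm_cis, mul_one, Complex.norm_real, Real.norm_eq_abs, sq_abs,
      Complex.re_ofReal_mul, Complex.im_ofReal_mul] at h3
    have h4 : 1 ≤ ‖v + u i - (v + s * cis φ)‖ ^ 2 := by
      nlinarith [norm_nonneg (v + u i - (v + s * cis φ))]
    have h5 : 2 * (s * c) ≤ s ^ 2 := by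
      rw [hc]
      nlinarith
    have h6 : 2 * c ≤ s := by
      have : s * (2 * c) ≤ s * s := by nlinarith
      exact le_of_mul_le_mul_left this hs0
    linarith [h1.2]
  -- hence they vanish
  have key2 : ∀ z : ℂ, z ≠ 0 → ‖z‖ < ε → v + z ∈ G → ∀ i,
      z.re * (u i).re + z.im * (u i).im = 0 := by
    intro z hz hzε hzG i
    have h0 := sum_inner u hsum z
    have h1 := (Finset.sum_eq_zero_iff_of_nonpos
      (fun i _ => key z hz hzε hzG i)).1 h0
    exact h1 i (Finset.mem_univ i)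
  -- a point near `v`
  obtain ⟨x, hxG, hx⟩ : ∃ x ∈ G, dist x v < ε / 2 := by
    obtain ⟨x, hx, hx'⟩ := Metric.mem_closure_iff.1 hv (ε / 2) (half_pos hε)
    exact ⟨x, hx, by rw [dist_comm]; exact hx'⟩
  obtain ⟨δ, hδ, hb⟩ := Metric.isOpen_iff.1 (C.region_open G hG) x hxG
  have hgood : ∀ y : ℂ, dist y x < min δ (ε / 2) → y ≠ v → ∀ i,
      (y - v).re * (u i).re + (y - v).im * (u i).im = 0 := by
    intro y hy hyv i
    have h1 := lt_min_iff.1 hy
    refine key2 (y - v) (sub_ne_zero.2 hyv) ?_ ?_ i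
    · rw [← dist_eq_norm]
      linarith [dist_triangle y x v]
    · have : v + (y - v) = y := by ring
      rw [this]
      exact hb (Metric.mem_ball.2 h1.1)
  set r := min δ (ε / 2) with hr
  have hr0 : 0 < r := lt_min hδ (half_pos hε)
  set i0 : Fin m := ⟨0, hm⟩
  have hu0 : (u i0).re * (u i0).re + (u i0).im * (u i0).im = 1 := by
    have := hu i0
    rw [← Complex.normSq_apply, Complex.normSq_eq_norm_sq, this]; norm_num
  -- three points on a line in direction `u i0`
  have hpt : ∀ t : ℝ, |t| < r → x + t * u i0 ≠ v →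
      (x - v).re * (u i0).re + (x - v).im * (u i0).im + t = 0 := by
    intro t ht hne
    have h1 := hgood (x + t * u i0) (by
      rw [dist_eq_norm, add_sub_cancel_left, norm_mul, hu i0, mul_one, Complex.norm_real]
      exact ht) hne i0
    have e1 : (x + t * u i0 - v).re = (x - v).re + t * (u i0).re := by
      simp only [Complex.sub_re, Complex.add_re, Complex.re_ofReal_mul]; ring
    have e2 : (x + t * u i0 - v).im = (x - v).im + t * (u i0).im := by
      simp only [Complex.sub_im, Complex.add_im, Complex.im_ofReal_mul]; ring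
    rw [e1, e2] at h1
    linear_combination h1 - t * hu0
  have hu0ne : u i0 ≠ 0 := by
    intro h
    have := hu i0
    rw [h, norm_zero] at this
    exact zero_ne_one this
  have hinj : ∀ t t' : ℝ, x + t * u i0 = v → x + t' * u i0 = v → t = t' := by
    intro t t' h h'
    have h1 : (t : ℂ) * u i0 = t' * u i0 := by
      have := h.trans h'.symm
      exact add_left_cancel this
    have h2 := mul_right_cancel₀ hu0ne h1
    exact_mod_cast h2
  by_cases ha : x + ((r / 2 : ℝ) : ℂ) * u i0 = v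
  · have hb' : x + ((r / 3 : ℝ) : ℂ) * u i0 ≠ v := fun h => by
      have := hinj _ _ ha h; linarith
    have hc' : x + ((r / 4 : ℝ) : ℂ) * u i0 ≠ v := fun h => by
      have := hinj _ _ ha h; linarith
    have h1 := hpt (r / 3) (by rw [abs_of_pos (by linarith)]; linarith) hb'
    have h2 := hpt (r / 4) (by rw [abs_of_pos (by linarith)]; linarith) hc'
    linarith
  · by_cases hb' : x + ((r / 3 : ℝ) : ℂ) * u i0 = v
    · have hc' : x + ((r / 4 : ℝ) : ℂ) * u i0 ≠ v := fun h => by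
        have := hinj _ _ hb' h; linarith
      have h1 := hpt (r / 2) (by rw [abs_of_pos (by linarith)]; linarith) ha
      have h2 := hpt (r / 4) (by rw [abs_of_pos (by linarith)]; linarith) hc'
      linarith
    · have h1 := hpt (r / 2) (by rw [abs_of_pos (by linarith)]; linarith) ha
      have h2 := hpt (r / 3) (by rw [abs_of_pos (by linarith)]; linarith) hb'
      linarith

theorem limit_le {X : Set ℂ} {p y : ℂ} (hp : p ∈ closure X) (H : ∀ x ∈ X, dist x y < 1) :
    dist p y ≤ 1 := by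
  have hc : IsClosed {x : ℂ | dist x y ≤ 1} := isClosed_le (by fun_prop) continuous_const
  exact closure_minimal (fun x hx => (H x hx).le) hc hp

theorem limit_ge {X : Set ℂ} {p y : ℂ} (hp : p ∈ closure X) (H : ∀ x ∈ X, 1 < dist x y) :
    1 ≤ dist p y := by
  have hc : IsClosed {x : ℂ | 1 ≤ dist x y} := isClosed_le continuous_const (by fun_prop)
  exact closure_minimal (fun x hx => (H x hx).le) hc hp

/-- the two cases of balanced directions -/
theorem sum_two (T : ℝ) : cis T + cis (T + 3 * (Real.pi / 3)) = 0 := by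
  have : T + 3 * (Real.pi / 3) = T + Real.pi := by ring
  rw [this, cis_add_pi]; ring

theorem sum_three (T : ℝ) :
    cis T + cis (T + 2 * (Real.pi / 3)) + cis (T + 4 * (Real.pi / 3)) = 0 := by
  have h1 := cis_add_pi_div_three T
  have e1 : T + 2 * (Real.pi / 3) = T + 2 * Real.pi / 3 := by ring
  have e2 : T + 4 * (Real.pi / 3) = (T + Real.pi / 3) + Real.pi := by ring
  rw [e1, e2, cis_add_pi, h1]; ring

/-- combinatorial end -/
theorem comb {K : Set S} (hK : K.ncard = 3) (g : ℕ → S) (hg : ∀ k, k < 6 → g k ∈ K)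
    (h01 : g 0 ≠ g 1) (h12 : g 1 ≠ g 2) (h23 : g 2 ≠ g 3) (h34 : g 3 ≠ g 4) (h45 : g 4 ≠ g 5)
    (h50 : g 5 ≠ g 0) (h03 : g 0 ≠ g 3) (h14 : g 1 ≠ g 4) (h25 : g 2 ≠ g 5)
    (hE : ¬ (g 0 = g 2 ∧ g 0 = g 4)) (hO : ¬ (g 1 = g 3 ∧ g 1 = g 5)) : False := by
  classical
  have hfin : K.Finite := Set.finite_of_ncard_ne_zero (by rw [hK]; norm_num)
  have hcard : hfin.toFinset.card = 3 := by
    rw [← Set.ncard_eq_toFinset_card K hfin]; exact hK
  have hmem : ∀ k, k < 6 → g k ∈ hfin.toFinset := fun k hk => hfin.mem_toFinset.2 (hg k hk)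
  have hsub : ({g 0, g 2, g 4} : Finset S) ∪ {g 1, g 3, g 5} ⊆ hfin.toFinset := by
    intro x hx
    simp only [Finset.mem_union, Finset.mem_insert, Finset.mem_singleton] at hx
    rcases hx with (rfl | rfl | rfl) | (rfl | rfl | rfl)
    · exact hmem 0 (by norm_num)
    · exact hmem 2 (by norm_num)
    · exact hmem 4 (by norm_num)
    · exact hmem 1 (by norm_num)
    · exact hmem 3 (by norm_num)
    · exact hmem 5 (by norm_num)
  have hdisj : Disjoint ({g 0, g 2, g 4} : Finset S) {g 1, g 3, g 5} := by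
    rw [Finset.disjoint_left]
    intro x hx hx'
    simp only [Finset.mem_insert, Finset.mem_singleton] at hx hx'
    rcases hx with rfl | rfl | rfl <;> rcases hx' with h | h | h
    · exact h01 h
    · exact h03 h
    · exact h50 h.symm
    · exact h12 h.symm
    · exact h23 h
    · exact h25 h
    · exact h14 h.symm
    · exact h34 h.symm
    · exact h45 h
  have h2 : 2 ≤ ({g 0, g 2, g 4} : Finset S).card := by
    by_cases h : g 0 = g 2
    · have h4 : g 0 ≠ g 4 := fun h4 => hE ⟨h, h4⟩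
      calc 2 = ({g 0, g 4} : Finset S).card := (Finset.card_pair h4).symm
        _ ≤ _ := Finset.card_le_card (by intro x hx; simp at hx ⊢; tauto)
    · calc 2 = ({g 0, g 2} : Finset S).card := (Finset.card_pair h).symm
        _ ≤ _ := Finset.card_le_card (by intro x hx; simp at hx ⊢; tauto)
  have h3 : 2 ≤ ({g 1, g 3, g 5} : Finset S).card := by
    by_cases h : g 1 = g 3
    · have h4 : g 1 ≠ g 5 := fun h4 => hO ⟨h, h4⟩
      calc 2 = ({g 1, g 5} : Finset S).card := (Finset.card_pair h4).symm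
        _ ≤ _ := Finset.card_le_card (by intro x hx; simp at hx ⊢; tauto)
    · calc 2 = ({g 1, g 3} : Finset S).card := (Finset.card_pair h).symm
        _ ≤ _ := Finset.card_le_card (by intro x hx; simp at hx ⊢; tauto)
  have h4 := Finset.card_le_card hsub
  rw [Finset.card_union_of_disjoint hdisj, hcard] at h4
  omega

end ConstDAux

open ConstDAux

theorem const_false (C : PolygonColoring (Fin 6)) (hAlt : C.Alt) (hRad : C.Radial)
    (hNC : C.NearClosure) (hCR : C.CircReg)
    {v : ℂ} (hv : (C.cols v).ncard = 3)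
    {n : ℕ} {θ : ℤ → ℝ} {Y : ℤ → Set ℂ} (hw : C.CircleWord v n θ Y)
    (ψ : ZMod 3 → Fin 6) (hψ : Function.Injective ψ) (hr : C.cols v = (Set.range ψ)ᶜ)
    (F : ℤ → ZMod 3) (hF : ∀ j, C.rc (Y j) = ψ (F j)) (δ : ZMod 3)
    (hδ : ∀ j, F (j + n) = F j + δ) : False := by
  classical
  -- `δ ≠ 0`
  have hδ0 : δ ≠ 0 := by
    intro h
    have h1 := C.cw_ne hw 0
    rw [hF, hF, hδ 0, h, add_zero] at h1
    exact h1 rfl
  -- shifts
  have hθk : ∀ (k : ℤ) (j : ℤ), θ (j + k * n) = θ j + k * (Real.pi / 3) := by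
    intro k
    induction k using Int.induction_on with
    | zero => intro j; simp
    | succ i ih =>
      intro j
      have e : j + ((i : ℤ) + 1) * n = (j + i * n) + n := by ring
      rw [e, hw.shift, ih j]; push_cast; ring
    | pred i ih =>
      intro j
      have e : j + (-(i : ℤ)) * n = (j + (-(i : ℤ) - 1) * n) + n := by ring
      have h1 := ih j
      rw [e, hw.shift] at h1
      push_cast at h1 ⊢
      linarith
  have hFk : ∀ (k : ℤ) (j : ℤ), F (j + k * n) = F j + k * δ := by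
    intro k
    induction k using Int.induction_on with
    | zero => intro j; simp
    | succ i ih =>
      intro j
      have e : j + ((i : ℤ) + 1) * n = (j + i * n) + n := by ring
      rw [e, hδ, ih j]; push_cast; ring
    | pred i ih =>
      intro j
      have e : j + (-(i : ℤ)) * n = (j + (-(i : ℤ) - 1) * n) + n := by ring
      have h1 := ih j
      rw [e, hδ] at h1
      have h2 : F (j + (-(i : ℤ) - 1) * n) = F j + ((-(i : ℤ) : ℤ) : ZMod 3) * δ - δ := by
        rw [← h1]; ring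
      rw [h2]; push_cast; ring
  -- `F` is not constant
  obtain ⟨j₀, hj₀⟩ : ∃ j, F j ≠ F (j + 1) := by
    by_contra hcon
    push Not at hcon
    have h1 : ∀ m : ℕ, F m = F 0 := by
      intro m
      induction m with
      | zero => simp
      | succ m ih => push_cast; rw [← hcon, ih]
    have h2 := hδ 0
    rw [zero_add, h1 n] at h2
    exact hδ0 (by simpa using h2.symm)
  set a := F j₀ with ha
  set b := F (j₀ + 1) with hb
  set Θ : ℤ → ℝ := fun k => θ (j₀ + 1) + k * (Real.pi / 3) with hΘ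
  set p : ℤ → ℂ := fun k => v + cis (Θ k) with hp
  set Am : ℤ → Set ℂ := fun k => Y (j₀ + k * n) with hAm
  set Bm : ℤ → Set ℂ := fun k => Y (j₀ + 1 + k * n) with hBm
  have hΘs : ∀ k, Θ (k + 1) = Θ k + Real.pi / 3 := by
    intro k; simp only [hΘ]; push_cast; ring
  have hΘp : ∀ k, Θ (k - 1) = Θ k - Real.pi / 3 := by
    intro k; simp only [hΘ]; push_cast; ring
  have rA : ∀ k, C.rc (Am k) = ψ (a + k * δ) := by
    intro k; simp only [hAm]; rw [hF, hFk]
  have rB : ∀ k, C.rc (Bm k) = ψ (b + k * δ) := by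
    intro k; simp only [hBm]; rw [hF, hFk]
  have mA : ∀ k, Am k ∈ C.regions := fun k => hw.reg _
  have mB : ∀ k, Bm k ∈ C.regions := fun k => hw.reg _
  set h₁ := min (θ (j₀ + 1) - θ j₀) (θ (j₀ + 1 + 1) - θ (j₀ + 1)) with hh₁
  have h₁pos : 0 < h₁ := by
    apply lt_min
    · have := hw.mono (show j₀ < j₀ + 1 by omega); linarith
    · have := hw.mono (show j₀ + 1 < j₀ + 1 + 1 by omega); linarith
  have hAc : ∀ k, ∀ h : ℝ, 0 < h → h < h₁ → v + cis (Θ k - h) ∈ Am k := by
    intro k h h0 h1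
    have l1 := lt_min_iff.1 h1
    apply hw.arc
    · rw [hθk k j₀]; simp only [hΘ]; linarith
    · have e : j₀ + k * (n : ℤ) + 1 = j₀ + 1 + k * n := by ring
      rw [e, hθk k (j₀ + 1)]; simp only [hΘ]; linarith
  have hBc : ∀ k, ∀ h : ℝ, 0 < h → h < h₁ → v + cis (Θ k + h) ∈ Bm k := by
    intro k h h0 h1
    have l1 := lt_min_iff.1 h1
    apply hw.arc
    · rw [hθk k (j₀ + 1)]; simp only [hΘ]; linarith
    · have e : j₀ + 1 + k * (n : ℤ) + 1 = j₀ + 1 + 1 + k * n := by ring
      rw [e, hθk k (j₀ + 1 + 1)]; simp only [hΘ]; linarith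
  -- `p k` is in both closures
  have hcl : ∀ (k : ℤ) (R : Set ℂ) (σ : ℝ), (σ = 1 ∨ σ = -1) →
      (∀ h : ℝ, 0 < h → h < h₁ → v + cis (Θ k + σ * h) ∈ R) → p k ∈ closure R := by
    intro k R σ hσ H
    rw [Metric.mem_closure_iff]
    intro ε hε
    have hcont : Continuous fun h : ℝ => v + cis (Θ k + σ * h) :=
      continuous_const.add (continuous_cis.comp (by fun_prop))
    obtain ⟨η, hη, hη'⟩ := Metric.continuous_iff.1 hcont 0 ε hε
    set h := min (η / 2) (h₁ / 2) with hh
    have h0 : 0 < h := lt_min (by linarith) (by linarith)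
    have h1 : h < h₁ := lt_of_le_of_lt (min_le_right _ _) (by linarith)
    refine ⟨_, H h h0 h1, ?_⟩
    have h2 := hη' h (by
      rw [Real.dist_eq, sub_zero, abs_of_pos h0]
      exact lt_of_le_of_lt (min_le_left _ _) (by linarith))
    simp only [mul_zero, add_zero] at h2
    rw [dist_comm]
    exact h2
  have clA : ∀ k, p k ∈ closure (Am k) := fun k => hcl k _ (-1) (Or.inr rfl) (fun h h0 h1 => by
    have := hAc k h h0 h1
    rwa [show Θ k + -1 * h = Θ k - h by ring])
  have clB : ∀ k, p k ∈ closure (Bm k) := fun k => hcl k _ 1 (Or.inl rfl) (fun h h0 h1 => by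
    have := hBc k h h0 h1
    rwa [show Θ k + 1 * h = Θ k + h by ring])
  -- colours on the circle around `p k`
  have hcirc : ∀ k : ℤ, ∀ R ∈ C.regions, ∀ y ∈ R, dist (p k) y = 1 →
      C.rc R ≠ ψ (a + k * δ) ∧ C.rc R ≠ ψ (b + k * δ) := by
    intro k R hR y hy hd
    constructor
    · intro h
      exact C.dist_ne_one (mA k) hR ((rA k).trans h.symm) (clA k) hy hd
    · intro h
      exact C.dist_ne_one (mB k) hR ((rB k).trans h.symm) (clB k) hy hd
  have hnotK : ∀ x, ψ x ∉ C.cols v := by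
    intro x; rw [hr]; exact fun h => h (Set.mem_range_self x)
  have hthird : ∀ (k : ℤ) (c : Fin 6), c ≠ ψ (a + k * δ) → c ≠ ψ (b + k * δ) →
      c ∈ C.cols v ∨ c = ψ (-(a + b) + k * δ) := by
    intro k c h1 h2
    by_cases hc : c ∈ Set.range ψ
    · right
      obtain ⟨x, rfl⟩ := hc
      have h1' : x ≠ a + k * δ := fun h => h1 (by rw [h])
      have h2' : x ≠ b + k * δ := fun h => h2 (by rw [h])
      congr 1
      have : ∀ (a b x y : ZMod 3), a ≠ b → x ≠ a + y → x ≠ b + y → x = -(a + b) + y := by decide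
      exact this a b x (k * δ) hj₀ h1' h2'
    · left
      rw [hr]; exact hc
  have hab : ∀ k : ℤ, C.rc (Am k) ≠ C.rc (Bm k) := by
    intro k
    rw [rA, rB]
    intro h
    exact hj₀ (add_right_cancel (hψ h))
  -- the regions at `v`
  have hGex : ∀ i ∈ C.cols v, ∃ G ∈ C.regions, v ∈ closure G ∧ C.rc G = i := fun i hi => hi
  choose! G hG1 hG2 hG3 using hGex
  -- the balanced configurations
  have p_eq : ∀ k : ℤ, p k = v + cis (Θ k) := fun _ => rfl
  have hΘadd : ∀ (k : ℤ) (m : ℕ), Θ (k + m) = Θ k + m * (Real.pi / 3) := by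
    intro k m; simp only [hΘ]; push_cast; ring
  -- main end
  have main : ∀ (γ : ℤ → Set ℂ), (∀ k, γ k ∈ C.regions) → (∀ k, p k ∈ closure (γ k)) →
      (∀ k, C.rc (γ k) ∈ C.cols v) → (∀ k, ∃ y ∈ γ k, dist (p (k + 1)) y = 1) →
      ((∀ k, ∀ x ∈ G (C.rc (γ k)), dist (p k) x ≤ 1) ∨
        (∀ k, ∀ x ∈ G (C.rc (γ k)), 1 ≤ dist (p k) x)) → False := by
    intro γ g1 g2 g3 g4 g5
    have hadj : ∀ k, C.rc (γ k) ≠ C.rc (γ (k + 1)) := by
      intro k h
      obtain ⟨y, hy, hd⟩ := g4 k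
      exact C.dist_ne_one (g1 (k + 1)) (g1 k) h.symm (g2 (k + 1)) hy hd
    have hp6 : p 6 = p 0 := by
      simp only [hp, hΘ]
      congr 1
      rw [← cis_add_two_pi (θ (j₀ + 1) + ((0 : ℤ) : ℝ) * (Real.pi / 3))]
      congr 1; push_cast; ring
    have hbal : ∀ (m : ℕ), 0 < m → ∀ (ks : Fin m → ℤ) (i : Fin 6), i ∈ C.cols v →
        (∀ t, C.rc (γ (ks t)) = i) → ∑ t, cis (Θ (ks t)) = 0 → False := by
      intro m hm ks i hi hks hsum
      rcases g5 with g5 | g5
      · refine bal1 C (v := v) (hG1 i hi) hm (fun t => cis (Θ (ks t))) (fun t => norm_cis _) hsum ?_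
        intro t x hx
        refine g5 (ks t) x ?_
        rw [hks t]; exact hx
      · refine bal2 C hRad (v := v) (hG1 i hi) (hG2 i hi) hm (fun t => cis (Θ (ks t)))
          (fun t => norm_cis _) hsum ?_
        intro t x hx
        refine g5 (ks t) x ?_
        rw [hks t]; exact hx
    have hthree : ∀ k : ℤ, C.rc (γ k) ≠ C.rc (γ (k + 3)) := by
      intro k h
      refine hbal 2 (by norm_num) ![k, k + 3] (C.rc (γ k)) (g3 k) ?_ ?_
      · intro t; fin_cases t
        · rfl
        · exact h.symm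
      · rw [Fin.sum_univ_two]
        have := hΘadd k 3
        have e : Θ (k + 3) = Θ k + 3 * (Real.pi / 3) := by
          have := hΘadd k 3
          push_cast at this; exact this
        simp only [Matrix.cons_val_zero, Matrix.cons_val_one]
        rw [e]
        exact sum_two _
    have htwo : ∀ k : ℤ, ¬ (C.rc (γ k) = C.rc (γ (k + 2)) ∧ C.rc (γ k) = C.rc (γ (k + 4))) := by
      rintro k ⟨h, h'⟩
      refine hbal 3 (by norm_num) ![k, k + 2, k + 4] (C.rc (γ k)) (g3 k) ?_ ?_
      · intro t; fin_cases t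
        · rfl
        · exact h.symm
        · exact h'.symm
      · rw [Fin.sum_univ_three]
        have e : Θ (k + 2) = Θ k + 2 * (Real.pi / 3) := by
          have := hΘadd k 2
          push_cast at this; exact this
        have e' : Θ (k + 4) = Θ k + 4 * (Real.pi / 3) := by
          have := hΘadd k 4
          push_cast at this; exact this
        simp only [Matrix.cons_val_zero, Matrix.cons_val_one, Matrix.cons_val_two,
          Matrix.tail_cons, Matrix.head_cons, Matrix.cons_val]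
        rw [e, e']
        exact sum_three _
    refine comb (K := C.cols v) hv (fun k => C.rc (γ k)) (fun k _ => g3 k) ?_ ?_ ?_ ?_ ?_ ?_
      ?_ ?_ ?_ ?_ ?_
    · exact hadj 0
    · exact hadj 1
    · exact hadj 2
    · exact hadj 3
    · exact hadj 4
    · intro h
      obtain ⟨y, hy, hd⟩ := g4 5
      have e : (5 : ℤ) + 1 = 6 := by norm_num
      rw [e, hp6] at hd
      exact C.dist_ne_one (g1 0) (g1 5) h.symm (g2 0) hy hd
    · exact hthree 0
    · exact hthree 1
    · exact hthree 2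
    · exact htwo 0
    · exact htwo 1
  -- the two cases
  have hdec : ∀ (a b d : ZMod 3), a ≠ b → d ≠ 0 →
      (-(a + b) + d = b ∧ -(a + b) - d = a) ∨ (-(a + b) + d = a ∧ -(a + b) - d = b) := by decide
  rcases hdec a b δ hj₀ hδ0 with ⟨e1, e2⟩ | ⟨e1, e2⟩
  · have hex : ∀ k : ℤ, ∃ γ ∈ C.regions, p k ∈ closure γ ∧ C.rc γ ∈ C.cols v ∧
        (∃ y ∈ γ, dist (p (k + 1)) y = 1) ∧ ∃ y ∈ γ, dist y v < 1 := by
      intro k
      have h := step1 C hNC hAlt hCR v (Θ k) h₁ h₁pos (mA k) (mB k) (hAc k) (hBc k) (hab k)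
        (C.cols v) (by rw [rA]; exact hnotK _) (by rw [rB]; exact hnotK _)
        (by
          intro R hR y hy hd
          rw [← hΘs] at hd
          have h1 := hcirc (k + 1) R hR y hy hd
          have h2 := hthird (k + 1) _ h1.1 h1.2
          rw [rB]
          have e : -(a + b) + ((k + 1 : ℤ) : ZMod 3) * δ = b + k * δ := by
            push_cast; linear_combination e1
          rwa [e] at h2)
        (by
          intro R hR y hy hd
          rw [← hΘp] at hd
          have h1 := hcirc (k - 1) R hR y hy hd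
          have h2 := hthird (k - 1) _ h1.1 h1.2
          rw [rA]
          have e : -(a + b) + ((k - 1 : ℤ) : ZMod 3) * δ = a + k * δ := by
            push_cast; linear_combination e2
          rwa [e] at h2)
      rw [← hΘs] at h
      exact h
    choose γ g1 g2 g3 g4 g5 using hex
    refine main γ g1 g2 g3 g4 (Or.inl ?_)
    intro k x hx
    have hnear : near (γ k) (G (C.rc (γ k))) := by
      obtain ⟨y, hy, hd⟩ := g5 k
      obtain ⟨z, hz, hz'⟩ := Metric.mem_closure_iff.1 (hG2 _ (g3 k)) (1 - dist y v) (by linarith)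
      exact ⟨y, hy, z, hz, by linarith [dist_triangle y v z]⟩
    have h1 := C.near_lt (g1 k) (hG1 _ (g3 k)) (hG3 _ (g3 k)).symm hnear
    exact limit_le (g2 k) (fun z hz => h1 z hz x hx)
  · have hex : ∀ k : ℤ, ∃ γ ∈ C.regions, p k ∈ closure γ ∧ C.rc γ ∈ C.cols v ∧
        (∃ y ∈ γ, dist (p (k + 1)) y = 1) ∧ ∃ y ∈ γ, 1 < dist y v := by
      intro k
      have h := step2 C hNC hAlt hCR v (Θ k) h₁ h₁pos (mA k) (mB k) (hAc k) (hBc k) (hab k)
        (C.cols v) (by rw [rA]; exact hnotK _) (by rw [rB]; exact hnotK _)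
        (by
          intro R hR y hy hd
          rw [← hΘs] at hd
          have h1 := hcirc (k + 1) R hR y hy hd
          have h2 := hthird (k + 1) _ h1.1 h1.2
          rw [rA]
          have e : -(a + b) + ((k + 1 : ℤ) : ZMod 3) * δ = a + k * δ := by
            push_cast; linear_combination e1
          rwa [e] at h2)
        (by
          intro R hR y hy hd
          rw [← hΘp] at hd
          have h1 := hcirc (k - 1) R hR y hy hd
          have h2 := hthird (k - 1) _ h1.1 h1.2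
          rw [rB]
          have e : -(a + b) + ((k - 1 : ℤ) : ZMod 3) * δ = b + k * δ := by
            push_cast; linear_combination e2
          rwa [e] at h2)
      rw [← hΘs] at h
      exact h
    choose γ g1 g2 g3 g4 g5 using hex
    refine main γ g1 g2 g3 g4 (Or.inr ?_)
    intro k x hx
    have hfar : ¬ near (γ k) (G (C.rc (γ k))) := by
      intro hnear
      have h1 := C.near_lt (g1 k) (hG1 _ (g3 k)) (hG3 _ (g3 k)).symm hnear
      obtain ⟨y, hy, hd⟩ := g5 k
      have h2 := limit_le (hG2 _ (g3 k)) (fun z hz => by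
        rw [dist_comm]; exact h1 y hy z hz)
      rw [dist_comm] at h2
      linarith
    have h1 := C.far_gt (g1 k) (hG1 _ (g3 k)) (hG3 _ (g3 k)).symm hfar
    exact limit_ge (g2 k) (fun z hz => h1 z hz x hx)

end PolygonColoring
end PolyCol
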