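import Mathlib

/-!
# Module 15: the algebraic core (pure combinatorics)
-/

namespace PolyCol
namespace CoreProof

open Finset

/-- the triples of colours -/
def TT : Finset (Finset (Fin 6)) := powersetCard 3 univ

theorem mem_TT {t : Finset (Fin 6)} : t ∈ TT ↔ t.card = 3 := by
  simp [TT, mem_powersetCard]

theorem compl_mem_TT {t : Finset (Fin 6)} (h : t ∈ TT) : tᶜ ∈ TT := by
  rw [mem_TT] at h ⊢
  rw [card_compl, h]
  rfl

/-- explicit form of the cycle condition -/
theorem cycle_explicit (z : Finset (Fin 6) → ZMod 2)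
    (hz : ∀ α β, α ≠ β → ∑ t ∈ TT.filter (fun t => α ∈ t ∧ β ∈ t), z t = 0)
    (α β : Fin 6) (hαβ : α ≠ β) :
    ∑ γ ∈ ({α, β} : Finset (Fin 6))ᶜ, z {α, β, γ} = 0 := by
  rw [← hz α β hαβ]
  have hinj : Set.InjOn (fun γ : Fin 6 => ({α, β, γ} : Finset (Fin 6)))
      (({α, β} : Finset (Fin 6))ᶜ : Finset (Fin 6)) := by
    intro γ hγ γ' hγ' h
    simp only [coe_compl, coe_insert, coe_singleton, Set.mem_compl_iff, Set.mem_insert_iff,
      Set.mem_singleton_iff, not_or] at hγ hγ'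
    have h1 : γ ∈ ({α, β, γ'} : Finset (Fin 6)) := by
      rw [← show ({α, β, γ} : Finset (Fin 6)) = {α, β, γ'} from h]
      simp
    simp only [mem_insert, mem_singleton] at h1
    rcases h1 with h1 | h1 | h1
    · exact absurd h1 hγ.1
    · exact absurd h1 hγ.2
    · exact h1
  rw [← sum_image (f := z) (g := fun γ : Fin 6 => ({α, β, γ} : Finset (Fin 6))) hinj]
  apply sum_congr ?_ (fun _ _ => rfl)
  ext t
  simp only [mem_image, mem_compl, mem_insert, mem_singleton, not_or, mem_filter, mem_TT]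
  constructor
  · rintro ⟨γ, ⟨h1, h2⟩, rfl⟩
    refine ⟨?_, by simp, by simp⟩
    rw [card_insert_of_notMem, card_insert_of_notMem, card_singleton]
    · simp [Ne.symm h2]
    · simp [hαβ, Ne.symm h1]
  · rintro ⟨h1, h2, h3⟩
    have h4 : ((t.erase α).erase β).card = 1 := by
      rw [card_erase_of_mem (mem_erase.2 ⟨hαβ.symm, h3⟩), card_erase_of_mem h2, h1]
    obtain ⟨γ, hγ⟩ := card_eq_one.1 h4
    have h5 : γ ∈ (t.erase α).erase β := by rw [hγ]; simp
    simp only [mem_erase] at h5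
    refine ⟨γ, ⟨h5.2.1, h5.1⟩, ?_⟩
    rw [← insert_erase h2, ← insert_erase (mem_erase.2 ⟨hαβ.symm, h3⟩), hγ]

/-- the number of complementary pairs in a cycle is even -/
theorem even_compl_pairs (z : Finset (Fin 6) → ZMod 2)
    (hz : ∀ α β, α ≠ β → ∑ t ∈ TT.filter (fun t => α ∈ t ∧ β ∈ t), z t = 0) :
    ∑ t ∈ TT.filter (fun t => (0 : Fin 6) ∈ t), z t * z tᶜ = 0 := by
  have e12 := cycle_explicit z hz 1 2 (by decide)
  have e13 := cycle_explicit z hz 1 3 (by decide)
  have e14 := cycle_explicit z hz 1 4 (by decide)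
  have e15 := cycle_explicit z hz 1 5 (by decide)
  have e23 := cycle_explicit z hz 2 3 (by decide)
  have e24 := cycle_explicit z hz 2 4 (by decide)
  have e25 := cycle_explicit z hz 2 5 (by decide)
  have e34 := cycle_explicit z hz 3 4 (by decide)
  have e35 := cycle_explicit z hz 3 5 (by decide)
  have e45 := cycle_explicit z hz 4 5 (by decide)
  rw [show ({1, 2} : Finset (Fin 6))ᶜ = {0, 3, 4, 5} by decide] at e12
  rw [show ({1, 3} : Finset (Fin 6))ᶜ = {0, 2, 4, 5} by decide] at e13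
  rw [show ({1, 4} : Finset (Fin 6))ᶜ = {0, 2, 3, 5} by decide] at e14
  rw [show ({1, 5} : Finset (Fin 6))ᶜ = {0, 2, 3, 4} by decide] at e15
  rw [show ({2, 3} : Finset (Fin 6))ᶜ = {0, 1, 4, 5} by decide] at e23
  rw [show ({2, 4} : Finset (Fin 6))ᶜ = {0, 1, 3, 5} by decide] at e24
  rw [show ({2, 5} : Finset (Fin 6))ᶜ = {0, 1, 3, 4} by decide] at e25
  rw [show ({3, 4} : Finset (Fin 6))ᶜ = {0, 1, 2, 5} by decide] at e34
  rw [show ({3, 5} : Finset (Fin 6))ᶜ = {0, 1, 2, 4} by decide] at e35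
  rw [show ({4, 5} : Finset (Fin 6))ᶜ = {0, 1, 2, 3} by decide] at e45
  rw [sum_insert (by decide), sum_insert (by decide), sum_insert (by decide), sum_singleton]
    at e12 e13 e14 e15 e23 e24 e25 e34 e35 e45
  have hset : TT.filter (fun t => (0 : Fin 6) ∈ t) =
      {{0, 1, 2}, {0, 1, 3}, {0, 1, 4}, {0, 1, 5}, {0, 2, 3}, {0, 2, 4}, {0, 2, 5}, {0, 3, 4},
        {0, 3, 5}, {0, 4, 5}} := by decide
  rw [hset]
  rw [sum_insert (by decide), sum_insert (by decide), sum_insert (by decide),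
    sum_insert (by decide), sum_insert (by decide), sum_insert (by decide),
    sum_insert (by decide), sum_insert (by decide), sum_insert (by decide), sum_singleton]
  rw [show ({0, 1, 2} : Finset (Fin 6))ᶜ = {3, 4, 5} by decide,
    show ({0, 1, 3} : Finset (Fin 6))ᶜ = {2, 4, 5} by decide,
    show ({0, 1, 4} : Finset (Fin 6))ᶜ = {2, 3, 5} by decide,
    show ({0, 1, 5} : Finset (Fin 6))ᶜ = {2, 3, 4} by decide,
    show ({0, 2, 3} : Finset (Fin 6))ᶜ = {1, 4, 5} by decide,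
    show ({0, 2, 4} : Finset (Fin 6))ᶜ = {1, 3, 5} by decide,
    show ({0, 2, 5} : Finset (Fin 6))ᶜ = {1, 3, 4} by decide,
    show ({0, 3, 4} : Finset (Fin 6))ᶜ = {1, 2, 5} by decide,
    show ({0, 3, 5} : Finset (Fin 6))ᶜ = {1, 2, 4} by decide,
    show ({0, 4, 5} : Finset (Fin 6))ᶜ = {1, 2, 3} by decide]
  rw [show ({1, 2, 0} : Finset (Fin 6)) = {0, 1, 2} by decide] at e12
  rw [show ({1, 3, 0} : Finset (Fin 6)) = {0, 1, 3} by decide,
    show ({1, 3, 2} : Finset (Fin 6)) = {1, 2, 3} by decide] at e13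
  rw [show ({1, 4, 0} : Finset (Fin 6)) = {0, 1, 4} by decide,
    show ({1, 4, 2} : Finset (Fin 6)) = {1, 2, 4} by decide,
    show ({1, 4, 3} : Finset (Fin 6)) = {1, 3, 4} by decide] at e14
  rw [show ({1, 5, 0} : Finset (Fin 6)) = {0, 1, 5} by decide,
    show ({1, 5, 2} : Finset (Fin 6)) = {1, 2, 5} by decide,
    show ({1, 5, 3} : Finset (Fin 6)) = {1, 3, 5} by decide,
    show ({1, 5, 4} : Finset (Fin 6)) = {1, 4, 5} by decide] at e15
  rw [show ({2, 3, 0} : Finset (Fin 6)) = {0, 2, 3} by decide,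
    show ({2, 3, 1} : Finset (Fin 6)) = {1, 2, 3} by decide] at e23
  rw [show ({2, 4, 0} : Finset (Fin 6)) = {0, 2, 4} by decide,
    show ({2, 4, 1} : Finset (Fin 6)) = {1, 2, 4} by decide,
    show ({2, 4, 3} : Finset (Fin 6)) = {2, 3, 4} by decide] at e24
  rw [show ({2, 5, 0} : Finset (Fin 6)) = {0, 2, 5} by decide,
    show ({2, 5, 1} : Finset (Fin 6)) = {1, 2, 5} by decide,
    show ({2, 5, 3} : Finset (Fin 6)) = {2, 3, 5} by decide,
    show ({2, 5, 4} : Finset (Fin 6)) = {2, 4, 5} by decide] at e25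
  rw [show ({3, 4, 0} : Finset (Fin 6)) = {0, 3, 4} by decide,
    show ({3, 4, 1} : Finset (Fin 6)) = {1, 3, 4} by decide,
    show ({3, 4, 2} : Finset (Fin 6)) = {2, 3, 4} by decide] at e34
  rw [show ({3, 5, 0} : Finset (Fin 6)) = {0, 3, 5} by decide,
    show ({3, 5, 1} : Finset (Fin 6)) = {1, 3, 5} by decide,
    show ({3, 5, 2} : Finset (Fin 6)) = {2, 3, 5} by decide,
    show ({3, 5, 4} : Finset (Fin 6)) = {3, 4, 5} by decide] at e35
  rw [show ({4, 5, 0} : Finset (Fin 6)) = {0, 4, 5} by decide,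
    show ({4, 5, 1} : Finset (Fin 6)) = {1, 4, 5} by decide,
    show ({4, 5, 2} : Finset (Fin 6)) = {2, 4, 5} by decide,
    show ({4, 5, 3} : Finset (Fin 6)) = {3, 4, 5} by decide] at e45
  generalize z {1, 2, 3} = x123 at *
  generalize z {1, 2, 4} = x124 at *
  generalize z {1, 2, 5} = x125 at *
  generalize z {1, 3, 4} = x134 at *
  generalize z {1, 3, 5} = x135 at *
  generalize z {1, 4, 5} = x145 at *
  generalize z {2, 3, 4} = x234 at *
  generalize z {2, 3, 5} = x235 at *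
  generalize z {2, 4, 5} = x245 at *
  generalize z {3, 4, 5} = x345 at *
  have h2 : (2 : ZMod 2) = 0 := rfl
  linear_combination x345 * e12 + x245 * e13 + x235 * e14 + x234 * e15 + x145 * e23 + x135 * e24 +
    x134 * e25 + x125 * e34 + x124 * e35 + x123 * e45 -
    (x123 * x345 + x124 * x345 + x125 * x345 + x123 * x245 + x134 * x245 + x135 * x245 +
      x124 * x235 + x134 * x235 + x145 * x235 + x125 * x234 + x135 * x234 + x145 * x234 +
      x123 * x145 + x124 * x135 + x125 * x134) * h2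

/-- sum of a cycle over the triples containing exactly ... : the parity identity for two link sizes -/
theorem link_parity (z : Finset (Fin 6) → ZMod 2)
    (hz : ∀ α β, α ≠ β → ∑ t ∈ TT.filter (fun t => α ∈ t ∧ β ∈ t), z t = 0)
    (i j k : Fin 6) (hij : i ≠ j) (hik : i ≠ k) (hjk : j ≠ k)
    (hi : ∀ t ∈ TT, i ∈ t → z t = 0) (hL : z ({i, j, k} : Finset (Fin 6))ᶜ = 1) :
    ∑ t ∈ TT.filter (fun t => j ∈ t), z t + ∑ t ∈ TT.filter (fun t => k ∈ t), z t = 1 := by
  -- pointwise identity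
  have key : ∀ i j k : Fin 6, i ≠ j → i ≠ k → j ≠ k → ∀ t ∈ TT, i ∉ t →
      ((if j ∈ t then 1 else 0) + (if k ∈ t then 1 else 0) : ZMod 2) =
      (∑ αβ ∈ (({i, j, k} : Finset (Fin 6))ᶜ ×ˢ ({i, j, k} : Finset (Fin 6))ᶜ).filter
        (fun αβ => αβ.1 < αβ.2), (if αβ.1 ∈ t ∧ αβ.2 ∈ t then 1 else 0)) +
      (if t = ({i, j, k} : Finset (Fin 6))ᶜ then 1 else 0) := by
    decide +kernel
  have hLT : ({i, j, k} : Finset (Fin 6))ᶜ ∈ TT := by
    apply compl_mem_TT
    rw [mem_TT, card_insert_of_notMem (by simp [hij, hik]), card_insert_of_notMem (by simp [hjk]),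
      card_singleton]
  rw [sum_filter, sum_filter, ← sum_add_distrib]
  have h1 : ∀ t ∈ TT, ((if j ∈ t then z t else 0) + (if k ∈ t then z t else 0) : ZMod 2) =
      ∑ αβ ∈ (({i, j, k} : Finset (Fin 6))ᶜ ×ˢ ({i, j, k} : Finset (Fin 6))ᶜ).filter
        (fun αβ => αβ.1 < αβ.2), (if αβ.1 ∈ t ∧ αβ.2 ∈ t then z t else 0) +
      (if t = ({i, j, k} : Finset (Fin 6))ᶜ then z t else 0) := by
    intro t ht
    by_cases hit : i ∈ t
    · simp [hi t ht hit]
    · have h := key i j k hij hik hjk t ht hit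
      have h' := congrArg (fun w => w * z t) h
      simp only [add_mul, ite_mul, one_mul, zero_mul, sum_mul] at h'
      exact h'
  rw [sum_congr rfl h1, sum_add_distrib, sum_comm]
  have h2 : ∑ αβ ∈ (({i, j, k} : Finset (Fin 6))ᶜ ×ˢ ({i, j, k} : Finset (Fin 6))ᶜ).filter
        (fun αβ => αβ.1 < αβ.2), ∑ t ∈ TT, (if αβ.1 ∈ t ∧ αβ.2 ∈ t then z t else 0) = 0 := by
    apply sum_eq_zero
    intro αβ hαβ
    rw [← sum_filter]
    exact hz _ _ (ne_of_lt (mem_filter.1 hαβ).2)
  rw [h2, zero_add, sum_ite_eq' TT _ z, if_pos hLT, hL]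

/-- a symmetric relation on five points with all degrees two has five edges -/
theorem five_edges (i : Fin 6) (r : Fin 6 → Fin 6 → Prop) [∀ c x, Decidable (r c x)]
    (hsymm : ∀ c x, r c x → r x c)
    (hdeg : ∀ c, c ≠ i → ((univ : Finset (Fin 6)).filter (fun x => x ≠ i ∧ x ≠ c ∧ r c x)).card = 2) :
    ((univ : Finset (Fin 6 × Fin 6)).filter
      (fun e => e.1 < e.2 ∧ e.1 ≠ i ∧ e.2 ≠ i ∧ r e.1 e.2)).card = 5 := by
  have h1 : ((univ : Finset (Fin 6 × Fin 6)).filter
      (fun e => e.2 ≠ e.1 ∧ e.1 ≠ i ∧ e.2 ≠ i ∧ r e.1 e.2)).card = 10 := by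
    have h := card_eq_sum_card_fiberwise (f := Prod.fst) (s := (univ : Finset (Fin 6 × Fin 6)).filter
      (fun e => e.2 ≠ e.1 ∧ e.1 ≠ i ∧ e.2 ≠ i ∧ r e.1 e.2)) (t := ({i} : Finset (Fin 6))ᶜ) (by
        intro e he
        simp only [coe_filter, mem_univ, true_and] at he
        simpa using he.2.1)
    rw [h]
    have h' : ∀ c ∈ ({i} : Finset (Fin 6))ᶜ, (((univ : Finset (Fin 6 × Fin 6)).filter
      (fun e => e.2 ≠ e.1 ∧ e.1 ≠ i ∧ e.2 ≠ i ∧ r e.1 e.2)).filter (fun e => e.1 = c)).card = 2 := by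
      intro c hc
      have hci : c ≠ i := by simpa using hc
      rw [← hdeg c hci]
      refine card_bij' (fun e _ => e.2) (fun x _ => (c, x)) ?_ ?_ ?_ ?_
      · intro e he
        simp only [mem_filter, mem_univ, true_and] at he ⊢
        obtain ⟨⟨h1, h2, h3, h4⟩, rfl⟩ := he
        exact ⟨h3, h1, h4⟩
      · intro x hx
        simp only [mem_filter, mem_univ, true_and] at hx ⊢
        exact ⟨⟨hx.2.1, hci, hx.1, hx.2.2⟩, trivial⟩
      · intro e he
        simp only [mem_filter, mem_univ, true_and] at he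
        obtain ⟨-, rfl⟩ := he
        rfl
      · intro x hx
        rfl
    rw [sum_congr rfl h', sum_const, card_compl, card_singleton]
    rfl
  have h2 : ((univ : Finset (Fin 6 × Fin 6)).filter
      (fun e => e.2 ≠ e.1 ∧ e.1 ≠ i ∧ e.2 ≠ i ∧ r e.1 e.2)) =
      ((univ : Finset (Fin 6 × Fin 6)).filter (fun e => e.1 < e.2 ∧ e.1 ≠ i ∧ e.2 ≠ i ∧ r e.1 e.2)) ∪
      ((univ : Finset (Fin 6 × Fin 6)).filter
        (fun e => e.1 < e.2 ∧ e.1 ≠ i ∧ e.2 ≠ i ∧ r e.1 e.2)).image Prod.swap := by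
    ext ⟨c, x⟩
    simp only [mem_filter, mem_univ, true_and, mem_union, mem_image, Prod.exists, Prod.swap_prod_mk,
      Prod.mk.injEq]
    constructor
    · rintro ⟨h1, h2, h3, h4⟩
      rcases lt_or_gt_of_ne h1 with h | h
      · right
        exact ⟨x, c, ⟨h, h3, h2, hsymm _ _ h4⟩, rfl, rfl⟩
      · left
        exact ⟨h, h2, h3, h4⟩
    · rintro (⟨h1, h2, h3, h4⟩ | ⟨a, b, ⟨h1, h2, h3, h4⟩, rfl, rfl⟩)
      · exact ⟨ne_of_gt h1, h2, h3, h4⟩
      · exact ⟨ne_of_lt h1, h3, h2, hsymm _ _ h4⟩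
  have h3 : Disjoint
      ((univ : Finset (Fin 6 × Fin 6)).filter (fun e => e.1 < e.2 ∧ e.1 ≠ i ∧ e.2 ≠ i ∧ r e.1 e.2))
      (((univ : Finset (Fin 6 × Fin 6)).filter
        (fun e => e.1 < e.2 ∧ e.1 ≠ i ∧ e.2 ≠ i ∧ r e.1 e.2)).image Prod.swap) := by
    rw [disjoint_left]
    rintro ⟨c, x⟩ h h'
    simp only [mem_filter, mem_univ, true_and, mem_image, Prod.exists, Prod.swap_prod_mk,
      Prod.mk.injEq] at h h'
    obtain ⟨a, b, ⟨h1, -⟩, rfl, rfl⟩ := h'
    exact absurd h.1 (not_lt.2 h1.le)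
  rw [h2, card_union_of_disjoint h3, card_image_of_injective _ Prod.swap_injective] at h1
  omega

theorem pair_count : ∀ t ∈ TT, ∀ i ∈ t, ((univ : Finset (Fin 6 × Fin 6)).filter
    (fun e => e.1 < e.2 ∧ e.1 ≠ i ∧ e.2 ≠ i ∧ e.1 ∈ t ∧ e.2 ∈ t)).card = 1 := by
  decide +kernel

/-- the data -/
structure Data (V Rg : Type) where
  T : V → Finset (Fin 6)
  P : V → Fin 6 → Rg
  col : Rg → Fin 6
  near : Rg → Rg → Prop
  a : V → V → Prop
  hT : ∀ v, (T v).card = 3
  hcol : ∀ v, ∀ i ∈ T v, col (P v i) = i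
  hfin : ∀ v, {u | a u v}.Finite
  ha : ∀ u v i, i ∈ T u → i ∈ T v → (a u v ↔ near (P u i) (P v i))
  ha0 : ∀ u v, Disjoint (T u) (T v) → ¬ a u v
  hrefl : ∀ v, ∀ i ∈ T v, near (P v i) (P v i)
  X2 : ∀ u v u', Disjoint (T u) (T u') → a u v → a u' v → False
  X3 : ∀ v α β, α ≠ β → α ∉ T v → β ∉ T v → Odd {u | α ∈ T u ∧ β ∈ T u ∧ a u v}.ncard
  hE : ∀ X Y : Rg, X ≠ Y → Even {u | (∃ i ∈ T u, P u i = X) ∧ ∃ j ∈ T u, P u j = Y}.ncard

namespace Data

open Classical

variable {V Rg : Type} (d : Data V Rg)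

noncomputable def N (v : V) : Finset V := (d.hfin v).toFinset

theorem mem_N {u v : V} : u ∈ d.N v ↔ d.a u v := by
  simp [N]

noncomputable def n (v : V) (t : Finset (Fin 6)) : ZMod 2 :=
  (((d.N v).filter (fun u => d.T u = t)).card : ZMod 2)

noncomputable def z (v : V) (t : Finset (Fin 6)) : ZMod 2 :=
  d.n v t + (if t = (d.T v)ᶜ then 1 else 0)

def share (v w : V) (j : Fin 6) : Prop := j ∈ d.T v ∧ j ∈ d.T w ∧ d.P v j = d.P w j

variable {d}

theorem share.symm {v w : V} {j : Fin 6} (h : d.share v w j) : d.share w v j :=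
  ⟨h.2.1, h.1, h.2.2.symm⟩

theorem share.trans {u v w : V} {j : Fin 6} (h : d.share u v j) (h' : d.share v w j) :
    d.share u w j := ⟨h.1, h'.2.1, h.2.2.trans h'.2.2⟩

theorem a_of_share {v w : V} {j : Fin 6} (h : d.share v w j) : d.a v w := by
  rw [d.ha v w j h.1 h.2.1, h.2.2]
  exact d.hrefl w j h.2.1

theorem a_congr {u v w : V} {j : Fin 6} (h : d.share v w j) (hu : j ∈ d.T u) :
    d.a u v ↔ d.a u w := by
  rw [d.ha u v j hu h.1, d.ha u w j hu h.2.1, h.2.2]

theorem n_congr {v w : V} {j : Fin 6} (h : d.share v w j) {t : Finset (Fin 6)} (hj : j ∈ t) :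
    d.n v t = d.n w t := by
  unfold n
  congr 2
  ext u
  simp only [mem_filter, mem_N]
  constructor
  · rintro ⟨h1, rfl⟩
    exact ⟨(a_congr h hj).1 h1, rfl⟩
  · rintro ⟨h1, rfl⟩
    exact ⟨(a_congr h hj).2 h1, rfl⟩

theorem z_eq_n {v : V} {j : Fin 6} (hj : j ∈ d.T v) {t : Finset (Fin 6)} (hjt : j ∈ t) :
    d.z v t = d.n v t := by
  unfold z
  rw [if_neg, add_zero]
  rintro rfl
  exact (mem_compl.1 hjt) hj

theorem z_congr {v w : V} {j : Fin 6} (h : d.share v w j) {t : Finset (Fin 6)} (hj : j ∈ t) :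
    d.z v t = d.z w t := by
  rw [z_eq_n h.1 hj, z_eq_n h.2.1 hj, n_congr h hj]

theorem n_compl_eq_zero {v w : V} {j : Fin 6} (h : d.share v w j) : d.n w (d.T v)ᶜ = 0 := by
  unfold n
  rw [filter_eq_empty_iff.2, card_empty, Nat.cast_zero]
  intro u hu hT
  refine d.X2 u w v ?_ (mem_N d |>.1 hu) (a_of_share h)
  rw [hT]
  exact disjoint_compl_left

theorem z_compl_share {v w : V} {j : Fin 6} (h : d.share v w j) :
    d.z w (d.T v)ᶜ = if d.T v = d.T w then 1 else 0 := by
  unfold z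
  rw [n_compl_eq_zero h, zero_add]
  by_cases hc : d.T v = d.T w
  · rw [if_pos hc, if_pos (by rw [hc])]
  · rw [if_neg hc, if_neg (fun h => hc (compl_injective h))]

variable (d)

theorem share_self {v : V} {j : Fin 6} (hj : j ∈ d.T v) : d.share v v j := ⟨hj, hj, rfl⟩

theorem exists_mem (v : V) : ∃ j, j ∈ d.T v := by
  have h := d.hT v
  have : (d.T v).Nonempty := by
    rw [← card_pos]
    omega
  exact this

theorem z_self_compl (v : V) : d.z v (d.T v)ᶜ = 1 := by
  obtain ⟨j, hj⟩ := d.exists_mem v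
  rw [z_compl_share (d.share_self hj), if_pos rfl]

theorem ncard_eq_card (s : Finset V) (S : Set V) (h : ∀ u, u ∈ S ↔ u ∈ s) : S.ncard = s.card := by
  rw [← Set.ncard_coe_finset]
  congr 1
  ext u
  rw [h]
  simp

theorem even_pair_aux (v : V) (α β : Fin 6) (hαβ : α ≠ β) (hα : α ∈ d.T v) :
    (((d.N v).filter (fun u => α ∈ d.T u ∧ β ∈ d.T u)).card : ZMod 2) = 0 := by
  rw [card_eq_sum_card_image (fun u => (d.P u α, d.P u β)), Nat.cast_sum]
  apply sum_eq_zero
  intro b hb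
  obtain ⟨u0, hu0, rfl⟩ := mem_image.1 hb
  simp only [mem_filter, mem_N] at hu0
  have hne : d.P u0 α ≠ d.P u0 β := by
    intro h
    apply hαβ
    rw [← d.hcol u0 α hu0.2.1, ← d.hcol u0 β hu0.2.2, h]
  have h := d.hE _ _ hne
  rw [ncard_eq_card (((d.N v).filter (fun u => α ∈ d.T u ∧ β ∈ d.T u)).filter
    (fun u => (d.P u α, d.P u β) = (d.P u0 α, d.P u0 β)))] at h
  · exact (ZMod.natCast_eq_zero_iff_even).2 h
  · intro u
    simp only [mem_filter, mem_N, Prod.mk.injEq]
    constructor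
    · rintro ⟨⟨i, hi, hi'⟩, ⟨j, hj, hj'⟩⟩
      have e1 : i = α := by rw [← d.hcol u i hi, hi', d.hcol u0 α hu0.2.1]
      have e2 : j = β := by rw [← d.hcol u j hj, hj', d.hcol u0 β hu0.2.2]
      subst e1 e2
      refine ⟨⟨?_, hi, hj⟩, hi', hj'⟩
      rw [d.ha u v i hi hα, hi', ← d.ha u0 v i hu0.2.1 hα]
      exact hu0.1
    · rintro ⟨⟨h1, h2, h3⟩, h4, h5⟩
      exact ⟨⟨α, h2, h4⟩, ⟨β, h3, h5⟩⟩

theorem cycle (v : V) : ∀ α β, α ≠ β → ∑ t ∈ TT.filter (fun t => α ∈ t ∧ β ∈ t), d.z v t = 0 := by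
  intro α β hαβ
  have h1 : ∑ t ∈ TT.filter (fun t => α ∈ t ∧ β ∈ t), d.n v t =
      (((d.N v).filter (fun u => α ∈ d.T u ∧ β ∈ d.T u)).card : ZMod 2) := by
    rw [card_eq_sum_card_fiberwise (f := d.T) (t := TT.filter (fun t => α ∈ t ∧ β ∈ t))]
    · rw [Nat.cast_sum]
      apply sum_congr rfl
      intro t ht
      unfold n
      congr 2
      ext u
      simp only [mem_filter] at ht ⊢
      constructor
      · rintro ⟨h1, rfl⟩
        exact ⟨⟨h1, ht.2⟩, rfl⟩
      · rintro ⟨⟨h1, -⟩, rfl⟩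
        exact ⟨h1, rfl⟩
    · intro u hu
      simp only [coe_filter, Set.mem_ofPred_eq, mem_TT] at hu ⊢
      exact ⟨d.hT u, hu.2⟩
  have h2 : ∑ t ∈ TT.filter (fun t => α ∈ t ∧ β ∈ t), (if t = (d.T v)ᶜ then (1 : ZMod 2) else 0) =
      if α ∉ d.T v ∧ β ∉ d.T v then 1 else 0 := by
    rw [sum_ite_eq']
    have : (d.T v)ᶜ ∈ TT := compl_mem_TT (mem_TT.2 (d.hT v))
    simp [this]
  unfold z
  rw [sum_add_distrib, h1, h2]
  by_cases hα : α ∈ d.T v
  · rw [d.even_pair_aux v α β hαβ hα]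
    simp [hα]
  · by_cases hβ : β ∈ d.T v
    · have h := d.even_pair_aux v β α hαβ.symm hβ
      rw [filter_congr (q := fun u => β ∈ d.T u ∧ α ∈ d.T u) (fun u _ => and_comm), h]
      simp [hβ]
    · have h := d.X3 v α β hαβ hα hβ
      rw [ncard_eq_card ((d.N v).filter (fun u => α ∈ d.T u ∧ β ∈ d.T u))] at h
      · rw [(ZMod.natCast_eq_one_iff_odd).2 h, if_pos ⟨hα, hβ⟩]
        rfl
      · intro u
        simp only [mem_filter, mem_N]
        constructor
        · rintro ⟨h1, h2, h3⟩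
          exact ⟨h3, h1, h2⟩
        · rintro ⟨h3, h1, h2⟩
          exact ⟨h1, h2, h3⟩

theorem exists_of_n {v : V} {t : Finset (Fin 6)} (h : d.n v t ≠ 0) : ∃ u, d.T u = t ∧ d.a u v := by
  unfold n at h
  have h' : ((d.N v).filter (fun u => d.T u = t)).Nonempty := by
    rw [nonempty_iff_ne_empty]
    intro he
    rw [he] at h
    simp at h
  obtain ⟨u, hu⟩ := h'
  simp only [mem_filter, mem_N] at hu
  exact ⟨u, hu.2, hu.1⟩

theorem n_mul_compl (v : V) (t : Finset (Fin 6)) : d.n v t * d.n v tᶜ = 0 := by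
  by_contra h
  obtain ⟨u, hu, hu'⟩ := d.exists_of_n (left_ne_zero_of_mul h)
  obtain ⟨w, hw, hw'⟩ := d.exists_of_n (right_ne_zero_of_mul h)
  refine d.X2 u v w ?_ hu' hw'
  rw [hu, hw]
  exact disjoint_compl_right

theorem z_self (v : V) : d.z v (d.T v) = 0 := by
  have h := even_compl_pairs (d.z v) (d.cycle v)
  have hz : ∀ t, t ≠ d.T v → t ≠ (d.T v)ᶜ → d.z v t * d.z v tᶜ = 0 := by
    intro t h1 h2
    have h3 : tᶜ ≠ (d.T v)ᶜ := fun h => h1 (compl_injective h)
    have h4 := d.n_mul_compl v t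
    unfold z
    rw [if_neg h2, if_neg h3, add_zero, add_zero, h4]
  have hmem : d.T v ∈ TT := mem_TT.2 (d.hT v)
  by_cases h0 : (0 : Fin 6) ∈ d.T v
  · rw [sum_eq_single (d.T v)] at h
    · rw [d.z_self_compl, mul_one] at h
      exact h
    · intro t ht hne
      simp only [mem_filter] at ht
      apply hz t hne
      rintro rfl
      exact (mem_compl.1 ht.2) h0
    · intro hn
      have hm : d.T v ∈ TT.filter (fun t => (0 : Fin 6) ∈ t) := by
        rw [mem_filter]
        exact ⟨hmem, h0⟩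
      exact absurd hm hn
  · rw [sum_eq_single (d.T v)ᶜ] at h
    · rw [d.z_self_compl, one_mul, compl_compl] at h
      exact h
    · intro t ht hne
      simp only [mem_filter] at ht
      refine hz t ?_ hne
      rintro rfl
      exact h0 ht.2
    · intro hn
      have hm : (d.T v)ᶜ ∈ TT.filter (fun t => (0 : Fin 6) ∈ t) := by
        rw [mem_filter]
        exact ⟨compl_mem_TT hmem, mem_compl.2 h0⟩
      exact absurd hm hn

theorem z_mul_compl (v : V) (t : Finset (Fin 6)) : d.z v t * d.z v tᶜ = 0 := by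
  by_cases h1 : t = d.T v
  · rw [h1, d.z_self, zero_mul]
  · by_cases h2 : t = (d.T v)ᶜ
    · rw [h2, compl_compl, d.z_self, mul_zero]
    · have h3 : tᶜ ≠ (d.T v)ᶜ := fun h => h1 (compl_injective h)
      have h4 := d.n_mul_compl v t
      unfold z
      rw [if_neg h2, if_neg h3, add_zero, add_zero, h4]

/-- the four differences are equal -/
theorem D_eq {v w : V} {i c x y : Fin 6} (hi : d.share v w i) (hc : d.share v w c) (hic : i ≠ c)
    (hxi : x ≠ i) (hxc : x ≠ c) (hyi : y ≠ i) (hyc : y ≠ c) (hxy : x ≠ y) :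
    d.z v ({i, c, x} : Finset (Fin 6))ᶜ + d.z w ({i, c, x} : Finset (Fin 6))ᶜ =
      d.z v ({i, c, y} : Finset (Fin 6))ᶜ + d.z w ({i, c, y} : Finset (Fin 6))ᶜ := by
  have h4 : (({i, c, x, y} : Finset (Fin 6))ᶜ).card = 2 := by
    rw [card_compl, card_insert_of_notMem (by simp [hic, hxi.symm, hyi.symm]),
      card_insert_of_notMem (by simp [hxc.symm, hyc.symm]), card_insert_of_notMem (by simp [hxy]),
      card_singleton]
    rfl
  obtain ⟨α, β, hαβ, hs⟩ := card_eq_two.1 h4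
  have hs' : ∀ γ : Fin 6, γ ∉ ({i, c, x, y} : Finset (Fin 6)) ↔ (γ = α ∨ γ = β) := by
    intro γ
    rw [← mem_compl, hs]
    simp
  have hcompl : ({α, β} : Finset (Fin 6))ᶜ = {i, c, x, y} := by rw [← hs, compl_compl]
  have e1 : ({i, c, x} : Finset (Fin 6))ᶜ = {α, β, y} := by
    ext γ
    have h := hs' γ
    simp only [mem_insert, mem_singleton, not_or] at h
    simp only [mem_compl, mem_insert, mem_singleton, not_or]
    by_cases hγ : γ = y
    · subst hγ
      simp [hyi, hyc, Ne.symm hxy]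
    · constructor
      · rintro ⟨a1, a2, a3⟩
        rcases h.1 ⟨a1, a2, a3, hγ⟩ with h | h
        · exact Or.inl h
        · exact Or.inr (Or.inl h)
      · rintro (h' | h' | h')
        · have := h.2 (Or.inl h')
          exact ⟨this.1, this.2.1, this.2.2.1⟩
        · have := h.2 (Or.inr h')
          exact ⟨this.1, this.2.1, this.2.2.1⟩
        · exact absurd h' hγ
  have e2 : ({i, c, y} : Finset (Fin 6))ᶜ = {α, β, x} := by
    ext γ
    have h := hs' γ
    simp only [mem_insert, mem_singleton, not_or] at h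
    simp only [mem_compl, mem_insert, mem_singleton, not_or]
    by_cases hγ : γ = x
    · subst hγ
      simp [hxi, hxc, hxy]
    · constructor
      · rintro ⟨a1, a2, a3⟩
        rcases h.1 ⟨a1, a2, hγ, a3⟩ with h | h
        · exact Or.inl h
        · exact Or.inr (Or.inl h)
      · rintro (h' | h' | h')
        · have := h.2 (Or.inl h')
          exact ⟨this.1, this.2.1, this.2.2.2⟩
        · have := h.2 (Or.inr h')
          exact ⟨this.1, this.2.1, this.2.2.2⟩
        · exact absurd h' hγ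
  have hv := cycle_explicit (d.z v) (d.cycle v) α β hαβ
  have hw := cycle_explicit (d.z w) (d.cycle w) α β hαβ
  rw [hcompl, sum_insert (by simp [hic, hxi.symm, hyi.symm]), sum_insert (by simp [hxc.symm, hyc.symm]),
    sum_insert (by simp [hxy]), sum_singleton] at hv hw
  have z1 : d.z v {α, β, i} = d.z w {α, β, i} := z_congr hi (by simp)
  have z2 : d.z v {α, β, c} = d.z w {α, β, c} := z_congr hc (by simp)
  rw [e1, e2]
  rw [z1, z2] at hv
  have h2 : (2 : ZMod 2) = 0 := rfl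
  linear_combination hv + hw - (d.z w {α, β, i} + d.z w {α, β, c} + d.z v {α, β, x} +
    d.z w {α, β, x}) * h2

/-- the third colour -/
theorem third {v : V} {i c : Fin 6} (hi : i ∈ d.T v) (hc : c ∈ d.T v) (hic : i ≠ c) :
    ∃ x, x ≠ i ∧ x ≠ c ∧ d.T v = {i, c, x} := by
  have h4 : (((d.T v).erase i).erase c).card = 1 := by
    rw [card_erase_of_mem (mem_erase.2 ⟨hic.symm, hc⟩), card_erase_of_mem hi, d.hT v]
  obtain ⟨γ, hγ⟩ := card_eq_one.1 h4
  have h5 : γ ∈ ((d.T v).erase i).erase c := by rw [hγ]; simp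
  simp only [mem_erase] at h5
  refine ⟨γ, h5.2.1, h5.1, ?_⟩
  rw [← insert_erase hi, ← insert_erase (mem_erase.2 ⟨hic.symm, hc⟩), hγ]

/-- the value of the difference -/
theorem D_val {v w : V} {i c x : Fin 6} (hi : d.share v w i) (hc : d.share v w c) (hic : i ≠ c)
    (hxi : x ≠ i) (hxc : x ≠ c) :
    d.z v ({i, c, x} : Finset (Fin 6))ᶜ + d.z w ({i, c, x} : Finset (Fin 6))ᶜ =
      if d.T v = d.T w then 0 else 1 := by
  obtain ⟨y, hyi, hyc, hTv⟩ := d.third hi.1 hc.1 hic
  have h1 : d.z v ({i, c, y} : Finset (Fin 6))ᶜ + d.z w ({i, c, y} : Finset (Fin 6))ᶜ =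
      if d.T v = d.T w then 0 else 1 := by
    rw [← hTv, d.z_self_compl, z_compl_share hi]
    split_ifs
    · rfl
    · rw [add_zero]
  by_cases hxy : x = y
  · rw [hxy, h1]
  · rw [d.D_eq hi hc hic hxi hxc hyi hyc hxy, h1]

/-- vertices of the region of colour `i` at `v` -/
noncomputable def F (v : V) (i : Fin 6) : Finset V :=
  (d.N v).filter (fun u => d.share u v i)

theorem mem_F {u v : V} {i : Fin 6} : u ∈ d.F v i ↔ d.share u v i := by
  simp only [F, mem_filter, mem_N]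
  exact ⟨fun h => h.2, fun h => ⟨a_of_share h, h⟩⟩

/-- sums of functions depending only on the region of colour `c` vanish -/
theorem even_fiber {v : V} {i c : Fin 6} (hic : i ≠ c) (f : V → ZMod 2)
    (hf : ∀ u w, d.share u v i → d.share w v i → d.share u w c → f u = f w) :
    ∑ u ∈ (d.F v i).filter (fun u => c ∈ d.T u), f u = 0 := by
  rw [← sum_fiberwise_of_maps_to (g := fun u => d.P u c)
    (t := ((d.F v i).filter (fun u => c ∈ d.T u)).image (fun u => d.P u c))
    (fun u hu => mem_image_of_mem _ hu)]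
  apply sum_eq_zero
  intro X hX
  obtain ⟨u0, hu0, rfl⟩ := mem_image.1 hX
  simp only [mem_filter, mem_F] at hu0
  have hconst : ∀ u ∈ ((d.F v i).filter (fun u => c ∈ d.T u)).filter (fun u => d.P u c = d.P u0 c),
      f u = f u0 := by
    intro u hu
    simp only [mem_filter, mem_F] at hu
    exact hf u u0 hu.1.1 hu0.1 ⟨hu.1.2, hu0.2, hu.2⟩
  rw [sum_congr rfl hconst, sum_const, nsmul_eq_mul]
  have hne : d.P v i ≠ d.P u0 c := by
    intro h
    apply hic
    rw [← d.hcol v i hu0.1.2.1, ← d.hcol u0 c hu0.2, h]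
  have h := d.hE _ _ hne
  rw [ncard_eq_card (((d.F v i).filter (fun u => c ∈ d.T u)).filter
    (fun u => d.P u c = d.P u0 c))] at h
  · rw [(ZMod.natCast_eq_zero_iff_even).2 h, zero_mul]
  · intro u
    simp only [mem_filter, mem_F]
    constructor
    · rintro ⟨⟨j, hj, hj'⟩, ⟨k, hk, hk'⟩⟩
      have e1 : j = i := by rw [← d.hcol u j hj, hj', d.hcol v i hu0.1.2.1]
      have e2 : k = c := by rw [← d.hcol u k hk, hk', d.hcol u0 c hu0.2]
      subst e1 e2
      exact ⟨⟨⟨hj, hu0.1.2.1, hj'⟩, hk⟩, hk'⟩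
    · rintro ⟨⟨h1, h2⟩, h3⟩
      exact ⟨⟨i, h1.1, h1.2.2⟩, ⟨c, h2, h3⟩⟩

/-- the sums of `z` over the vertices of the region containing the colour `c` -/
noncomputable def S (v : V) (i c : Fin 6) (t : Finset (Fin 6)) : ZMod 2 :=
  ∑ u ∈ (d.F v i).filter (fun u => c ∈ d.T u), d.z u t

theorem S_of_mem {v : V} {i c : Fin 6} (hic : i ≠ c) {t : Finset (Fin 6)} (hc : c ∈ t) :
    d.S v i c t = 0 :=
  d.even_fiber hic _ (fun _ _ _ _ h => z_congr h hc)

theorem S_indep {v : V} {i c x y : Fin 6} (hic : i ≠ c) (hxi : x ≠ i) (hxc : x ≠ c) (hyi : y ≠ i)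
    (hyc : y ≠ c) : d.S v i c ({i, c, x} : Finset (Fin 6))ᶜ = d.S v i c ({i, c, y} : Finset (Fin 6))ᶜ := by
  by_cases hxy : x = y
  · rw [hxy]
  have h2 : (2 : ZMod 2) = 0 := rfl
  have h := d.even_fiber (v := v) hic
    (fun u => d.z u ({i, c, x} : Finset (Fin 6))ᶜ + d.z u ({i, c, y} : Finset (Fin 6))ᶜ) (by
      intro u w hu hw huw
      have h := d.D_eq (hu.trans hw.symm) huw hic hxi hxc hyi hyc hxy
      linear_combination h - (d.z w ({i, c, x} : Finset (Fin 6))ᶜ) * h2 +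
        (d.z u ({i, c, y} : Finset (Fin 6))ᶜ) * h2)
  rw [sum_add_distrib] at h
  unfold S
  linear_combination h - (∑ u ∈ (d.F v i).filter (fun u => c ∈ d.T u),
    d.z u ({i, c, y} : Finset (Fin 6))ᶜ) * h2

theorem sum_S {v : V} {i : Fin 6} (t : Finset (Fin 6)) :
    ∑ c ∈ ({i} : Finset (Fin 6))ᶜ, d.S v i c t = 0 := by
  unfold S
  have h1 : ∀ c ∈ ({i} : Finset (Fin 6))ᶜ, ∑ u ∈ (d.F v i).filter (fun u => c ∈ d.T u), d.z u t =
      ∑ u ∈ d.F v i, if c ∈ d.T u then d.z u t else 0 := by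
    intro c _
    rw [sum_filter]
  rw [sum_congr rfl h1, sum_comm]
  apply sum_eq_zero
  intro u hu
  rw [mem_F] at hu
  rw [← sum_filter, sum_const, nsmul_eq_mul]
  have h2 : (({i} : Finset (Fin 6))ᶜ.filter (fun c => c ∈ d.T u)) = (d.T u).erase i := by
    ext c
    simp only [mem_filter, mem_compl, mem_singleton, mem_erase]
  rw [h2, card_erase_of_mem hu.1, d.hT u]
  have h3 : ((3 - 1 : ℕ) : ZMod 2) = 0 := rfl
  rw [h3, zero_mul]

theorem S_swap {v : V} {i c x : Fin 6} (hic : i ≠ c) (hix : i ≠ x) (hcx : c ≠ x) :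
    d.S v i c ({i, c, x} : Finset (Fin 6))ᶜ = d.S v i x ({i, c, x} : Finset (Fin 6))ᶜ := by
  have h := d.sum_S (v := v) (i := i) ({i, c, x} : Finset (Fin 6))ᶜ
  have h1 : ∑ c' ∈ ({i} : Finset (Fin 6))ᶜ, d.S v i c' ({i, c, x} : Finset (Fin 6))ᶜ =
      ∑ c' ∈ ({c, x} : Finset (Fin 6)), d.S v i c' ({i, c, x} : Finset (Fin 6))ᶜ := by
    symm
    apply sum_subset
    · intro c' hc'
      simp only [mem_insert, mem_singleton] at hc'
      simp only [mem_compl, mem_singleton]
      rcases hc' with rfl | rfl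
      · exact hic.symm
      · exact hix.symm
    · intro c' hc' hc''
      simp only [mem_compl, mem_singleton] at hc'
      simp only [mem_insert, mem_singleton, not_or] at hc''
      apply d.S_of_mem (Ne.symm hc')
      simp [hc', hc''.1, hc''.2]
  rw [h1, sum_pair hcx] at h
  have h2 : (2 : ZMod 2) = 0 := rfl
  linear_combination h - (d.S v i x ({i, c, x} : Finset (Fin 6))ᶜ) * h2

/-- all the numbers `S` are equal -/
theorem S_all {v : V} {i c x c' x' : Fin 6} (hic : i ≠ c) (hxi : x ≠ i) (hxc : x ≠ c)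
    (hic' : i ≠ c') (hxi' : x' ≠ i) (hxc' : x' ≠ c') :
    d.S v i c ({i, c, x} : Finset (Fin 6))ᶜ = d.S v i c' ({i, c', x'} : Finset (Fin 6))ᶜ := by
  by_cases hcc : c = c'
  · subst hcc
    exact d.S_indep hic hxi hxc hxi' hxc'
  · rw [d.S_indep (y := c') hic hxi hxc hic'.symm (Ne.symm hcc), d.S_swap hic hic' hcc,
      show ({i, c, c'} : Finset (Fin 6)) = {i, c', c} by ext; simp; tauto,
      d.S_indep (y := x') hic' hic.symm hcc hxi' hxc']

theorem S_of_vertex {v w : V} {i c x : Fin 6} (hw : d.share w v i) (hTw : d.T w = {i, c, x}) :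
    d.S v i c ({i, c, x} : Finset (Fin 6))ᶜ =
      (((d.F v i).filter (fun u => d.T u = {i, c, x})).card : ZMod 2) := by
  unfold S
  rw [← hTw]
  have h1 : ∀ u ∈ (d.F v i).filter (fun u => c ∈ d.T u), d.z u (d.T w)ᶜ =
      if d.T u = d.T w then 1 else 0 := by
    intro u hu
    simp only [mem_filter, mem_F] at hu
    rw [z_compl_share (hw.trans hu.1.symm)]
    simp only [eq_comm]
  rw [sum_congr rfl h1, sum_boole, filter_filter]
  congr 2
  ext u
  simp only [mem_filter, and_congr_right_iff, and_iff_right_iff_imp]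
  rintro - h
  rw [h, hTw]
  simp

theorem filter_pair {v : V} {i c x : Fin 6} (hic : i ≠ c) (hxi : x ≠ i) (hxc : x ≠ c) :
    (d.F v i).filter (fun u => c ∈ d.T u ∧ x ∈ d.T u) =
      (d.F v i).filter (fun u => d.T u = {i, c, x}) := by
  ext u
  simp only [mem_filter, mem_F, and_congr_right_iff]
  intro hu
  constructor
  · rintro ⟨h1, h2⟩
    symm
    apply eq_of_subset_of_card_le
    · intro y hy
      simp only [mem_insert, mem_singleton] at hy
      rcases hy with rfl | rfl | rfl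
      · exact hu.1
      · exact h1
      · exact h2
    · rw [d.hT u, card_insert_of_notMem (by simp [hic, hxi.symm]),
        card_insert_of_notMem (by simp [hxc.symm]), card_singleton]
  · intro h
    rw [h]
    simp

theorem exists_avoid (i c : Fin 6) : ∃ x : Fin 6, x ≠ i ∧ x ≠ c := by
  revert i c
  decide

/-- if `S ≠ 0` there is a good pair for every colour -/
theorem good_pair {v : V} {i c x : Fin 6} (hic : i ≠ c) (hxi : x ≠ i) (hxc : x ≠ c)
    (h : d.S v i c ({i, c, x} : Finset (Fin 6))ᶜ ≠ 0) :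
    ∃ u w, d.share u v i ∧ d.share w v i ∧ d.share u w c ∧ d.T u ≠ d.T w := by
  by_contra hcon
  push Not at hcon
  apply h
  apply d.even_fiber hic
  intro u w hu hw huw
  have h1 := d.D_val (hu.trans hw.symm) huw hic hxi hxc
  rw [if_pos (hcon u w hu hw huw)] at h1
  have h2 : (2 : ZMod 2) = 0 := rfl
  linear_combination h1 - (d.z w ({i, c, x} : Finset (Fin 6))ᶜ) * h2

theorem zmod2_cases (x : ZMod 2) : x = 0 ∨ x = 1 := by
  revert x
  decide

/-- in the presence of a good pair for `c`, the types at the vertices with colour `c` -/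
theorem good_types {v u w s : V} {i c : Fin 6} (hic : i ≠ c) (hu : d.share u v i)
    (hw : d.share w v i) (huw : d.share u w c) (hne : d.T u ≠ d.T w) (hs : d.share s v i)
    (hcs : c ∈ d.T s) : d.T s = d.T u ∨ d.T s = d.T w := by
  obtain ⟨β, hβi, hβc, hTs⟩ := d.third hs.1 hcs hic
  have h1 := d.D_val (hu.trans hw.symm) huw hic hβi hβc
  rw [if_neg hne, ← hTs, z_compl_share (hs.trans hu.symm), z_compl_share (hs.trans hw.symm)] at h1
  by_contra hcon
  push Not at hcon
  rw [if_neg hcon.1, if_neg hcon.2] at h1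
  exact absurd h1 (by decide)

theorem good_isolated {v u w s : V} {i c β : Fin 6} (hic : i ≠ c) (hβi : β ≠ i) (hβc : β ≠ c)
    (hu : d.share u v i) (hw : d.share w v i) (huw : d.share u w c) (hne : d.T u ≠ d.T w)
    (hs : d.share s v i) : d.z s {i, c, β} = 0 := by
  have h1 := d.D_val (hu.trans hw.symm) huw hic hβi hβc
  rw [if_neg hne] at h1
  have h2 := d.z_mul_compl u {i, c, β}
  have h3 := d.z_mul_compl w {i, c, β}
  rw [z_congr (hs.trans hu.symm) (t := {i, c, β}) (by simp)]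
  have h4 : d.z u {i, c, β} = d.z w {i, c, β} := z_congr (hu.trans hw.symm) (by simp)
  rcases zmod2_cases (d.z u ({i, c, β} : Finset (Fin 6))ᶜ) with h5 | h5
  · rw [h5, zero_add] at h1
    rw [h1, mul_one] at h3
    rw [h4, h3]
  · rw [h5, mul_one] at h2
    exact h2

/-- the number of vertices of types `{i,c,x}` of a region is even -/
theorem region_even (v : V) (i c x : Fin 6) (hi : i ∈ d.T v) (hic : i ≠ c) (hxi : x ≠ i)
    (hxc : x ≠ c) :
    (((d.F v i).filter (fun u => c ∈ d.T u ∧ x ∈ d.T u)).card : ZMod 2) = 0 := by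
  rw [d.filter_pair hic hxi hxc]
  by_cases hne : ((d.F v i).filter (fun u => d.T u = {i, c, x})).Nonempty
  swap
  · rw [not_nonempty_iff_eq_empty] at hne
    rw [hne, card_empty, Nat.cast_zero]
  obtain ⟨w, hw⟩ := hne
  simp only [mem_filter, mem_F] at hw
  rw [← d.S_of_vertex hw.1 hw.2]
  by_contra hS
  -- now all `S` are nonzero
  have hS' : ∀ c' x', i ≠ c' → x' ≠ i → x' ≠ c' →
      d.S v i c' ({i, c', x'} : Finset (Fin 6))ᶜ = 1 := by
    intro c' x' h1 h2 h3
    rw [← d.S_all hic hxi hxc h1 h2 h3]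
    rcases zmod2_cases (d.S v i c ({i, c, x} : Finset (Fin 6))ᶜ) with h | h
    · exact absurd h hS
    · exact h
  have hgood : ∀ c', i ≠ c' → ∃ u w, d.share u v i ∧ d.share w v i ∧ d.share u w c' ∧
      d.T u ≠ d.T w := by
    intro c' hc'
    obtain ⟨x', h1, h2⟩ := exists_avoid i c'
    apply d.good_pair hc' h1 h2
    rw [hS' c' x' hc' h1 h2]
    decide
  -- links of `i` are empty
  have hlink : ∀ s, d.share s v i → ∀ t ∈ TT, i ∈ t → d.z s t = 0 := by
    intro s hs t ht hit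
    rw [mem_TT] at ht
    have h4 : (t.erase i).card = 2 := by rw [card_erase_of_mem hit, ht]
    obtain ⟨c', β, hcβ, hs'⟩ := card_eq_two.1 h4
    have hc' : c' ∈ t.erase i := by rw [hs']; simp
    have hβ : β ∈ t.erase i := by rw [hs']; simp
    simp only [mem_erase] at hc' hβ
    have hteq : t = {i, c', β} := by rw [← insert_erase hit, hs']
    rw [hteq]
    obtain ⟨u, w, hu, hw', huw, hne'⟩ := hgood c' (Ne.symm hc'.1)
    exact d.good_isolated (Ne.symm hc'.1) hβ.1 (Ne.symm hcβ) hu hw' huw hne' hs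
  -- the number of vertices of the region is even
  have heven : ((d.F v i).card : ZMod 2) = 0 := by
    have h1 : ∀ u ∈ d.F v i, ∑ j ∈ (d.T u).erase i, ∑ t ∈ TT.filter (fun t => j ∈ t), d.z u t = 1 := by
      intro u hu
      rw [mem_F] at hu
      have h4 : ((d.T u).erase i).card = 2 := by rw [card_erase_of_mem hu.1, d.hT u]
      obtain ⟨j, k, hjk, hs'⟩ := card_eq_two.1 h4
      have hj : j ∈ (d.T u).erase i := by rw [hs']; simp
      have hk : k ∈ (d.T u).erase i := by rw [hs']; simp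
      simp only [mem_erase] at hj hk
      have hteq : d.T u = {i, j, k} := by rw [← insert_erase hu.1, hs']
      rw [hs', sum_pair hjk]
      apply link_parity (d.z u) (d.cycle u) i j k (Ne.symm hj.1) (Ne.symm hk.1) hjk
      · exact hlink u hu
      · rw [← hteq]
        exact d.z_self_compl u
    have h2 : ((d.F v i).card : ZMod 2) =
        ∑ u ∈ d.F v i, ∑ j ∈ (d.T u).erase i, ∑ t ∈ TT.filter (fun t => j ∈ t), d.z u t := by
      rw [sum_congr rfl h1, sum_const, nsmul_eq_mul, mul_one]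
    have h3 : ∀ u ∈ d.F v i, ∑ j ∈ (d.T u).erase i, ∑ t ∈ TT.filter (fun t => j ∈ t), d.z u t =
        ∑ j ∈ ({i} : Finset (Fin 6))ᶜ,
          if j ∈ d.T u then ∑ t ∈ TT.filter (fun t => j ∈ t), d.z u t else 0 := by
      intro u _
      rw [← sum_filter]
      apply sum_congr ?_ (fun _ _ => rfl)
      ext j
      simp only [mem_filter, mem_compl, mem_singleton, mem_erase]
    rw [h2, sum_congr rfl h3, sum_comm]
    apply sum_eq_zero
    intro j hj
    rw [← sum_filter]
    have hj' : i ≠ j := by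
      simp only [mem_compl, mem_singleton] at hj
      exact Ne.symm hj
    apply d.even_fiber hj'
    intro u w _ _ huw
    apply sum_congr rfl
    intro t ht
    exact z_congr huw (mem_filter.1 ht).2
  -- and odd
  have hodd : ((d.F v i).card : ZMod 2) = 1 := by
    have hcount : ∀ c' x', i ≠ c' → x' ≠ i → x' ≠ c' → (∃ u, d.share u v i ∧ c' ∈ d.T u ∧ x' ∈ d.T u) →
        (((d.F v i).filter (fun u => c' ∈ d.T u ∧ x' ∈ d.T u)).card : ZMod 2) = 1 := by
      rintro c' x' h1 h2 h3 ⟨u, hu, hu1, hu2⟩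
      have hu3 : u ∈ (d.F v i).filter (fun u => c' ∈ d.T u ∧ x' ∈ d.T u) :=
        mem_filter.2 ⟨(mem_F d).2 hu, hu1, hu2⟩
      rw [d.filter_pair h1 h2 h3] at hu3 ⊢
      rw [← d.S_of_vertex hu (mem_filter.1 hu3).2, hS' c' x' h1 h2 h3]
    have h5 := five_edges i (fun c' x' => ∃ u, d.share u v i ∧ c' ∈ d.T u ∧ x' ∈ d.T u)
      (fun c' x' ⟨u, h1, h2, h3⟩ => ⟨u, h1, h3, h2⟩) (by
        intro c' hc'
        obtain ⟨u, w, hu, hw', huw, hne'⟩ := hgood c' (Ne.symm hc')
        obtain ⟨x1, hx1, hx1', hT1⟩ := d.third hu.1 huw.1 (Ne.symm hc')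
        obtain ⟨x2, hx2, hx2', hT2⟩ := d.third hw'.1 huw.2.1 (Ne.symm hc')
        have hx12 : x1 ≠ x2 := by
          rintro rfl
          exact hne' (hT1.trans hT2.symm)
        have : (univ.filter (fun x' => x' ≠ i ∧ x' ≠ c' ∧
            ∃ u, d.share u v i ∧ c' ∈ d.T u ∧ x' ∈ d.T u)) = {x1, x2} := by
          ext y
          simp only [mem_filter, mem_univ, true_and, mem_insert, mem_singleton]
          constructor
          · rintro ⟨hy1, hy2, s, hs, hs1, hs2⟩
            rcases d.good_types (Ne.symm hc') hu hw' huw hne' hs hs1 with h | h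
            · left
              rw [h, hT1] at hs2
              simp only [mem_insert, mem_singleton] at hs2
              rcases hs2 with h | h | h
              · exact absurd h hy1
              · exact absurd h hy2
              · exact h
            · right
              rw [h, hT2] at hs2
              simp only [mem_insert, mem_singleton] at hs2
              rcases hs2 with h | h | h
              · exact absurd h hy1
              · exact absurd h hy2
              · exact h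
          · rintro (rfl | rfl)
            · exact ⟨hx1, hx1', u, hu, huw.1, by rw [hT1]; simp⟩
            · exact ⟨hx2, hx2', w, hw', huw.2.1, by rw [hT2]; simp⟩
        rw [this, card_pair hx12])
    have h6 : ((d.F v i).card : ZMod 2) = ∑ e ∈ (univ : Finset (Fin 6 × Fin 6)).filter
        (fun e => e.1 < e.2 ∧ e.1 ≠ i ∧ e.2 ≠ i ∧ ∃ u, d.share u v i ∧ e.1 ∈ d.T u ∧ e.2 ∈ d.T u),
        (((d.F v i).filter (fun u => e.1 ∈ d.T u ∧ e.2 ∈ d.T u)).card : ZMod 2) := by
      have h7 : ∀ e ∈ (univ : Finset (Fin 6 × Fin 6)).filter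
        (fun e => e.1 < e.2 ∧ e.1 ≠ i ∧ e.2 ≠ i ∧ ∃ u, d.share u v i ∧ e.1 ∈ d.T u ∧ e.2 ∈ d.T u),
          (((d.F v i).filter (fun u => e.1 ∈ d.T u ∧ e.2 ∈ d.T u)).card : ZMod 2) =
          ∑ u ∈ d.F v i, if e.1 ∈ d.T u ∧ e.2 ∈ d.T u then (1 : ZMod 2) else 0 := by
        intro e _
        rw [sum_boole]
      rw [sum_congr rfl h7, sum_comm]
      have h8 : ∀ u ∈ d.F v i, (∑ e ∈ (univ : Finset (Fin 6 × Fin 6)).filter
        (fun e => e.1 < e.2 ∧ e.1 ≠ i ∧ e.2 ≠ i ∧ ∃ u, d.share u v i ∧ e.1 ∈ d.T u ∧ e.2 ∈ d.T u),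
          if e.1 ∈ d.T u ∧ e.2 ∈ d.T u then (1 : ZMod 2) else 0) = 1 := by
        intro u hu
        rw [mem_F] at hu
        rw [sum_boole, filter_filter]
        have h9 := pair_count (d.T u) (mem_TT.2 (d.hT u)) i hu.1
        have h10 : (univ : Finset (Fin 6 × Fin 6)).filter (fun e => (e.1 < e.2 ∧ e.1 ≠ i ∧ e.2 ≠ i ∧
            ∃ u, d.share u v i ∧ e.1 ∈ d.T u ∧ e.2 ∈ d.T u) ∧ e.1 ∈ d.T u ∧ e.2 ∈ d.T u) =
            (univ : Finset (Fin 6 × Fin 6)).filter
              (fun e => e.1 < e.2 ∧ e.1 ≠ i ∧ e.2 ≠ i ∧ e.1 ∈ d.T u ∧ e.2 ∈ d.T u) := by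
          ext e
          simp only [mem_filter, mem_univ, true_and]
          constructor
          · rintro ⟨⟨a1, a2, a3, -⟩, a4, a5⟩
            exact ⟨a1, a2, a3, a4, a5⟩
          · rintro ⟨a1, a2, a3, a4, a5⟩
            exact ⟨⟨a1, a2, a3, u, hu, a4, a5⟩, a4, a5⟩
        rw [h10]
        convert congrArg (fun n : ℕ => (n : ZMod 2)) h9
        simp
      rw [sum_congr rfl h8, sum_const, nsmul_eq_mul, mul_one]
    rw [h6, sum_congr rfl (g := fun _ => (1 : ZMod 2))]
    · rw [sum_const, nsmul_eq_mul, mul_one, h5]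
      rfl
    · intro e he
      simp only [mem_filter, mem_univ, true_and] at he
      exact hcount e.1 e.2 (Ne.symm he.2.1) he.2.2.1 (ne_of_gt he.1) he.2.2.2
  rw [heven] at hodd
  exact absurd hodd (by decide)

/-- final contradiction -/
theorem absurdity {V Rg : Type} (d : Data V Rg) (v : V) : False := by
  have h4 : ((d.T v)ᶜ).card = 3 := by
    rw [card_compl, d.hT v]
    rfl
  obtain ⟨α, hα, β, hβ, hαβ⟩ := one_lt_card.1 (show 1 < ((d.T v)ᶜ).card by omega)
  rw [mem_compl] at hα hβ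
  have hodd := d.X3 v α β hαβ hα hβ
  rw [ncard_eq_card ((d.N v).filter (fun u => α ∈ d.T u ∧ β ∈ d.T u))] at hodd
  swap
  · intro u
    simp only [mem_filter, mem_N]
    constructor
    · rintro ⟨h1, h2, h3⟩
      exact ⟨h3, h1, h2⟩
    · rintro ⟨h3, h1, h2⟩
      exact ⟨h1, h2, h3⟩
  have h1 := (ZMod.natCast_eq_one_iff_odd).2 hodd
  -- every such `u` has exactly one colour in common with `v`
  have huniq : ∀ u ∈ (d.N v).filter (fun u => α ∈ d.T u ∧ β ∈ d.T u),
      ((d.T v).filter (fun j => j ∈ d.T u)).card = 1 := by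
    intro u hu
    simp only [mem_filter, mem_N] at hu
    have hnd : ¬ Disjoint (d.T u) (d.T v) := fun h => d.ha0 u v h hu.1
    rw [not_disjoint_iff] at hnd
    obtain ⟨j, hj, hj'⟩ := hnd
    rw [card_eq_one]
    refine ⟨j, ?_⟩
    have hjα : j ≠ α := fun h => hα (h ▸ hj')
    have hjβ : j ≠ β := fun h => hβ (h ▸ hj')
    have hT : d.T u = {j, α, β} := by
      symm
      apply eq_of_subset_of_card_le
      · intro y hy
        simp only [mem_insert, mem_singleton] at hy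
        rcases hy with rfl | rfl | rfl
        · exact hj
        · exact hu.2.1
        · exact hu.2.2
      · rw [d.hT u, card_insert_of_notMem (by simp [hjα, hjβ]),
          card_insert_of_notMem (by simp [hαβ]), card_singleton]
    ext k
    simp only [mem_filter, hT, mem_insert, mem_singleton]
    constructor
    · rintro ⟨hk, rfl | rfl | rfl⟩
      · rfl
      · exact absurd hk hα
      · exact absurd hk hβ
    · rintro rfl
      exact ⟨hj', Or.inl rfl⟩
  have h2 : (((d.N v).filter (fun u => α ∈ d.T u ∧ β ∈ d.T u)).card : ZMod 2) =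
      ∑ j ∈ d.T v, (((d.N v).filter (fun u => α ∈ d.T u ∧ β ∈ d.T u)).filter
        (fun u => j ∈ d.T u)).card := by
    have e1 : ∀ j ∈ d.T v, ((((d.N v).filter (fun u => α ∈ d.T u ∧ β ∈ d.T u)).filter
        (fun u => j ∈ d.T u)).card : ZMod 2) =
        ∑ u ∈ (d.N v).filter (fun u => α ∈ d.T u ∧ β ∈ d.T u),
          if j ∈ d.T u then (1 : ZMod 2) else 0 := by
      intro j _
      rw [sum_boole]
    rw [Nat.cast_sum, sum_congr rfl e1, sum_comm]
    have e2 : ∀ u ∈ (d.N v).filter (fun u => α ∈ d.T u ∧ β ∈ d.T u),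
        (∑ j ∈ d.T v, if j ∈ d.T u then (1 : ZMod 2) else 0) = 1 := by
      intro u hu
      rw [sum_boole, huniq u hu, Nat.cast_one]
    rw [sum_congr rfl e2, sum_const, nsmul_eq_mul, mul_one]
  rw [h2, Nat.cast_sum] at h1
  rw [sum_eq_zero] at h1
  · exact absurd h1 (by decide)
  · intro j hj
    have hjα : j ≠ α := fun h => hα (h ▸ hj)
    have hjβ : j ≠ β := fun h => hβ (h ▸ hj)
    rw [card_eq_sum_card_image (fun u => d.P u j), Nat.cast_sum]
    apply sum_eq_zero
    intro X hX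
    obtain ⟨u0, hu0, rfl⟩ := mem_image.1 hX
    simp only [mem_filter, mem_N] at hu0
    have h3 := d.region_even u0 j α β hu0.2 hjα hjβ.symm hαβ.symm
    rw [← h3]
    congr 2
    ext u
    simp only [mem_filter, mem_N, mem_F]
    constructor
    · rintro ⟨⟨⟨a1, a2, a3⟩, a4⟩, a5⟩
      exact ⟨⟨a4, hu0.2, a5⟩, a2, a3⟩
    · rintro ⟨⟨a1, a2, a3⟩, a4, a5⟩
      refine ⟨⟨⟨?_, a4, a5⟩, a1⟩, a3⟩
      rw [d.ha u v j a1 hj, a3, ← d.ha u0 v j hu0.2 hj]
      exact hu0.1.1

end Data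

end CoreProof

theorem core {V Rg : Type} (T : V → Finset (Fin 6)) (P : V → Fin 6 → Rg) (col : Rg → Fin 6)
    (near : Rg → Rg → Prop) (a : V → V → Prop) (hne : Nonempty V)
    (hT : ∀ v, (T v).card = 3)
    (hcol : ∀ v, ∀ i ∈ T v, col (P v i) = i)
    (hfin : ∀ v, {u | a u v}.Finite)
    (ha : ∀ u v i, i ∈ T u → i ∈ T v → (a u v ↔ near (P u i) (P v i)))
    (ha0 : ∀ u v, Disjoint (T u) (T v) → ¬ a u v)
    (hrefl : ∀ v, ∀ i ∈ T v, near (P v i) (P v i))
    (X2 : ∀ u v u', Disjoint (T u) (T u') → a u v → a u' v → False)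
    (X3 : ∀ v α β, α ≠ β → α ∉ T v → β ∉ T v → Odd {u | α ∈ T u ∧ β ∈ T u ∧ a u v}.ncard)
    (hE : ∀ X Y : Rg, X ≠ Y →
      Even {u | (∃ i ∈ T u, P u i = X) ∧ ∃ j ∈ T u, P u j = Y}.ncard) : False := by
  obtain ⟨v⟩ := hne
  exact CoreProof.Data.absurdity
    (⟨T, P, col, near, a, hT, hcol, hfin, ha, ha0, hrefl, X2, X3, hE⟩ : CoreProof.Data V Rg) v

end PolyCol
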