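import Pool.Agent.Lib.PolyCol.Basic

/-!
# Module 7: distances between regions of one colour; the crossing principle; F2

* `dist_ne_one`: if `dist p y = 1`, take a ball `ball y δ ⊆ Y` and `x ∈ X` with `dist x p < δ`; then
  `y' = y + (x - p) ∈ Y` and `dist x y' = 1`, but `x, y'` have the same colour (`rc_ne_of_dist`).
* `near_lt`, `far_gt`: `X ×ˢ Y` is preconnected, `dist` is continuous on it and never `1`.
* `crossing`: two unit circles through `q` (centres `c₁, c₂`, `q = c₁ + cis θ₁ = c₂ + cis θ₂`) crossing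
  transversally.  By `cis_chord` the points `c_i + cis (θ_i + h)` and `c_i + cis (θ_i - h)` (`h > 0` small) are
  `q + s cis (θ_i + π/2 + h/2)` and `q + s cis (θ_i - π/2 - h/2)`, `s = 2 sin (h/2)`.  Changing `θ_i` by multiples of
  `2π` and exchanging the two circles if necessary we may assume `θ₁ < θ₂ < θ₁ + π`; then for small `h`
  `θ₁ - π/2 - h/2 < θ₂ - π/2 - h/2 < θ₁ + π/2 + h/2 < θ₂ + π/2 + h/2 < θ₁ - π/2 - h/2 + 2π`;
  all four points are in regions by `CircReg`; the colours are in `A`, not in `A`, in `A`, not in `A`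
  (or the other way round): contradiction to `Alt`.
* `tri_dist` (F2): `u, v` triple points with disjoint colour sets (3 + 3 = 6 colours, so `cols v = (cols u)ᶜ`)
  at distance `< 2`: `u ≠ v`; take a common point `q` of the unit circles; they cross transversally;
  `crossing` with `A = cols v`: the circle around `u` avoids regions with colours in `cols u` by `dist_ne_one`.
-/

namespace PolyCol
namespace PolygonColoring

open Metric

variable {S : Type} (C : PolygonColoring S)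

theorem dist_ne_one {X Y : Set ℂ} (hX : X ∈ C.regions) (hY : Y ∈ C.regions) (hc : C.rc X = C.rc Y)
    {p y : ℂ} (hp : p ∈ closure X) (hy : y ∈ Y) : dist p y ≠ 1 := by
  intro hd
  obtain ⟨δ, hδ, hball⟩ := Metric.isOpen_iff.1 (C.region_open Y hY) y hy
  obtain ⟨x, hx, hxp⟩ := Metric.mem_closure_iff.1 hp δ hδ
  have hy' : y + (x - p) ∈ Y := by
    apply hball
    rw [mem_ball, dist_eq_norm]
    have e : y + (x - p) - y = x - p := by ring
    rw [e, ← dist_eq_norm, dist_comm]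
    exact hxp
  refine C.rc_ne_of_dist hX hY hx hy' ?_ hc
  rw [dist_eq_norm] at hd ⊢
  rw [← norm_neg] at hd
  rw [← norm_neg, ← hd]
  congr 1
  ring

theorem near_lt {X Y : Set ℂ} (hX : X ∈ C.regions) (hY : Y ∈ C.regions) (hc : C.rc X = C.rc Y)
    (h : near X Y) : ∀ x ∈ X, ∀ y ∈ Y, dist x y < 1 := by
  obtain ⟨x₀, hx₀, y₀, hy₀, h0⟩ := h
  intro x hx y hy
  by_contra hge
  have hge' : 1 ≤ dist x y := not_lt.1 hge
  have hpc : IsPreconnected (X ×ˢ Y) :=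
    (C.region_connected X hX).isPreconnected.prod (C.region_connected Y hY).isPreconnected
  have hcont : ContinuousOn (fun z : ℂ × ℂ => dist z.1 z.2) (X ×ˢ Y) :=
    (continuous_fst.dist continuous_snd).continuousOn
  have hiv := hpc.intermediate_value (a := (x₀, y₀)) (b := (x, y)) ⟨hx₀, hy₀⟩ ⟨hx, hy⟩ hcont
  obtain ⟨⟨a, b⟩, ⟨ha, hb⟩, hab⟩ := hiv ⟨h0.le, hge'⟩
  exact C.rc_ne_of_dist hX hY ha hb hab hc

theorem far_gt {X Y : Set ℂ} (hX : X ∈ C.regions) (hY : Y ∈ C.regions) (hc : C.rc X = C.rc Y)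
    (h : ¬ near X Y) : ∀ x ∈ X, ∀ y ∈ Y, 1 < dist x y := by
  intro x hx y hy
  have h1 : ¬ dist x y < 1 := fun hlt => h ⟨x, hx, y, hy, hlt⟩
  exact lt_of_le_of_ne (not_lt.1 h1) (fun he => C.rc_ne_of_dist hX hY hx hy he.symm hc)

theorem cis_sub_pi' (t : ℝ) : cis (t - Real.pi) = - cis t := by
  apply Complex.ext
  · rw [Complex.neg_re, cis_re, cis_re, Real.cos_sub_pi]
  · rw [Complex.neg_im, cis_im, cis_im, Real.sin_sub_pi]

theorem cis_chord' (θ h : ℝ) :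
    cis (θ + -h) = cis θ + ((2 * Real.sin (h / 2) : ℝ) : ℂ) * cis (θ - Real.pi / 2 - h / 2) := by
  rw [cis_chord]
  have e1 : θ - Real.pi / 2 - h / 2 = (θ + Real.pi / 2 + -h / 2) - Real.pi := by ring
  rw [e1, cis_sub_pi']
  have e2 : Real.sin (-h / 2) = - Real.sin (h / 2) := by
    rw [neg_div, Real.sin_neg]
  rw [e2]
  push_cast
  ring

theorem crossing_aux (hAlt : C.Alt) (hCR : C.CircReg) (q c₁ c₂ : ℂ) (θ₁ θ₂ : ℝ)
    (h1 : q = c₁ + cis θ₁) (h2 : q = c₂ + cis θ₂) (h12 : θ₁ < θ₂) (h21 : θ₂ < θ₁ + Real.pi)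
    (h₀ : ℝ) (hpos : 0 < h₀)
    (H : ∀ h h' : ℝ, h ≠ 0 → |h| < h₀ → h' ≠ 0 → |h'| < h₀ → ∀ R ∈ C.regions,
      c₁ + cis (θ₁ + h) ∈ R → ∀ R' ∈ C.regions, c₂ + cis (θ₂ + h') ∈ R' → R ≠ R') :
    False := by
  obtain ⟨ε, hε, hA⟩ := hAlt q
  obtain ⟨r₁, hr₁, hR₁⟩ := hCR c₁ θ₁
  obtain ⟨r₂, hr₂, hR₂⟩ := hCR c₂ θ₂
  obtain ⟨h, hh0, hh⟩ : ∃ h : ℝ, 0 < h ∧
      h < min (min h₀ ε) (min (min r₁ r₂) (min (θ₁ + Real.pi - θ₂) Real.pi)) := by
    apply exists_between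
    have hpi := Real.pi_pos
    refine lt_min (lt_min hpos hε) (lt_min (lt_min hr₁ hr₂) (lt_min ?_ hpi))
    linarith
  simp only [lt_min_iff] at hh
  obtain ⟨⟨hhh, hhε⟩, ⟨hh1, hh2⟩, hh3, hhπ⟩ := hh
  set s : ℝ := 2 * Real.sin (h / 2) with hs
  have hs0 : 0 < s := by
    have : 0 < Real.sin (h / 2) := Real.sin_pos_of_pos_of_lt_pi (by linarith) (by linarith)
    linarith
  have hsε : s < ε := by
    have : Real.sin (h / 2) < h / 2 := Real.sin_lt (by linarith)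
    linarith
  have hne : h ≠ 0 := ne_of_gt hh0
  have hne' : -h ≠ 0 := neg_ne_zero.2 hne
  have habs : |h| = h := abs_of_pos hh0
  have habs' : |(-h)| = h := by rw [abs_neg, habs]
  obtain ⟨Ra, hRa, hRa'⟩ := hR₁ h hne (by rw [habs]; exact hh1)
  obtain ⟨Rb, hRb, hRb'⟩ := hR₁ (-h) hne' (by rw [habs']; exact hh1)
  obtain ⟨Rc, hRc, hRc'⟩ := hR₂ h hne (by rw [habs]; exact hh2)
  obtain ⟨Rd, hRd, hRd'⟩ := hR₂ (-h) hne' (by rw [habs']; exact hh2)
  have ea : c₁ + cis (θ₁ + h) = q + (s : ℂ) * cis (θ₁ + Real.pi / 2 + h / 2) := by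
    rw [cis_chord, h1, hs]
    ring
  have eb : c₁ + cis (θ₁ + -h) = q + (s : ℂ) * cis (θ₁ - Real.pi / 2 - h / 2) := by
    rw [cis_chord', h1, hs]
    ring
  have ec : c₂ + cis (θ₂ + h) = q + (s : ℂ) * cis (θ₂ + Real.pi / 2 + h / 2) := by
    rw [cis_chord, h2, hs]
    ring
  have ed : c₂ + cis (θ₂ + -h) = q + (s : ℂ) * cis (θ₂ - Real.pi / 2 - h / 2) := by
    rw [cis_chord', h2, hs]
    ring
  have hha : |h| < h₀ := by rw [habs]; exact hhh
  have hha' : |(-h)| < h₀ := by rw [habs']; exact hhh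
  refine hA s hs0 hsε (θ₁ - Real.pi / 2 - h / 2) (θ₂ - Real.pi / 2 - h / 2)
    (θ₁ + Real.pi / 2 + h / 2) (θ₂ + Real.pi / 2 + h / 2) (by linarith) (by linarith) (by linarith)
    (by linarith) Rb hRb Rd hRd Ra hRa Rc hRc (eb ▸ hRb') (ed ▸ hRd') (ea ▸ hRa') (ec ▸ hRc')
    ?_ ?_ ?_ ?_
  · exact H (-h) (-h) hne' hha' hne' hha' Rb hRb hRb' Rd hRd hRd'
  · exact (H h (-h) hne hha hne' hha' Ra hRa hRa' Rd hRd hRd').symm
  · exact H h h hne hha hne hha Ra hRa hRa' Rc hRc hRc'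
  · exact (H (-h) h hne' hha' hne hha Rb hRb hRb' Rc hRc hRc').symm

theorem crossing (hAlt : C.Alt) (hCR : C.CircReg) (q c₁ c₂ : ℂ) (θ₁ θ₂ : ℝ)
    (h1 : q = c₁ + cis θ₁) (h2 : q = c₂ + cis θ₂) (hs : Real.sin (θ₁ - θ₂) ≠ 0)
    (A : Set S) (h₀ : ℝ) (hpos : 0 < h₀)
    (H1 : ∀ h : ℝ, h ≠ 0 → |h| < h₀ → ∀ R ∈ C.regions, c₁ + cis (θ₁ + h) ∈ R → C.rc R ∈ A)
    (H2 : ∀ h : ℝ, h ≠ 0 → |h| < h₀ → ∀ R ∈ C.regions, c₂ + cis (θ₂ + h) ∈ R → C.rc R ∉ A) :
    False := by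
  have hpi : 0 < 2 * Real.pi := by positivity
  obtain ⟨k, θ', hθ', hlo, hhi⟩ : ∃ (k : ℤ) (θ' : ℝ), θ₂ = θ' + k * (2 * Real.pi) ∧ θ₁ ≤ θ' ∧
      θ' < θ₁ + 2 * Real.pi := by
    refine ⟨toIcoDiv hpi θ₁ θ₂, toIcoMod hpi θ₁ θ₂, ?_, (toIcoMod_mem_Ico hpi θ₁ θ₂).1,
      (toIcoMod_mem_Ico hpi θ₁ θ₂).2⟩
    rw [toIcoMod, zsmul_eq_mul]
    ring
  have hsin : Real.sin (θ₁ - θ') ≠ 0 := by
    have e : θ₁ - θ₂ = (θ₁ - θ') - k * (2 * Real.pi) := by rw [hθ']; ring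
    rwa [e, Real.sin_sub_int_mul_two_pi] at hs
  have hcis : ∀ h : ℝ, cis (θ₂ + h) = cis (θ' + h) := by
    intro h
    have e : θ₂ + h = (θ' + h) + k * (2 * Real.pi) := by rw [hθ']; ring
    rw [e, cis_add_int]
  have h2' : q = c₂ + cis θ' := by
    rw [h2]
    have := hcis 0
    rw [add_zero, add_zero] at this
    rw [this]
  have hne1 : θ₁ ≠ θ' := by
    intro e
    apply hsin
    rw [e, sub_self, Real.sin_zero]
  have hne2 : θ' ≠ θ₁ + Real.pi := by
    intro e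
    apply hsin
    have e' : θ₁ - θ' = - Real.pi := by rw [e]; ring
    rw [e', Real.sin_neg, Real.sin_pi, neg_zero]
  have hlo' : θ₁ < θ' := lt_of_le_of_ne hlo hne1
  rcases lt_or_gt_of_ne hne2 with hlt | hgt
  · refine C.crossing_aux hAlt hCR q c₁ c₂ θ₁ θ' h1 h2' hlo' hlt h₀ hpos ?_
    intro h h' hh hhl hh' hhl' R hR hRm R' hR' hRm' he
    have a1 := H1 h hh hhl R hR hRm
    have a2 := H2 h' hh' hhl' R' hR' (by rw [hcis]; exact hRm')
    rw [he] at a1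
    exact a2 a1
  · have hc1 : ∀ h : ℝ, cis (θ₁ + 2 * Real.pi + h) = cis (θ₁ + h) := by
      intro h
      have e : θ₁ + 2 * Real.pi + h = (θ₁ + h) + 2 * Real.pi := by ring
      rw [e, cis_add_two_pi]
    have h1' : q = c₁ + cis (θ₁ + 2 * Real.pi) := by
      rw [cis_add_two_pi]
      exact h1
    refine C.crossing_aux hAlt hCR q c₂ c₁ θ' (θ₁ + 2 * Real.pi) h2' h1' hhi (by linarith) h₀ hpos ?_
    intro h h' hh hhl hh' hhl' R hR hRm R' hR' hRm' he
    have a1 := H1 h' hh' hhl' R' hR' (by rw [← hc1]; exact hRm')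
    have a2 := H2 h hh hhl R hR (by rw [hcis]; exact hRm)
    rw [he] at a2
    exact a2 a1

/-- two unit circles with centres at distance in `(0, 2)` cross transversally -/
theorem exists_cross (u v : ℂ) (h0 : u ≠ v) (h2 : dist u v < 2) :
    ∃ θ₁ θ₂ : ℝ, u + cis θ₁ = v + cis θ₂ ∧ Real.sin (θ₁ - θ₂) ≠ 0 := by
  obtain ⟨φ, hφ⟩ := exists_polar (v - u)
  set d : ℝ := ‖v - u‖ with hd
  have hd0 : 0 < d := norm_pos_iff.2 (sub_ne_zero.2 (Ne.symm h0))
  have hd2 : d < 2 := by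
    rw [hd, ← dist_eq_norm, dist_comm]
    exact h2
  set ψ : ℝ := Real.arccos (d / 2) with hψ
  have hcos : Real.cos ψ = d / 2 := Real.cos_arccos (by linarith) (by linarith)
  have hψ0 : 0 < ψ := Real.arccos_pos.2 (by linarith)
  have hψ1 : ψ < Real.pi / 2 := Real.arccos_lt_pi_div_two.2 (by linarith)
  refine ⟨φ + ψ, φ + Real.pi - ψ, ?_, ?_⟩
  · have hv : v = u + (d : ℂ) * cis φ := by rw [← hφ]; ring
    have key : cis (φ + ψ) = (d : ℂ) * cis φ + cis (φ + Real.pi - ψ) := by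
      have e1 : φ + Real.pi - ψ = φ - ψ + Real.pi := by ring
      have hd' : d = 2 * Real.cos ψ := by rw [hcos]; ring
      apply Complex.ext
      · rw [Complex.add_re, Complex.re_ofReal_mul, cis_re, cis_re, cis_re, e1, Real.cos_add_pi,
          Real.cos_add, Real.cos_sub, hd']
        ring
      · rw [Complex.add_im, Complex.im_ofReal_mul, cis_im, cis_im, cis_im, e1, Real.sin_add_pi,
          Real.sin_add, Real.sin_sub, hd']
        ring
    rw [key]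
    conv_rhs => rw [hv]
    ring
  · have e : φ + ψ - (φ + Real.pi - ψ) = 2 * ψ - Real.pi := by ring
    rw [e, Real.sin_sub_pi]
    have : 0 < Real.sin (2 * ψ) := Real.sin_pos_of_pos_of_lt_pi (by linarith) (by linarith)
    intro h'
    linarith

theorem tri_dist (C : PolygonColoring (Fin 6)) (hAlt : C.Alt) (hCR : C.CircReg)
    (hcols : ∀ p, C.IsTri p → (C.cols p).ncard = 3) {u v : ℂ} (hu : C.IsTri u) (hv : C.IsTri v)
    (hd : Disjoint (C.cols u) (C.cols v)) : 2 ≤ dist u v := by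
  by_contra hlt
  have hlt' : dist u v < 2 := not_le.1 hlt
  have hne : u ≠ v := by
    rintro rfl
    have h3 := hcols u hu
    rw [disjoint_self] at hd
    rw [hd] at h3
    simp at h3
  obtain ⟨θ₁, θ₂, hq, hs⟩ := exists_cross u v hne hlt'
  have huniv : C.cols u ∪ C.cols v = Set.univ := by
    apply Set.eq_of_subset_of_ncard_le (Set.subset_univ _) _ Set.finite_univ
    rw [Set.ncard_union_eq hd (Set.toFinite _) (Set.toFinite _), hcols u hu, hcols v hv,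
      Set.ncard_univ, Nat.card_eq_fintype_card, Fintype.card_fin]
  have havoid : ∀ (w : ℂ) (t : ℝ), ∀ R ∈ C.regions, w + cis t ∈ R → C.rc R ∉ C.cols w := by
    rintro w t R hR hm ⟨X, hX, hwX, hc⟩
    refine C.dist_ne_one hX hR hc hwX hm ?_
    rw [dist_eq_norm, sub_add_cancel_left, norm_neg, norm_cis]
  refine C.crossing hAlt hCR (u + cis θ₁) u v θ₁ θ₂ rfl hq hs (C.cols v) 1 one_pos ?_ ?_
  · intro h _ _ R hR hm
    have h1 := havoid u _ R hR hm
    have h2 : C.rc R ∈ C.cols u ∪ C.cols v := by rw [huniv]; trivial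
    exact h2.resolve_left h1
  · intro h _ _ R hR hm
    exact havoid v _ R hR hm

end PolygonColoring
end PolyCol
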