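import Mathlib

/-!
# Polygon colourings of the Euclidean plane (MP_4637ab_co)

The Euclidean plane is `ℂ` with its usual distance.
-/

namespace PolyCol

open Metric

/-- A polygon colouring of the plane with colour set `S`: a colour for every point such that points at
distance `1` have different colours, together with a locally finite partition of the plane into
vertices (points), borders (open line segments whose end points are vertices) and regions (open polygons:
nonempty bounded connected open sets, whose boundary therefore consists of borders and vertices), such that
the colour is constant on each region. -/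
structure PolygonColoring (S : Type) where
  /-- the colour of each point -/
  color : ℂ → S
  /-- the set of vertices -/
  vertices : Set ℂ
  /-- the set of borders -/
  borders : Set (Set ℂ)
  /-- the set of regions -/
  regions : Set (Set ℂ)
  /-- points at distance `1` have different colours -/
  unit_dist : ∀ x y : ℂ, dist x y = 1 → color x ≠ color y
  /-- every point is a vertex, or on a border, or in a region -/
  cover : ∀ x : ℂ, x ∈ vertices ∨ (∃ b ∈ borders, x ∈ b) ∨ ∃ R ∈ regions, x ∈ R
  /-- different borders are disjoint -/
  borders_disjoint : ∀ b ∈ borders, ∀ b' ∈ borders, b ≠ b' → Disjoint b b'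
  /-- different regions are disjoint -/
  regions_disjoint : ∀ R ∈ regions, ∀ R' ∈ regions, R ≠ R' → Disjoint R R'
  /-- no vertex is on a border -/
  vertex_border : ∀ v ∈ vertices, ∀ b ∈ borders, v ∉ b
  /-- no vertex is in a region -/
  vertex_region : ∀ v ∈ vertices, ∀ R ∈ regions, v ∉ R
  /-- borders are disjoint from regions -/
  border_region : ∀ b ∈ borders, ∀ R ∈ regions, Disjoint b R
  /-- a border is an open line segment whose two end points are vertices -/
  border_segment : ∀ b ∈ borders, ∃ x ∈ vertices, ∃ y ∈ vertices, x ≠ y ∧ b = openSegment ℝ x y
  /-- regions are open -/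
  region_open : ∀ R ∈ regions, IsOpen R
  /-- regions are nonempty and connected -/
  region_connected : ∀ R ∈ regions, IsConnected R
  /-- regions are bounded -/
  region_bounded : ∀ R ∈ regions, Bornology.IsBounded R
  /-- the colour is constant on each region -/
  color_const : ∀ R ∈ regions, ∀ x ∈ R, ∀ y ∈ R, color x = color y
  /-- two regions whose boundaries contain a common vertex or a common border have different colours -/
  adjacent_ne : ∀ R ∈ regions, ∀ R' ∈ regions, R ≠ R' →
    ((∃ v ∈ vertices, v ∈ frontier R ∧ v ∈ frontier R') ∨
      (∃ b ∈ borders, b ⊆ frontier R ∧ b ⊆ frontier R')) →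
    ∀ x ∈ R, ∀ y ∈ R', color x ≠ color y
  /-- at every vertex two of the borders ending at it make an angle different from `π` -/
  vertex_angle : ∀ v ∈ vertices, ∃ x y : ℂ, x ≠ v ∧ y ≠ v ∧
    openSegment ℝ v x ∈ borders ∧ openSegment ℝ v y ∈ borders ∧
    openSegment ℝ v x ≠ openSegment ℝ v y ∧ EuclideanGeometry.angle x v y ≠ Real.pi
  /-- local finiteness: every disk meets only finitely many regions, borders and vertices -/
  locally_finite : ∀ (x : ℂ) (r : ℝ),
    {R | R ∈ regions ∧ (R ∩ closedBall x r).Nonempty}.Finite ∧
    {b | b ∈ borders ∧ (b ∩ closedBall x r).Nonempty}.Finite ∧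
    (vertices ∩ closedBall x r).Finite

namespace PolygonColoring

variable {S : Type} (C : PolygonColoring S)

/-- the degree of `v`: the number of borders having `v` as an end point -/
noncomputable def degree (v : ℂ) : ℕ∞ :=
  {b | b ∈ C.borders ∧ ∃ x, x ≠ v ∧ b = openSegment ℝ v x}.encard

/-- every vertex has degree at most `3` -/
def DegLE3 : Prop := ∀ v ∈ C.vertices, C.degree v ≤ 3

end PolygonColoring

end PolyCol
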