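import Pool.Agent.Lib.PolyCol.Basic

/-!
# Module 12a: borders and the rays of a word; pure parity check

* `ray_word`: a border `β` containing `p + s e` for all small `s > 0`: its points are in no region, so
  `e = cis φ`, `φ ∈ [a, a + 2π)`, `φ` is neither `a` nor in an open sector, so `φ = τ j`, `1 ≤ j ≤ n`, and `β = b j`
  (`border_eq`).
* `border_inj`: if `b i = b j`, `1 ≤ i < j ≤ n`: the segment `b i` lies on a line; the line (closed) contains
  `p` (limit `s → 0`) and the two rays, so `cis (τ j) = ± cis (τ i)`, hence `τ j = τ i + π` (both in `(a, a+2π)`,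
  `τ i < τ j`); and `p ∈ b i` by convexity.
* `word_parity` (pure): labels `c 0, ..., c n = c 0`, `n ≤ 3`, `r ≤ n`.  Finite case check
  (`interval_cases n <;> interval_cases r`, then case distinctions on equalities).
-/

namespace PolyCol

theorem ncard_lt_zero (P : ℕ → Prop) : {j : ℕ | j < 0 ∧ P j}.ncard = 0 := by
  have : {j : ℕ | j < 0 ∧ P j} = ∅ := by
    ext j; simp
  rw [this, Set.ncard_empty]

theorem ncard_lt_succ (P : ℕ → Prop) (r : ℕ) :
    {j : ℕ | j < r + 1 ∧ P j}.ncard = {j : ℕ | j < r ∧ P j}.ncard + ind (P r) := by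
  have hfin : {j : ℕ | j < r ∧ P j}.Finite :=
    (Set.finite_Iio r).subset (fun j hj => hj.1)
  by_cases h : P r
  · rw [ind_of h]
    have : {j : ℕ | j < r + 1 ∧ P j} = insert r {j : ℕ | j < r ∧ P j} := by
      ext j
      simp only [Set.mem_ofPred_eq, Set.mem_insert_iff]
      constructor
      · rintro ⟨h1, h2⟩
        rcases Nat.lt_succ_iff_lt_or_eq.mp h1 with h3 | h3
        · exact Or.inr ⟨h3, h2⟩
        · exact Or.inl h3
      · rintro (h1 | ⟨h1, h2⟩)
        · subst h1; exact ⟨Nat.lt_succ_self _, h⟩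
        · exact ⟨Nat.lt_succ_of_lt h1, h2⟩
    rw [this, Set.ncard_insert_of_notMem (by simp) hfin]
  · rw [ind_of_not h, add_zero]
    congr 1
    ext j
    simp only [Set.mem_ofPred_eq]
    constructor
    · rintro ⟨h1, h2⟩
      rcases Nat.lt_succ_iff_lt_or_eq.mp h1 with h3 | h3
      · exact ⟨h3, h2⟩
      · subst h3; exact absurd h2 h
    · rintro ⟨h1, h2⟩
      exact ⟨Nat.lt_succ_of_lt h1, h2⟩

/-- pure case check; `T` is the set of colours of `v` -/
theorem word_parity {ι : Type} (c : ℕ → ι) (n r : ℕ) (hn : n ≤ 3) (hr : r ≤ n) (hc : c n = c 0)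
    (α β : ι) (hαβ : α ≠ β) (T : Set ι) (hα : α ∉ T) (hβ : β ∉ T) (h0 : c 0 ∉ T) (hrT : c r ∉ T)
    (hF : n = 3 → c 0 ≠ c 1 → c 1 ≠ c 2 → c 0 ≠ c 2 → c 1 ∈ T ∨ c 2 ∈ T) :
    Even ({j : ℕ | j < r ∧ ((c j = α ∧ c (j + 1) = β) ∨ (c j = β ∧ c (j + 1) = α))}.ncard +
      ind ((c 0 = α ∧ c r = β) ∨ (c 0 = β ∧ c r = α)) +
      ind (n = 3 ∧ c 0 ≠ c 1 ∧ c 1 ≠ c 2 ∧ c 0 ≠ c 2 ∧ (∃ i < 3, c i = α) ∧
        (∃ i < 3, c i = β) ∧ ∃ i, 0 < i ∧ i < r ∧ c i ∈ T)) := by
  have e3 : ∀ x : ι, (∃ i < 3, c i = x) ↔ (c 0 = x ∨ c 1 = x ∨ c 2 = x) := by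
    intro x
    constructor
    · rintro ⟨i, hi, h⟩
      interval_cases i <;> tauto
    · rintro (h | h | h)
      · exact ⟨0, by norm_num, h⟩
      · exact ⟨1, by norm_num, h⟩
      · exact ⟨2, by norm_num, h⟩
  have eT : ∀ r : ℕ, r ≤ 3 → ((∃ i, 0 < i ∧ i < r ∧ c i ∈ T) ↔
      ((1 < r ∧ c 1 ∈ T) ∨ (2 < r ∧ c 2 ∈ T))) := by
    intro r hr
    constructor
    · rintro ⟨i, hi, hir, h⟩
      have : i < 3 := by omega
      interval_cases i
      · exact Or.inl ⟨hir, h⟩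
      · exact Or.inr ⟨hir, h⟩
    · rintro (⟨h1, h⟩ | ⟨h1, h⟩)
      · exact ⟨1, by norm_num, h1, h⟩
      · exact ⟨2, by norm_num, h1, h⟩
  rw [e3, e3, eT r (by omega)]
  interval_cases n
  all_goals interval_cases r
  all_goals simp only [ncard_lt_succ, ncard_lt_zero, Nat.reduceAdd, zero_add]
  all_goals unfold ind
  all_goals split_ifs
  all_goals first | decide | (exfalso; grind)

/-- pure case check for a full turn -/
theorem word_parity_full {ι : Type} (c : ℕ → ι) (n : ℕ) (hn : n ≤ 3) (hc : c n = c 0)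
    (α β : ι) (hαβ : α ≠ β) :
    Even ({j : ℕ | j < n ∧ ((c j = α ∧ c (j + 1) = β) ∨ (c j = β ∧ c (j + 1) = α))}.ncard +
      ind (n = 3 ∧ c 0 ≠ c 1 ∧ c 1 ≠ c 2 ∧ c 0 ≠ c 2 ∧ (∃ i < 3, c i = α) ∧
        (∃ i < 3, c i = β))) := by
  have e3 : ∀ x : ι, (∃ i < 3, c i = x) ↔ (c 0 = x ∨ c 1 = x ∨ c 2 = x) := by
    intro x
    constructor
    · rintro ⟨i, hi, h⟩
      interval_cases i <;> tauto
    · rintro (h | h | h)
      · exact ⟨0, by norm_num, h⟩
      · exact ⟨1, by norm_num, h⟩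
      · exact ⟨2, by norm_num, h⟩
  rw [e3, e3]
  interval_cases n
  all_goals simp only [ncard_lt_succ, ncard_lt_zero, Nat.reduceAdd, zero_add]
  all_goals unfold ind
  all_goals split_ifs
  all_goals first | decide | (exfalso; grind)

namespace PolygonColoring

variable {S : Type} (C : PolygonColoring S)

theorem exists_sector {n : ℕ} {τ : ℕ → ℝ} {φ : ℝ} (h0 : τ 0 ≤ φ) :
    ∀ m : ℕ, m ≤ n + 1 → φ < τ m → ∃ j, j < m ∧ τ j ≤ φ ∧ φ < τ (j + 1) := by
  intro m
  induction m with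
  | zero => intro _ h; exact absurd h (not_lt.mpr h0)
  | succ m ih =>
    intro hm h
    rcases le_or_gt (τ m) φ with h1 | h1
    · exact ⟨m, Nat.lt_succ_self _, h1, h⟩
    · obtain ⟨j, hj, h2⟩ := ih (by omega) h1
      exact ⟨j, Nat.lt_succ_of_lt hj, h2⟩

theorem ray_word {p : ℂ} {a ε : ℝ} {n : ℕ} {τ : ℕ → ℝ} {X b : ℕ → Set ℂ}
    (hW : C.Word p a ε n τ X b) {β : Set ℂ} (hβ : β ∈ C.borders) {e : ℂ} (he : ‖e‖ = 1)
    {s₀ : ℝ} (hs₀ : 0 < s₀) (h : ∀ s : ℝ, 0 < s → s < s₀ → p + s * e ∈ β) :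
    ∃ j, 1 ≤ j ∧ j ≤ n ∧ e = cis (τ j) ∧ β = b j := by
  obtain ⟨θ, hθ⟩ := exists_cis_of_norm_eq_one he
  have h2pi : 0 < 2 * Real.pi := by positivity
  -- shift θ into [a, a + 2π)
  obtain ⟨φ, hφ1, hφ2, hφ3⟩ : ∃ φ : ℝ, a ≤ φ ∧ φ < a + 2 * Real.pi ∧ e = cis φ := by
    refine ⟨toIcoMod h2pi a θ, (toIcoMod_mem_Ico h2pi a θ).1, (toIcoMod_mem_Ico h2pi a θ).2, ?_⟩
    rw [hθ, cis_eq_iff]
    refine ⟨toIcoDiv h2pi a θ, ?_⟩
    have := toIcoMod_add_toIcoDiv_zsmul h2pi a θ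
    rw [zsmul_eq_mul] at this
    exact this.symm
  set s : ℝ := min s₀ ε / 2 with hs
  have hmin : 0 < min s₀ ε := lt_min hs₀ hW.ε_pos
  have hs0 : 0 < s := by rw [hs]; linarith
  have hs1 : s < s₀ := by
    have := min_le_left s₀ ε
    rw [hs]; linarith
  have hs2 : s < ε := by
    have := min_le_right s₀ ε
    rw [hs]; linarith
  have hmem := h s hs0 hs1
  rw [hφ3] at hmem
  have hnotreg : ∀ R ∈ C.regions, p + s * cis φ ∉ R := fun R hR hx =>
    Set.disjoint_left.1 (C.border_region β hβ R hR) hmem hx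
  obtain ⟨j, hj, hj1, hj2⟩ := exists_sector (n := n) (τ := τ) (φ := φ) (by rw [hW.start]; exact hφ1)
    (n + 1) le_rfl (by rw [hW.stop]; exact hφ2)
  have hjn : j ≤ n := by omega
  rcases hj1.lt_or_eq with h1 | h1
  · exact absurd (hW.sector j hjn φ h1 hj2 s hs0 hs2) (hnotreg _ (hW.reg j hjn))
  · rcases Nat.eq_zero_or_pos j with h3 | h3
    · subst h3
      rw [hW.start] at h1
      subst h1
      exact absurd (hW.base s hs0 hs2) (hnotreg _ (hW.reg 0 (Nat.zero_le _)))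
    · refine ⟨j, h3, hjn, by rw [hφ3, h1], ?_⟩
      have hr := hW.ray j h3 hjn s hs0 hs2
      rw [h1] at hr
      exact C.border_eq hβ (hW.bord j h3 hjn) hmem hr

theorem Word.tau_mono {p : ℂ} {a ε : ℝ} {n : ℕ} {τ : ℕ → ℝ} {X b : ℕ → Set ℂ}
    (hW : C.Word p a ε n τ X b) {i j : ℕ} (hij : i < j) (hj : j ≤ n + 1) : τ i < τ j := by
  induction j with
  | zero => omega
  | succ j ih =>
    rcases Nat.lt_succ_iff_lt_or_eq.mp hij with h | h
    · exact (ih h (by omega)).trans (hW.mono j (by omega))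
    · subst h; exact hW.mono i (by omega)

theorem dir_of_segment {p u x y : ℂ} {ε : ℝ} (hε : 0 < ε)
    (h : ∀ s : ℝ, 0 < s → s < ε → p + s * u ∈ openSegment ℝ x y) :
    ∃ l : ℝ, u = l * (y - x) := by
  have h1 := h (ε / 2) (by linarith) (by linarith)
  have h2 := h (ε / 4) (by linarith) (by linarith)
  rw [openSegment_eq_image'] at h1 h2
  obtain ⟨t1, _, e1⟩ := h1
  obtain ⟨t2, _, e2⟩ := h2
  refine ⟨(t1 - t2) / (ε / 4), ?_⟩
  simp only [Complex.real_smul] at e1 e2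
  have hε' : (ε : ℂ) ≠ 0 := by exact_mod_cast hε.ne'
  push_cast at e1 e2 ⊢
  field_simp
  linear_combination 4 * e2 - 4 * e1

theorem border_inj {p : ℂ} {a ε : ℝ} {n : ℕ} {τ : ℕ → ℝ} {X b : ℕ → Set ℂ}
    (hW : C.Word p a ε n τ X b) {i j : ℕ} (hi : 1 ≤ i) (hij : i < j) (hj : j ≤ n)
    (h : b i = b j) : τ j = τ i + Real.pi ∧ p ∈ b i := by
  have hin : i ≤ n := by omega
  have hj1 : 1 ≤ j := by omega
  obtain ⟨x, _, y, _, hxy, hb⟩ := C.border_segment (b i) (hW.bord i hi hin)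
  have hri := hW.ray i hi hin
  have hrj := hW.ray j hj1 hj
  rw [← h] at hrj
  have hri' := hri
  have hrj' := hrj
  rw [hb] at hri' hrj'
  obtain ⟨l, hl⟩ := dir_of_segment hW.ε_pos hri'
  obtain ⟨m, hm⟩ := dir_of_segment hW.ε_pos hrj'
  have nl := norm_cis (τ i)
  have nm := norm_cis (τ j)
  rw [hl, norm_mul, Complex.norm_real, Real.norm_eq_abs] at nl
  rw [hm, norm_mul, Complex.norm_real, Real.norm_eq_abs] at nm
  have hd : 0 < ‖y - x‖ := norm_pos_iff.mpr (sub_ne_zero.mpr hxy.symm)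
  have habs : |l| = |m| := by
    have : |l| * ‖y - x‖ = |m| * ‖y - x‖ := by rw [nl, nm]
    exact mul_right_cancel₀ hd.ne' this
  have ht0 : a < τ i := by
    have := hW.tau_mono C (i := 0) (j := i) (by omega) (by omega)
    rwa [hW.start] at this
  have ht1 : τ i < τ j := hW.tau_mono C hij (by omega)
  have ht2 : τ j < a + 2 * Real.pi := by
    have := hW.tau_mono C (i := j) (j := n + 1) (by omega) le_rfl
    rwa [hW.stop] at this
  have hpi := Real.pi_pos
  rcases abs_eq_abs.mp habs with e | e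
  · exfalso
    have : cis (τ i) = cis (τ j) := by rw [hl, hm, e]
    obtain ⟨k, hk⟩ := (cis_eq_iff _ _).mp this
    have h1 : (k : ℝ) * (2 * Real.pi) < 0 := by linarith
    have h2 : -(1 : ℝ) * (2 * Real.pi) < (k : ℝ) * (2 * Real.pi) := by linarith
    have h3 : (k : ℝ) < 0 := by
      by_contra hc
      push Not at hc
      have : 0 ≤ (k : ℝ) * (2 * Real.pi) := by positivity
      linarith
    have h4 : (-1 : ℝ) < k := lt_of_mul_lt_mul_right h2 (by positivity)
    have h5 : k < 0 := by exact_mod_cast h3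
    have h6 : -1 < k := by exact_mod_cast h4
    omega
  · have hneg : cis (τ j) = cis (τ i + Real.pi) := by
      have h1 : cis (τ i + Real.pi) = - cis (τ i) := by
        rw [cis_add]
        have : cis Real.pi = -1 := by
          unfold cis
          exact Complex.exp_pi_mul_I
        rw [this]; ring
      rw [h1, hl, hm, e]
      push_cast; ring
    refine ⟨?_, ?_⟩
    · obtain ⟨k, hk⟩ := (cis_eq_iff _ _).mp hneg
      have h1 : (k : ℝ) * (2 * Real.pi) < 1 * (2 * Real.pi) := by linarith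
      have h2 : -(1 : ℝ) * (2 * Real.pi) < (k : ℝ) * (2 * Real.pi) := by linarith
      have h3 : (k : ℝ) < 1 := lt_of_mul_lt_mul_right h1 (by positivity)
      have h4 : (-1 : ℝ) < k := lt_of_mul_lt_mul_right h2 (by positivity)
      have h5 : k < 1 := by exact_mod_cast h3
      have h6 : -1 < k := by exact_mod_cast h4
      have h7 : k = 0 := by omega
      rw [h7] at hk
      simpa using hk
    · have h1 := hri (ε / 2) (by linarith [hW.ε_pos]) (by linarith [hW.ε_pos])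
      have h2 := hrj (ε / 2) (by linarith [hW.ε_pos]) (by linarith [hW.ε_pos])
      rw [hb] at h1 h2 ⊢
      have hconv := (convex_openSegment (𝕜 := ℝ) x y) h1 h2 (by norm_num : (0:ℝ) ≤ 1 / 2)
        (by norm_num : (0:ℝ) ≤ 1 / 2) (by norm_num)
      have hsum : cis (τ j) = - cis (τ i) := by
        rw [hl, hm, e]; push_cast; ring
      have e2 : (1 / 2 : ℝ) • (p + ((ε / 2 : ℝ) : ℂ) * cis (τ i)) +
          (1 / 2 : ℝ) • (p + ((ε / 2 : ℝ) : ℂ) * cis (τ j)) = p := by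
        rw [hsum]
        simp only [Complex.real_smul]
        push_cast
        ring
      rw [e2] at hconv
      exact hconv

end PolygonColoring
end PolyCol
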