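import Pool.Agent.Lib.PolyCol.Tri
import Pool.Agent.Lib.PolyCol.Rays

/-!
# Module 12b: local parity at a vertex inside the disc (black boxes: `Tri`, `Rays`)

For a vertex `p ∈ ball v r` all rays are inner rays.  Take a word at `p`; the borders `b j` (`1 ≤ j ≤ n`) are
distinct (`border_inj`: `p ∈ b i` is excluded by `vertex_border`); `IsEnd (ball v r) p β` for a border `β` means
that `β` is one of the `b j` (`ray_word`; conversely `p + s cis (τ j) ∈ b j ∩ ball v r` for small `s`).  By `sides`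
`isAB g α β (b j)` iff `{g (X (j-1)), g (X j)} = {α, β}`.  So the first number is the one in `word_parity_full`
with `c = g ∘ X`; the second one agrees by `tri_word`, `word_regions`, `word_closure` and `LabelInj`.
-/

namespace PolyCol
namespace PolygonColoring

open Metric

variable {S : Type} (C : PolygonColoring S)

theorem local_vertex (hw : ∀ p, ∃ a ε n τ X b, C.Word p a ε n τ X b) (hCB : C.CloseBorder)
    {ι : Type} (g : Set ℂ → ι) (hg : C.LabelInj g) (α β : ι) (hαβ : α ≠ β)
    {v : ℂ} {r : ℝ} {p : ℂ} (hp : p ∈ C.vertices) (hpv : dist p v < r) :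
    Even ({b | b ∈ C.borders ∧ C.isAB g α β b ∧ IsEnd (ball v r) p b}.ncard +
      ind (C.IsTri p ∧ (∃ X ∈ C.regions, p ∈ closure X ∧ g X = α) ∧
        (∃ Y ∈ C.regions, p ∈ closure Y ∧ g Y = β))) := by
  obtain ⟨a, ε, n, τ, X, b, hW⟩ := hw p
  have hpar := word_parity_full (fun j => g (X j)) n hW.n_le
    (by show g (X n) = g (X 0); rw [hW.last]) α β hαβ
  -- the borders
  have hset : {b' | b' ∈ C.borders ∧ C.isAB g α β b' ∧ IsEnd (ball v r) p b'} =
      (fun j => b (j + 1)) '' {j : ℕ | j < n ∧ ((g (X j) = α ∧ g (X (j + 1)) = β) ∨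
        (g (X j) = β ∧ g (X (j + 1)) = α))} := by
    ext b'
    simp only [Set.mem_setOf_eq, Set.mem_image]
    constructor
    · rintro ⟨hb', hAB, hp', e, he, s₀, hs₀, h⟩
      obtain ⟨j, h1, hj, _, rfl⟩ := C.ray_word hW hb' he hs₀ (fun s h0 h1 => (h s h0 h1).1)
      obtain ⟨X', hX', Y', hY', hgX, hgY, hcX, hcY⟩ := hAB
      have hX1 := (C.sides hCB hW j h1 hj X' hX').1 hcX
      have hY1 := (C.sides hCB hW j h1 hj Y' hY').1 hcY
      refine ⟨j - 1, ⟨by omega, ?_⟩, by rw [Nat.sub_add_cancel h1]⟩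
      rw [Nat.sub_add_cancel h1]
      rcases hX1 with hX1 | hX1 <;> rcases hY1 with hY1 | hY1
      · exact absurd (by rw [← hgX, ← hgY, hX1, hY1]) hαβ
      · left; rw [← hX1, ← hY1]; exact ⟨hgX, hgY⟩
      · right; rw [← hX1, ← hY1]; exact ⟨hgY, hgX⟩
      · exact absurd (by rw [← hgX, ← hgY, hX1, hY1]) hαβ
    · rintro ⟨j, ⟨hj, hAB⟩, rfl⟩
      have hb : b (j + 1) ∈ C.borders := hW.bord (j + 1) (by omega) (by omega)
      have hsd := C.sides hCB hW (j + 1) (by omega) (by omega)
      have hXj : X j ∈ C.regions := hW.reg j (by omega)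
      have hXj1 : X (j + 1) ∈ C.regions := hW.reg (j + 1) (by omega)
      have hc1 : b (j + 1) ⊆ closure (X j) := (hsd (X j) hXj).2 (Or.inl (by simp))
      have hc2 : b (j + 1) ⊆ closure (X (j + 1)) := (hsd (X (j + 1)) hXj1).2 (Or.inr rfl)
      refine ⟨hb, ?_, ?_, cis (τ (j + 1)), norm_cis _, min ε (r - dist p v),
        lt_min hW.ε_pos (by linarith), ?_⟩
      · rcases hAB with ⟨h1, h2⟩ | ⟨h1, h2⟩
        · exact ⟨X j, hXj, X (j + 1), hXj1, h1, h2, hc1, hc2⟩
        · exact ⟨X (j + 1), hXj1, X j, hXj, h2, h1, hc2, hc1⟩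
      · exact fun h => C.vertex_border p hp _ hb h.1
      · intro s h0 h1
        refine ⟨hW.ray (j + 1) (by omega) (by omega) s h0 (h1.trans_le (min_le_left _ _)), ?_⟩
        rw [mem_ball]
        have h2 : s < r - dist p v := h1.trans_le (min_le_right _ _)
        have h3 : dist (p + s * cis (τ (j + 1))) p = s := by
          rw [dist_self_add_left, norm_mul, norm_cis, mul_one, Complex.norm_real,
            Real.norm_eq_abs, abs_of_pos h0]
        have h4 := dist_triangle (p + s * cis (τ (j + 1))) p v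
        linarith
  have hinj : Set.InjOn (fun j => b (j + 1)) {j : ℕ | j < n ∧ ((g (X j) = α ∧ g (X (j + 1)) = β) ∨
        (g (X j) = β ∧ g (X (j + 1)) = α))} := by
    have key : ∀ i j, i < j → j < n → b (i + 1) ≠ b (j + 1) := by
      intro i j hij hj h
      have := (C.border_inj hW (i := i + 1) (j := j + 1) (by omega) (by omega) (by omega) h).2
      exact C.vertex_border p hp _ (hW.bord (i + 1) (by omega) (by omega)) this
    intro i hi j hj h
    rcases lt_trichotomy i j with h1 | h1 | h1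
    · exact absurd h (key i j h1 hj.1)
    · exact h1
    · exact absurd h.symm (key j i h1 hi.1)
  rw [hset, hinj.ncard_image]
  -- the triple points
  have hiff : (C.IsTri p ∧ (∃ X ∈ C.regions, p ∈ closure X ∧ g X = α) ∧
        (∃ Y ∈ C.regions, p ∈ closure Y ∧ g Y = β)) ↔
      (n = 3 ∧ g (X 0) ≠ g (X 1) ∧ g (X 1) ≠ g (X 2) ∧ g (X 0) ≠ g (X 2) ∧
        (∃ i < 3, g (X i) = α) ∧ (∃ i < 3, g (X i) = β)) := by
    rw [C.tri_word hW]
    have hlab : ∀ i j, i ≤ n → j ≤ n → (g (X i) ≠ g (X j) ↔ X i ≠ X j) := by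
      intro i j hi hj
      rw [not_iff_not]
      constructor
      · exact hg p (X i) (hW.reg i hi) (X j) (hW.reg j hj) (C.word_closure hW i hi)
          (C.word_closure hW j hj)
      · intro h; rw [h]
    have hex : n = 3 → ∀ γ : ι, (∃ X ∈ C.regions, p ∈ closure X ∧ g X = γ) ↔
        ∃ i < 3, g (X i) = γ := by
      intro hn γ
      constructor
      · rintro ⟨R, hR, hpR, rfl⟩
        obtain ⟨j, hj, rfl⟩ := C.word_regions hW R hR hpR
        rcases Nat.lt_or_ge j 3 with h | h
        · exact ⟨j, h, rfl⟩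
        · have h3 : j = n := by omega
          refine ⟨0, by omega, ?_⟩
          rw [h3, hW.last]
      · rintro ⟨i, hi, h⟩
        exact ⟨X i, hW.reg i (by omega), C.word_closure hW i (by omega), h⟩
    constructor
    · rintro ⟨⟨hn, h01, h12, h02⟩, hα, hβ⟩
      exact ⟨hn, (hlab 0 1 (by omega) (by omega)).2 h01, (hlab 1 2 (by omega) (by omega)).2 h12,
        (hlab 0 2 (by omega) (by omega)).2 h02, (hex hn α).1 hα, (hex hn β).1 hβ⟩
    · rintro ⟨hn, h01, h12, h02, hα, hβ⟩
      exact ⟨⟨hn, (hlab 0 1 (by omega) (by omega)).1 h01, (hlab 1 2 (by omega) (by omega)).1 h12,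
        (hlab 0 2 (by omega) (by omega)).1 h02⟩, (hex hn α).2 hα, (hex hn β).2 hβ⟩
  rw [hiff]
  exact hpar

end PolygonColoring
end PolyCol
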