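import Pool.Agent.Lib.PolyCol.Handshake
import Pool.Agent.Lib.PolyCol.LocalVertex

/-!
# Module 14: two different regions have an even number of common triple points (black boxes: imports)

`X ≠ Y` regions; `X` is bounded; choose `r` with `closure X ⊆ ball 0 r`.  `F = {b ∈ borders | isAB id X Y b}`; such
`b` are contained in `closure X`, so meet (are contained in) `ball 0 r`; finite by `locally_finite`.  Ends:
`isEnd_mem`; `p ∈ closure b ⊆ closure X` so `dist p 0 < r`, hence `p` is a vertex.  `Q = vertices ∩ ball 0 r`.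
`handshake` and `local_vertex` with `g = id` (`LabelInj id` is trivial).  Triple points are vertices
(`tri_vertex`).
* `finite_links`: triple points with `lnk u v` are vertices in `closedBall v 1`.
-/

namespace PolyCol
namespace PolygonColoring

open Metric

namespace EvenPairsAux

/-- an end of `b ∩ K` is in the closure of `b` -/
theorem isEnd_closure {K : Set ℂ} {p : ℂ} {b : Set ℂ} (h : IsEnd K p b) : p ∈ closure b := by
  obtain ⟨-, e, he, s₀, hs₀, hs⟩ := h
  rw [Metric.mem_closure_iff]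
  intro ε hε
  refine ⟨p + ((min (ε / 2) (s₀ / 2) : ℝ) : ℂ) * e, (hs _ (by positivity) ?_).1, ?_⟩
  · exact lt_of_le_of_lt (min_le_right _ _) (by linarith)
  · rw [dist_eq_norm]
    have h1 : p - (p + ((min (ε / 2) (s₀ / 2) : ℝ) : ℂ) * e) = -(((min (ε / 2) (s₀ / 2) : ℝ) : ℂ) * e) := by
      ring
    rw [h1, norm_neg, norm_mul, he, mul_one, Complex.norm_real, Real.norm_eq_abs,
      abs_of_pos (by positivity)]
    exact lt_of_le_of_lt (min_le_left _ _) (by linarith)

/-- linked points are at distance at most `1` -/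
theorem lnk_dist' {S : Type} (C : PolygonColoring S) {u v : ℂ} (h : C.lnk u v) : dist u v ≤ 1 := by
  obtain ⟨X, hX, Y, hY, hc, hu, hv, x, hx, y, hy, hxy⟩ := h
  by_contra hlt
  rw [not_le] at hlt
  -- points near `u`, `v` at distance greater than `1`
  obtain ⟨x', hx', hux'⟩ := Metric.mem_closure_iff.1 hu ((dist u v - 1) / 2) (by linarith)
  obtain ⟨y', hy', hvy'⟩ := Metric.mem_closure_iff.1 hv ((dist u v - 1) / 2) (by linarith)
  have h1 : 1 < dist x' y' := by
    have := dist_triangle4 u x' y' v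
    rw [dist_comm y' v] at this
    linarith
  have hpre : IsPreconnected (X ×ˢ Y) :=
    (C.region_connected X hX).isPreconnected.prod (C.region_connected Y hY).isPreconnected
  have hcont : ContinuousOn (fun q : ℂ × ℂ => dist q.1 q.2) (X ×ˢ Y) := by
    fun_prop
  have := hpre.intermediate_value (a := (x, y)) (b := (x', y')) ⟨hx, hy⟩ ⟨hx', hy'⟩ hcont
  obtain ⟨q, hq, hq1⟩ := this ⟨le_of_lt hxy, le_of_lt h1⟩
  exact C.rc_ne_of_dist hX hY hq.1 hq.2 hq1 hc

end EvenPairsAux

theorem even_pairs {S : Type} (C : PolygonColoring S)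
    (hw : ∀ p, ∃ a ε n τ X b, C.Word p a ε n τ X b) (hCB : C.CloseBorder)
    {X Y : Set ℂ} (hX : X ∈ C.regions) (hY : Y ∈ C.regions) (hXY : X ≠ Y) :
    Even {u | C.IsTri u ∧ u ∈ closure X ∧ u ∈ closure Y}.ncard := by
  classical
  obtain ⟨r, hr⟩ : ∃ r : ℝ, closure X ⊆ ball 0 r := by
    have := (C.region_bounded X hX).closure
    exact this.subset_ball 0
  have hlf := C.locally_finite 0 r
  -- the borders between `X` and `Y`
  set F : Set (Set ℂ) := {b | b ∈ C.borders ∧ C.isAB id X Y b} with hFdef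
  have hsub : ∀ b ∈ F, b ⊆ closure X := by
    rintro b ⟨-, X', -, Y', -, h1, -, h2, -⟩
    simp only [id] at h1
    subst h1
    exact h2
  have hbne : ∀ b ∈ C.borders, b.Nonempty := by
    intro b hb
    obtain ⟨x, -, y, -, -, rfl⟩ := C.border_segment b hb
    exact ⟨midpoint ℝ x y, midpoint_mem_openSegment x y⟩
  have hbK : ∀ b ∈ F, (b ∩ ball 0 r).Nonempty := by
    intro b hb
    obtain ⟨x, hx⟩ := hbne b hb.1
    exact ⟨x, hx, hr (hsub b hb hx)⟩
  have hF : F.Finite := by
    refine hlf.2.1.subset ?_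
    intro b hb
    refine ⟨hb.1, ?_⟩
    obtain ⟨x, hx, hx'⟩ := hbK b hb
    exact ⟨x, hx, ball_subset_closedBall hx'⟩
  have hQfin : (C.vertices ∩ ball 0 r).Finite :=
    hlf.2.2.subset (Set.inter_subset_inter_right _ ball_subset_closedBall)
  set Q : Finset ℂ := hQfin.toFinset with hQdef
  have hmemQ : ∀ p, p ∈ Q ↔ p ∈ C.vertices ∧ dist p 0 < r := by
    intro p
    simp [hQdef, mem_ball]
  have hQ : ∀ b ∈ F, ∀ p, IsEnd (ball 0 r) p b → p ∈ Q := by
    intro b hb p hp
    have hcl : p ∈ closure X := by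
      have := closure_mono (hsub b hb) (EvenPairsAux.isEnd_closure hp)
      rwa [closure_closure] at this
    have hd : dist p 0 < r := hr hcl
    rcases (C.isEnd_mem hb.1 hp).2 with hv | ⟨-, hv⟩
    · exact (hmemQ p).2 ⟨hv, hd⟩
    · exact absurd hv (ne_of_lt hd)
  have hhand := C.handshake 0 r F hF (fun b hb => ⟨hb.1, hbK b hb⟩) Q hQ
  have hlab : C.LabelInj (id : Set ℂ → Set ℂ) := by
    intro p A _ B _ _ _ hAB
    exact hAB
  have hloc : ∀ p ∈ Q, Even ({b | b ∈ F ∧ IsEnd (ball 0 r) p b}.ncard +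
      ind (C.IsTri p ∧ p ∈ closure X ∧ p ∈ closure Y)) := by
    intro p hp
    obtain ⟨hpv, hpd⟩ := (hmemQ p).1 hp
    have := C.local_vertex hw hCB (id : Set ℂ → Set ℂ) hlab X Y hXY hpv hpd
    have e1 : {b | b ∈ C.borders ∧ C.isAB id X Y b ∧ IsEnd (ball 0 r) p b} =
        {b | b ∈ F ∧ IsEnd (ball 0 r) p b} := by
      ext b
      simp only [hFdef, Set.mem_setOf_eq]
      tauto
    have e2 : (C.IsTri p ∧ (∃ X' ∈ C.regions, p ∈ closure X' ∧ id X' = X) ∧
        (∃ Y' ∈ C.regions, p ∈ closure Y' ∧ id Y' = Y)) ↔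
        (C.IsTri p ∧ p ∈ closure X ∧ p ∈ closure Y) := by
      constructor
      · rintro ⟨h1, ⟨X', -, h2, h3⟩, Y', -, h4, h5⟩
        simp only [id] at h3 h5
        subst h3 h5
        exact ⟨h1, h2, h4⟩
      · rintro ⟨h1, h2, h3⟩
        exact ⟨h1, ⟨X, hX, h2, rfl⟩, Y, hY, h3, rfl⟩
    rw [e1, propext e2] at this
    exact this
  have hsum : Even (∑ p ∈ Q, ({b | b ∈ F ∧ IsEnd (ball 0 r) p b}.ncard +
      ind (C.IsTri p ∧ p ∈ closure X ∧ p ∈ closure Y))) :=
    Finset.even_sum _ hloc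
  rw [Finset.sum_add_distrib] at hsum
  have hind : Even (∑ p ∈ Q, ind (C.IsTri p ∧ p ∈ closure X ∧ p ∈ closure Y)) :=
    (Nat.even_add.1 hsum).1 hhand
  have hcard : ∑ p ∈ Q, ind (C.IsTri p ∧ p ∈ closure X ∧ p ∈ closure Y) =
      {u | C.IsTri u ∧ u ∈ closure X ∧ u ∈ closure Y}.ncard := by
    have h1 : {u | C.IsTri u ∧ u ∈ closure X ∧ u ∈ closure Y} =
        ((Q.filter fun u => C.IsTri u ∧ u ∈ closure X ∧ u ∈ closure Y : Finset ℂ) : Set ℂ) := by
      ext u
      simp only [Set.mem_setOf_eq, Finset.coe_filter]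
      constructor
      · intro h
        exact ⟨(hmemQ u).2 ⟨C.tri_vertex hw h.1, hr h.2.1⟩, h⟩
      · exact fun h => h.2
    rw [h1, Set.ncard_coe_finset, Finset.card_filter]
    refine Finset.sum_congr rfl fun p _ => ?_
    by_cases hp : C.IsTri p ∧ p ∈ closure X ∧ p ∈ closure Y
    · rw [ind_of hp, if_pos hp]
    · rw [ind_of_not hp, if_neg hp]
  rw [← hcard]
  exact hind

theorem finite_links (C : PolygonColoring (Fin 6))
    (hw : ∀ p, ∃ a ε n τ X b, C.Word p a ε n τ X b) (v : ℂ) :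
    {u | C.IsTri u ∧ C.lnk u v}.Finite := by
  refine (C.locally_finite v 1).2.2.subset ?_
  rintro u ⟨h1, h2⟩
  exact ⟨C.tri_vertex hw h1, EvenPairsAux.lnk_dist' C h2⟩

end PolygonColoring
end PolyCol
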