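import Mathlib

/-!
# Module 16a: a two-dimensional Sperner lemma (pure)

Labels `l : ℕ → ℕ → Fin 3` on `{(i,j) | i + j ≤ N}`, `l i j ≠ 0` if `i + j = N`, `l 0 j ≠ 1`, `l i 0 ≠ 2`.  Then some small
triangle `(i,j),(i+1,j),(i,j+1)` or `(i+1,j),(i,j+1),(i+1,j+1)` (inside the big one) has all three labels.
Proof: `ω (x,y) = 1` if `(x,y) = (0,1)`, `-1` if `(1,0)`, else `0` (integers); `ω(x,y)+ω(y,z)+ω(z,x) = 0` if `x,y,z` are not
all different (`decide`).  If no small triangle has all labels: for `j < N` the row sums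
`U j = ∑_{i < N-j} ω (l i j, l (i+1) j)` satisfy `U j = U (j+1) + ω (l (N-j) j, l (N-j-1) (j+1)) + ω (l 0 (j+1), l 0 j)`
(sum over the strip between rows `j` and `j+1`), the two extra terms vanish by the boundary conditions (labels in
`{1,2}` resp. `{0,2}`), `U N = 0`, but `U 0 = 1` (labels in `{0,1}`, from `l 0 0 = 0` to `l N 0 = 1`; for labels in
`{0,1}` `ω (x,y) = y - x` telescopes).
-/

namespace PolyCol

/-- The 1-cocycle of the Sperner lemma. -/
def spOm (x y : Fin 3) : ℤ := if x = 0 ∧ y = 1 then 1 else if x = 1 ∧ y = 0 then -1 else 0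

lemma spOm_tri : ∀ a b c : Fin 3, spOm a b + spOm b c + spOm c a ≠ 0 →
    ∀ x, x = a ∨ x = b ∨ x = c := by decide

lemma spOm_anti : ∀ a b : Fin 3, spOm b a = - spOm a b := by decide

lemma spOm_one_two : ∀ a b : Fin 3, a ≠ 0 → b ≠ 0 → spOm a b = 0 := by decide

lemma spOm_zero_two : ∀ a b : Fin 3, a ≠ 1 → b ≠ 1 → spOm a b = 0 := by decide

/-- `0` for the label `0`, `1` for the label `1`. -/
def spV (x : Fin 3) : ℤ := if x = 1 then 1 else 0

lemma spOm_tel : ∀ a b : Fin 3, a ≠ 2 → b ≠ 2 → spOm a b = spV b - spV a := by decide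

theorem sperner (N : ℕ) (l : ℕ → ℕ → Fin 3)
    (h0 : ∀ i j, i + j = N → l i j ≠ 0) (h1 : ∀ j, j ≤ N → l 0 j ≠ 1)
    (h2 : ∀ i, i ≤ N → l i 0 ≠ 2) :
    ∃ i j i₁ j₁ i₂ j₂ i₃ j₃ : ℕ, i + j < N ∧
      (i₁ = i ∨ i₁ = i + 1) ∧ (j₁ = j ∨ j₁ = j + 1) ∧ i₁ + j₁ ≤ N ∧ l i₁ j₁ = 0 ∧
      (i₂ = i ∨ i₂ = i + 1) ∧ (j₂ = j ∨ j₂ = j + 1) ∧ i₂ + j₂ ≤ N ∧ l i₂ j₂ = 1 ∧
      (i₃ = i ∨ i₃ = i + 1) ∧ (j₃ = j ∨ j₃ = j + 1) ∧ i₃ + j₃ ≤ N ∧ l i₃ j₃ = 2 := by
  by_contra hcon
  -- three points of a cell never carry all labels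
  have key : ∀ i j, i + j < N → ∀ a1 b1 a2 b2 a3 b3 : ℕ,
      (a1 = i ∨ a1 = i + 1) → (b1 = j ∨ b1 = j + 1) → a1 + b1 ≤ N →
      (a2 = i ∨ a2 = i + 1) → (b2 = j ∨ b2 = j + 1) → a2 + b2 ≤ N →
      (a3 = i ∨ a3 = i + 1) → (b3 = j ∨ b3 = j + 1) → a3 + b3 ≤ N →
      spOm (l a1 b1) (l a2 b2) + spOm (l a2 b2) (l a3 b3) + spOm (l a3 b3) (l a1 b1) = 0 := by
    intro i j hij a1 b1 a2 b2 a3 b3 p1 q1 r1 p2 q2 r2 p3 q3 r3
    by_contra hne
    have hall := spOm_tri _ _ _ hne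
    have hw : ∀ x : Fin 3, ∃ i₁ j₁ : ℕ, (i₁ = i ∨ i₁ = i + 1) ∧ (j₁ = j ∨ j₁ = j + 1) ∧
        i₁ + j₁ ≤ N ∧ l i₁ j₁ = x := by
      intro x
      rcases hall x with h | h | h
      · exact ⟨a1, b1, p1, q1, r1, h.symm⟩
      · exact ⟨a2, b2, p2, q2, r2, h.symm⟩
      · exact ⟨a3, b3, p3, q3, r3, h.symm⟩
    obtain ⟨u1, v1, s1⟩ := hw 0
    obtain ⟨u2, v2, s2⟩ := hw 1
    obtain ⟨u3, v3, s3⟩ := hw 2
    exact hcon ⟨i, j, u1, v1, u2, v2, u3, v3, hij, s1.1, s1.2.1, s1.2.2.1, s1.2.2.2,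
      s2.1, s2.2.1, s2.2.2.1, s2.2.2.2, s3.1, s3.2.1, s3.2.2.1, s3.2.2.2⟩
  -- partial strip sums
  have strip : ∀ j k, k + j < N →
      ∑ i ∈ Finset.range k, spOm (l i j) (l (i + 1) j) + spOm (l k j) (l k (j + 1)) =
        ∑ i ∈ Finset.range k, spOm (l i (j + 1)) (l (i + 1) (j + 1)) := by
    intro j k
    induction k with
    | zero =>
      intro h
      simp only [Finset.range_zero, Finset.sum_empty, zero_add]
      exact spOm_zero_two _ _ (h1 _ (by omega)) (h1 _ (by omega))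
    | succ k ih =>
      intro h
      have h3 := ih (by omega)
      rw [Finset.sum_range_succ, Finset.sum_range_succ, ← h3]
      have t1 := key k j (by omega) k j (k + 1) j k (j + 1) (by omega) (by omega) (by omega)
        (by omega) (by omega) (by omega) (by omega) (by omega) (by omega)
      have t2 := key k j (by omega) (k + 1) j (k + 1) (j + 1) k (j + 1) (by omega) (by omega)
        (by omega) (by omega) (by omega) (by omega) (by omega) (by omega) (by omega)
      have e1 := spOm_anti (l k j) (l k (j + 1))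
      have e2 := spOm_anti (l (k + 1) j) (l k (j + 1))
      have e3 := spOm_anti (l k (j + 1)) (l (k + 1) (j + 1))
      linarith
  have row : ∀ j, j < N →
      ∑ i ∈ Finset.range (N - j), spOm (l i j) (l (i + 1) j) =
        ∑ i ∈ Finset.range (N - (j + 1)), spOm (l i (j + 1)) (l (i + 1) (j + 1)) := by
    intro j hj
    obtain ⟨k, hk⟩ : ∃ k, N - j = k + 1 := ⟨N - j - 1, by omega⟩
    have hk' : N - (j + 1) = k := by omega
    rw [hk, hk', Finset.sum_range_succ, ← strip j k (by omega)]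
    have t1 := key k j (by omega) k j (k + 1) j k (j + 1) (by omega) (by omega) (by omega)
      (by omega) (by omega) (by omega) (by omega) (by omega) (by omega)
    have e1 := spOm_anti (l k j) (l k (j + 1))
    have e2 := spOm_one_two (l (k + 1) j) (l k (j + 1)) (h0 _ _ (by omega)) (h0 _ _ (by omega))
    linarith
  have all : ∀ j, j ≤ N →
      ∑ i ∈ Finset.range (N - 0), spOm (l i 0) (l (i + 1) 0) =
        ∑ i ∈ Finset.range (N - j), spOm (l i j) (l (i + 1) j) := by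
    intro j
    induction j with
    | zero => intro _; rfl
    | succ j ih => intro h; rw [ih (by omega), row j (by omega)]
  have hN := all N le_rfl
  rw [Nat.sub_self, Finset.range_zero, Finset.sum_empty, Nat.sub_zero] at hN
  have tel : ∀ k, k ≤ N → ∑ i ∈ Finset.range k, spOm (l i 0) (l (i + 1) 0) =
      spV (l k 0) - spV (l 0 0) := by
    intro k
    induction k with
    | zero => intro _; simp
    | succ k ih =>
      intro h
      rw [Finset.sum_range_succ, ih (by omega),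
        spOm_tel _ _ (h2 _ (by omega)) (h2 _ (by omega))]
      ring
  rw [tel N le_rfl] at hN
  have f1 : l 0 0 = 0 := by
    have a := h1 0 (by omega)
    have b := h2 0 (by omega)
    revert a b
    generalize l 0 0 = x
    revert x
    decide
  have f2 : l N 0 = 1 := by
    have a := h0 N 0 (by omega)
    have b := h2 N (by omega)
    revert a b
    generalize l N 0 = x
    revert x
    decide
  rw [f1, f2] at hN
  revert hN
  decide

end PolyCol
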