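import Pool.Agent.Lib.PolyCol.Basic
import Pool.Agent.Lib.PolyCol.Sperner

/-!
# Module 16b: a triple point exists (`sperner` is a black box)

* `region_dist_lt`: from connectedness and the unit distance condition (`dist` from a point is continuous on the
  connected region, never `1`, `0` somewhere).
* `exists_region_closure`: finitely many borders and vertices meet `closedBall p 1` (`locally_finite`), they have
  measure zero (segments), so every ball around `p` contains points of regions; use `NearClosure`.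
* `exists_tri`: use `N` subdivisions of the triangle `{x, y ≥ 0, x + y ≤ 4}`; each grid point `g` is in the closure
  of some region `R(g)`.  Label of a region `R`: `0` if `closure R` does not meet the line `x + y = 4`, else `1` if it
  does not meet the line `x = 0`, else `2` (then it does not meet `y = 0`, otherwise its diameter is `> 1`:
  points `(0,s)`, `(t,0)`, `(u,4-u)` at mutual distances `≤ 1` give `s ≤ 1`, `u ≤ 1`, `4 - u - s ≤ 1`).  The label of
  a grid point is the label of its region.  By `sperner` there are, for every `N ≥ 1`, three grid points at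
  distance `≤ 8/N` whose regions have labels `0,1,2`; a Lebesgue number of the covering of a big disc by the
  balls of `NearClosure` gives a point `p` in the closures of the three regions; they are different because of
  their labels.
-/

namespace PolyCol
namespace PolygonColoring

open Metric

variable {S : Type} (C : PolygonColoring S)

theorem region_dist_lt {R : Set ℂ} (hR : R ∈ C.regions) : ∀ x ∈ R, ∀ y ∈ R, dist x y < 1 := by
  intro x hx y hy
  by_contra hlt
  rw [not_lt] at hlt
  have hconn : IsPreconnected R := (C.region_connected R hR).isPreconnected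
  have himg : IsPreconnected ((fun z => dist x z) '' R) :=
    hconn.image _ (by fun_prop)
  have h0 : (0 : ℝ) ∈ (fun z => dist x z) '' R := ⟨x, hx, dist_self x⟩
  have h1 : dist x y ∈ (fun z => dist x z) '' R := ⟨y, hy, rfl⟩
  have h2 : (1 : ℝ) ∈ (fun z => dist x z) '' R :=
    himg.Icc_subset h0 h1 ⟨zero_le_one, hlt⟩
  obtain ⟨z, hz, hz1⟩ := h2
  exact C.unit_dist x z hz1 (C.color_const R hR x hx z hz)

theorem closure_dist_le {R : Set ℂ} (hR : R ∈ C.regions) :
    ∀ x ∈ closure R, ∀ y ∈ closure R, dist x y ≤ 1 := by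
  intro x hx y hy
  have h : (x, y) ∈ closure (R ×ˢ R) := by
    rw [closure_prod_eq]
    exact ⟨hx, hy⟩
  have hcl : IsClosed {q : ℂ × ℂ | dist q.1 q.2 ≤ 1} :=
    isClosed_le (by fun_prop) continuous_const
  have hsub : closure (R ×ˢ R) ⊆ {q : ℂ × ℂ | dist q.1 q.2 ≤ 1} := by
    apply closure_minimal _ hcl
    rintro ⟨a, b⟩ ⟨ha, hb⟩
    exact (C.region_dist_lt hR a ha b hb).le
  exact hsub h

/-- a segment in the plane has measure zero -/
theorem volume_openSegment (x y : ℂ) : MeasureTheory.volume (openSegment ℝ x y) = 0 := by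
  have hne : affineSpan ℝ ({x, y} : Set ℂ) ≠ ⊤ := by
    intro htop
    have hdir : vectorSpan ℝ ({x, y} : Set ℂ) = ⊤ := by
      rw [← direction_affineSpan, htop, AffineSubspace.direction_top]
    have hcol : Collinear ℝ ({x, y} : Set ℂ) := collinear_pair ℝ x y
    have h1 := (collinear_iff_finrank_le_one).1 hcol
    rw [hdir, finrank_top, Complex.finrank_real_complex] at h1
    omega
  have hz := MeasureTheory.Measure.addHaar_affineSubspace MeasureTheory.volume
    (affineSpan ℝ ({x, y} : Set ℂ)) hne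
  refine MeasureTheory.measure_mono_null ?_ hz
  intro z hz
  have h1 : z ∈ segment ℝ x y := openSegment_subset_segment ℝ x y hz
  rw [← convexHull_pair] at h1
  exact convexHull_subset_affineSpan _ h1

theorem exists_region_closure (hNC : C.NearClosure) (p : ℂ) : ∃ R ∈ C.regions, p ∈ closure R := by
  obtain ⟨ε, hε, hNC⟩ := hNC p
  by_contra hcon
  have hno : ∀ R ∈ C.regions, ∀ x ∈ ball p ε, x ∉ R := by
    intro R hR x hx hxR
    exact hcon ⟨R, hR, hNC R hR ⟨x, hxR, hx⟩⟩
  obtain ⟨-, hbf, hvf⟩ := C.locally_finite p ε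
  have hsub : ball p ε ⊆ (C.vertices ∩ closedBall p ε) ∪
      ⋃ b ∈ {b | b ∈ C.borders ∧ (b ∩ closedBall p ε).Nonempty}, b := by
    intro x hx
    rcases C.cover x with h | ⟨b, hb, hxb⟩ | ⟨R, hR, hxR⟩
    · exact Or.inl ⟨h, ball_subset_closedBall hx⟩
    · right
      rw [Set.mem_iUnion₂]
      exact ⟨b, ⟨hb, x, hxb, ball_subset_closedBall hx⟩, hxb⟩
    · exact absurd hxR (hno R hR x hx)
  have hvol : MeasureTheory.volume ((C.vertices ∩ closedBall p ε) ∪
      ⋃ b ∈ {b | b ∈ C.borders ∧ (b ∩ closedBall p ε).Nonempty}, b) = 0 := by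
    rw [MeasureTheory.measure_union_null_iff]
    refine ⟨hvf.measure_zero _, ?_⟩
    rw [MeasureTheory.measure_biUnion_null_iff hbf.countable]
    rintro b ⟨hb, -⟩
    obtain ⟨x, -, y, -, -, rfl⟩ := C.border_segment b hb
    exact volume_openSegment x y
  have h0 : MeasureTheory.volume (ball p ε) = 0 := MeasureTheory.measure_mono_null hsub hvol
  have h1 : 0 < MeasureTheory.volume (ball p ε) := measure_ball_pos _ p hε
  rw [h0] at h1
  exact lt_irrefl _ h1

/-- the label of a region -/
noncomputable def triLabel (R : Set ℂ) : Fin 3 := by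
  classical
  exact if ∀ z ∈ closure R, z.re + z.im ≠ 4 then 0 else if ∀ z ∈ closure R, z.re ≠ 0 then 1 else 2

theorem triLabel_ne_zero {R : Set ℂ} {z : ℂ} (hz : z ∈ closure R) (h : z.re + z.im = 4) :
    triLabel R ≠ 0 := by
  unfold triLabel
  rw [if_neg (fun hh => hh z hz h)]
  split_ifs <;> decide

theorem triLabel_ne_one {R : Set ℂ} {z : ℂ} (hz : z ∈ closure R) (h : z.re = 0) :
    triLabel R ≠ 1 := by
  unfold triLabel
  rw [if_neg (fun (hh : ∀ z ∈ closure R, z.re ≠ 0) => hh z hz h)]
  split_ifs <;> decide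

theorem triLabel_ne_two {R : Set ℂ} (hR : R ∈ C.regions) {z : ℂ} (hz : z ∈ closure R)
    (h : z.im = 0) : triLabel R ≠ 2 := by
  unfold triLabel
  split_ifs with h1 h2
  · decide
  · decide
  · exfalso
    push Not at h1 h2
    obtain ⟨c, hc, hc4⟩ := h1
    obtain ⟨a, ha, ha0⟩ := h2
    have hab := C.closure_dist_le hR a ha z hz
    have hac := C.closure_dist_le hR a ha c hc
    rw [Complex.dist_eq] at hab hac
    have e1 := (abs_le.1 ((Complex.abs_im_le_norm _).trans hab)).2
    have e2 := (abs_le.1 ((Complex.abs_im_le_norm _).trans hac)).1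
    have e3 := (abs_le.1 ((Complex.abs_re_le_norm _).trans hac)).1
    rw [Complex.sub_im] at e1 e2
    rw [Complex.sub_re] at e3
    linarith

theorem exists_tri (hNC : C.NearClosure) : ∃ p, C.IsTri p := by
  classical
  -- Lebesgue number
  choose ε hε hNC' using hNC
  obtain ⟨δ, hδ, hleb⟩ := lebesgue_number_lemma_of_metric (isCompact_closedBall (0 : ℂ) 8)
    (c := fun p : ℂ => ball p (ε p)) (fun p => isOpen_ball)
    (fun p _ => Set.mem_iUnion.2 ⟨p, mem_ball_self (hε p)⟩)
  -- the regions of the grid points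
  choose Rg hRg hRgc using C.exists_region_closure (fun p => ⟨ε p, hε p, hNC' p⟩)
  obtain ⟨N, hN⟩ := exists_nat_gt (8 / δ + 1)
  have hN0 : (0 : ℝ) < N := by
    have : 0 < 8 / δ := by positivity
    linarith
  have hNδ : 8 / (N : ℝ) < δ := by
    have h1 : 8 / δ < N := by linarith
    rw [div_lt_iff₀ hδ] at h1
    rw [div_lt_iff₀ hN0]
    linarith
  let g : ℕ → ℕ → ℂ := fun i j => ⟨4 * i / N, 4 * j / N⟩
  obtain ⟨i, j, i₁, j₁, i₂, j₂, i₃, j₃, hij, hi1, hj1, -, hl1, hi2, hj2, -, hl2, hi3, hj3, -, hl3⟩ :=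
    sperner N (fun i j => triLabel (Rg (g i j)))
      (fun i j hij => triLabel_ne_zero (hRgc (g i j)) (by
        show 4 * (i : ℝ) / N + 4 * j / N = 4
        have : (i : ℝ) + j = N := by exact_mod_cast hij
        field_simp
        linarith))
      (fun j _ => triLabel_ne_one (hRgc (g 0 j)) (by
        show 4 * ((0 : ℕ) : ℝ) / N = 0
        simp))
      (fun i _ => C.triLabel_ne_two (hRg (g i 0)) (hRgc (g i 0)) (by
        show 4 * ((0 : ℕ) : ℝ) / N = 0
        simp))
  have hclose : ∀ i' j', (i' = i ∨ i' = i + 1) → (j' = j ∨ j' = j + 1) →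
      dist (g i' j') (g i j) ≤ 8 / N := by
    intro i' j' hi' hj'
    rw [Complex.dist_eq]
    refine (Complex.norm_le_abs_re_add_abs_im _).trans ?_
    rw [Complex.sub_re, Complex.sub_im]
    show |4 * (i' : ℝ) / N - 4 * i / N| + |4 * (j' : ℝ) / N - 4 * j / N| ≤ 8 / N
    have key : ∀ m m' : ℕ, (m' = m ∨ m' = m + 1) → |4 * (m' : ℝ) / N - 4 * m / N| ≤ 4 / N := by
      rintro m m' (rfl | rfl)
      · rw [sub_self, abs_zero]
        positivity
      · have : 4 * ((m + 1 : ℕ) : ℝ) / N - 4 * m / N = 4 / N := by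
          push_cast
          ring
        rw [this, abs_of_nonneg (by positivity)]
    have a1 := key i i' hi'
    have a2 := key j j' hj'
    have : (8 : ℝ) / N = 4 / N + 4 / N := by ring
    linarith
  have hin : g i j ∈ closedBall (0 : ℂ) 8 := by
    rw [mem_closedBall, dist_zero_right]
    refine (Complex.norm_le_abs_re_add_abs_im _).trans ?_
    show |4 * (i : ℝ) / N| + |4 * (j : ℝ) / N| ≤ 8
    rw [abs_of_nonneg (by positivity), abs_of_nonneg (by positivity)]
    have h1 : (i : ℝ) + j ≤ N := by exact_mod_cast hij.le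
    rw [← add_div, div_le_iff₀ hN0]
    linarith
  obtain ⟨p, hp⟩ := hleb _ hin
  have hcl : ∀ i' j', (i' = i ∨ i' = i + 1) → (j' = j ∨ j' = j + 1) →
      p ∈ closure (Rg (g i' j')) := by
    intro i' j' hi' hj'
    apply hNC' p _ (hRg _)
    have h1 : g i' j' ∈ ball p (ε p) := hp ((hclose i' j' hi' hj').trans_lt hNδ)
    obtain ⟨z, hz1, hz2⟩ := mem_closure_iff.1 (hRgc (g i' j')) _ isOpen_ball h1
    exact ⟨z, hz2, hz1⟩
  refine ⟨p, Rg (g i₁ j₁), hRg _, Rg (g i₂ j₂), hRg _, Rg (g i₃ j₃), hRg _, ?_, ?_, ?_,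
    hcl _ _ hi1 hj1, hcl _ _ hi2 hj2, hcl _ _ hi3 hj3⟩
  · intro h
    rw [h, hl2] at hl1
    exact absurd hl1 (by decide)
  · intro h
    rw [h, hl3] at hl2
    exact absurd hl2 (by decide)
  · intro h
    rw [h, hl3] at hl1
    exact absurd hl1 (by decide)

end PolygonColoring
end PolyCol
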