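import Pool.Agent.Lib.PolyCol.Basic

/-!
# Module 11: handshake lemma for borders in a disc

* `isEnd_pair`: for `b = openSegment x y`, `x ≠ y`, and `b ∩ ball v r` nonempty there are `x' ≠ y'` such that
  `IsEnd (ball v r) p b ↔ p = x' ∨ p = y'`.  Parametrise the line: `{t ∈ (0,1) | dist (x + t (y-x)) v < r}` is a
  nonempty open convex bounded subset of `ℝ`, so it is `Ioo t₁ t₂`, `t₁ < t₂`, and `b ∩ ball v r` is
  `openSegment x' y'`; for an open segment `J = openSegment x' y'` the points `p ∉ J` with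
  `p + s e ∈ J` for all small `s > 0` (for some unit vector `e`) are exactly `x'`, `y'`.
* `isEnd_mem`: an end of a border in a closed disc is a vertex, or on the border and on the circle:
  `p ∈ closure (b ∩ ball v r)`; closure of `openSegment x y` is `segment x y`.
* `handshake`: double counting; each `b ∈ F` has exactly two ends, all in `Q`.
-/

namespace PolyCol

open Metric

namespace HandshakeAux

/-- A nonempty bounded open convex subset of the line is an open interval. -/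
theorem exists_Ioo {T : Set ℝ} (ho : IsOpen T) (hc : Convex ℝ T) (hne : T.Nonempty)
    (hb : BddBelow T) (ha : BddAbove T) : ∃ a b : ℝ, a < b ∧ T = Set.Ioo a b := by
  have hsub : Set.Ioo (sInf T) (sSup T) ⊆ T :=
    IsConnected.Ioo_csInf_csSup_subset ⟨hne, hc.isPreconnected⟩ hb ha
  have hsup : T ⊆ Set.Ioo (sInf T) (sSup T) := by
    rw [← interior_Icc]
    exact interior_maximal (fun t ht => ⟨csInf_le hb ht, le_csSup ha ht⟩) ho
  obtain ⟨t, ht⟩ := hne
  have := hsup ht
  exact ⟨sInf T, sSup T, this.1.trans this.2, Set.Subset.antisymm hsup hsub⟩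

theorem mem_openSegment_iff_param {x y z : ℂ} :
    z ∈ openSegment ℝ x y ↔ ∃ t : ℝ, 0 < t ∧ t < 1 ∧ z = x + t * (y - x) := by
  rw [openSegment_eq_image']
  constructor
  · rintro ⟨t, ht, rfl⟩
    exact ⟨t, ht.1, ht.2, by simp⟩
  · rintro ⟨t, h0, h1, rfl⟩
    exact ⟨t, ⟨h0, h1⟩, by simp⟩

/-- The intersection of an open segment with a disc is an open segment. -/
theorem inter_ball (x y v : ℂ) (r : ℝ) (hxy : x ≠ y)
    (hne : (openSegment ℝ x y ∩ ball v r).Nonempty) :
    ∃ x' y' : ℂ, x' ≠ y' ∧ openSegment ℝ x y ∩ ball v r = openSegment ℝ x' y' := by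
  set φ : ℝ → ℂ := fun t => x + t * (y - x) with hφ
  have hφc : Continuous φ := by rw [hφ]; fun_prop
  set T : Set ℝ := Set.Ioo 0 1 ∩ φ ⁻¹' ball v r with hT
  have hopen : IsOpen T := isOpen_Ioo.inter (isOpen_ball.preimage hφc)
  have hconv : Convex ℝ T := by
    refine (convex_Ioo 0 1).inter ?_
    intro s hs t ht a b ha hb hab
    have h1 : φ (a • s + b • t) = a • φ s + b • φ t := by
      simp only [hφ, smul_eq_mul, Complex.real_smul]
      push_cast
      have : (a : ℂ) + b = 1 := by exact_mod_cast hab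
      linear_combination (-x) * this
    show φ (a • s + b • t) ∈ ball v r
    rw [h1]
    exact convex_ball v r hs ht ha hb hab
  have hmem : ∀ z, z ∈ openSegment ℝ x y ∩ ball v r ↔ ∃ t ∈ T, z = φ t := by
    intro z
    rw [Set.mem_inter_iff, mem_openSegment_iff_param]
    constructor
    · rintro ⟨⟨t, h0, h1, rfl⟩, hz⟩
      exact ⟨t, ⟨⟨h0, h1⟩, hz⟩, rfl⟩
    · rintro ⟨t, ⟨⟨h0, h1⟩, hz⟩, rfl⟩
      exact ⟨⟨t, h0, h1, rfl⟩, hz⟩
  have hTne : T.Nonempty := by
    obtain ⟨z, hz⟩ := hne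
    obtain ⟨t, ht, _⟩ := (hmem z).1 hz
    exact ⟨t, ht⟩
  obtain ⟨a, b, hab, hTab⟩ := exists_Ioo hopen hconv hTne
    ⟨0, fun t ht => ht.1.1.le⟩ ⟨1, fun t ht => ht.1.2.le⟩
  refine ⟨φ a, φ b, ?_, ?_⟩
  · intro h
    simp only [hφ] at h
    have h1 : ((a : ℂ) - b) * (y - x) = 0 := by linear_combination h
    rcases mul_eq_zero.1 h1 with h2 | h2
    · have : (a : ℂ) = b := sub_eq_zero.1 h2
      exact hab.ne (by exact_mod_cast this)
    · exact hxy (sub_eq_zero.1 h2).symm
  · ext z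
    rw [hmem, hTab, mem_openSegment_iff_param]
    constructor
    · rintro ⟨t, ht, rfl⟩
      refine ⟨(t - a) / (b - a), div_pos (by linarith [ht.1]) (by linarith),
        (div_lt_one (by linarith)).2 (by linarith [ht.2]), ?_⟩
      have hne' : (b : ℂ) - a ≠ 0 := by
        intro h
        have : (b : ℂ) = a := sub_eq_zero.1 h
        exact hab.ne' (by exact_mod_cast this)
      simp only [hφ]
      push_cast
      field_simp
      ring
    · rintro ⟨t, h0, h1, rfl⟩
      refine ⟨a + t * (b - a), ⟨by nlinarith, by nlinarith⟩, ?_⟩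
      simp only [hφ]
      push_cast
      ring

/-- A point from which one can enter `J` in a fixed direction is in the closure of `J`. -/
theorem mem_closure_of_dir {J : Set ℂ} {p e : ℂ} (he : ‖e‖ = 1) {s₀ : ℝ} (hs₀ : 0 < s₀)
    (h : ∀ s : ℝ, 0 < s → s < s₀ → p + s * e ∈ J) : p ∈ closure J := by
  rw [Metric.mem_closure_iff]
  intro ε hε
  refine ⟨p + ((min s₀ ε / 2 : ℝ) : ℂ) * e, h _ (by positivity) ?_, ?_⟩
  · have : min s₀ ε ≤ s₀ := min_le_left _ _
    linarith
  · have h1 : min s₀ ε ≤ ε := min_le_right _ _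
    have h2 : 0 < min s₀ ε := lt_min hs₀ hε
    rw [dist_self_add_right, norm_mul, he, mul_one, Complex.norm_real, Real.norm_eq_abs,
      abs_of_pos (by linarith)]
    linarith

theorem ends_openSegment {x y : ℂ} (hxy : x ≠ y) (p : ℂ) :
    (p ∉ openSegment ℝ x y ∧ ∃ e : ℂ, ‖e‖ = 1 ∧ ∃ s₀ : ℝ, 0 < s₀ ∧ ∀ s : ℝ, 0 < s → s < s₀ →
      p + s * e ∈ openSegment ℝ x y) ↔ p = x ∨ p = y := by
  constructor
  · rintro ⟨hp, e, he, s₀, hs₀, h⟩
    have h1 := mem_closure_of_dir he hs₀ h
    rw [closure_openSegment, ← insert_endpoints_openSegment] at h1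
    simp only [Set.mem_insert_iff] at h1
    tauto
  · have key : ∀ x y : ℂ, x ≠ y → (x ∉ openSegment ℝ x y ∧ ∃ e : ℂ, ‖e‖ = 1 ∧ ∃ s₀ : ℝ, 0 < s₀ ∧
        ∀ s : ℝ, 0 < s → s < s₀ → x + s * e ∈ openSegment ℝ x y) := by
      intro x y hxy
      have hpos : 0 < ‖y - x‖ := norm_pos_iff.2 (sub_ne_zero.2 hxy.symm)
      have hne : (‖y - x‖ : ℂ) ≠ 0 := by exact_mod_cast hpos.ne'
      refine ⟨fun h => hxy (left_mem_openSegment_iff.1 h), (y - x) / ‖y - x‖, ?_, ‖y - x‖, hpos, ?_⟩
      · rw [norm_div, Complex.norm_real, norm_norm, div_self hpos.ne']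
      · intro s h0 h1
        rw [mem_openSegment_iff_param]
        refine ⟨s / ‖y - x‖, div_pos h0 hpos, (div_lt_one hpos).2 h1, ?_⟩
        push_cast
        field_simp
    rintro (rfl | rfl)
    · exact key _ _ hxy
    · rw [openSegment_symm]
      exact key _ _ hxy.symm

end HandshakeAux

open HandshakeAux

theorem isEnd_pair (x y v : ℂ) (r : ℝ) (hxy : x ≠ y)
    (hne : (openSegment ℝ x y ∩ ball v r).Nonempty) :
    ∃ x' y' : ℂ, x' ≠ y' ∧ ∀ p, IsEnd (ball v r) p (openSegment ℝ x y) ↔ p = x' ∨ p = y' := by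
  obtain ⟨x', y', hne', heq⟩ := inter_ball x y v r hxy hne
  refine ⟨x', y', hne', fun p => ?_⟩
  unfold IsEnd
  rw [heq]
  exact ends_openSegment hne' p

namespace PolygonColoring

variable {S : Type} (C : PolygonColoring S)

theorem isEnd_mem {v : ℂ} {r : ℝ} {p : ℂ} {b : Set ℂ} (hb : b ∈ C.borders)
    (h : IsEnd (ball v r) p b) :
    dist p v ≤ r ∧ (p ∈ C.vertices ∨ (p ∈ b ∧ dist p v = r)) := by
  obtain ⟨hp, e, he, s₀, hs₀, h⟩ := h
  have hcl := mem_closure_of_dir he hs₀ h
  have h1 : p ∈ closure (ball v r) := closure_mono Set.inter_subset_right hcl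
  have h2 : dist p v ≤ r := mem_closedBall.1 (closure_ball_subset_closedBall h1)
  refine ⟨h2, ?_⟩
  have h3 : p ∈ closure b := closure_mono Set.inter_subset_left hcl
  obtain ⟨x, hx, y, hy, hxy, rfl⟩ := C.border_segment b hb
  rw [closure_openSegment, ← insert_endpoints_openSegment] at h3
  simp only [Set.mem_insert_iff] at h3
  rcases h3 with rfl | rfl | h3
  · exact Or.inl hx
  · exact Or.inl hy
  · right
    refine ⟨h3, le_antisymm h2 ?_⟩
    by_contra hlt
    push Not at hlt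
    exact hp ⟨h3, mem_ball.2 hlt⟩

theorem handshake (v : ℂ) (r : ℝ) (F : Set (Set ℂ)) (hF : F.Finite)
    (hFb : ∀ b ∈ F, b ∈ C.borders ∧ (b ∩ ball v r).Nonempty) (Q : Finset ℂ)
    (hQ : ∀ b ∈ F, ∀ p, IsEnd (ball v r) p b → p ∈ Q) :
    Even (∑ p ∈ Q, {b | b ∈ F ∧ IsEnd (ball v r) p b}.ncard) := by
  classical
  have h1 : ∀ p, {b | b ∈ F ∧ IsEnd (ball v r) p b}.ncard =
      ∑ b ∈ hF.toFinset, if IsEnd (ball v r) p b then 1 else 0 := by
    intro p
    rw [← Finset.card_filter, ← Set.ncard_coe_finset]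
    congr 1
    ext b
    simp
  simp_rw [h1]
  rw [Finset.sum_comm]
  apply Finset.even_sum
  intro b hb
  rw [Set.Finite.mem_toFinset] at hb
  obtain ⟨hbb, hbne⟩ := hFb b hb
  obtain ⟨x, hx, y, hy, hxy, rfl⟩ := C.border_segment b hbb
  obtain ⟨x', y', hne', hiff⟩ := isEnd_pair x y v r hxy hbne
  rw [← Finset.card_filter]
  have : Q.filter (fun p => IsEnd (ball v r) p (openSegment ℝ x y)) = {x', y'} := by
    ext p
    rw [Finset.mem_filter, hiff, Finset.mem_insert, Finset.mem_singleton]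
    constructor
    · exact fun h => h.2
    · intro h
      exact ⟨hQ _ hb p ((hiff p).2 h), h⟩
  rw [this, Finset.card_pair hne']
  exact even_two

end PolygonColoring
end PolyCol
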