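import Pool.Agent.Lib.PolyCol.Crossing

/-!
# Module 8: the relation `lnk` is well defined; X2

(Use `dist_ne_one`, `near_lt`, `far_gt`, `tri_dist` of the module `Crossing` as black boxes.)

* `near_of_near` (WD): `u, v` triple points, `X, X'` regions at `u`, `Y, Y'` regions at `v`, `rc X = rc Y`,
  `rc X' = rc Y'`, `near X Y`.  Show `near X' Y'`.  If `rc X = rc X'` then `X = X'`, `Y = Y'` by `Adj`.
  If `dist u v < 1`: take points of `X'`, `Y'` close to `u`, `v`.  `dist u v > 1` contradicts `near_lt` (limit).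
  If `dist u v = 1`: `near_lt` and `dist_ne_one` give `X ⊆ ball v 1`.  If not `near X' Y'` then by `far_gt` and
  `dist_ne_one` `X' ∩ closedBall v 1 = ∅`.  Let `u = v + cis θ₀`.  For small `h > 0` the points `v + cis (θ₀ ± h)`
  are in regions `R₊`, `R₋` (`CircReg`), with colours not in `cols v` (`dist_ne_one`) and with `u` in their
  closure (`NearClosure`).  `cols u` has 3 elements, `rc X`, `rc X'` are in `cols v`, so `R₊ = R₋` is the
  third region at `u` (`Adj`), different from `X`, `X'`.  By `cis_chord` these points are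
  `u + s cis (θ₀ + π/2 + h/2)` and `u + s cis (θ₀ + 3π/2 - h/2)` (`s = 2 sin (h/2)`); by `Radial` `X` has a point
  `u + s cis φ`, `X'` has a point `u + s cis φ'`; `u + s cis φ ∈ ball v 1` iff `cos (φ - θ₀) < - s/2 = cos (π/2 + h/2)`
  iff (mod `2π`) `φ ∈ (θ₀ + π/2 + h/2, θ₀ + 3π/2 - h/2)`; `φ'` is in the complementary open interval.
  Contradiction to `Alt` with `R₊, X, R₋, X'`.
* `lnk_iff`: consequence.
* `no_opposite` (X2): `dist u v ≤ 1`, `dist u' v ≤ 1` (`near_lt`, limits), `2 ≤ dist u u'` (`tri_dist`), so `v` is the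
  midpoint and both distances are `1`.  Every colour is in `cols u` or in `cols u'` (3 + 3 = 6).  By
  `near_of_near` and `near_lt`, `dist_ne_one` each region `X` at `v` with colour in `cols u` is in `ball u 1`, each
  one with colour in `cols u'` is in `ball u' 1`.  Let `v = u + cis θ₀`, `x = u + cis (θ₀ + h)`, `h ≠ 0` small: `x`
  is in a region (`CircReg`) having `v` in its closure (`NearClosure`), but `dist x u = 1` and
  `dist x u' = ‖cis (θ₀ + h) - 2 cis θ₀‖ = sqrt (5 - 4 cos h) > 1`.  Contradiction.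
  (`cols u` and `cols v` meet because `lnk u v` gives a common colour; similarly `u'`.)
-/

namespace PolyCol
namespace PolygonColoring

open Metric

namespace WD

theorem dist_le_of_closure {X Y : Set ℂ} {u v : ℂ} {r : ℝ} (hu : u ∈ closure X)
    (hv : v ∈ closure Y) (h : ∀ x ∈ X, ∀ y ∈ Y, dist x y ≤ r) : dist u v ≤ r := by
  have hc : (u, v) ∈ closure (X ×ˢ Y) := by
    rw [closure_prod_eq]
    exact ⟨hu, hv⟩
  have hcl : IsClosed {p : ℂ × ℂ | dist p.1 p.2 ≤ r} :=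
    isClosed_le (continuous_fst.dist continuous_snd) continuous_const
  have hsub : X ×ˢ Y ⊆ {p : ℂ × ℂ | dist p.1 p.2 ≤ r} := by
    rintro ⟨x, y⟩ ⟨hx, hy⟩
    exact h x hx y hy
  exact closure_minimal hsub hcl hc

theorem le_dist_of_closure {X Y : Set ℂ} {u v : ℂ} {r : ℝ} (hu : u ∈ closure X)
    (hv : v ∈ closure Y) (h : ∀ x ∈ X, ∀ y ∈ Y, r ≤ dist x y) : r ≤ dist u v := by
  have hc : (u, v) ∈ closure (X ×ˢ Y) := by
    rw [closure_prod_eq]
    exact ⟨hu, hv⟩
  have hcl : IsClosed {p : ℂ × ℂ | r ≤ dist p.1 p.2} :=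
    isClosed_le continuous_const (continuous_fst.dist continuous_snd)
  have hsub : X ×ˢ Y ⊆ {p : ℂ × ℂ | r ≤ dist p.1 p.2} := by
    rintro ⟨x, y⟩ ⟨hx, hy⟩
    exact h x hx y hy
  exact closure_minimal hsub hcl hc

theorem cos_lt_cos {α ψ : ℝ} (h0 : 0 < α) (hπ : α < Real.pi) (h1 : α ≤ ψ)
    (h2 : ψ < α + 2 * Real.pi) (h : Real.cos ψ < Real.cos α) :
    α < ψ ∧ ψ < 2 * Real.pi - α := by
  have hne : α ≠ ψ := by
    rintro rfl
    exact lt_irrefl _ h
  refine ⟨lt_of_le_of_ne h1 hne, ?_⟩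
  by_contra hcon
  push Not at hcon
  have e := Real.cos_sub_cos ψ α
  have s1 : 0 ≤ Real.sin ((ψ - α) / 2) :=
    Real.sin_nonneg_of_nonneg_of_le_pi (by linarith) (by linarith)
  have s2 : Real.sin ((ψ + α) / 2) ≤ 0 := by
    have : 0 ≤ Real.sin ((ψ + α) / 2 - Real.pi) :=
      Real.sin_nonneg_of_nonneg_of_le_pi (by linarith) (by linarith)
    rw [Real.sin_sub_pi] at this
    linarith
  have : 0 ≤ -2 * Real.sin ((ψ + α) / 2) * Real.sin ((ψ - α) / 2) := by nlinarith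
  linarith

theorem cos_gt_cos {α ψ : ℝ} (h0 : 0 < α) (hπ : α < Real.pi) (h1 : α ≤ ψ)
    (h2 : ψ < α + 2 * Real.pi) (h : Real.cos α < Real.cos ψ) : 2 * Real.pi - α < ψ := by
  by_contra hcon
  push Not at hcon
  have e := Real.cos_sub_cos ψ α
  have s1 : 0 ≤ Real.sin ((ψ - α) / 2) :=
    Real.sin_nonneg_of_nonneg_of_le_pi (by linarith) (by linarith)
  have s2 : 0 ≤ Real.sin ((ψ + α) / 2) :=
    Real.sin_nonneg_of_nonneg_of_le_pi (by linarith) (by linarith)
  have : 0 ≤ 2 * Real.sin ((ψ + α) / 2) * Real.sin ((ψ - α) / 2) := by positivity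
  linarith

/-- squared norm of a sum of two vectors in polar form -/
theorem norm_sq_polar (θ φ s : ℝ) :
    ‖cis θ + (s : ℂ) * cis φ‖ ^ 2 = 1 + s ^ 2 + 2 * s * Real.cos (φ - θ) := by
  rw [← Complex.normSq_eq_norm_sq, Complex.normSq_apply]
  simp only [Complex.add_re, Complex.add_im, Complex.re_ofReal_mul, Complex.im_ofReal_mul,
    cis_re, cis_im]
  rw [Real.cos_sub]
  have h1 := Real.sin_sq_add_cos_sq θ
  have h2 := Real.sin_sq_add_cos_sq φ
  linear_combination h1 + s ^ 2 * h2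

/-- representative of an angle in a half open interval of length `2π` -/
theorem exists_rep (a φ : ℝ) : ∃ ψ, a ≤ ψ ∧ ψ < a + 2 * Real.pi ∧ cis ψ = cis φ := by
  refine ⟨toIcoMod Real.two_pi_pos a φ, (toIcoMod_mem_Ico Real.two_pi_pos a φ).1,
    (toIcoMod_mem_Ico Real.two_pi_pos a φ).2, ?_⟩
  rw [cis_eq_iff]
  refine ⟨-toIcoDiv Real.two_pi_pos a φ, ?_⟩
  have h := toIcoMod_add_toIcoDiv_zsmul Real.two_pi_pos a φ
  rw [zsmul_eq_mul] at h
  push_cast
  linarith

variable {S : Type} (C : PolygonColoring S)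

/-- a point in the closures of two different regions is in neither of them -/
theorem not_mem_of_two {p : ℂ} {X R : Set ℂ} (hX : X ∈ C.regions) (hR : R ∈ C.regions)
    (hne : X ≠ R) (hp : p ∈ closure R) : p ∉ X := by
  intro hpX
  obtain ⟨y, hyX, hyR⟩ := mem_closure_iff.1 hp X (C.region_open X hX) hpX
  exact hne (C.region_eq hX hR hyX hyR)

/-- directions in which a region leaves a boundary point -/
theorem exists_dir {p : ℂ} {X : Set ℂ} (hX : X ∈ C.regions) (hp : p ∈ closure X) (hpX : p ∉ X)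
    {ε : ℝ} (hε : 0 < ε) (hrad : ∀ θ s s' : ℝ, 0 < s → s < ε → 0 < s' → s' < ε →
      ∀ R ∈ C.regions, p + s * cis θ ∈ R → p + s' * cis θ ∈ R) (a : ℝ) :
    ∃ ψ, a ≤ ψ ∧ ψ < a + 2 * Real.pi ∧ ∀ s : ℝ, 0 < s → s < ε → p + s * cis ψ ∈ X := by
  obtain ⟨x, hx, hd⟩ := Metric.mem_closure_iff.1 hp ε hε
  obtain ⟨φ, hφ⟩ := exists_polar (x - p)
  obtain ⟨ψ, h1, h2, h3⟩ := exists_rep a φ
  refine ⟨ψ, h1, h2, fun s hs hsε => ?_⟩
  have hne : x ≠ p := by
    rintro rfl
    exact hpX hx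
  have hpos : 0 < ‖x - p‖ := norm_pos_iff.2 (sub_ne_zero.2 hne)
  have hlt : ‖x - p‖ < ε := by
    rw [dist_comm, dist_eq_norm] at hd
    exact hd
  refine hrad ψ ‖x - p‖ s hpos hlt hs hsε X hX ?_
  rw [h3, ← hφ, add_sub_cancel]
  exact hx

/-- the colours on the unit circle around `v` are not colours at `v` -/
theorem rc_not_mem_cols {v x : ℂ} {R : Set ℂ} (hR : R ∈ C.regions) (hx : x ∈ R)
    (hd : dist v x = 1) : C.rc R ∉ C.cols v := by
  rintro ⟨Z, hZ, hv, hc⟩
  exact C.dist_ne_one hZ hR hc hv hx hd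

theorem two_sin_pos {h : ℝ} (h0 : 0 < h) (h1 : h < 1) : 0 < 2 * Real.sin (h / 2) := by
  have := Real.sin_pos_of_pos_of_lt_pi (x := h / 2) (by linarith)
    (by linarith [Real.pi_gt_three])
  linarith

theorem two_sin_le {h : ℝ} (h0 : 0 < h) : 2 * Real.sin (h / 2) ≤ h := by
  have := Real.sin_le (x := h / 2) (by linarith)
  linarith

end WD

open WD

theorem near_of_near (C : PolygonColoring (Fin 6)) (hAlt : C.Alt) (hRad : C.Radial)
    (hNC : C.NearClosure) (hAdj : C.Adj) (hCR : C.CircReg)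
    (hcols : ∀ p, C.IsTri p → (C.cols p).ncard = 3) {u v : ℂ} (hu : C.IsTri u) (hv : C.IsTri v)
    {X X' Y Y' : Set ℂ} (hX : X ∈ C.regions) (hX' : X' ∈ C.regions) (hY : Y ∈ C.regions)
    (hY' : Y' ∈ C.regions) (huX : u ∈ closure X) (huX' : u ∈ closure X') (hvY : v ∈ closure Y)
    (hvY' : v ∈ closure Y') (hc : C.rc X = C.rc Y) (hc' : C.rc X' = C.rc Y') (h : near X Y) :
    near X' Y' := by
  by_cases hcc : C.rc X = C.rc X'
  · have e1 : X = X' := hAdj u X hX X' hX' huX huX' hcc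
    have e2 : Y = Y' := hAdj v Y hY Y' hY' hvY hvY' (by rw [← hc, hcc, hc'])
    rw [← e1, ← e2]
    exact h
  by_contra hfar
  have hlt := C.near_lt hX hY hc h
  have hgt := C.far_gt hX' hY' hc' hfar
  have hle1 : dist u v ≤ 1 := dist_le_of_closure huX hvY fun x hx y hy => (hlt x hx y hy).le
  have hge1 : 1 ≤ dist u v := le_dist_of_closure huX' hvY' fun x hx y hy => (hgt x hx y hy).le
  have hd : dist u v = 1 := le_antisymm hle1 hge1
  -- `X` is inside, `X'` is outside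
  have hin : ∀ x ∈ X, dist v x < 1 := by
    intro x hx
    have h1 : dist v x ≤ 1 := dist_le_of_closure hvY (subset_closure hx) fun y hy x hx => by
      rw [dist_comm]
      exact (hlt x hx y hy).le
    exact lt_of_le_of_ne h1 (C.dist_ne_one hY hX hc.symm hvY hx)
  have hout : ∀ x ∈ X', 1 < dist v x := by
    intro x hx
    have h1 : 1 ≤ dist v x := le_dist_of_closure hvY' (subset_closure hx) fun y hy x hx => by
      rw [dist_comm]
      exact (hgt x hx y hy).le
    exact lt_of_le_of_ne h1 (C.dist_ne_one hY' hX' hc'.symm hvY' hx).symm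
  obtain ⟨θ₀, hθ⟩ := exists_cis_of_norm_eq_one (z := u - v) (by rw [← dist_eq_norm, hd])
  have huv : u = v + cis θ₀ := by rw [← hθ, add_sub_cancel]
  obtain ⟨ε₁, hε₁, hAlt'⟩ := hAlt u
  obtain ⟨ε₂, hε₂, hRad'⟩ := hRad u
  obtain ⟨ε₃, hε₃, hNC'⟩ := hNC u
  obtain ⟨h₀, hh₀, hCR'⟩ := hCR v θ₀
  obtain ⟨m, hm0, hm⟩ : ∃ m : ℝ, 0 < m ∧ (m < 1 ∧ m < ε₁ ∧ m < ε₂ ∧ m < ε₃ ∧ m < h₀) := by
    refine ⟨min 1 (min ε₁ (min ε₂ (min ε₃ h₀))) / 2, by positivity, ?_⟩
    have hpos : 0 < min 1 (min ε₁ (min ε₂ (min ε₃ h₀))) := by positivity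
    have a1 := min_le_left 1 (min ε₁ (min ε₂ (min ε₃ h₀)))
    have a2 := min_le_right 1 (min ε₁ (min ε₂ (min ε₃ h₀)))
    have a3 := min_le_left ε₁ (min ε₂ (min ε₃ h₀))
    have a4 := min_le_right ε₁ (min ε₂ (min ε₃ h₀))
    have a5 := min_le_left ε₂ (min ε₃ h₀)
    have a6 := min_le_right ε₂ (min ε₃ h₀)
    have a7 := min_le_left ε₃ h₀
    have a8 := min_le_right ε₃ h₀
    refine ⟨by linarith, by linarith, by linarith, by linarith, by linarith⟩
  obtain ⟨hm1, hmε₁, hmε₂, hmε₃, hmh₀⟩ := hm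
  set s : ℝ := 2 * Real.sin (m / 2) with hs
  have hs0 : 0 < s := two_sin_pos hm0 hm1
  have hsm : s ≤ m := two_sin_le hm0
  set α : ℝ := Real.pi / 2 + m / 2 with hα
  have hα0 : 0 < α := by have := Real.pi_pos; positivity
  have hαπ : α < Real.pi := by have := Real.pi_gt_three; rw [hα]; linarith
  have hcosα : Real.cos α = -(s / 2) := by
    rw [hα, Real.cos_add, Real.cos_pi_div_two, Real.sin_pi_div_two, hs]
    ring
  have hpp : v + cis (θ₀ + m) = u + s * cis (θ₀ + α) := by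
    rw [cis_chord θ₀ m, huv, hs, hα, ← add_assoc, ← add_assoc]
  have hpm : v + cis (θ₀ + -m) = u + s * cis (θ₀ + (2 * Real.pi - α)) := by
    have e : θ₀ + (2 * Real.pi - α) = (θ₀ + Real.pi / 2 + -m / 2) + Real.pi := by
      rw [hα]; ring
    have e2 : cis ((θ₀ + Real.pi / 2 + -m / 2) + Real.pi) = -cis (θ₀ + Real.pi / 2 + -m / 2) := by
      apply Complex.ext
      · rw [Complex.neg_re, cis_re, cis_re, Real.cos_add_pi]
      · rw [Complex.neg_im, cis_im, cis_im, Real.sin_add_pi]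
    rw [cis_chord θ₀ (-m), huv, e, e2]
    have e3 : (2 * Real.sin (-m / 2) : ℝ) = -s := by
      rw [hs, neg_div, Real.sin_neg]
      ring
    rw [e3]
    push_cast
    ring
  obtain ⟨Rp, hRp, hxp⟩ := hCR' m hm0.ne' (by rw [abs_of_pos hm0]; exact hmh₀)
  obtain ⟨Rm, hRm, hxm⟩ := hCR' (-m) (by linarith) (by rw [abs_neg, abs_of_pos hm0]; exact hmh₀)
  have hcp : u ∈ closure Rp := by
    refine hNC' Rp hRp ⟨_, hxp, ?_⟩
    rw [hpp, mem_ball, dist_eq_norm, add_sub_cancel_left, norm_mul, norm_cis, mul_one,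
      Complex.norm_real, Real.norm_eq_abs, abs_of_pos hs0]
    linarith
  have hcm : u ∈ closure Rm := by
    refine hNC' Rm hRm ⟨_, hxm, ?_⟩
    rw [hpm, mem_ball, dist_eq_norm, add_sub_cancel_left, norm_mul, norm_cis, mul_one,
      Complex.norm_real, Real.norm_eq_abs, abs_of_pos hs0]
    linarith
  have hdv : ∀ t : ℝ, dist v (v + cis t) = 1 := by
    intro t
    rw [dist_eq_norm, sub_add_cancel_left, norm_neg, norm_cis]
  have hnp : C.rc Rp ∉ C.cols v := rc_not_mem_cols C hRp hxp (hdv _)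
  have hnm : C.rc Rm ∉ C.cols v := rc_not_mem_cols C hRm hxm (hdv _)
  have hXv : C.rc X ∈ C.cols v := ⟨Y, hY, hvY, hc.symm⟩
  have hX'v : C.rc X' ∈ C.cols v := ⟨Y', hY', hvY', hc'.symm⟩
  have hpX : C.rc Rp ≠ C.rc X := fun e => hnp (e ▸ hXv)
  have hpX' : C.rc Rp ≠ C.rc X' := fun e => hnp (e ▸ hX'v)
  have hmX : C.rc Rm ≠ C.rc X := fun e => hnm (e ▸ hXv)
  have hmX' : C.rc Rm ≠ C.rc X' := fun e => hnm (e ▸ hX'v)
  -- the third colour
  have heq : C.rc Rp = C.rc Rm := by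
    by_contra hne
    have hsub : (({C.rc X, C.rc X', C.rc Rp, C.rc Rm} : Finset (Fin 6)) : Set (Fin 6)) ⊆
        C.cols u := by
      intro i hi
      simp only [Finset.coe_insert, Finset.coe_singleton, Set.mem_insert_iff,
        Set.mem_singleton_iff] at hi
      rcases hi with rfl | rfl | rfl | rfl
      · exact ⟨X, hX, huX, rfl⟩
      · exact ⟨X', hX', huX', rfl⟩
      · exact ⟨Rp, hRp, hcp, rfl⟩
      · exact ⟨Rm, hRm, hcm, rfl⟩
    have h1 := Set.ncard_le_ncard hsub (Set.toFinite _)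
    rw [Set.ncard_coe_finset, hcols u hu] at h1
    have h2 : ({C.rc X, C.rc X', C.rc Rp, C.rc Rm} : Finset (Fin 6)).card = 4 := by
      rw [Finset.card_eq_succ]
      refine ⟨C.rc X, {C.rc X', C.rc Rp, C.rc Rm}, ?_, rfl, ?_⟩
      · simp only [Finset.mem_insert, Finset.mem_singleton, not_or]
        exact ⟨hcc, hpX.symm, hmX.symm⟩
      · rw [Finset.card_eq_three]
        exact ⟨_, _, _, hpX'.symm, hmX'.symm, hne, rfl⟩
    omega
  have hRR : Rp = Rm := hAdj u Rp hRp Rm hRm hcp hcm heq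
  have hneX : X ≠ Rp := fun e => hpX (by rw [e])
  have hneX' : X' ≠ Rp := fun e => hpX' (by rw [e])
  obtain ⟨ψ, hψ1, hψ2, hψ⟩ := exists_dir C hX huX (not_mem_of_two C hX hRp hneX hcp) hε₂ hRad'
    (θ₀ + α)
  obtain ⟨ψ', hψ'1, hψ'2, hψ'⟩ := exists_dir C hX' huX' (not_mem_of_two C hX' hRp hneX' hcp) hε₂
    hRad' (θ₀ + α)
  have hsε₂ : s < ε₂ := by linarith
  have hx := hψ s hs0 hsε₂
  have hx' := hψ' s hs0 hsε₂
  have hdist : ∀ t : ℝ, dist v (u + s * cis t) ^ 2 = 1 + s ^ 2 + 2 * s * Real.cos (t - θ₀) := by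
    intro t
    rw [dist_comm, dist_eq_norm, huv]
    have : v + cis θ₀ + s * cis t - v = cis θ₀ + s * cis t := by ring
    rw [this, norm_sq_polar]
  have k1 : Real.cos (ψ - θ₀) < Real.cos α := by
    have h1 := hin _ hx
    have h2 := hdist ψ
    have h3 : dist v (u + s * cis ψ) ^ 2 < 1 := by
      have := dist_nonneg (x := v) (y := u + s * cis ψ)
      nlinarith
    rw [h2] at h3
    rw [hcosα]
    have : s * (s + 2 * Real.cos (ψ - θ₀)) < 0 := by nlinarith
    have := (pos_iff_neg_of_mul_neg this).1 hs0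
    linarith
  have k2 : Real.cos α < Real.cos (ψ' - θ₀) := by
    have h1 := hout _ hx'
    have h2 := hdist ψ'
    have h3 : 1 < dist v (u + s * cis ψ') ^ 2 := by nlinarith
    rw [h2] at h3
    rw [hcosα]
    have : 0 < s * (s + 2 * Real.cos (ψ' - θ₀)) := by nlinarith
    have := (pos_iff_pos_of_mul_pos this).1 hs0
    linarith
  obtain ⟨l1, l2⟩ := cos_lt_cos hα0 hαπ (by linarith) (by linarith) k1
  have l3 := cos_gt_cos hα0 hαπ (by linarith) (by linarith) k2
  rw [hpp] at hxp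
  rw [hpm] at hxm
  exact hAlt' s hs0 (by linarith) (θ₀ + α) ψ (θ₀ + (2 * Real.pi - α)) ψ' (by linarith)
    (by linarith) (by linarith) (by linarith) Rp hRp X hX Rm hRm X' hX' hxp hx hxm hx'
    hneX.symm (hRR ▸ hneX) (hRR ▸ hneX'.symm) hneX'

theorem lnk_iff (C : PolygonColoring (Fin 6)) (hAlt : C.Alt) (hRad : C.Radial)
    (hNC : C.NearClosure) (hAdj : C.Adj) (hCR : C.CircReg)
    (hcols : ∀ p, C.IsTri p → (C.cols p).ncard = 3) {u v : ℂ} (hu : C.IsTri u) (hv : C.IsTri v)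
    {X Y : Set ℂ} (hX : X ∈ C.regions) (hY : Y ∈ C.regions) (huX : u ∈ closure X)
    (hvY : v ∈ closure Y) (hc : C.rc X = C.rc Y) : C.lnk u v ↔ near X Y := by
  constructor
  · rintro ⟨X₀, hX₀, Y₀, hY₀, hc₀, hu₀, hv₀, hn⟩
    exact C.near_of_near hAlt hRad hNC hAdj hCR hcols hu hv hX₀ hX hY₀ hY hu₀ huX hv₀ hvY hc₀ hc hn
  · intro h
    exact ⟨X, hX, Y, hY, hc, huX, hvY, h⟩

theorem lnk_dist (C : PolygonColoring (Fin 6)) {u v : ℂ} (h : C.lnk u v) : dist u v ≤ 1 := by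
  obtain ⟨X, hX, Y, hY, hc, hu, hv, hn⟩ := h
  exact dist_le_of_closure hu hv fun x hx y hy => (C.near_lt hX hY hc hn x hx y hy).le

theorem no_opposite (C : PolygonColoring (Fin 6)) (hAlt : C.Alt) (hRad : C.Radial)
    (hNC : C.NearClosure) (hAdj : C.Adj) (hCR : C.CircReg)
    (hcols : ∀ p, C.IsTri p → (C.cols p).ncard = 3) {u v u' : ℂ} (hu : C.IsTri u)
    (hv : C.IsTri v) (hu' : C.IsTri u') (hd : Disjoint (C.cols u) (C.cols u'))
    (h : C.lnk u v) (h' : C.lnk u' v) : False := by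
  have h1 := C.lnk_dist h
  have h2 := C.lnk_dist h'
  have h3 := C.tri_dist hAlt hCR hcols hu hu' hd
  rw [dist_eq_norm] at h1 h2 h3
  have hpar := parallelogram_law_with_norm ℝ (u - v) (u' - v)
  have e1 : u - v - (u' - v) = u - u' := by ring
  rw [e1] at hpar
  have n1 := norm_nonneg (u - v)
  have n2 := norm_nonneg (u' - v)
  have n3 := norm_nonneg (u - v + (u' - v))
  have hz : ‖u - v + (u' - v)‖ = 0 := by nlinarith
  have hz' : u' - v = -(u - v) := by
    have := norm_eq_zero.1 hz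
    linear_combination this
  have h4 : 1 ≤ ‖u - v‖ := by
    have e : u - u' = 2 * (u - v) := by linear_combination -hz'
    rw [e, norm_mul] at h3
    norm_num at h3
    linarith
  have h5 : ‖v - u‖ = 1 := by
    rw [norm_sub_rev]
    exact le_antisymm h1 h4
  obtain ⟨θ₀, hθ⟩ := exists_cis_of_norm_eq_one h5
  have hv' : v = u + cis θ₀ := by rw [← hθ, add_sub_cancel]
  have hu'' : u' = u + 2 * cis θ₀ := by rw [← hθ]; linear_combination hz'
  -- all colours
  have hall : ∀ i : Fin 6, i ∈ C.cols u ∨ i ∈ C.cols u' := by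
    intro i
    have hun : (C.cols u ∪ C.cols u').ncard = 6 := by
      rw [Set.ncard_union_eq hd (Set.toFinite _) (Set.toFinite _), hcols u hu, hcols u' hu']
    have huniv : C.cols u ∪ C.cols u' = Set.univ := by
      apply Set.eq_of_subset_of_ncard_le (Set.subset_univ _) _ (Set.toFinite _)
      rw [hun, Set.ncard_univ, Nat.card_eq_fintype_card, Fintype.card_fin]
    have : i ∈ C.cols u ∪ C.cols u' := by rw [huniv]; trivial
    exact this
  obtain ⟨ε, hε, hNC'⟩ := hNC v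
  obtain ⟨h₀, hh₀, hCR'⟩ := hCR u θ₀
  obtain ⟨m, hm0, hm1, hm2, hm3⟩ : ∃ m : ℝ, 0 < m ∧ m < 1 ∧ m < ε ∧ m < h₀ := by
    refine ⟨min 1 (min ε h₀) / 2, by positivity, ?_⟩
    have hpos : 0 < min 1 (min ε h₀) := by positivity
    have a1 := min_le_left 1 (min ε h₀)
    have a2 := min_le_right 1 (min ε h₀)
    have a3 := min_le_left ε h₀
    have a4 := min_le_right ε h₀
    refine ⟨by linarith, by linarith, by linarith⟩
  have hs0 : 0 < 2 * Real.sin (m / 2) := two_sin_pos hm0 hm1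
  have hsm := two_sin_le hm0
  obtain ⟨R, hR, hx⟩ := hCR' m hm0.ne' (by rw [abs_of_pos hm0]; exact hm3)
  have hvR : v ∈ closure R := by
    refine hNC' R hR ⟨_, hx, ?_⟩
    rw [cis_chord θ₀ m, hv', mem_ball, dist_eq_norm]
    have e : u + (cis θ₀ + ((2 * Real.sin (m / 2) : ℝ) : ℂ) * cis (θ₀ + Real.pi / 2 + m / 2)) -
        (u + cis θ₀) = ((2 * Real.sin (m / 2) : ℝ) : ℂ) * cis (θ₀ + Real.pi / 2 + m / 2) := by ring
    rw [e, norm_mul, norm_cis, mul_one, Complex.norm_real, Real.norm_eq_abs, abs_of_pos hs0]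
    linarith
  have hdu : dist u (u + cis (θ₀ + m)) = 1 := by
    rw [dist_eq_norm, sub_add_cancel_left, norm_neg, norm_cis]
  rcases hall (C.rc R) with hi | hi
  · exact rc_not_mem_cols C hR hx hdu hi
  · obtain ⟨Z, hZ, huZ, hcZ⟩ := hi
    have hn := (C.lnk_iff hAlt hRad hNC hAdj hCR hcols hu' hv hZ hR huZ hvR hcZ).1 h'
    have h6 : dist u' (u + cis (θ₀ + m)) ≤ 1 := dist_le_of_closure huZ (subset_closure hx)
      fun z hz y hy => (C.near_lt hZ hR hcZ hn z hz y hy).le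
    have h7 : dist u' (u + cis (θ₀ + m)) ^ 2 = 1 + (-2) ^ 2 + 2 * (-2) * Real.cos m := by
      have e2 : θ₀ - (θ₀ + m) = -m := by ring
      rw [← Real.cos_neg m, ← e2, ← norm_sq_polar, dist_comm, dist_eq_norm, hu'']
      congr 2
      push_cast
      ring
    have h8 : Real.cos m < 1 := by
      have := Real.cos_lt_cos_of_nonneg_of_le_pi (x := 0) (y := m) le_rfl
        (by linarith [Real.pi_gt_three]) hm0
      rwa [Real.cos_zero] at this
    have h9 := dist_nonneg (x := u') (y := u + cis (θ₀ + m))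
    nlinarith

end PolygonColoring
end PolyCol
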