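import Pool.Agent.Lib.PolyCol.Tri
import Pool.Agent.Lib.PolyCol.Rays
import Pool.Agent.Lib.PolyCol.WellDef

/-!
# Module 12c: local parity at a point of the unit circle (black boxes: `Tri`, `Rays`, `Crossing`, `WellDef`)

`local_circle`: `v` a triple point, `p = v + cis θ₀`, the regions after / before `p` on the unit circle of `v` are
`Xp` / `Xm`.  Take the word at `p` with base `a = θ₀ + π/2 + h/2`, `h > 0` small
(`p + 2 sin (h/2) cis a = v + cis (θ₀ + h) ∈ Xp` by `cis_chord`, so `X 0 = Xp`).  There are no rays with directions in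
`(θ₀ + π/2, θ₀ + π/2 + h/2]` (a ray of direction `θ₀ + π/2 + h'/2` contains the point `v + cis (θ₀ + h') ∈ Xp`, if
`2 sin (h'/2) < ε`).  Let `r` be the number of `j ∈ [1,n]` with
`τ j < θ₀ + 3π/2`: these are the inner rays (`p + s cis τ ∈ ball v 1` for small `s` iff `cos (τ - θ₀) < 0`; a tangent
ray stays outside), and `X r = Xm`.
-/

namespace PolyCol
namespace PolygonColoring

open Metric

namespace LC

theorem dist_sq (v : ℂ) (θ₀ s φ : ℝ) :
    dist (v + cis θ₀ + s * cis φ) v ^ 2 = 1 + 2 * s * Real.cos (φ - θ₀) + s ^ 2 := by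
  rw [dist_eq_norm]
  have h : v + cis θ₀ + s * cis φ - v = cis θ₀ + s * cis φ := by ring
  rw [h, ← Complex.normSq_eq_norm_sq, Complex.normSq_apply]
  simp only [Complex.add_re, Complex.add_im, Complex.re_ofReal_mul, Complex.im_ofReal_mul,
    cis_re, cis_im]
  rw [Real.cos_sub]
  have h1 := Real.sin_sq_add_cos_sq θ₀
  have h2 := Real.sin_sq_add_cos_sq φ
  linear_combination h1 + s ^ 2 * h2

theorem inside (v : ℂ) (θ₀ φ : ℝ) (h : Real.cos (φ - θ₀) < 0) :
    ∃ s₁ : ℝ, 0 < s₁ ∧ ∀ s : ℝ, 0 < s → s < s₁ → v + cis θ₀ + s * cis φ ∈ ball v 1 := by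
  refine ⟨-(2 * Real.cos (φ - θ₀)), by linarith, fun s h1 h2 => ?_⟩
  rw [mem_ball]
  have h3 := dist_sq v θ₀ s φ
  have h4 : 0 ≤ dist (v + cis θ₀ + s * cis φ) v := dist_nonneg
  by_contra h5
  push Not at h5
  nlinarith

theorem outside (v : ℂ) (θ₀ φ : ℝ) (h : 0 ≤ Real.cos (φ - θ₀)) (s : ℝ) (hs : 0 < s) :
    1 < dist (v + cis θ₀ + s * cis φ) v := by
  have h3 := dist_sq v θ₀ s φ
  have h4 : 0 ≤ dist (v + cis θ₀ + s * cis φ) v := dist_nonneg
  by_contra h5
  push Not at h5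
  have h6 : 0 ≤ 2 * s * Real.cos (φ - θ₀) := by positivity
  nlinarith [pow_pos hs 2]

theorem plus (v : ℂ) (θ₀ h : ℝ) :
    v + cis θ₀ + ((2 * Real.sin (h / 2) : ℝ) : ℂ) * cis (θ₀ + Real.pi / 2 + h / 2) =
      v + cis (θ₀ + h) := by
  rw [cis_chord θ₀ h]; ring

theorem cis_add_pi (x : ℝ) : cis (x + Real.pi) = - cis x := by
  apply Complex.ext
  · rw [Complex.neg_re, cis_re, cis_re, Real.cos_add_pi]
  · rw [Complex.neg_im, cis_im, cis_im, Real.sin_add_pi]

theorem minus (v : ℂ) (θ₀ h : ℝ) :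
    v + cis θ₀ + ((2 * Real.sin (h / 2) : ℝ) : ℂ) * cis (θ₀ + 3 * Real.pi / 2 - h / 2) =
      v + cis (θ₀ - h) := by
  have e1 : θ₀ - h = θ₀ + (-h) := by ring
  have e2 : θ₀ + 3 * Real.pi / 2 - h / 2 = (θ₀ + Real.pi / 2 + (-h) / 2) + Real.pi := by ring
  have e3 : Real.sin (-h / 2) = - Real.sin (h / 2) := by
    rw [neg_div, Real.sin_neg]
  rw [e1, cis_chord θ₀ (-h), e2, cis_add_pi, e3]
  push_cast
  ring

theorem sin_bound {h : ℝ} (h0 : 0 < h) (h1 : h ≤ 1) :
    0 < 2 * Real.sin (h / 2) ∧ 2 * Real.sin (h / 2) < h := by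
  have hpi := Real.pi_gt_three
  constructor
  · have := Real.sin_pos_of_pos_of_lt_pi (x := h / 2) (by linarith) (by linarith)
    linarith
  · have := Real.sin_lt (x := h / 2) (by linarith)
    linarith

theorem word_lt {S : Type} {C : PolygonColoring S} {p : ℂ} {a ε : ℝ} {n : ℕ} {τ : ℕ → ℝ}
    {X b : ℕ → Set ℂ} (hW : C.Word p a ε n τ X b) : ∀ j, j ≤ n + 1 → ∀ i, i < j → τ i < τ j := by
  intro j
  induction j with
  | zero => intro _ i hi; omega
  | succ j ih =>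
    intro hj i hi
    have h1 := hW.mono j (by omega)
    rcases Nat.lt_succ_iff_lt_or_eq.mp hi with h2 | h2
    · exact (ih (by omega) i h2).trans h1
    · rw [h2]; exact h1

theorem word_le {S : Type} {C : PolygonColoring S} {p : ℂ} {a ε : ℝ} {n : ℕ} {τ : ℕ → ℝ}
    {X b : ℕ → Set ℂ} (hW : C.Word p a ε n τ X b) {i j : ℕ} (hj : j ≤ n + 1) (hij : i ≤ j) :
    τ i ≤ τ j := by
  rcases hij.lt_or_eq with h | h
  · exact (word_lt hW j hj i h).le
  · rw [h]

theorem exists_r {S : Type} {C : PolygonColoring S} {p : ℂ} {a ε : ℝ} {n : ℕ} {τ : ℕ → ℝ}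
    {X b : ℕ → Set ℂ} (hW : C.Word p a ε n τ X b) {x : ℝ} (h1 : a < x) (h2 : x ≤ a + 2 * Real.pi) :
    ∃ r ≤ n, τ r < x ∧ x ≤ τ (r + 1) := by
  classical
  have hex : ∃ k, x ≤ τ k := ⟨n + 1, by rw [hW.stop]; exact h2⟩
  have hk := Nat.find_spec hex
  have hk0 : Nat.find hex ≠ 0 := by
    intro h
    rw [h, hW.start] at hk
    linarith
  obtain ⟨r, hr⟩ := Nat.exists_eq_succ_of_ne_zero hk0
  have hr1 : Nat.find hex ≤ n + 1 := Nat.find_le (by rw [hW.stop]; exact h2)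
  refine ⟨r, by omega, ?_, ?_⟩
  · have := Nat.find_min hex (m := r) (by omega)
    push Not at this
    exact this
  · rw [hr] at hk
    exact hk

/-- A region at distance less than `1` of a region with `v` in its closure, of the same colour. -/
theorem near_of_ball (C : PolygonColoring (Fin 6)) {X G : Set ℂ} (hX : X ∈ C.regions)
    (hG : G ∈ C.regions) (hc : C.rc X = C.rc G) {v x : ℂ} (hv : v ∈ closure G) (hx : x ∈ X)
    (hd : dist x v < 1) : near X G := by
  by_contra hnn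
  have h1 := C.far_gt hX hG hc hnn x hx
  have h2 : v ∈ {y | 1 ≤ dist x y} := by
    have hcl : IsClosed {y : ℂ | 1 ≤ dist x y} :=
      isClosed_le continuous_const (continuous_const.dist continuous_id)
    exact hcl.closure_subset_iff.mpr (fun y hy => (h1 y hy).le) hv
  have h3 : 1 ≤ dist x v := h2
  linarith

theorem dist_le_of_near (C : PolygonColoring (Fin 6)) {X G : Set ℂ} (hX : X ∈ C.regions)
    (hG : G ∈ C.regions) (hc : C.rc X = C.rc G) {v x : ℂ} (hv : v ∈ closure G) (hx : x ∈ X)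
    (hn : near X G) : dist x v ≤ 1 := by
  have h1 := C.near_lt hX hG hc hn x hx
  have h2 : v ∈ {y | dist x y ≤ 1} := by
    have hcl : IsClosed {y : ℂ | dist x y ≤ 1} :=
      isClosed_le (continuous_const.dist continuous_id) continuous_const
    exact hcl.closure_subset_iff.mpr (fun y hy => (h1 y hy).le) hv
  exact h2

end LC

theorem local_circle (C : PolygonColoring (Fin 6)) (hWs : C.HasWords) (hCB : C.CloseBorder)
    (hAlt : C.Alt) (hRad : C.Radial) (hNC : C.NearClosure) (hAdj : C.Adj) (hCR : C.CircReg)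
    (hcols : ∀ p, C.IsTri p → (C.cols p).ncard = 3)
    {v : ℂ} (hv : C.IsTri v) (θ₀ : ℝ) {Xp Xm : Set ℂ} (hXp : Xp ∈ C.regions)
    (hXm : Xm ∈ C.regions) (h₀ : ℝ) (hpos : 0 < h₀)
    (hp : ∀ h : ℝ, 0 < h → h < h₀ → v + cis (θ₀ + h) ∈ Xp)
    (hm : ∀ h : ℝ, 0 < h → h < h₀ → v + cis (θ₀ - h) ∈ Xm)
    (α β : Fin 6) (hαβ : α ≠ β) (hα : α ∉ C.cols v) (hβ : β ∉ C.cols v) :
    Even ({b | b ∈ C.borders ∧ C.isAB C.rc α β b ∧ IsEnd (ball v 1) (v + cis θ₀) b}.ncard +
      ind ((C.rc Xm = α ∧ C.rc Xp = β) ∨ (C.rc Xm = β ∧ C.rc Xp = α)) +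
      ind (C.IsTri (v + cis θ₀) ∧ α ∈ C.cols (v + cis θ₀) ∧ β ∈ C.cols (v + cis θ₀) ∧
        C.lnk (v + cis θ₀) v)) := by
  have hpi := Real.pi_gt_three
  obtain ⟨ε, hε, hWex⟩ := hWs (v + cis θ₀)
  -- the base direction
  obtain ⟨h, hh0, hh1, hh2, hh3⟩ : ∃ h : ℝ, 0 < h ∧ h < h₀ ∧ h < ε ∧ h ≤ 1 := by
    refine ⟨min (min h₀ ε) 1 / 2, by positivity, ?_, ?_, ?_⟩
    · have : min (min h₀ ε) 1 ≤ h₀ := (min_le_left _ _).trans (min_le_left _ _)
      linarith
    · have : min (min h₀ ε) 1 ≤ ε := (min_le_left _ _).trans (min_le_right _ _)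
      linarith
    · have : min (min h₀ ε) 1 ≤ 1 := min_le_right _ _
      linarith
  obtain ⟨hs0, hs1⟩ := LC.sin_bound hh0 hh3
  have hbase : v + cis θ₀ + ((2 * Real.sin (h / 2) : ℝ) : ℂ) * cis (θ₀ + Real.pi / 2 + h / 2) ∈
      Xp := by
    rw [LC.plus]; exact hp h hh0 hh1
  obtain ⟨n, τ, X, b, hW⟩ := hWex (θ₀ + Real.pi / 2 + h / 2)
    ⟨2 * Real.sin (h / 2), hs0, by linarith, Xp, hXp, hbase⟩
  have hX0 : X 0 = Xp := C.region_eq (hW.reg 0 (Nat.zero_le _)) hXp
    (hW.base _ hs0 (by linarith)) hbase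
  have hτ0 := hW.start
  have hτn := hW.stop
  -- no ray in the last part of the turn
  have hA : ∀ j, 1 ≤ j → j ≤ n → τ j ≤ θ₀ + 5 * Real.pi / 2 := by
    intro j hj1 hjn
    by_contra hlt
    push Not at hlt
    have h1 : τ j < τ (n + 1) := LC.word_lt hW (n + 1) le_rfl j (by omega)
    rw [hτn] at h1
    set h' := 2 * (τ j - θ₀ - 5 * Real.pi / 2) with hh'
    have h2 : 0 < h' := by linarith
    have h3 : h' < h := by linarith
    obtain ⟨h4, h5⟩ := LC.sin_bound h2 (by linarith)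
    have h6 : v + cis θ₀ + ((2 * Real.sin (h' / 2) : ℝ) : ℂ) * cis (τ j) ∈ Xp := by
      have e1 : τ j = (θ₀ + Real.pi / 2 + h' / 2) + 2 * Real.pi := by rw [hh']; ring
      have e2 : cis (τ j) = cis (θ₀ + Real.pi / 2 + h' / 2) := by
        conv_lhs => rw [e1]
        exact cis_add_two_pi _
      rw [e2, LC.plus]
      exact hp h' h2 (by linarith)
    have h7 := hW.ray j hj1 hjn _ h4 (by linarith)
    exact Set.disjoint_left.1 (C.border_region _ (hW.bord j hj1 hjn) _ hXp) h7 h6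
  -- the number of inner rays
  obtain ⟨r, hrn, hr1, hr2⟩ := LC.exists_r hW (x := θ₀ + 3 * Real.pi / 2) (by linarith)
    (by linarith)
  have hXr : X r = Xm := by
    obtain ⟨h', hh0', hh1', hh2', hh3', hh4'⟩ : ∃ h' : ℝ, 0 < h' ∧ h' < h₀ ∧ h' < ε ∧ h' ≤ 1 ∧
        h' < θ₀ + 3 * Real.pi / 2 - τ r := by
      have h5 : 0 < θ₀ + 3 * Real.pi / 2 - τ r := by linarith
      refine ⟨min (min (min h₀ ε) 1) (θ₀ + 3 * Real.pi / 2 - τ r) / 2, by positivity, ?_, ?_, ?_,
        ?_⟩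
      · have : min (min (min h₀ ε) 1) (θ₀ + 3 * Real.pi / 2 - τ r) ≤ h₀ :=
          ((min_le_left _ _).trans (min_le_left _ _)).trans (min_le_left _ _)
        linarith
      · have : min (min (min h₀ ε) 1) (θ₀ + 3 * Real.pi / 2 - τ r) ≤ ε :=
          ((min_le_left _ _).trans (min_le_left _ _)).trans (min_le_right _ _)
        linarith
      · have : min (min (min h₀ ε) 1) (θ₀ + 3 * Real.pi / 2 - τ r) ≤ 1 :=
          (min_le_left _ _).trans (min_le_right _ _)
        linarith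
      · have : min (min (min h₀ ε) 1) (θ₀ + 3 * Real.pi / 2 - τ r) ≤
          θ₀ + 3 * Real.pi / 2 - τ r := min_le_right _ _
        linarith
    obtain ⟨h4, h5⟩ := LC.sin_bound hh0' hh3'
    have h6 := hW.sector r hrn (θ₀ + 3 * Real.pi / 2 - h' / 2) (by linarith) (by linarith)
      (2 * Real.sin (h' / 2)) h4 (by linarith)
    rw [LC.minus] at h6
    exact C.region_eq (hW.reg r hrn) hXm h6 (hm h' hh0' hh1')
  have hτr : ∀ j, j ≤ r → τ j < θ₀ + 3 * Real.pi / 2 := by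
    intro j hj
    exact lt_of_le_of_lt (LC.word_le hW (by omega) hj) hr1
  have hτr' : ∀ j, r < j → j ≤ n + 1 → θ₀ + 3 * Real.pi / 2 ≤ τ j := by
    intro j hj hjn
    exact hr2.trans (LC.word_le hW hjn (by omega))
  have hτpos : ∀ j, 1 ≤ j → j ≤ n + 1 → θ₀ + Real.pi / 2 < τ j := by
    intro j hj hjn
    have := LC.word_lt hW j hjn 0 (by omega)
    linarith
  have hcosneg : ∀ j, 1 ≤ j → j ≤ r → Real.cos (τ j - θ₀) < 0 := by
    intro j hj1 hjr
    apply Real.cos_neg_of_pi_div_two_lt_of_lt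
    · have := hτpos j hj1 (by omega); linarith
    · have := hτr j hjr; linarith
  -- the colours of the two regions on the circle
  have hcol : ∀ (Z : Set ℂ) (x : ℂ), Z ∈ C.regions → x ∈ Z → dist v x = 1 →
      C.rc Z ∉ C.cols v := by
    rintro Z x hZ hx hd ⟨R, hR, hvR, hRZ⟩
    exact C.dist_ne_one hR hZ hRZ hvR hx hd
  have hdcis : ∀ t : ℝ, dist v (v + cis t) = 1 := by
    intro t
    rw [dist_eq_norm]
    have : v - (v + cis t) = - cis t := by ring
    rw [this, norm_neg, norm_cis]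
  have hcp : C.rc (X 0) ∉ C.cols v := by
    rw [hX0]
    exact hcol Xp _ hXp (hp h hh0 hh1) (hdcis _)
  have hcm : C.rc (X r) ∉ C.cols v := by
    rw [hXr]
    exact hcol Xm _ hXm (hm h hh0 hh1) (hdcis _)
  have hdp : dist (v + cis θ₀) v = 1 := by rw [dist_comm]; exact hdcis θ₀
  -- colours at `p`
  have hcl : ∀ j, j ≤ n → v + cis θ₀ ∈ closure (X j) := fun j hj => C.word_closure hW j hj
  have hceq : ∀ i j, i ≤ n → j ≤ n → C.rc (X i) = C.rc (X j) → X i = X j := fun i j hi hj he =>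
    hAdj _ _ (hW.reg i hi) _ (hW.reg j hj) (hcl i hi) (hcl j hj) he
  have htri : C.IsTri (v + cis θ₀) ↔ n = 3 ∧ C.rc (X 0) ≠ C.rc (X 1) ∧
      C.rc (X 1) ≠ C.rc (X 2) ∧ C.rc (X 0) ≠ C.rc (X 2) := by
    rw [C.tri_word hW]
    constructor
    · rintro ⟨h1, h2, h3, h4⟩
      exact ⟨h1, fun e => h2 (hceq 0 1 (by omega) (by omega) e),
        fun e => h3 (hceq 1 2 (by omega) (by omega) e),
        fun e => h4 (hceq 0 2 (by omega) (by omega) e)⟩
    · rintro ⟨h1, h2, h3, h4⟩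
      exact ⟨h1, fun e => h2 (by rw [e]), fun e => h3 (by rw [e]), fun e => h4 (by rw [e])⟩
  have hmem : n = 3 → ∀ γ, γ ∈ C.cols (v + cis θ₀) ↔ ∃ i < 3, C.rc (X i) = γ := by
    intro hn γ
    constructor
    · rintro ⟨R, hR, hpR, hRγ⟩
      obtain ⟨j, hj, rfl⟩ := C.word_regions hW R hR hpR
      rcases Nat.lt_or_ge j 3 with h1 | h1
      · exact ⟨j, h1, hRγ⟩
      · have h2 : j = n := by omega
        refine ⟨0, by norm_num, ?_⟩
        rw [← hRγ, h2, hW.last]
    · rintro ⟨i, hi, rfl⟩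
      exact ⟨X i, hW.reg i (by omega), hcl i (by omega), rfl⟩
  -- common colour of `p` and `v`
  have hcommon : C.IsTri (v + cis θ₀) → ∃ i, (i = 1 ∨ i = 2) ∧ C.rc (X i) ∈ C.cols v := by
    intro hT
    obtain ⟨hn, -⟩ := htri.mp hT
    by_contra hno
    push Not at hno
    have hdisj : Disjoint (C.cols (v + cis θ₀)) (C.cols v) := by
      rw [Set.disjoint_left]
      intro γ h1 h2
      obtain ⟨i, hi, rfl⟩ := (hmem hn γ).mp h1
      interval_cases i
      · exact hcp h2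
      · exact hno 1 (Or.inl rfl) h2
      · exact hno 2 (Or.inr rfl) h2
    have h1 := tri_dist C hAlt hCR hcols hT hv hdisj
    linarith
  have hF : n = 3 → C.rc (X 0) ≠ C.rc (X 1) → C.rc (X 1) ≠ C.rc (X 2) →
      C.rc (X 0) ≠ C.rc (X 2) → C.rc (X 1) ∈ C.cols v ∨ C.rc (X 2) ∈ C.cols v := by
    intro h1 h2 h3 h4
    obtain ⟨i, rfl | rfl, hi⟩ := hcommon (htri.mpr ⟨h1, h2, h3, h4⟩)
    · exact Or.inl hi
    · exact Or.inr hi
  have hpar := word_parity (fun j => C.rc (X j)) n r hW.n_le hrn (by simp only [hW.last]) α β hαβ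
    (C.cols v) hα hβ hcp hcm hF
  -- the borders
  have hset : {b' | b' ∈ C.borders ∧ C.isAB C.rc α β b' ∧ IsEnd (ball v 1) (v + cis θ₀) b'} =
      (fun j => b (j + 1)) '' {j : ℕ | j < r ∧ ((C.rc (X j) = α ∧ C.rc (X (j + 1)) = β) ∨
        (C.rc (X j) = β ∧ C.rc (X (j + 1)) = α))} := by
    ext b'
    constructor
    · rintro ⟨hb', ⟨X', hX', Y', hY', hXα, hYβ, hbX, hbY⟩, -, e, he, s₀, hs₀, hray⟩
      obtain ⟨j, hj1, hjn, hej, hbj⟩ := C.ray_word hW hb' he hs₀ (fun s h1 h2 => (hray s h1 h2).1)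
      have hcos : Real.cos (τ j - θ₀) < 0 := by
        by_contra hge
        push Not at hge
        have h1 := (hray (s₀ / 2) (by linarith) (by linarith)).2
        rw [hej, mem_ball] at h1
        have h2 := LC.outside v θ₀ (τ j) hge (s₀ / 2) (by linarith)
        linarith
      have hjr : j ≤ r := by
        by_contra hlt
        push Not at hlt
        have h1 := hτr' j hlt (by omega)
        have h2 := hA j hj1 hjn
        have h3 : 0 ≤ Real.cos (τ j - θ₀ - 2 * Real.pi) :=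
          Real.cos_nonneg_of_neg_pi_div_two_le_of_le (by linarith) (by linarith)
        rw [Real.cos_sub_two_pi] at h3
        linarith
      obtain ⟨i, rfl⟩ : ∃ i, j = i + 1 := ⟨j - 1, by omega⟩
      rw [hbj, C.sides hCB hW (i + 1) (by omega) hjn _ hX'] at hbX
      rw [hbj, C.sides hCB hW (i + 1) (by omega) hjn _ hY'] at hbY
      rw [Nat.add_sub_cancel] at hbX hbY
      refine ⟨i, ⟨by omega, ?_⟩, hbj.symm⟩
      rcases hbX with h1 | h1 <;> rcases hbY with h2 | h2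
      · exact absurd (by rw [← hXα, ← hYβ, h1, h2]) hαβ
      · left; exact ⟨by rw [← h1]; exact hXα, by rw [← h2]; exact hYβ⟩
      · right; exact ⟨by rw [← h2]; exact hYβ, by rw [← h1]; exact hXα⟩
      · exact absurd (by rw [← hXα, ← hYβ, h1, h2]) hαβ
    · rintro ⟨j, ⟨hjr, hcc⟩, rfl⟩
      have hj1 : 1 ≤ j + 1 := by omega
      have hjn : j + 1 ≤ n := by omega
      have hs1 : b (j + 1) ⊆ closure (X j) :=
        (C.sides hCB hW (j + 1) hj1 hjn _ (hW.reg j (by omega))).mpr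
          (Or.inl (by rw [Nat.add_sub_cancel]))
      have hs2 : b (j + 1) ⊆ closure (X (j + 1)) :=
        (C.sides hCB hW (j + 1) hj1 hjn _ (hW.reg (j + 1) hjn)).mpr (Or.inr rfl)
      refine ⟨hW.bord (j + 1) hj1 hjn, ?_, ?_⟩
      · rcases hcc with ⟨h1, h2⟩ | ⟨h1, h2⟩
        · exact ⟨X j, hW.reg j (by omega), X (j + 1), hW.reg (j + 1) hjn, h1, h2, hs1, hs2⟩
        · exact ⟨X (j + 1), hW.reg (j + 1) hjn, X j, hW.reg j (by omega), h2, h1, hs2, hs1⟩
      · refine ⟨?_, cis (τ (j + 1)), norm_cis _, ?_⟩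
        · rintro ⟨-, h2⟩
          rw [mem_ball, hdp] at h2
          exact lt_irrefl _ h2
        · obtain ⟨s₁, h1, h2⟩ := LC.inside v θ₀ (τ (j + 1)) (hcosneg (j + 1) hj1 (by omega))
          refine ⟨min ε s₁, lt_min hε h1, fun s h3 h4 => ⟨?_, ?_⟩⟩
          · exact hW.ray (j + 1) hj1 hjn s h3 (h4.trans_le (min_le_left _ _))
          · exact h2 s h3 (h4.trans_le (min_le_right _ _))
  have hinj : Set.InjOn (fun j => b (j + 1)) {j : ℕ | j < r ∧
      ((C.rc (X j) = α ∧ C.rc (X (j + 1)) = β) ∨ (C.rc (X j) = β ∧ C.rc (X (j + 1)) = α))} := by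
    have key : ∀ i j, i < j → j < r → b (i + 1) = b (j + 1) → False := by
      intro i j hij hjr he
      obtain ⟨h1, -⟩ := C.border_inj hW (i := i + 1) (j := j + 1) (by omega) (by omega)
        (by omega) he
      have h2 := hτr (j + 1) (by omega)
      have h3 := hτpos (i + 1) (by omega) (by omega)
      linarith
    rintro i ⟨hi, -⟩ j ⟨hj, -⟩ he
    rcases lt_trichotomy i j with h1 | h1 | h1
    · exact (key i j h1 hj he).elim
    · exact h1
    · exact (key j i h1 hi he.symm).elim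
  rw [hset, Set.ncard_image_of_injOn hinj]
  -- the change on the circle
  have hind1 : ind ((C.rc Xm = α ∧ C.rc Xp = β) ∨ (C.rc Xm = β ∧ C.rc Xp = α)) =
      ind ((C.rc (X 0) = α ∧ C.rc (X r) = β) ∨ (C.rc (X 0) = β ∧ C.rc (X r) = α)) := by
    congr 1
    rw [hX0, hXr, eq_iff_iff]
    tauto
  -- the triple point
  have hind2 : ind (C.IsTri (v + cis θ₀) ∧ α ∈ C.cols (v + cis θ₀) ∧ β ∈ C.cols (v + cis θ₀) ∧
        C.lnk (v + cis θ₀) v) =
      ind (n = 3 ∧ C.rc (X 0) ≠ C.rc (X 1) ∧ C.rc (X 1) ≠ C.rc (X 2) ∧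
        C.rc (X 0) ≠ C.rc (X 2) ∧ (∃ i < 3, C.rc (X i) = α) ∧ (∃ i < 3, C.rc (X i) = β) ∧
        ∃ i, 0 < i ∧ i < r ∧ C.rc (X i) ∈ C.cols v) := by
    congr 1
    rw [eq_iff_iff]
    have hkey : C.IsTri (v + cis θ₀) → α ∈ C.cols (v + cis θ₀) → β ∈ C.cols (v + cis θ₀) →
        (C.lnk (v + cis θ₀) v ↔ ∃ i, 0 < i ∧ i < r ∧ C.rc (X i) ∈ C.cols v) := by
      intro hT hαp hβp
      obtain ⟨hn, h01, h12, h02⟩ := htri.mp hT
      obtain ⟨i₀, hi₀, hci₀⟩ := hcommon hT
      have hi₀n : i₀ < n := by rcases hi₀ with rfl | rfl <;> omega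
      have hi₀1 : 1 ≤ i₀ := by rcases hi₀ with rfl | rfl <;> omega
      -- `i₀` is the only index of `0 < i < 3` with colour in `cols v`
      have huniq : ∀ i, 0 < i → i < 3 → C.rc (X i) ∈ C.cols v → i = i₀ := by
        intro i hi1 hi3 hi
        by_contra hne
        -- then `α`, `β` are both the colour of `X 0`
        have h3 : ∀ γ, γ ∈ C.cols (v + cis θ₀) → γ ∉ C.cols v → γ = C.rc (X 0) := by
          intro γ hγ hγv
          obtain ⟨k, hk, rfl⟩ := (hmem hn γ).mp hγ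
          have : k = 0 ∨ k = i ∨ k = i₀ := by
            rcases hi₀ with rfl | rfl <;> omega
          rcases this with rfl | rfl | rfl
          · rfl
          · exact absurd hi hγv
          · exact absurd hci₀ hγv
        exact hαβ ((h3 α hαp hα).trans (h3 β hβp hβ).symm)
      have hi₀r : i₀ ≠ r := by
        rintro rfl
        exact hcm hci₀
      obtain ⟨G, hG, hvG, hGc⟩ := hci₀
      have hlnk := lnk_iff C hAlt hRad hNC hAdj hCR hcols hT hv (hW.reg i₀ hi₀n.le) hG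
        (hcl i₀ hi₀n.le) hvG hGc.symm
      have hex : (∃ i, 0 < i ∧ i < r ∧ C.rc (X i) ∈ C.cols v) ↔ i₀ < r := by
        constructor
        · rintro ⟨i, h1, h2, h3⟩
          rw [← huniq i h1 (by omega) h3]
          exact h2
        · intro h1
          exact ⟨i₀, by omega, h1, G, hG, hvG, hGc⟩
      rw [hlnk, hex]
      constructor
      · intro hnear
        by_contra hlt
        push Not at hlt
        have hlt' : r < i₀ := lt_of_le_of_ne hlt (Ne.symm hi₀r)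
        have h1 := hτr' i₀ hlt' (by omega)
        have h2 : τ i₀ < θ₀ + 5 * Real.pi / 2 :=
          lt_of_lt_of_le (LC.word_lt hW n (by omega) i₀ hi₀n) (hA n (by omega) le_rfl)
        have h3 : τ i₀ < τ (i₀ + 1) := hW.mono i₀ hi₀n.le
        obtain ⟨φ, hφ1, hφ2, hφ3⟩ : ∃ φ, τ i₀ < φ ∧ φ < τ (i₀ + 1) ∧ φ < θ₀ + 5 * Real.pi / 2 := by
          obtain ⟨φ, h4, h5⟩ := exists_between (lt_min h3 h2)
          exact ⟨φ, h4, h5.trans_le (min_le_left _ _), h5.trans_le (min_le_right _ _)⟩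
        have h4 := hW.sector i₀ hi₀n.le φ hφ1 hφ2 (ε / 2) (by linarith) (by linarith)
        have h5 : 0 ≤ Real.cos (φ - θ₀) := by
          have h6 : 0 ≤ Real.cos (φ - θ₀ - 2 * Real.pi) :=
            Real.cos_nonneg_of_neg_pi_div_two_le_of_le (by linarith) (by linarith)
          rwa [Real.cos_sub_two_pi] at h6
        have h6 := LC.outside v θ₀ φ h5 (ε / 2) (by linarith)
        have h7 := LC.dist_le_of_near C (hW.reg i₀ hi₀n.le) hG hGc.symm hvG h4 hnear
        linarith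
      · intro hlt
        have h1 : τ (i₀ + 1) < θ₀ + 3 * Real.pi / 2 := hτr (i₀ + 1) (by omega)
        have h2 := hτpos i₀ hi₀1 (by omega)
        have h3 : τ i₀ < τ (i₀ + 1) := hW.mono i₀ hi₀n.le
        obtain ⟨φ, hφ1, hφ2⟩ := exists_between h3
        have h4 : Real.cos (φ - θ₀) < 0 :=
          Real.cos_neg_of_pi_div_two_lt_of_lt (by linarith) (by linarith)
        obtain ⟨s₁, h5, h6⟩ := LC.inside v θ₀ φ h4
        obtain ⟨s, hs2, hs3⟩ := exists_between (lt_min hε h5)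
        have h7 := hW.sector i₀ hi₀n.le φ hφ1 hφ2 s hs2 (hs3.trans_le (min_le_left _ _))
        have h8 := h6 s hs2 (hs3.trans_le (min_le_right _ _))
        rw [mem_ball] at h8
        exact LC.near_of_ball C (hW.reg i₀ hi₀n.le) hG hGc.symm hvG h7 h8
    constructor
    · rintro ⟨h1, h2, h3, h4⟩
      obtain ⟨hn, h5, h6, h7⟩ := htri.mp h1
      exact ⟨hn, h5, h6, h7, (hmem hn α).mp h2, (hmem hn β).mp h3, (hkey h1 h2 h3).mp h4⟩
    · rintro ⟨hn, h5, h6, h7, h2, h3, h4⟩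
      have h1 := htri.mpr ⟨hn, h5, h6, h7⟩
      exact ⟨h1, (hmem hn α).mpr h2, (hmem hn β).mpr h3,
        (hkey h1 ((hmem hn α).mpr h2) ((hmem hn β).mpr h3)).mpr h4⟩
  rw [hind1, hind2]
  exact hpar

end PolygonColoring
end PolyCol
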