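import Pool.Agent.Lib.PolyCol.OddChanges
import Pool.Agent.Lib.PolyCol.Handshake
import Pool.Agent.Lib.PolyCol.LocalVertex
import Pool.Agent.Lib.PolyCol.LocalCircle
import Pool.Agent.Lib.PolyCol.Circle

/-!
# Module 13b: the odd parity lemma X3 (all imported modules are black boxes)

Take `CircleWord v n θ Y` (`exists_circleWord`).  `K = ball v 1`, `F = {b ∈ borders | isAB rc α β b, (b ∩ K).Nonempty}`
(finite by `locally_finite`), `Q = (vertices ∩ ball v 1) ∪ {v + cis (θ (j+1)) | j < 6n}` (disjoint union, the second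
family is injective: `θ` is strictly monotone and `θ (j + 6n) = θ j + 2π`).  All ends are in `Q`
(`isEnd_mem`; a point of the unit circle in no region is `v + cis (θ (j+1))` for some `0 ≤ j < 6n`).  `handshake`,
then `local_vertex` (with `g = rc`, `LabelInj` by `Adj`) for the points of `vertices ∩ ball v 1` and `local_circle` for
the points `v + cis (θ (j+1))` (`Xm = Y j`, `Xp = Y (j+1)`).  Note `{b | b ∈ F ∧ IsEnd K p b}` equals
`{b | b ∈ borders ∧ isAB .. b ∧ IsEnd K p b}`.  So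
`#changes ≡ #{u ∈ ball v 1 | tri, α, β ∈ cols u} + #{j | p_j tri, α, β ∈ cols p_j, lnk p_j v} (mod 2)`, and
this is `#{u | IsTri u ∧ α ∈ cols u ∧ β ∈ cols u ∧ lnk u v}`: for `dist u v < 1` `lnk u v` holds automatically
(`cols u` meets `cols v` by `tri_dist`; common colour, points near `u`, `v`), for `dist u v > 1` it fails
(`lnk_dist`), for `dist u v = 1` `u` is a vertex (`tri_vertex`) so in no region, so some `p_j`.
`#changes` is odd by `odd_changes`.
-/

namespace PolyCol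
namespace PolygonColoring

open Metric

/-- Break points. -/
private noncomputable def qp (v : ℂ) (θ : ℤ → ℝ) (j : ℕ) : ℂ := v + cis (θ ((j : ℤ) + 1))

private lemma theta_shift {C : PolygonColoring (Fin 6)} {v : ℂ} {n : ℕ} {θ : ℤ → ℝ}
    {Y : ℤ → Set ℂ} (hw : C.CircleWord v n θ Y) (j : ℤ) (k : ℕ) :
    θ (j + k * n) = θ j + k * (Real.pi / 3) := by
  induction k with
  | zero => simp
  | succ k ih =>
    have h1 : j + ((k + 1 : ℕ) : ℤ) * n = (j + k * n) + n := by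
      push_cast
      ring
    rw [h1, hw.shift, ih]
    push_cast
    ring

private lemma theta_full {C : PolygonColoring (Fin 6)} {v : ℂ} {n : ℕ} {θ : ℤ → ℝ}
    {Y : ℤ → Set ℂ} (hw : C.CircleWord v n θ Y) (j : ℤ) :
    θ (j + 6 * n) = θ j + 2 * Real.pi := by
  have h1 := theta_shift hw j 6
  push_cast at h1
  rw [h1]
  ring

private lemma locate {θ : ℤ → ℝ} {φ : ℝ} (h1 : θ 1 ≤ φ) (m : ℕ) (h2 : φ < θ ((m : ℤ) + 1)) :
    ∃ j : ℕ, j < m ∧ θ ((j : ℤ) + 1) ≤ φ ∧ φ < θ ((j : ℤ) + 2) := by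
  induction m with
  | zero =>
    rw [Nat.cast_zero, zero_add] at h2
    exact absurd h1 (not_le.2 h2)
  | succ m ih =>
    by_cases h3 : φ < θ ((m : ℤ) + 1)
    · obtain ⟨j, hj, h4, h5⟩ := ih h3
      exact ⟨j, by omega, h4, h5⟩
    · refine ⟨m, by omega, not_lt.1 h3, ?_⟩
      have h4 : ((m + 1 : ℕ) : ℤ) + 1 = (m : ℤ) + 2 := by
        push_cast
        ring
      rwa [h4] at h2

private lemma bad_point {C : PolygonColoring (Fin 6)} {v : ℂ} {n : ℕ} {θ : ℤ → ℝ}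
    {Y : ℤ → Set ℂ} (hw : C.CircleWord v n θ Y) {p : ℂ} (hp : dist p v = 1)
    (hR : ∀ R ∈ C.regions, p ∉ R) : ∃ j : ℕ, j < 6 * n ∧ p = qp v θ j := by
  obtain ⟨φ, hφ⟩ := exists_cis_of_norm_eq_one (z := p - v) (by rw [← dist_eq_norm]; exact hp)
  have hpv : p = v + cis φ := by
    rw [← hφ]
    ring
  set k : ℤ := ⌊(φ - θ 1) / (2 * Real.pi)⌋ with hk
  have hpi : 0 < 2 * Real.pi := by positivity
  have h1 : (k : ℝ) ≤ (φ - θ 1) / (2 * Real.pi) := Int.floor_le _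
  have h2 : (φ - θ 1) / (2 * Real.pi) < (k : ℝ) + 1 := Int.lt_floor_add_one _
  rw [le_div_iff₀ hpi] at h1
  rw [div_lt_iff₀ hpi] at h2
  set φ' : ℝ := φ + ((-k : ℤ) : ℝ) * (2 * Real.pi) with hφ'
  have e1 : cis φ' = cis φ := cis_add_int φ (-k)
  have e2 : θ 1 ≤ φ' := by
    rw [hφ']
    push_cast
    linarith
  have e3 : φ' < θ (((6 * n : ℕ) : ℤ) + 1) := by
    have e4 : ((6 * n : ℕ) : ℤ) + 1 = 1 + 6 * n := by
      push_cast
      ring
    rw [e4, theta_full hw, hφ']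
    push_cast
    linarith
  obtain ⟨j, hj, h3, h4⟩ := locate e2 (6 * n) e3
  refine ⟨j, hj, ?_⟩
  rcases h3.lt_or_eq with h5 | h5
  · exfalso
    have h6 := hw.arc ((j : ℤ) + 1) φ' h5 (by
      have : (j : ℤ) + 1 + 1 = (j : ℤ) + 2 := by ring
      rwa [this])
    apply hR _ (hw.reg ((j : ℤ) + 1))
    rw [hpv, ← e1]
    exact h6
  · unfold qp
    rw [h5, e1, ← hpv]

private lemma qp_inj {C : PolygonColoring (Fin 6)} {v : ℂ} {n : ℕ} {θ : ℤ → ℝ}
    {Y : ℤ → Set ℂ} (hw : C.CircleWord v n θ Y) {i j : ℕ} (hij : i < j) (hj : j < 6 * n) :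
    qp v θ i ≠ qp v θ j := by
  intro h
  unfold qp at h
  have h1 : cis (θ ((j : ℤ) + 1)) = cis (θ ((i : ℤ) + 1)) := (add_left_cancel h).symm
  rw [cis_eq_iff] at h1
  obtain ⟨k, hk⟩ := h1
  have h2 : θ ((i : ℤ) + 1) < θ ((j : ℤ) + 1) := hw.mono (by omega)
  have h3 : θ ((j : ℤ) + 1) < θ ((i : ℤ) + 1) + 2 * Real.pi := by
    rw [← theta_full hw]
    apply hw.mono
    omega
  have hpi : 0 < 2 * Real.pi := by positivity
  have h4 : (0:ℝ) < k := by
    by_contra hcon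
    have : (k:ℝ) * (2 * Real.pi) ≤ 0 := mul_nonpos_of_nonpos_of_nonneg (not_lt.1 hcon) hpi.le
    linarith
  have h5 : (k:ℝ) < 1 := by
    by_contra hcon
    have : 1 * (2 * Real.pi) ≤ (k:ℝ) * (2 * Real.pi) :=
      mul_le_mul_of_nonneg_right (not_lt.1 hcon) hpi.le
    linarith
  have h6 : (0:ℤ) < k := by exact_mod_cast h4
  have h7 : k < (1:ℤ) := by exact_mod_cast h5
  omega

private lemma dist_qp (v : ℂ) (θ : ℤ → ℝ) (j : ℕ) : dist (qp v θ j) v = 1 := by
  unfold qp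
  rw [dist_eq_norm, add_sub_cancel_left, norm_cis]

private lemma ncard_eq_sum (U : Set ℂ) (Q : Finset ℂ) (h : ∀ u ∈ U, u ∈ Q) :
    U.ncard = ∑ p ∈ Q, ind (p ∈ U) := by
  classical
  have h1 : U = ↑(Q.filter (fun p => p ∈ U)) := by
    ext u
    simp only [Finset.coe_filter, Set.mem_ofPred_eq]
    exact ⟨fun hu => ⟨h u hu, hu⟩, fun hu => hu.2⟩
  conv_lhs => rw [h1]
  rw [Set.ncard_coe_finset, Finset.card_filter]
  apply Finset.sum_congr rfl
  intro p _
  by_cases hp : p ∈ U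
  · rw [if_pos hp, ind_of hp]
  · rw [if_neg hp, ind_of_not hp]

private lemma lnk_of_lt (C : PolygonColoring (Fin 6)) (hAlt : C.Alt) (hCR : C.CircReg)
    (hcols : ∀ p, C.IsTri p → (C.cols p).ncard = 3) {u v : ℂ} (hu : C.IsTri u) (hv : C.IsTri v)
    (h : dist u v < 1) : C.lnk u v := by
  have h1 : ¬ Disjoint (C.cols u) (C.cols v) := by
    intro hd
    have := tri_dist C hAlt hCR hcols hu hv hd
    linarith
  rw [Set.not_disjoint_iff] at h1
  obtain ⟨i, ⟨X, hX, huX, hXi⟩, ⟨Y, hY, hvY, hYi⟩⟩ := h1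
  refine ⟨X, hX, Y, hY, hXi.trans hYi.symm, huX, hvY, ?_⟩
  set δ : ℝ := (1 - dist u v) / 2 with hδ
  have hδ0 : 0 < δ := by
    rw [hδ]
    linarith
  obtain ⟨x, hx, hx2⟩ := Metric.mem_closure_iff.1 huX δ hδ0
  obtain ⟨y, hy, hy2⟩ := Metric.mem_closure_iff.1 hvY δ hδ0
  refine ⟨x, hx, y, hy, ?_⟩
  have h2 := dist_triangle4 x u v y
  rw [dist_comm x u] at h2
  linarith

private lemma even_sum_of {ι : Type} (s : Finset ι) (f : ι → ℕ) (h : ∀ i ∈ s, Even (f i)) :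
    Even (∑ i ∈ s, f i) := Finset.even_sum f h

theorem odd_links (C : PolygonColoring (Fin 6)) (hWs : C.HasWords)
    (hw : ∀ p, ∃ a ε n τ X b, C.Word p a ε n τ X b) (hCB : C.CloseBorder)
    (hAlt : C.Alt) (hRad : C.Radial) (hNC : C.NearClosure) (hAdj : C.Adj) (hCF : C.CircFin)
    (hCR : C.CircReg) (hcols : ∀ p, C.IsTri p → (C.cols p).ncard = 3)
    {v : ℂ} (hv : C.IsTri v) (α β : Fin 6) (hαβ : α ≠ β) (hα : α ∉ C.cols v)
    (hβ : β ∉ C.cols v) :
    Odd {u | C.IsTri u ∧ α ∈ C.cols u ∧ β ∈ C.cols u ∧ C.lnk u v}.ncard := by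
  classical
  obtain ⟨n, θ, Y, hwd⟩ := C.exists_circleWord hCF v
  -- the borders
  set F : Set (Set ℂ) := {b | b ∈ C.borders ∧ C.isAB C.rc α β b ∧ (b ∩ ball v 1).Nonempty} with hF
  have hFfin : F.Finite := by
    refine (C.locally_finite v 1).2.1.subset ?_
    rintro b ⟨h1, -, h2⟩
    exact ⟨h1, h2.mono (Set.inter_subset_inter_right _ ball_subset_closedBall)⟩
  have hVfin : (C.vertices ∩ ball v 1).Finite :=
    (C.locally_finite v 1).2.2.subset (Set.inter_subset_inter_right _ ball_subset_closedBall)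
  set Vt : Finset ℂ := hVfin.toFinset with hVt
  have hVmem : ∀ p, p ∈ Vt ↔ p ∈ C.vertices ∧ dist p v < 1 := by
    intro p
    rw [hVt, Set.Finite.mem_toFinset]
    exact Iff.rfl
  set Qc : Finset ℂ := (Finset.range (6 * n)).image (qp v θ) with hQc
  have hdisj : Disjoint Vt Qc := by
    rw [Finset.disjoint_left]
    intro p hp hp2
    rw [hQc, Finset.mem_image] at hp2
    obtain ⟨j, -, rfl⟩ := hp2
    have h1 := ((hVmem _).1 hp).2
    rw [dist_qp] at h1
    exact lt_irrefl _ h1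
  have hcirc : ∀ p, dist p v = 1 → (∀ R ∈ C.regions, p ∉ R) → p ∈ Qc := by
    intro p hp hR
    obtain ⟨j, hj, rfl⟩ := bad_point hwd hp hR
    exact Finset.mem_image_of_mem _ (Finset.mem_range.2 hj)
  have hQ : ∀ b ∈ F, ∀ p, IsEnd (ball v 1) p b → p ∈ Vt ∪ Qc := by
    intro b hb p hp
    obtain ⟨h1, h2⟩ := C.isEnd_mem hb.1 hp
    rw [Finset.mem_union]
    rcases h1.lt_or_eq with h3 | h3
    · left
      rw [hVmem]
      rcases h2 with h2 | h2
      · exact ⟨h2, h3⟩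
      · exact absurd h2.2 h3.ne
    · right
      apply hcirc p h3
      intro R hR
      rcases h2 with h2 | h2
      · exact C.vertex_region p h2 R hR
      · exact Set.disjoint_left.1 (C.border_region b hb.1 R hR) h2.1
  have hhs := C.handshake v 1 F hFfin (fun b hb => ⟨hb.1, hb.2.2⟩) (Vt ∪ Qc) hQ
  set N : ℂ → ℕ := fun p =>
    {b | b ∈ C.borders ∧ C.isAB C.rc α β b ∧ IsEnd (ball v 1) p b}.ncard with hN
  have hNeq : ∀ p, {b | b ∈ F ∧ IsEnd (ball v 1) p b}.ncard = N p := by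
    intro p
    simp only [hN]
    congr 1
    ext b
    constructor
    · rintro ⟨⟨h1, h2, -⟩, h3⟩
      exact ⟨h1, h2, h3⟩
    · rintro ⟨h1, h2, h3⟩
      refine ⟨⟨h1, h2, ?_⟩, h3⟩
      obtain ⟨-, e, -, s₀, hs₀, he⟩ := h3
      exact ⟨_, he (s₀ / 2) (by linarith) (by linarith)⟩
  simp only [hNeq] at hhs
  have hinj : Set.InjOn (qp v θ) (Finset.range (6 * n) : Finset ℕ) := by
    intro i hi j hj hij
    rw [Finset.coe_range, Set.mem_Iio] at hi hj
    rcases lt_trichotomy i j with h | h | h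
    · exact absurd hij (qp_inj hwd h hj)
    · exact h
    · exact absurd hij.symm (qp_inj hwd h hi)
  have hsplit : ∀ f : ℂ → ℕ, ∑ p ∈ Vt ∪ Qc, f p =
      ∑ p ∈ Vt, f p + ∑ j ∈ Finset.range (6 * n), f (qp v θ j) := by
    intro f
    rw [Finset.sum_union hdisj, hQc, Finset.sum_image hinj]
  rw [hsplit] at hhs
  -- the set
  set U : Set ℂ := {u | C.IsTri u ∧ α ∈ C.cols u ∧ β ∈ C.cols u ∧ C.lnk u v} with hU
  have hUQ : ∀ u ∈ U, u ∈ Vt ∪ Qc := by
    rintro u ⟨h1, -, -, h4⟩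
    have h5 := lnk_dist C h4
    have h6 := tri_vertex C hw h1
    rw [Finset.mem_union]
    rcases h5.lt_or_eq with h7 | h7
    · left
      exact (hVmem u).2 ⟨h6, h7⟩
    · right
      exact hcirc u h7 (C.vertex_region u h6)
  rw [ncard_eq_sum U (Vt ∪ Qc) hUQ, hsplit]
  -- local parities
  have hg : C.LabelInj C.rc := fun p X hX Y hY hpX hpY h => hAdj p X hX Y hY hpX hpY h
  have hV1 : ∀ p ∈ Vt, Even (N p + ind (p ∈ U)) := by
    intro p hp
    obtain ⟨hp1, hp2⟩ := (hVmem p).1 hp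
    have h1 := local_vertex C hw hCB C.rc hg α β hαβ hp1 hp2
    have h2 : (p ∈ U) = (C.IsTri p ∧ (∃ X ∈ C.regions, p ∈ closure X ∧ C.rc X = α) ∧
        (∃ Y ∈ C.regions, p ∈ closure Y ∧ C.rc Y = β)) := by
      apply propext
      constructor
      · rintro ⟨h3, h4, h5, -⟩
        exact ⟨h3, h4, h5⟩
      · rintro ⟨h3, h4, h5⟩
        exact ⟨h3, h4, h5, lnk_of_lt C hAlt hCR hcols h3 hv hp2⟩
    rw [h2]
    exact h1
  have hC1 : ∀ j ∈ Finset.range (6 * n), Even (N (qp v θ j) +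
      ind ((C.rc (Y j) = α ∧ C.rc (Y (j + 1)) = β) ∨ (C.rc (Y j) = β ∧ C.rc (Y (j + 1)) = α)) +
      ind (qp v θ j ∈ U)) := by
    intro j _
    have m1 : θ (j : ℤ) < θ ((j : ℤ) + 1) := hwd.mono (by omega)
    have m2 : θ ((j : ℤ) + 1) < θ ((j : ℤ) + 1 + 1) := hwd.mono (by omega)
    exact local_circle C hWs hCB hAlt hRad hNC hAdj hCR hcols hv (θ ((j : ℤ) + 1))
      (Xp := Y ((j : ℤ) + 1)) (Xm := Y (j : ℤ)) (hwd.reg _) (hwd.reg _)
      (min (θ ((j : ℤ) + 1) - θ (j : ℤ)) (θ ((j : ℤ) + 1 + 1) - θ ((j : ℤ) + 1)))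
      (lt_min (by linarith) (by linarith))
      (fun h h1 h2 => hwd.arc _ _ (by linarith) (by
        have := h2.trans_le (min_le_right _ _)
        linarith))
      (fun h h1 h2 => hwd.arc _ _ (by
        have := h2.trans_le (min_le_left _ _)
        linarith) (by linarith)) α β hαβ hα hβ
  have hodd := odd_changes C hAlt hRad hNC hCR hcols hv hwd α β hαβ hα hβ
  have hE1 := even_sum_of Vt _ hV1
  have hE2 := even_sum_of (Finset.range (6 * n)) _ hC1
  rw [Finset.sum_add_distrib] at hE1 hE2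
  rw [Finset.sum_add_distrib] at hE2
  rw [Nat.even_iff] at hE1 hE2 hhs
  rw [Nat.odd_iff] at hodd ⊢
  omega

end PolygonColoring
end PolyCol
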