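import Pool.Agent.Lib.PolyCol.Defs

/-!
# Module 17: a polygon colouring with 7 colours and all degrees 3 (Szekely's squares)

Scale by `√2`: `X = √2 x.re`, `Y = √2 x.im`.  Row `r` (`r < Y ≤ r+1`) is cut in the half open unit squares
`(k + 5r/2, k + 1 + 5r/2] × (r, r+1]`, coloured `k mod 7`: `r = ⌈Y⌉ - 1`, `k = ⌈X - 5r/2⌉ - 1`, colour
`(k : ZMod 7)`.  Two points `(X,Y), (X',Y')` of the same colour are not at distance `√2`: let
`r' - r = ρ ≥ 0`, `k' - k = 7m`, `X' - X ∈ (7m + 5ρ/2 - 1, 7m + 5ρ/2 + 1)`, `Y' - Y ∈ (ρ - 1, ρ + 1)`.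
`ρ = 0, m = 0`: both differences `< 1` in absolute value, sum of squares `< 2`; `ρ = 0, m ≠ 0`: `|X'-X| > 6`;
`ρ = 1`: `|X' - X| > 3/2`; `ρ = 2`: `|X' - X| > 1` and `Y' - Y > 1`; `ρ ≥ 3`: `Y' - Y > 2`.
Vertices: `(m/2, r)`, `m, r : ℤ`.  Horizontal borders from `(m/2, r)` to `((m+1)/2, r)`; vertical borders
from `(m/2, r)` to `(m/2, r+1)` for `m ≡ r (mod 2)`.  Regions `(m/2, m/2+1) × (r, r+1)` for `m ≡ r (mod 2)`.  Every
vertex has degree 3 (left, right, and up if `m ≡ r`, down if `m ≡ r - 1 mod 2`).  Same coloured different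
squares have disjoint closures.
All coordinates are divided by `√2`.
-/

namespace PolyCol

open Metric

namespace SzekelyAux

/-- first coordinate, scaled -/
noncomputable def X : ℂ →ₗ[ℝ] ℝ := (√2 : ℝ) • Complex.reLm

/-- second coordinate, scaled -/
noncomputable def Y : ℂ →ₗ[ℝ] ℝ := (√2 : ℝ) • Complex.imLm

/-- the point with scaled coordinates `a`, `b` -/
noncomputable def pt (a b : ℝ) : ℂ := ⟨a / √2, b / √2⟩

lemma s2pos : (0 : ℝ) < √2 := Real.sqrt_pos.2 two_pos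

lemma X_apply (x : ℂ) : X x = √2 * x.re := rfl

lemma Y_apply (x : ℂ) : Y x = √2 * x.im := rfl

@[simp] lemma X_pt (a b : ℝ) : X (pt a b) = a := by
  rw [X_apply, pt]
  field_simp [s2pos.ne']

@[simp] lemma Y_pt (a b : ℝ) : Y (pt a b) = b := by
  rw [Y_apply, pt]
  field_simp [s2pos.ne']

lemma ext_XY {x y : ℂ} (h1 : X x = X y) (h2 : Y x = Y y) : x = y := by
  rw [X_apply, X_apply] at h1
  rw [Y_apply, Y_apply] at h2
  exact Complex.ext (mul_left_cancel₀ s2pos.ne' h1) (mul_left_cancel₀ s2pos.ne' h2)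

lemma X_cont : Continuous X := by
  have : (X : ℂ → ℝ) = fun x => √2 * x.re := rfl
  rw [this]
  exact continuous_const.mul Complex.continuous_re

lemma Y_cont : Continuous Y := by
  have : (Y : ℂ → ℝ) = fun x => √2 * x.im := rfl
  rw [this]
  exact continuous_const.mul Complex.continuous_im

/-- horizontal borders -/
def Hor (m r : ℤ) : Set ℂ := {x | (m : ℝ) / 2 < X x ∧ X x < ((m : ℝ) + 1) / 2 ∧ Y x = r}

/-- vertical borders -/
def Ver (k r : ℤ) : Set ℂ := {x | X x = k + 5 * r / 2 ∧ (r : ℝ) < Y x ∧ Y x < r + 1}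

/-- regions -/
def Reg (k r : ℤ) : Set ℂ :=
  {x | ((k : ℝ) + 5 * r / 2 < X x ∧ X x < k + 1 + 5 * r / 2) ∧ ((r : ℝ) < Y x ∧ Y x < r + 1)}

lemma seg_hor {a a' b : ℝ} (h : a < a') :
    openSegment ℝ (pt a b) (pt a' b) = {x | a < X x ∧ X x < a' ∧ Y x = b} := by
  ext x
  constructor
  · rintro ⟨s, t, hs, ht, hst, rfl⟩
    have hs' : s = 1 - t := by linarith
    simp only [Set.mem_ofPred_eq, map_add, map_smul, X_pt, Y_pt, smul_eq_mul]
    subst hs'
    refine ⟨?_, ?_, by ring⟩ <;> nlinarith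
  · rintro ⟨h1, h2, h3⟩
    have hd : 0 < a' - a := sub_pos.2 h
    refine ⟨(a' - X x) / (a' - a), (X x - a) / (a' - a), div_pos (by linarith) hd,
      div_pos (by linarith) hd, ?_, ?_⟩
    · rw [← add_div, show a' - X x + (X x - a) = a' - a by ring, div_self hd.ne']
    · apply ext_XY
      · simp only [map_add, map_smul, X_pt, smul_eq_mul]
        field_simp
        ring
      · simp only [map_add, map_smul, Y_pt, smul_eq_mul]
        rw [h3]
        field_simp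
        ring

lemma seg_ver {a b b' : ℝ} (h : b < b') :
    openSegment ℝ (pt a b) (pt a b') = {x | X x = a ∧ b < Y x ∧ Y x < b'} := by
  ext x
  constructor
  · rintro ⟨s, t, hs, ht, hst, rfl⟩
    have hs' : s = 1 - t := by linarith
    simp only [Set.mem_ofPred_eq, map_add, map_smul, X_pt, Y_pt, smul_eq_mul]
    subst hs'
    refine ⟨by ring, ?_, ?_⟩ <;> nlinarith
  · rintro ⟨h3, h1, h2⟩
    have hd : 0 < b' - b := sub_pos.2 h
    refine ⟨(b' - Y x) / (b' - b), (Y x - b) / (b' - b), div_pos (by linarith) hd,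
      div_pos (by linarith) hd, ?_, ?_⟩
    · rw [← add_div, show b' - Y x + (Y x - b) = b' - b by ring, div_self hd.ne']
    · apply ext_XY
      · simp only [map_add, map_smul, X_pt, smul_eq_mul]
        rw [h3]
        field_simp
        ring
      · simp only [map_add, map_smul, Y_pt, smul_eq_mul]
        field_simp
        ring

lemma hor_eq (m r : ℤ) : Hor m r = openSegment ℝ (pt ((m : ℝ) / 2) r) (pt (((m : ℝ) + 1) / 2) r) := by
  rw [seg_hor (by linarith)]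
  rfl

lemma ver_eq (k r : ℤ) : Ver k r =
    openSegment ℝ (pt ((k : ℝ) + 5 * r / 2) r) (pt ((k : ℝ) + 5 * r / 2) ((r : ℝ) + 1)) := by
  rw [seg_ver (by linarith)]
  rfl

/-- integers are determined by the open unit interval -/
lemma int_unique {m m' : ℤ} {t : ℝ} (h1 : (m : ℝ) < t) (h2 : t < m + 1) (h3 : (m' : ℝ) < t)
    (h4 : t < m' + 1) : m = m' := by
  have a1 : m < m' + 1 := by exact_mod_cast h1.trans h4
  have a2 : m' < m + 1 := by exact_mod_cast h3.trans h2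
  omega

lemma int_not {m m' : ℤ} (h1 : (m : ℝ) < m') (h2 : (m' : ℝ) < m + 1) : False := by
  have a1 : m < m' := by exact_mod_cast h1
  have a2 : m' < m + 1 := by exact_mod_cast h2
  omega

/-- row -/
noncomputable def row (x : ℂ) : ℤ := ⌈Y x⌉ - 1

/-- column in the row -/
noncomputable def col (x : ℂ) : ℤ := ⌈X x - 5 * (row x : ℝ) / 2⌉ - 1

/-- the colour -/
noncomputable def clr (x : ℂ) : Fin 7 := ((col x : ℤ) : ZMod 7)

lemma row_spec (x : ℂ) : (row x : ℝ) < Y x ∧ Y x ≤ row x + 1 := by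
  unfold row
  push_cast
  constructor
  · have := Int.ceil_lt_add_one (Y x)
    linarith
  · have := Int.le_ceil (Y x)
    linarith

lemma col_spec (x : ℂ) : (col x : ℝ) < X x - 5 * (row x : ℝ) / 2 ∧
    X x - 5 * (row x : ℝ) / 2 ≤ col x + 1 := by
  unfold col
  push_cast
  constructor
  · have := Int.ceil_lt_add_one (X x - 5 * (row x : ℝ) / 2)
    linarith
  · have := Int.le_ceil (X x - 5 * (row x : ℝ) / 2)
    linarith

lemma clr_eq {x y : ℂ} (h : clr x = clr y) : ∃ m : ℤ, col y = col x + 7 * m := by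
  have h1 : ((col x : ℤ) : ZMod 7) = ((col y : ℤ) : ZMod 7) := h
  rw [ZMod.intCast_eq_intCast_iff_dvd_sub] at h1
  obtain ⟨m, hm⟩ := h1
  refine ⟨m, ?_⟩
  push_cast at hm
  omega

lemma unit_aux {x y : ℂ} (hr : row x ≤ row y) (hc : clr x = clr y)
    (hd : (X y - X x) ^ 2 + (Y y - Y x) ^ 2 = 2) : False := by
  obtain ⟨m, hm⟩ := clr_eq hc
  obtain ⟨a1, a2⟩ := row_spec x
  obtain ⟨b1, b2⟩ := row_spec y
  obtain ⟨c1, c2⟩ := col_spec x
  obtain ⟨d1, d2⟩ := col_spec y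
  obtain ⟨ρ, hρ⟩ : ∃ ρ : ℤ, row y = row x + ρ := ⟨row y - row x, by ring⟩
  have hρ0 : 0 ≤ ρ := by omega
  rw [hm, hρ] at d1 d2
  rw [hρ] at b1 b2
  push_cast at b1 b2 d1 d2
  set u := X y - X x with hu
  set v := Y y - Y x with hv
  have hu1 : 7 * (m : ℝ) + 5 * ρ / 2 - 1 < u := by rw [hu]; linarith
  have hu2 : u < 7 * (m : ℝ) + 5 * ρ / 2 + 1 := by rw [hu]; linarith
  have hv1 : (ρ : ℝ) - 1 < v := by rw [hv]; linarith
  have hv2 : v < (ρ : ℝ) + 1 := by rw [hv]; linarith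
  rcases (show ρ = 0 ∨ ρ = 1 ∨ ρ = 2 ∨ 3 ≤ ρ by omega) with h | h | h | h
  · subst h
    rcases (show m = 0 ∨ 1 ≤ m ∨ m ≤ -1 by omega) with h | h | h
    · subst h
      push_cast at *
      have e1 : u ^ 2 < 1 := by nlinarith
      have e2 : v ^ 2 < 1 := by nlinarith
      linarith
    · have hm' : (1 : ℝ) ≤ m := by exact_mod_cast h
      push_cast at *
      nlinarith
    · have hm' : (m : ℝ) ≤ -1 := by exact_mod_cast h
      push_cast at *
      nlinarith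
  · subst h
    rcases (show 0 ≤ m ∨ m ≤ -1 by omega) with h | h
    · have hm' : (0 : ℝ) ≤ m := by exact_mod_cast h
      push_cast at *
      nlinarith
    · have hm' : (m : ℝ) ≤ -1 := by exact_mod_cast h
      push_cast at *
      nlinarith
  · subst h
    rcases (show 0 ≤ m ∨ m ≤ -1 by omega) with h | h
    · have hm' : (0 : ℝ) ≤ m := by exact_mod_cast h
      push_cast at *
      nlinarith
    · have hm' : (m : ℝ) ≤ -1 := by exact_mod_cast h
      push_cast at *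
      have e1 : u < -1 := by linarith
      have e2 : 1 < v := by linarith
      nlinarith
  · have hρ' : (3 : ℝ) ≤ ρ := by exact_mod_cast h
    have e2 : 2 < v := by linarith
    nlinarith

lemma unit_dist (x y : ℂ) (h : dist x y = 1) : clr x ≠ clr y := by
  intro hc
  have h1 : (x.re - y.re) ^ 2 + (x.im - y.im) ^ 2 = 1 := by
    rw [Complex.dist_eq_re_im, Real.sqrt_eq_one] at h
    exact h
  have h2 : √2 * √2 = 2 := Real.mul_self_sqrt (by norm_num)
  have h3 : (X y - X x) ^ 2 + (Y y - Y x) ^ 2 = 2 := by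
    simp only [X_apply, Y_apply]
    calc (√2 * y.re - √2 * x.re) ^ 2 + (√2 * y.im - √2 * x.im) ^ 2
        = (√2 * √2) * ((x.re - y.re) ^ 2 + (x.im - y.im) ^ 2) := by ring
      _ = 2 := by rw [h1, h2]; ring
  rcases le_total (row x) (row y) with h | h
  · exact unit_aux h hc h3
  · refine unit_aux h hc.symm ?_
    rw [← h3]
    ring

lemma reg_row {k r : ℤ} {x : ℂ} (hx : x ∈ Reg k r) : row x = r := by
  obtain ⟨-, h3, h4⟩ := hx
  unfold row
  have : ⌈Y x⌉ = r + 1 := by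
    rw [Int.ceil_eq_iff]
    push_cast
    constructor <;> linarith
  rw [this]
  ring

lemma reg_col {k r : ℤ} {x : ℂ} (hx : x ∈ Reg k r) : col x = k := by
  have hr := reg_row hx
  obtain ⟨⟨h1, h2⟩, -⟩ := hx
  unfold col
  rw [hr]
  have : ⌈X x - 5 * (r : ℝ) / 2⌉ = k + 1 := by
    rw [Int.ceil_eq_iff]
    push_cast
    constructor <;> linarith
  rw [this]
  ring

/-- the closed squares -/
def CReg (k r : ℤ) : Set ℂ :=
  {x | ((k : ℝ) + 5 * r / 2 ≤ X x ∧ X x ≤ k + 1 + 5 * r / 2) ∧ ((r : ℝ) ≤ Y x ∧ Y x ≤ r + 1)}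

lemma closed_CReg (k r : ℤ) : IsClosed (CReg k r) := by
  have : CReg k r = (X ⁻¹' Set.Icc ((k : ℝ) + 5 * r / 2) (k + 1 + 5 * r / 2)) ∩
    (Y ⁻¹' Set.Icc (r : ℝ) (r + 1)) := rfl
  rw [this]
  exact (isClosed_Icc.preimage X_cont).inter (isClosed_Icc.preimage Y_cont)

lemma closure_Reg (k r : ℤ) : closure (Reg k r) ⊆ CReg k r := by
  apply closure_minimal _ (closed_CReg k r)
  rintro x ⟨⟨h1, h2⟩, h3, h4⟩
  exact ⟨⟨h1.le, h2.le⟩, h3.le, h4.le⟩

lemma creg_inter {k r k' r' m : ℤ} {x : ℂ} (h : x ∈ CReg k r) (h' : x ∈ CReg k' r')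
    (hm : k' = k + 7 * m) : k = k' ∧ r = r' := by
  obtain ⟨⟨a1, a2⟩, a3, a4⟩ := h
  obtain ⟨⟨b1, b2⟩, b3, b4⟩ := h'
  have e1 : r ≤ r' + 1 := by exact_mod_cast a3.trans b4
  have e2 : r' ≤ r + 1 := by exact_mod_cast b3.trans a4
  subst hm
  push_cast at b1 b2
  rcases (show r' = r ∨ r' = r + 1 ∨ r' = r - 1 by omega) with h | h | h
  · subst h
    have c1 : (7 * (m : ℝ)) ≤ 1 := by linarith
    have c2 : -1 ≤ (7 * (m : ℝ)) := by linarith
    have c3 : 7 * m ≤ 1 := by exact_mod_cast c1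
    have c4 : -1 ≤ 7 * m := by exact_mod_cast c2
    have : m = 0 := by omega
    subst this
    simp
  · subst h
    push_cast at *
    have c1 : (14 * (m : ℝ)) ≤ -3 := by linarith
    have c2 : -7 ≤ (14 * (m : ℝ)) := by linarith
    have c3 : 14 * m ≤ -3 := by exact_mod_cast c1
    have c4 : -7 ≤ 14 * m := by exact_mod_cast c2
    omega
  · subst h
    push_cast at *
    have c1 : (14 * (m : ℝ)) ≤ 7 := by linarith
    have c2 : 3 ≤ (14 * (m : ℝ)) := by linarith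
    have c3 : 14 * m ≤ 7 := by exact_mod_cast c1
    have c4 : 3 ≤ 14 * m := by exact_mod_cast c2
    omega

lemma reg_nonempty (k r : ℤ) : (Reg k r).Nonempty := by
  refine ⟨pt ((k : ℝ) + 1 / 2 + 5 * r / 2) ((r : ℝ) + 1 / 2), ?_⟩
  simp only [Reg, Set.mem_ofPred_eq, X_pt, Y_pt]
  refine ⟨⟨?_, ?_⟩, ?_, ?_⟩ <;> linarith

lemma reg_convex (k r : ℤ) : Convex ℝ (Reg k r) := by
  have : Reg k r = (X ⁻¹' Set.Ioo ((k : ℝ) + 5 * r / 2) (k + 1 + 5 * r / 2)) ∩
    (Y ⁻¹' Set.Ioo (r : ℝ) (r + 1)) := rfl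
  rw [this]
  exact ((convex_Ioo _ _).linear_preimage X).inter ((convex_Ioo _ _).linear_preimage Y)

lemma reg_open (k r : ℤ) : IsOpen (Reg k r) := by
  have : Reg k r = (X ⁻¹' Set.Ioo ((k : ℝ) + 5 * r / 2) (k + 1 + 5 * r / 2)) ∩
    (Y ⁻¹' Set.Ioo (r : ℝ) (r + 1)) := rfl
  rw [this]
  exact (isOpen_Ioo.preimage X_cont).inter (isOpen_Ioo.preimage Y_cont)

lemma norm_le_XY (x : ℂ) : ‖x‖ ≤ |X x| + |Y x| := by
  refine (Complex.norm_le_abs_re_add_abs_im x).trans ?_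
  rw [X_apply, Y_apply, abs_mul, abs_mul, abs_of_pos s2pos]
  have h1 : (1 : ℝ) ≤ √2 := by
    rw [Real.one_le_sqrt]
    norm_num
  have h2 := abs_nonneg x.re
  have h3 := abs_nonneg x.im
  nlinarith

lemma XY_le_norm (x : ℂ) : |X x| ≤ 2 * ‖x‖ ∧ |Y x| ≤ 2 * ‖x‖ := by
  have h1 : √2 ≤ (2 : ℝ) := by
    rw [Real.sqrt_le_left (by norm_num)]
    norm_num
  rw [X_apply, Y_apply, abs_mul, abs_mul, abs_of_pos s2pos]
  have h2 := Complex.abs_re_le_norm x
  have h3 := Complex.abs_im_le_norm x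
  have h4 := abs_nonneg x.re
  have h5 := abs_nonneg x.im
  constructor <;> nlinarith [s2pos]

lemma reg_bounded (k r : ℤ) : Bornology.IsBounded (Reg k r) := by
  rw [isBounded_iff_forall_norm_le]
  refine ⟨|(k : ℝ) + 5 * r / 2| + 1 + (|(r : ℝ)| + 1), ?_⟩
  rintro x ⟨⟨h1, h2⟩, h3, h4⟩
  refine (norm_le_XY x).trans (add_le_add ?_ ?_)
  · have a1 := le_abs_self ((k : ℝ) + 5 * r / 2)
    have a2 := neg_abs_le ((k : ℝ) + 5 * r / 2)
    rw [abs_le]
    constructor <;> linarith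
  · have a1 := le_abs_self (r : ℝ)
    have a2 := neg_abs_le (r : ℝ)
    rw [abs_le]
    constructor <;> linarith

/-- the vertices -/
def Vs : Set ℂ := {v | ∃ m r : ℤ, v = pt ((m : ℝ) / 2) r}

/-- the borders -/
def Bs : Set (Set ℂ) := {b | (∃ m r : ℤ, b = Hor m r) ∨ ∃ k r : ℤ, b = Ver k r}

/-- the regions -/
def Rs : Set (Set ℂ) := {R | ∃ k r : ℤ, R = Reg k r}

lemma cover (x : ℂ) : x ∈ Vs ∨ (∃ b ∈ Bs, x ∈ b) ∨ ∃ R ∈ Rs, x ∈ R := by
  set r := ⌊Y x⌋ with hr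
  have h1 : (r : ℝ) ≤ Y x := Int.floor_le _
  have h2 : Y x < r + 1 := Int.lt_floor_add_one _
  rcases h1.eq_or_lt with h | h
  · set m := ⌊2 * X x⌋ with hm
    have h3 : (m : ℝ) ≤ 2 * X x := Int.floor_le _
    have h4 : 2 * X x < m + 1 := Int.lt_floor_add_one _
    rcases h3.eq_or_lt with h' | h'
    · left
      refine ⟨m, r, ?_⟩
      apply ext_XY
      · rw [X_pt, h']; ring
      · rw [Y_pt, h]
    · right; left
      refine ⟨Hor m r, Or.inl ⟨m, r, rfl⟩, ?_, ?_, h.symm⟩ <;> linarith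
  · set k := ⌊X x - 5 * r / 2⌋ with hk
    have h3 : (k : ℝ) ≤ X x - 5 * r / 2 := Int.floor_le _
    have h4 : X x - 5 * r / 2 < k + 1 := Int.lt_floor_add_one _
    right
    rcases h3.eq_or_lt with h' | h'
    · left
      exact ⟨Ver k r, Or.inr ⟨k, r, rfl⟩, by linarith, h, h2⟩
    · right
      exact ⟨Reg k r, ⟨k, r, rfl⟩, ⟨by linarith, by linarith⟩, h, h2⟩

lemma borders_disjoint (b : Set ℂ) (hb : b ∈ Bs) (b' : Set ℂ) (hb' : b' ∈ Bs) (hne : b ≠ b') :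
    Disjoint b b' := by
  rw [Set.disjoint_left]
  intro x hx hx'
  apply hne
  rcases hb with ⟨m, r, rfl⟩ | ⟨k, r, rfl⟩ <;> rcases hb' with ⟨m', r', rfl⟩ | ⟨k', r', rfl⟩
  · obtain ⟨a1, a2, a3⟩ := hx
    obtain ⟨b1, b2, b3⟩ := hx'
    have e1 : r = r' := by
      have : (r : ℝ) = r' := by rw [← a3, ← b3]
      exact_mod_cast this
    have e2 : m = m' := int_unique (t := 2 * X x) (by linarith) (by linarith) (by linarith)
      (by linarith)
    rw [e1, e2]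
  · obtain ⟨a1, a2, a3⟩ := hx
    obtain ⟨b1, b2, b3⟩ := hx'
    rw [a3] at b2 b3
    exact (int_not b2 b3).elim
  · obtain ⟨a1, a2, a3⟩ := hx'
    obtain ⟨b1, b2, b3⟩ := hx
    rw [a3] at b2 b3
    exact (int_not b2 b3).elim
  · obtain ⟨a1, a2, a3⟩ := hx
    obtain ⟨b1, b2, b3⟩ := hx'
    have e1 : r = r' := int_unique a2 a3 b2 b3
    subst e1
    have e2 : k = k' := by
      have : (k : ℝ) = k' := by linarith
      exact_mod_cast this
    rw [e2]

lemma regions_disjoint (R : Set ℂ) (hR : R ∈ Rs) (R' : Set ℂ) (hR' : R' ∈ Rs) (hne : R ≠ R') :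
    Disjoint R R' := by
  rw [Set.disjoint_left]
  intro x hx hx'
  apply hne
  obtain ⟨k, r, rfl⟩ := hR
  obtain ⟨k', r', rfl⟩ := hR'
  rw [← reg_row hx, ← reg_row hx', ← reg_col hx, ← reg_col hx']

lemma mem_Vs {v : ℂ} (hv : v ∈ Vs) : ∃ m r : ℤ, X v = m / 2 ∧ Y v = r ∧ v = pt ((m : ℝ) / 2) r := by
  obtain ⟨m, r, rfl⟩ := hv
  exact ⟨m, r, by simp, by simp, rfl⟩

lemma vertex_border (v : ℂ) (hv : v ∈ Vs) (b : Set ℂ) (hb : b ∈ Bs) : v ∉ b := by
  intro h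
  obtain ⟨m, r, h1, h2, -⟩ := mem_Vs hv
  rcases hb with ⟨m', r', rfl⟩ | ⟨k', r', rfl⟩
  · obtain ⟨a1, a2, a3⟩ := h
    rw [h1] at a1 a2
    exact int_not (m := m') (m' := m) (by linarith) (by linarith)
  · obtain ⟨a1, a2, a3⟩ := h
    rw [h2] at a2 a3
    exact int_not a2 a3

lemma vertex_region (v : ℂ) (hv : v ∈ Vs) (R : Set ℂ) (hR : R ∈ Rs) : v ∉ R := by
  intro h
  obtain ⟨m, r, h1, h2, -⟩ := mem_Vs hv
  obtain ⟨k', r', rfl⟩ := hR
  obtain ⟨-, a2, a3⟩ := h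
  rw [h2] at a2 a3
  exact int_not a2 a3

lemma border_region (b : Set ℂ) (hb : b ∈ Bs) (R : Set ℂ) (hR : R ∈ Rs) : Disjoint b R := by
  rw [Set.disjoint_left]
  intro x hx hx'
  obtain ⟨k', r', rfl⟩ := hR
  obtain ⟨⟨c1, c2⟩, c3, c4⟩ := hx'
  rcases hb with ⟨m, r, rfl⟩ | ⟨k, r, rfl⟩
  · obtain ⟨a1, a2, a3⟩ := hx
    rw [a3] at c3 c4
    exact int_not c3 c4
  · obtain ⟨a1, a2, a3⟩ := hx
    have e1 : r = r' := int_unique a2 a3 c3 c4
    subst e1
    rw [a1] at c1 c2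
    exact int_not (m := k') (m' := k) (by linarith) (by linarith)

lemma border_segment (b : Set ℂ) (hb : b ∈ Bs) :
    ∃ x ∈ Vs, ∃ y ∈ Vs, x ≠ y ∧ b = openSegment ℝ x y := by
  rcases hb with ⟨m, r, rfl⟩ | ⟨k, r, rfl⟩
  · refine ⟨pt ((m : ℝ) / 2) r, ⟨m, r, rfl⟩, pt (((m : ℝ) + 1) / 2) r, ⟨m + 1, r, ?_⟩, ?_,
      hor_eq m r⟩
    · push_cast; rfl
    · intro h
      have := congrArg X h
      rw [X_pt, X_pt] at this
      linarith
  · have e : (k : ℝ) + 5 * r / 2 = ((2 * k + 5 * r : ℤ) : ℝ) / 2 := by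
      push_cast; ring
    refine ⟨pt ((k : ℝ) + 5 * r / 2) r, ⟨2 * k + 5 * r, r, by rw [e]⟩,
      pt ((k : ℝ) + 5 * r / 2) ((r : ℝ) + 1), ⟨2 * k + 5 * r, r + 1, by rw [e]; push_cast; rfl⟩,
      ?_, ver_eq k r⟩
    intro h
    have := congrArg Y h
    rw [Y_pt, Y_pt] at this
    linarith

lemma bs_nonempty {b : Set ℂ} (hb : b ∈ Bs) : b.Nonempty := by
  obtain ⟨x, -, y, -, -, rfl⟩ := border_segment b hb
  exact ⟨(1 / 2 : ℝ) • x + (1 / 2 : ℝ) • y, 1 / 2, 1 / 2, by norm_num, by norm_num, by norm_num, rfl⟩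

lemma adjacent_ne (R : Set ℂ) (hR : R ∈ Rs) (R' : Set ℂ) (hR' : R' ∈ Rs) (hne : R ≠ R')
    (h : (∃ v ∈ Vs, v ∈ frontier R ∧ v ∈ frontier R') ∨
      (∃ b ∈ Bs, b ⊆ frontier R ∧ b ⊆ frontier R')) :
    ∀ x ∈ R, ∀ y ∈ R', clr x ≠ clr y := by
  obtain ⟨p, hp, hp'⟩ : ∃ p, p ∈ frontier R ∧ p ∈ frontier R' := by
    rcases h with ⟨v, -, h1, h2⟩ | ⟨b, hb, h1, h2⟩
    · exact ⟨v, h1, h2⟩
    · obtain ⟨p, hp⟩ := bs_nonempty hb
      exact ⟨p, h1 hp, h2 hp⟩
  obtain ⟨k, r, rfl⟩ := hR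
  obtain ⟨k', r', rfl⟩ := hR'
  intro x hx y hy hc
  obtain ⟨m, hm⟩ := clr_eq hc
  rw [reg_col hx, reg_col hy] at hm
  obtain ⟨e1, e2⟩ := creg_inter (closure_Reg _ _ (frontier_subset_closure hp))
    (closure_Reg _ _ (frontier_subset_closure hp')) hm
  exact hne (by rw [e1, e2])

/-- the vertical neighbour -/
lemma exists_ver (m r : ℤ) : ∃ (k r' : ℤ) (y : ℂ), (y = pt ((m : ℝ) / 2) ((r : ℝ) + 1) ∨
    y = pt ((m : ℝ) / 2) ((r : ℝ) - 1)) ∧ openSegment ℝ (pt ((m : ℝ) / 2) r) y = Ver k r' ∧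
    ∀ k' r'' : ℤ, (m : ℝ) / 2 = k' + 5 * r'' / 2 → r'' ≤ r → r ≤ r'' + 1 → k' = k ∧ r'' = r' := by
  rcases Int.even_or_odd' (m - 5 * r) with ⟨k, hk | hk⟩
  · refine ⟨k, r, pt ((m : ℝ) / 2) ((r : ℝ) + 1), Or.inl rfl, ?_, ?_⟩
    · have : (m : ℝ) / 2 = k + 5 * r / 2 := by
        have : (m : ℝ) = 2 * k + 5 * r := by
          have h : m = 2 * k + 5 * r := by omega
          exact_mod_cast h
        rw [this]; ring
      rw [this, ver_eq]
    · intro k' r'' h1 h2 h3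
      have h4 : (m : ℝ) = ((2 * k' + 5 * r'' : ℤ) : ℝ) := by push_cast; linarith
      have h5 : m = 2 * k' + 5 * r'' := by exact_mod_cast h4
      omega
  · refine ⟨k + 3, r - 1, pt ((m : ℝ) / 2) ((r : ℝ) - 1), Or.inr rfl, ?_, ?_⟩
    · have : (m : ℝ) / 2 = ((k + 3 : ℤ) : ℝ) + 5 * ((r - 1 : ℤ) : ℝ) / 2 := by
        have : (m : ℝ) = 2 * k + 1 + 5 * r := by
          have h : m = 2 * k + 1 + 5 * r := by omega
          exact_mod_cast h
        rw [this]; push_cast; ring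
      rw [openSegment_symm, this, ver_eq]
      congr 2
      · push_cast; ring
      · push_cast; ring
    · intro k' r'' h1 h2 h3
      have h4 : (m : ℝ) = ((2 * k' + 5 * r'' : ℤ) : ℝ) := by push_cast; linarith
      have h5 : m = 2 * k' + 5 * r'' := by exact_mod_cast h4
      omega

lemma angle_aux (a b : ℝ) (y : ℂ) (hy : y = pt a (b + 1) ∨ y = pt a (b - 1)) :
    EuclideanGeometry.angle (pt (a + 1 / 2) b) (pt a b) y ≠ Real.pi := by
  have h : EuclideanGeometry.angle (pt (a + 1 / 2) b) (pt a b) y = Real.pi / 2 := by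
    unfold EuclideanGeometry.angle
    rw [← InnerProductGeometry.inner_eq_zero_iff_angle_eq_pi_div_two, vsub_eq_sub, vsub_eq_sub,
      Complex.inner]
    rcases hy with rfl | rfl <;>
    · simp [pt]
  rw [h]
  have := Real.pi_pos
  linarith

lemma vertex_angle (v : ℂ) (hv : v ∈ Vs) : ∃ x y : ℂ, x ≠ v ∧ y ≠ v ∧
    openSegment ℝ v x ∈ Bs ∧ openSegment ℝ v y ∈ Bs ∧
    openSegment ℝ v x ≠ openSegment ℝ v y ∧ EuclideanGeometry.angle x v y ≠ Real.pi := by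
  obtain ⟨m, r, rfl⟩ := hv
  obtain ⟨k, r', y, hy, hyV, -⟩ := exists_ver m r
  have hx : openSegment ℝ (pt ((m : ℝ) / 2) r) (pt ((m : ℝ) / 2 + 1 / 2) r) = Hor m r := by
    rw [hor_eq]
    congr 2
    ring
  refine ⟨pt ((m : ℝ) / 2 + 1 / 2) r, y, ?_, ?_, ?_, ?_, ?_, ?_⟩
  · intro h
    have := congrArg X h
    rw [X_pt, X_pt] at this
    linarith
  · intro h
    have := congrArg Y h
    rcases hy with rfl | rfl <;> rw [Y_pt, Y_pt] at this <;> linarith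
  · rw [hx]
    exact Or.inl ⟨m, r, rfl⟩
  · rw [hyV]
    exact Or.inr ⟨k, r', rfl⟩
  · rw [hx, hyV]
    intro h
    obtain ⟨p, hp⟩ := bs_nonempty (b := Hor m r) (Or.inl ⟨m, r, rfl⟩)
    have hp' : p ∈ Ver k r' := h ▸ hp
    obtain ⟨-, -, a3⟩ := hp
    obtain ⟨-, b2, b3⟩ := hp'
    rw [a3] at b2 b3
    exact int_not b2 b3
  · exact angle_aux _ _ y hy

lemma ball_bound (x : ℂ) (ρ : ℝ) : ∃ N : ℕ, ∀ y ∈ closedBall x ρ, |X y| ≤ N ∧ |Y y| ≤ N := by
  obtain ⟨N, hN⟩ := exists_nat_ge (2 * (‖x‖ + |ρ|))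
  refine ⟨N, fun y hy => ?_⟩
  rw [mem_closedBall, dist_eq_norm] at hy
  have h1 : ‖y‖ ≤ ‖x‖ + |ρ| := by
    have := norm_add_le (y - x) x
    rw [sub_add_cancel] at this
    have := le_abs_self ρ
    linarith
  obtain ⟨h2, h3⟩ := XY_le_norm y
  constructor <;> linarith

lemma fin_aux (g : ℤ → ℤ → Set ℂ) (x : ℂ) (ρ : ℝ)
    (hg : ∀ N : ℕ, ∀ a b : ℤ, ∀ y ∈ g a b, |X y| ≤ N → |Y y| ≤ N →
      |a| ≤ 6 * N + 20 ∧ |b| ≤ 6 * N + 20) :
    {R | (∃ a b : ℤ, R = g a b) ∧ (R ∩ closedBall x ρ).Nonempty}.Finite := by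
  obtain ⟨N, hN⟩ := ball_bound x ρ
  have hfin : ((Set.Icc (-(6 * (N : ℤ) + 20)) (6 * N + 20)) ×ˢ
    (Set.Icc (-(6 * (N : ℤ) + 20)) (6 * N + 20)) : Set (ℤ × ℤ)).Finite :=
    (Set.finite_Icc _ _).prod (Set.finite_Icc _ _)
  refine (hfin.image fun p => g p.1 p.2).subset ?_
  rintro R ⟨⟨a, b, rfl⟩, y, hy, hyB⟩
  obtain ⟨h1, h2⟩ := hN y hyB
  obtain ⟨h3, h4⟩ := hg N a b y hy h1 h2
  refine ⟨(a, b), ⟨?_, ?_⟩, rfl⟩
  · exact abs_le.1 h3
  · exact abs_le.1 h4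

lemma locally_finite (x : ℂ) (ρ : ℝ) :
    {R | R ∈ Rs ∧ (R ∩ closedBall x ρ).Nonempty}.Finite ∧
    {b | b ∈ Bs ∧ (b ∩ closedBall x ρ).Nonempty}.Finite ∧
    (Vs ∩ closedBall x ρ).Finite := by
  refine ⟨?_, ?_, ?_⟩
  · refine fin_aux Reg x ρ ?_
    rintro N k r y ⟨⟨a1, a2⟩, a3, a4⟩ h1 h2
    rw [abs_le] at h1 h2
    have e1 : (r : ℝ) ≤ N := by linarith
    have e2 : -((N : ℝ) + 1) ≤ r := by linarith
    have e3 : (k : ℝ) ≤ 6 * N + 20 := by linarith
    have e4 : -(6 * (N : ℝ) + 20) ≤ k := by linarith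
    have e5 : r ≤ (N : ℤ) := by exact_mod_cast e1
    have e6 : -((N : ℤ) + 1) ≤ r := by exact_mod_cast e2
    have e7 : k ≤ 6 * (N : ℤ) + 20 := by exact_mod_cast e3
    have e8 : -(6 * (N : ℤ) + 20) ≤ k := by exact_mod_cast e4
    rw [abs_le, abs_le]
    omega
  · have h : {b | b ∈ Bs ∧ (b ∩ closedBall x ρ).Nonempty} =
        {b | (∃ m r : ℤ, b = Hor m r) ∧ (b ∩ closedBall x ρ).Nonempty} ∪
        {b | (∃ k r : ℤ, b = Ver k r) ∧ (b ∩ closedBall x ρ).Nonempty} := by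
      ext b
      constructor
      · rintro ⟨h1 | h1, h2⟩
        · exact Or.inl ⟨h1, h2⟩
        · exact Or.inr ⟨h1, h2⟩
      · rintro (⟨h1, h2⟩ | ⟨h1, h2⟩)
        · exact ⟨Or.inl h1, h2⟩
        · exact ⟨Or.inr h1, h2⟩
    rw [h]
    refine Set.Finite.union ?_ ?_
    · refine fin_aux Hor x ρ ?_
      rintro N m r y ⟨a1, a2, a3⟩ h1 h2
      rw [abs_le] at h1 h2
      have e1 : (r : ℝ) ≤ N := by linarith
      have e2 : -((N : ℝ) + 1) ≤ r := by linarith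
      have e3 : (m : ℝ) ≤ 6 * N + 20 := by linarith
      have e4 : -(6 * (N : ℝ) + 20) ≤ m := by linarith
      have e5 : r ≤ (N : ℤ) := by exact_mod_cast e1
      have e6 : -((N : ℤ) + 1) ≤ r := by exact_mod_cast e2
      have e7 : m ≤ 6 * (N : ℤ) + 20 := by exact_mod_cast e3
      have e8 : -(6 * (N : ℤ) + 20) ≤ m := by exact_mod_cast e4
      rw [abs_le, abs_le]
      omega
    · refine fin_aux Ver x ρ ?_
      rintro N k r y ⟨a1, a2, a3⟩ h1 h2
      rw [abs_le] at h1 h2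
      have e1 : (r : ℝ) ≤ N := by linarith
      have e2 : -((N : ℝ) + 1) ≤ r := by linarith
      have e3 : (k : ℝ) ≤ 6 * N + 20 := by linarith
      have e4 : -(6 * (N : ℝ) + 20) ≤ k := by linarith
      have e5 : r ≤ (N : ℤ) := by exact_mod_cast e1
      have e6 : -((N : ℤ) + 1) ≤ r := by exact_mod_cast e2
      have e7 : k ≤ 6 * (N : ℤ) + 20 := by exact_mod_cast e3
      have e8 : -(6 * (N : ℤ) + 20) ≤ k := by exact_mod_cast e4
      rw [abs_le, abs_le]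
      omega
  · have h := fin_aux (fun m r => {pt ((m : ℝ) / 2) r}) x ρ (by
      rintro N m r y hy h1 h2
      rw [Set.mem_singleton_iff] at hy
      subst hy
      rw [X_pt] at h1
      rw [Y_pt] at h2
      rw [abs_le] at h1 h2
      have e1 : (r : ℝ) ≤ N := by linarith
      have e2 : -((N : ℝ) + 1) ≤ r := by linarith
      have e3 : (m : ℝ) ≤ 6 * N + 20 := by linarith
      have e4 : -(6 * (N : ℝ) + 20) ≤ m := by linarith
      have e5 : r ≤ (N : ℤ) := by exact_mod_cast e1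
      have e6 : -((N : ℤ) + 1) ≤ r := by exact_mod_cast e2
      have e7 : m ≤ 6 * (N : ℤ) + 20 := by exact_mod_cast e3
      have e8 : -(6 * (N : ℤ) + 20) ≤ m := by exact_mod_cast e4
      rw [abs_le, abs_le]
      omega)
    refine Set.Finite.of_finite_image (f := fun v => ({v} : Set ℂ)) (h.subset ?_)
      (Set.singleton_injective.injOn)
    rintro _ ⟨v, ⟨⟨m, r, rfl⟩, hv⟩, rfl⟩
    exact ⟨⟨m, r, rfl⟩, _, rfl, hv⟩

/-- the colouring -/
noncomputable def colouring : PolygonColoring (Fin 7) where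
  color := clr
  vertices := Vs
  borders := Bs
  regions := Rs
  unit_dist := unit_dist
  cover := cover
  borders_disjoint := borders_disjoint
  regions_disjoint := regions_disjoint
  vertex_border := vertex_border
  vertex_region := vertex_region
  border_region := border_region
  border_segment := border_segment
  region_open := by
    rintro R ⟨k, r, rfl⟩
    exact reg_open k r
  region_connected := by
    rintro R ⟨k, r, rfl⟩
    exact ⟨reg_nonempty k r, (reg_convex k r).isPreconnected⟩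
  region_bounded := by
    rintro R ⟨k, r, rfl⟩
    exact reg_bounded k r
  color_const := by
    rintro R ⟨k, r, rfl⟩ x hx y hy
    unfold clr
    rw [reg_col hx, reg_col hy]
  adjacent_ne := adjacent_ne
  vertex_angle := vertex_angle
  locally_finite := locally_finite

lemma closure_Hor {m r : ℤ} {x : ℂ} (hx : x ∈ closure (Hor m r)) :
    (m : ℝ) / 2 ≤ X x ∧ X x ≤ ((m : ℝ) + 1) / 2 ∧ Y x = r := by
  have hc : IsClosed ((X ⁻¹' Set.Icc ((m : ℝ) / 2) (((m : ℝ) + 1) / 2)) ∩ (Y ⁻¹' {(r : ℝ)})) :=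
    (isClosed_Icc.preimage X_cont).inter (isClosed_singleton.preimage Y_cont)
  have hs : Hor m r ⊆ (X ⁻¹' Set.Icc ((m : ℝ) / 2) (((m : ℝ) + 1) / 2)) ∩ (Y ⁻¹' {(r : ℝ)}) := by
    rintro y ⟨h1, h2, h3⟩
    exact ⟨⟨h1.le, h2.le⟩, h3⟩
  obtain ⟨⟨h1, h2⟩, h3⟩ := closure_minimal hs hc hx
  exact ⟨h1, h2, h3⟩

lemma closure_Ver {k r : ℤ} {x : ℂ} (hx : x ∈ closure (Ver k r)) :
    X x = k + 5 * r / 2 ∧ (r : ℝ) ≤ Y x ∧ Y x ≤ r + 1 := by
  have hc : IsClosed ((X ⁻¹' {(k : ℝ) + 5 * r / 2}) ∩ (Y ⁻¹' Set.Icc (r : ℝ) (r + 1))) :=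
    (isClosed_singleton.preimage X_cont).inter (isClosed_Icc.preimage Y_cont)
  have hs : Ver k r ⊆ (X ⁻¹' {(k : ℝ) + 5 * r / 2}) ∩ (Y ⁻¹' Set.Icc (r : ℝ) (r + 1)) := by
    rintro y ⟨h1, h2, h3⟩
    exact ⟨h1, h2.le, h3.le⟩
  obtain ⟨h1, h2, h3⟩ := closure_minimal hs hc hx
  exact ⟨h1, h2, h3⟩

lemma deg : colouring.DegLE3 := by
  intro v hv
  obtain ⟨m, r, hX, hY, hvv⟩ := mem_Vs hv
  obtain ⟨k, r', y, hy, hyV, huniq⟩ := exists_ver m r
  have hsub : {b | b ∈ colouring.borders ∧ ∃ x, x ≠ v ∧ b = openSegment ℝ v x} ⊆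
      {Hor (m - 1) r, Hor m r, Ver k r'} := by
    rintro b ⟨hb, x, hxv, hbx⟩
    have hcl : v ∈ closure b := by
      rw [hbx, closure_openSegment]
      exact left_mem_segment ℝ v x
    rcases hb with ⟨m', r'', rfl⟩ | ⟨k', r'', rfl⟩
    · obtain ⟨h1, h2, h3⟩ := closure_Hor hcl
      rw [hX] at h1 h2
      rw [hY] at h3
      have e1 : r = r'' := by exact_mod_cast h3
      have e2 : m' ≤ m := by
        have : (m' : ℝ) ≤ m := by linarith
        exact_mod_cast this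
      have e3 : m ≤ m' + 1 := by
        have : (m : ℝ) ≤ m' + 1 := by linarith
        exact_mod_cast this
      subst e1
      rcases (show m' = m - 1 ∨ m' = m by omega) with h | h
      · rw [h]; simp
      · rw [h]; simp
    · obtain ⟨h1, h2, h3⟩ := closure_Ver hcl
      rw [hX] at h1
      rw [hY] at h2 h3
      obtain ⟨e1, e2⟩ := huniq k' r'' h1 (by exact_mod_cast h2) (by exact_mod_cast h3)
      rw [e1, e2]
      simp
  unfold PolygonColoring.degree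
  refine (Set.encard_le_encard hsub).trans ?_
  refine (Set.encard_insert_le _ _).trans ?_
  have h1 := Set.encard_insert_le ({Ver k r'} : Set (Set ℂ)) (Hor m r)
  rw [Set.encard_singleton] at h1
  calc ({Hor m r, Ver k r'} : Set (Set ℂ)).encard + 1 ≤ (1 + 1) + 1 := by gcongr
    _ = 3 := by norm_num

end SzekelyAux

theorem exists_seven : ∃ C : PolygonColoring (Fin 7), C.DegLE3 ∧ ∀ R ∈ C.regions, Convex ℝ R := by
  refine ⟨SzekelyAux.colouring, SzekelyAux.deg, ?_⟩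
  rintro R ⟨k, r, rfl⟩
  exact SzekelyAux.reg_convex k r

end PolyCol
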