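import Pool.Agent.Lib.PolyCol.Basic

/-!
# Module 3: first consequences of the existence of words

* `radial_of_words`: with the `ε` of `HasWords`: given `p + s cis θ ∈ R`, take the word with base `a = θ`: by
  `base` `p + s cis θ ∈ X 0`, so `X 0 = R` (`region_eq`), and `p + s' cis θ ∈ X 0`.
* `alt_of_words`: base `a = t₁`; `R₁ = X 0`; each `t_i` (`i = 2,3,4`) is in `(a, a + 2π)` and is not one of
  the `τ j` (otherwise the point is on a border, but it is in a region), so it is in a sector `k_i` and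
  `R_i = X (k_i)`; `k_2 ≤ k_3 ≤ k_4 ≤ n ≤ 3`; the inequalities of regions give `0 < k_2 < k_3 < k_4` and
  `k_4 ≠ n` (as `X n = X 0`): contradiction.
* `nearClosure`: only from `locally_finite`: finitely many regions meet `closedBall p 1`; those not having
  `p` in their closure have positive distance to `p`.
-/

namespace PolyCol
namespace PolygonColoring

open Metric

variable {S : Type} (C : PolygonColoring S)

theorem radial_of_words (h : C.HasWords) : C.Radial := by
  intro p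
  obtain ⟨ε, hε, hw⟩ := h p
  refine ⟨ε, hε, ?_⟩
  intro θ s s' hs hs1 hs' hs1' R hR hm
  obtain ⟨n, τ, X, b, W⟩ := hw θ ⟨s, hs, hs1, R, hR, hm⟩
  have h1 := W.base s hs hs1
  have h2 := C.region_eq hR (W.reg 0 (Nat.zero_le _)) hm h1
  rw [h2]
  exact W.base s' hs' hs1'

/-- a point in a region, in a direction between `a` and `a + 2π`, is in one of the sectors -/
private theorem word_loc {p : ℂ} {a ε : ℝ} {n : ℕ} {τ : ℕ → ℝ} {X b : ℕ → Set ℂ}
    (W : C.Word p a ε n τ X b) {s : ℝ} (hs : 0 < s) (hs1 : s < ε) {t : ℝ} (ht : a < t)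
    (ht1 : t < a + 2 * Real.pi) {R : Set ℂ} (hR : R ∈ C.regions) (hm : p + s * cis t ∈ R) :
    ∃ k, k ≤ n ∧ τ k < t ∧ t < τ (k + 1) ∧ R = X k := by
  classical
  have h0 : τ 0 < t := by rw [W.start]; exact ht
  obtain ⟨k, hk⟩ : ∃ k, k = Nat.findGreatest (fun j => τ j < t) n := ⟨_, rfl⟩
  have hk1 : τ k < t := by
    rw [hk]
    exact Nat.findGreatest_spec (P := fun j => τ j < t) (Nat.zero_le n) h0
  have hkn : k ≤ n := by rw [hk]; exact Nat.findGreatest_le n
  have hk2 : t < τ (k + 1) := by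
    rcases Nat.lt_or_ge k n with hlt | hge
    · have h2 : ¬ τ (k + 1) < t := by
        apply Nat.findGreatest_is_greatest (P := fun j => τ j < t) (n := n)
        · rw [← hk]; omega
        · omega
      rcases lt_or_eq_of_le (not_lt.1 h2) with h3 | h3
      · exact h3
      · exfalso
        have h4 := W.ray (k + 1) (by omega) (by omega) s hs hs1
        rw [← h3] at h4
        exact Set.disjoint_left.1
          (C.border_region _ (W.bord (k + 1) (by omega) (by omega)) R hR) h4 hm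
    · have : k = n := le_antisymm hkn hge
      rw [this, W.stop]
      exact ht1
  refine ⟨k, hkn, hk1, hk2, ?_⟩
  exact C.region_eq hR (W.reg k hkn) hm (W.sector k hkn t hk1 hk2 s hs hs1)

private theorem word_mono {p : ℂ} {a ε : ℝ} {n : ℕ} {τ : ℕ → ℝ} {X b : ℕ → Set ℂ}
    (W : C.Word p a ε n τ X b) {j k : ℕ} (hjk : j ≤ k) (hk : k ≤ n + 1) : τ j ≤ τ k := by
  induction k with
  | zero => rw [Nat.le_zero.1 hjk]
  | succ k ih =>
    rcases Nat.lt_or_ge j (k + 1) with h | h
    · exact (ih (by omega) (by omega)).trans (W.mono k (by omega)).le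
    · rw [le_antisymm hjk h]

private theorem word_order {p : ℂ} {a ε : ℝ} {n : ℕ} {τ : ℕ → ℝ} {X b : ℕ → Set ℂ}
    (W : C.Word p a ε n τ X b) {j k : ℕ} (hj : j ≤ n) {t u : ℝ} (htu : t < u)
    (h1 : τ j < t) (h2 : u < τ (k + 1)) : j ≤ k := by
  by_contra hcon
  push Not at hcon
  have := C.word_mono W (j := k + 1) (k := j) hcon (by omega)
  linarith

theorem alt_of_words (h : C.HasWords) : C.Alt := by
  intro p
  obtain ⟨ε, hε, hw⟩ := h p
  refine ⟨ε, hε, ?_⟩
  intro s hs hs1 t₁ t₂ t₃ t₄ h12 h23 h34 h41 R₁ hR₁ R₂ hR₂ R₃ hR₃ R₄ hR₄ m₁ m₂ m₃ m₄ n12 n23 n34 n41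
  obtain ⟨n, τ, X, b, W⟩ := hw t₁ ⟨s, hs, hs1, R₁, hR₁, m₁⟩
  have e1 : R₁ = X 0 := C.region_eq hR₁ (W.reg 0 (Nat.zero_le _)) m₁ (W.base s hs hs1)
  obtain ⟨k2, a2, b2, c2, e2⟩ := C.word_loc W hs hs1 h12 (by linarith) hR₂ m₂
  obtain ⟨k3, a3, b3, c3, e3⟩ := C.word_loc W hs hs1 (by linarith) (by linarith) hR₃ m₃
  obtain ⟨k4, a4, b4, c4, e4⟩ := C.word_loc W hs hs1 (by linarith) h41 hR₄ m₄
  have o23 := C.word_order W a2 h23 b2 c3
  have o34 := C.word_order W a3 h34 b3 c4
  have hn := W.n_le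
  have hk2 : k2 ≠ 0 := fun h0 => n12 (by rw [e1, e2, h0])
  have hk23 : k2 ≠ k3 := fun h0 => n23 (by rw [e2, e3, h0])
  have hk34 : k3 ≠ k4 := fun h0 => n34 (by rw [e3, e4, h0])
  have hk4 : k4 = n := by omega
  apply n41
  rw [e4, e1, hk4, W.last]

theorem nearClosure : C.NearClosure := by
  intro p
  have hF := (C.locally_finite p 1).1
  have hev : ∀ᶠ x in nhds p, ∀ R ∈ {R | R ∈ C.regions ∧ (R ∩ closedBall p 1).Nonempty},
      p ∉ closure R → x ∉ R := by
    rw [Filter.eventually_all_finite hF]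
    intro R _
    by_cases hp : p ∈ closure R
    · exact Filter.Eventually.of_forall fun x h => absurd hp h
    · have h1 : (closure R)ᶜ ∈ nhds p := isClosed_closure.isOpen_compl.mem_nhds hp
      filter_upwards [h1] with x hx _ hxR
      exact hx (subset_closure hxR)
  obtain ⟨ε, hε, hb⟩ := Metric.eventually_nhds_iff_ball.1 hev
  refine ⟨min ε 1, lt_min hε one_pos, ?_⟩
  rintro R hR ⟨x, hxR, hxb⟩
  by_contra hp
  have h1 : x ∈ ball p ε := ball_subset_ball (min_le_left _ _) hxb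
  have h2 : x ∈ closedBall p 1 := ball_subset_closedBall (ball_subset_ball (min_le_right _ _) hxb)
  exact hb x h1 R ⟨hR, ⟨x, hxR, h2⟩⟩ hp hxR

end PolygonColoring
end PolyCol
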