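import Pool.Agent.Lib.PolyCol.Basic

/-!
# Module 2: words at points

`Word p a ε n τ X b` lists the sectors around `p` counterclockwise from the direction `a`.
From the local form at `p` (radius `ε`, directions `D`, `card ≤ 3`): if `p + s cis a` is in a region for one
`s < ε` then `cis a ∉ D` (points `p + s e`, `e ∈ D`, are on borders, disjoint from regions).  Lift
each `e ∈ D` to its argument in `(a, a + 2π)` (e.g. `toIocMod` or `Complex.arg`), sort the at most 3
numbers: `a = τ 0 < τ 1 < ... < τ n < τ (n+1) = a + 2π`.  For `θ` strictly between consecutive `τ`'s (or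
`θ = a`) and `0 < s < ε` the point `p + s cis θ` is in some region; the set of all such points of one
open sector is (pre)connected (image of a product of intervals under a continuous map) and is
covered by the disjoint open regions, so it is in one region `X j`.  Sectors `0` and `n` and the ray of
direction `a` together are connected too (use `cis_add_two_pi`), so `X n = X 0`.
`n_le_two` comes from `card_le_two`.
-/

namespace PolyCol
namespace PolygonColoring

variable {S : Type} (C : PolygonColoring S)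

/-- a preconnected set covered by regions is contained in one of them -/
theorem preconnected_subset_region {U R : Set ℂ} (hU : IsPreconnected U)
    (hcov : ∀ x ∈ U, ∃ R ∈ C.regions, x ∈ R) (hR : R ∈ C.regions) {x : ℂ} (hxU : x ∈ U)
    (hxR : x ∈ R) : U ⊆ R := by
  refine IsPreconnected.subset_left_of_subset_union (u := R)
    (v := ⋃ R' ∈ {R' | R' ∈ C.regions ∧ R' ≠ R}, R') (C.region_open R hR) ?_ ?_ ?_ ⟨x, hxU, hxR⟩ hU
  · exact isOpen_biUnion fun R' hR' => C.region_open R' hR'.1
  · rw [Set.disjoint_iUnion₂_right]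
    intro R' hR'
    exact C.regions_disjoint R hR R' hR'.1 (Ne.symm hR'.2)
  · intro y hy
    obtain ⟨R', hR', hyR'⟩ := hcov y hy
    by_cases h : R' = R
    · left
      rw [← h]
      exact hyR'
    · right
      exact Set.mem_biUnion (show R' ∈ {R' | R' ∈ C.regions ∧ R' ≠ R} from ⟨hR', h⟩) hyR'

/-- the open sector between two directions is preconnected -/
theorem sector_preconnected (p : ℂ) (ε t₁ t₂ : ℝ) :
    IsPreconnected {x : ℂ | ∃ θ s : ℝ, t₁ < θ ∧ θ < t₂ ∧ 0 < s ∧ s < ε ∧ x = p + s * cis θ} := by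
  have h : {x : ℂ | ∃ θ s : ℝ, t₁ < θ ∧ θ < t₂ ∧ 0 < s ∧ s < ε ∧ x = p + s * cis θ} =
      (fun q : ℝ × ℝ => p + (q.2 : ℂ) * cis q.1) '' (Set.Ioo t₁ t₂ ×ˢ Set.Ioo 0 ε) := by
    ext x
    constructor
    · rintro ⟨θ, s, h1, h2, h3, h4, rfl⟩
      exact ⟨(θ, s), ⟨⟨h1, h2⟩, ⟨h3, h4⟩⟩, rfl⟩
    · rintro ⟨⟨θ, s⟩, ⟨⟨h1, h2⟩, ⟨h3, h4⟩⟩, rfl⟩
      exact ⟨θ, s, h1, h2, h3, h4, rfl⟩
  rw [h]
  apply IsPreconnected.image
  · exact isPreconnected_Ioo.prod isPreconnected_Ioo
  · apply Continuous.continuousOn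
    have := continuous_cis
    fun_prop

theorem word_of_localForm {p : ℂ} {ε : ℝ} {D : Finset ℂ} {bd : ℂ → Set ℂ}
    (hL : C.LocalForm p ε D bd) (a : ℝ) (ha : cis a ∉ D) :
    ∃ n τ X b, C.Word p a ε n τ X b := by
  classical
  have h2pi : 0 < 2 * Real.pi := Real.two_pi_pos
  have hε := hL.ε_pos
  -- lifting the directions
  have hlift : ∀ e ∈ D, ∃ t : ℝ, a < t ∧ t < a + 2 * Real.pi ∧ cis t = e := by
    intro e he
    obtain ⟨θ, hθ⟩ := exists_cis_of_norm_eq_one (hL.norm_eq e he)
    have h1 : toIocMod h2pi a θ ∈ Set.Ioc a (a + 2 * Real.pi) := toIocMod_mem_Ioc h2pi a θ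
    have h2 : cis (toIocMod h2pi a θ) = e := by
      rw [hθ, cis_eq_iff]
      refine ⟨-toIocDiv h2pi a θ, ?_⟩
      have := toIocMod_add_toIocDiv_zsmul h2pi a θ
      rw [zsmul_eq_mul] at this
      push_cast
      linarith
    refine ⟨toIocMod h2pi a θ, h1.1, lt_of_le_of_ne h1.2 ?_, h2⟩
    intro h3
    rw [h3, cis_add_two_pi] at h2
    exact ha (h2 ▸ he)
  choose! α hα1 hα2 hα3 using hlift
  -- two parameters in the window with the same direction are equal
  have huniq : ∀ s t : ℝ, a < s → s < a + 2 * Real.pi → a < t → t < a + 2 * Real.pi →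
      cis s = cis t → s = t := by
    intro s t h1 h2 h3 h4 h5
    obtain ⟨k, hk⟩ := (cis_eq_iff s t).1 h5
    have hk0 : k = 0 := by
      by_contra hk0
      rcases lt_or_gt_of_ne hk0 with h | h
      · have : (k : ℝ) ≤ -1 := by exact_mod_cast Int.le_sub_one_of_lt h
        nlinarith
      · have : (1 : ℝ) ≤ k := by exact_mod_cast h
        nlinarith
    rw [hk, hk0]
    simp
  set A : Finset ℝ := D.image α with hA
  set n : ℕ := A.card with hn
  have hAmem : ∀ t, t ∈ A ↔ a < t ∧ t < a + 2 * Real.pi ∧ cis t ∈ D := by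
    intro t
    rw [hA, Finset.mem_image]
    constructor
    · rintro ⟨e, he, rfl⟩
      exact ⟨hα1 e he, hα2 e he, by rw [hα3 e he]; exact he⟩
    · rintro ⟨h1, h2, h3⟩
      exact ⟨cis t, h3, huniq _ _ (hα1 _ h3) (hα2 _ h3) h1 h2 (hα3 _ h3)⟩
  set τ : ℕ → ℝ := fun j => if j = 0 then a else if h : j - 1 < n then
    A.orderEmbOfFin rfl ⟨j - 1, h⟩ else a + 2 * Real.pi with hτ
  have hτ0 : τ 0 = a := by simp [hτ]
  have hτs : ∀ j (h : j < n), τ (j + 1) = A.orderEmbOfFin rfl ⟨j, h⟩ := by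
    intro j h
    simp only [hτ, Nat.add_eq_zero_iff, one_ne_zero, and_false, if_false, Nat.add_sub_cancel]
    rw [dif_pos h]
  have hτe : ∀ j, n ≤ j → τ (j + 1) = a + 2 * Real.pi := by
    intro j h
    simp only [hτ, Nat.add_eq_zero_iff, one_ne_zero, and_false, if_false, Nat.add_sub_cancel]
    rw [dif_neg (by omega)]
  have hτA : ∀ j, 1 ≤ j → j ≤ n → τ j ∈ A := by
    intro j h1 h2
    obtain ⟨i, rfl⟩ := Nat.exists_eq_add_of_le' h1
    rw [hτs i (by omega)]
    exact Finset.orderEmbOfFin_mem A rfl _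
  have hmono : ∀ j ≤ n, τ j < τ (j + 1) := by
    intro j hj
    rcases Nat.eq_zero_or_pos j with rfl | hj0
    · rw [hτ0]
      rcases Nat.eq_zero_or_pos n with h0 | h0
      · rw [hτe 0 (by omega)]
        linarith
      · exact ((hAmem _).1 (hτA 1 le_rfl h0)).1
    · rcases lt_or_eq_of_le hj with h | h
      · obtain ⟨i, rfl⟩ := Nat.exists_eq_add_of_le' hj0
        rw [hτs i (by omega), hτs (i + 1) h]
        exact (A.orderEmbOfFin rfl).strictMono (by simp [Fin.lt_def])
      · rw [hτe j (by omega)]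
        exact ((hAmem _).1 (hτA j hj0 hj)).2.1
  have hmono' : ∀ i j, i ≤ j → j ≤ n + 1 → τ i ≤ τ j := by
    intro i j hij
    induction j, hij using Nat.le_induction with
    | base => intro _; exact le_rfl
    | succ k hk ih =>
      intro hk1
      exact (ih (by omega)).trans (hmono k (by omega)).le
  have hstop : τ (n + 1) = a + 2 * Real.pi := hτe n le_rfl
  -- parameters in open sectors are not in A
  have hsec : ∀ j ≤ n, ∀ θ, τ j < θ → θ < τ (j + 1) → cis θ ∉ D := by
    intro j hj θ h1 h2 h3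
    have ha1 : a < θ := by
      have := hmono' 0 j (Nat.zero_le _) (by omega)
      rw [hτ0] at this
      linarith
    have ha2 : θ < a + 2 * Real.pi := by
      have := hmono' (j + 1) (n + 1) (by omega) le_rfl
      rw [hstop] at this
      linarith
    have hθA : θ ∈ A := (hAmem θ).2 ⟨ha1, ha2, h3⟩
    have hr : θ ∈ Set.range (A.orderEmbOfFin rfl) := by
      rw [Finset.range_orderEmbOfFin]
      exact hθA
    obtain ⟨⟨k, hk⟩, hk2⟩ := hr
    have hk3 : τ (k + 1) = θ := by rw [hτs k hk, hk2]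
    rcases Nat.lt_or_ge k j with h | h
    · have := hmono' (k + 1) j (by omega) (by omega)
      linarith
    · have := hmono' (j + 1) (k + 1) (by omega) (by omega)
      linarith
  have hcov : ∀ j ≤ n, ∀ θ, τ j < θ → θ < τ (j + 1) → ∀ s : ℝ, 0 < s → s < ε →
      ∃ R ∈ C.regions, p + s * cis θ ∈ R := by
    intro j hj θ h1 h2 s hs1 hs2
    exact hL.off (cis θ) (norm_cis θ) (hsec j hj θ h1 h2) s hs1 hs2
  -- the region at the direction a
  obtain ⟨R₀, hR₀, hR₀x⟩ := hL.off (cis a) (norm_cis a) ha (ε / 2) (by linarith) (by linarith)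
  have hτ1 : a < τ 1 := by
    have := hmono 0 (Nat.zero_le _)
    rwa [hτ0] at this
  have hτn : τ n < a + 2 * Real.pi := by
    have := hmono n le_rfl
    rwa [hstop] at this
  have hbig : {x : ℂ | ∃ θ s : ℝ, τ n - 2 * Real.pi < θ ∧ θ < τ 1 ∧ 0 < s ∧ s < ε ∧
      x = p + s * cis θ} ⊆ R₀ := by
    apply C.preconnected_subset_region (sector_preconnected p ε _ _) _ hR₀
      (x := p + (ε / 2 : ℝ) * cis a)
    · exact ⟨a, ε / 2, by linarith, hτ1, by linarith, by linarith, rfl⟩
    · exact_mod_cast hR₀x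
    · rintro x ⟨θ, s, h1, h2, h3, h4, rfl⟩
      rcases lt_trichotomy θ a with h | h | h
      · rw [← cis_add_two_pi]
        apply hcov n le_rfl _ _ _ s h3 h4
        · linarith
        · rw [hstop]
          linarith
      · rw [h]
        exact hL.off (cis a) (norm_cis a) ha s h3 h4
      · exact hcov 0 (Nat.zero_le _) θ (by rw [hτ0]; exact h) h2 s h3 h4
  have hone : ∀ j ≤ n, ∃ R ∈ C.regions, (∀ θ, τ j < θ → θ < τ (j + 1) → ∀ s : ℝ, 0 < s → s < ε →
      p + s * cis θ ∈ R) := by
    intro j hj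
    have hm := hmono j hj
    obtain ⟨R, hR, hx⟩ := hcov j hj ((τ j + τ (j + 1)) / 2) (by linarith) (by linarith) (ε / 2)
      (by linarith) (by linarith)
    refine ⟨R, hR, ?_⟩
    have := C.preconnected_subset_region (sector_preconnected p ε (τ j) (τ (j + 1))) (R := R)
      (x := p + (ε / 2 : ℝ) * cis ((τ j + τ (j + 1)) / 2)) ?_ hR
      ⟨_, ε / 2, by linarith, by linarith, by linarith, by linarith, rfl⟩ (by exact_mod_cast hx)
    · intro θ h1 h2 s h3 h4
      exact this ⟨θ, s, h1, h2, h3, h4, rfl⟩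
    · rintro x ⟨θ, s, h1, h2, h3, h4, rfl⟩
      exact hcov j hj θ h1 h2 s h3 h4
  choose! Y hY1 hY2 using hone
  refine ⟨n, τ, fun j => if j = 0 ∨ j = n then R₀ else Y j, fun j => bd (cis (τ j)), ?_⟩
  constructor
  · exact hε
  · exact (Finset.card_image_le).trans hL.card_le
  · intro hv
    exact (Finset.card_image_le).trans (hL.card_le_two hv)
  · exact hτ0
  · exact hstop
  · exact hmono
  · intro j hj
    by_cases h : j = 0 ∨ j = n
    · simp only [if_pos h]
      exact hR₀
    · simp only [if_neg h]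
      exact hY1 j hj
  · simp
  · intro j hj θ h1 h2 s h3 h4
    by_cases h : j = 0 ∨ j = n
    · simp only [if_pos h]
      rcases h with rfl | rfl
      · rw [hτ0] at h1
        exact hbig ⟨θ, s, by linarith, h2, h3, h4, rfl⟩
      · rw [hstop] at h2
        rw [← cis_sub_two_pi]
        exact hbig ⟨θ - 2 * Real.pi, s, by linarith, by linarith, h3, h4, rfl⟩
    · simp only [if_neg h]
      exact hY2 j hj θ h1 h2 s h3 h4
  · intro s h1 h2
    simp only [true_or, if_true]
    exact hbig ⟨a, s, by linarith, hτ1, h1, h2, rfl⟩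
  · intro j h1 h2
    exact hL.bd_mem _ ((hAmem _).1 (hτA j h1 h2)).2.2
  · intro j h1 h2 s h3 h4
    exact hL.on_bd _ ((hAmem _).1 (hτA j h1 h2)).2.2 s h3 h4

theorem hasWords (h : C.HasLocalForms) : C.HasWords := by
  intro p
  obtain ⟨ε, D, bd, hL⟩ := h p
  refine ⟨ε, hL.ε_pos, ?_⟩
  rintro a ⟨s, hs1, hs2, R, hR, hx⟩
  apply C.word_of_localForm hL a
  intro hD
  exact Set.disjoint_left.1 (C.border_region _ (hL.bd_mem _ hD) R hR) (hL.on_bd _ hD s hs1 hs2) hx

/-- every point has some word (take a direction `a` not in `D`) -/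
theorem exists_word (h : C.HasLocalForms) (p : ℂ) :
    ∃ a ε n τ X b, C.Word p a ε n τ X b := by
  obtain ⟨ε, D, bd, hL⟩ := h p
  have hinj : Set.InjOn cis (Set.Icc (0 : ℝ) 1) := by
    intro s hs t ht hst
    obtain ⟨k, hk⟩ := (cis_eq_iff s t).1 hst
    have hpi := Real.pi_gt_three
    have hk0 : k = 0 := by
      by_contra hk0
      rcases lt_or_gt_of_ne hk0 with h | h
      · have : (k : ℝ) ≤ -1 := by exact_mod_cast Int.le_sub_one_of_lt h
        nlinarith [hs.1, ht.2]
      · have : (1 : ℝ) ≤ k := by exact_mod_cast h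
        nlinarith [hs.2, ht.1]
    rw [hk, hk0]
    simp
  have hinf : (cis '' Set.Icc (0 : ℝ) 1).Infinite :=
    (Set.Icc_infinite zero_lt_one).image hinj
  obtain ⟨e, ⟨a, -, rfl⟩, ha⟩ := hinf.exists_notMem_finset D
  obtain ⟨n, τ, X, b, hW⟩ := C.word_of_localForm hL a ha
  exact ⟨a, ε, n, τ, X, b, hW⟩

end PolygonColoring
end PolyCol
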