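import Pool.Agent.Lib.PolyCol.LocalForms
import Pool.Agent.Lib.PolyCol.Words
import Pool.Agent.Lib.PolyCol.WordConseq
import Pool.Agent.Lib.PolyCol.CloseAdj
import Pool.Agent.Lib.PolyCol.OddLinks
import Pool.Agent.Lib.PolyCol.EvenPairs
import Pool.Agent.Lib.PolyCol.Core
import Pool.Agent.Lib.PolyCol.ExistsTri
import Pool.Agent.Lib.PolyCol.Szekely

/-!
# Module 18: assembly
-/

namespace PolyCol

open Metric PolygonColoring

/-- change of the colour set along an injection -/
noncomputable def PolygonColoring.map {S S' : Type} (C : PolygonColoring S) (f : S → S')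
    (hf : Function.Injective f) : PolygonColoring S' where
  color := fun x => f (C.color x)
  vertices := C.vertices
  borders := C.borders
  regions := C.regions
  unit_dist := fun x y h e => C.unit_dist x y h (hf e)
  cover := C.cover
  borders_disjoint := C.borders_disjoint
  regions_disjoint := C.regions_disjoint
  vertex_border := C.vertex_border
  vertex_region := C.vertex_region
  border_region := C.border_region
  border_segment := C.border_segment
  region_open := C.region_open
  region_connected := C.region_connected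
  region_bounded := C.region_bounded
  color_const := fun R hR x hx y hy => by rw [C.color_const R hR x hx y hy]
  adjacent_ne := fun R hR R' hR' hne h x hx y hy e => C.adjacent_ne R hR R' hR' hne h x hx y hy (hf e)
  vertex_angle := C.vertex_angle
  locally_finite := C.locally_finite

theorem no_six (C : PolygonColoring (Fin 6)) (hdeg : C.DegLE3) : False := by
  have hLF := C.hasLocalForms hdeg
  have hWs := C.hasWords hLF
  have hw := C.exists_word hLF
  have hRad := C.radial_of_words hWs
  have hAlt := C.alt_of_words hWs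
  have hNC := C.nearClosure
  have hCB := C.closeBorder hLF
  have hAdj := C.adj hCB
  have hCF := C.circFin
  have hCR := C.circReg hCF
  have hcols : ∀ p, C.IsTri p → (C.cols p).ncard = 3 := fun p hp => C.tri_cols hw hAdj hp
  obtain ⟨p₀, hp₀⟩ := C.exists_tri hNC
  classical
  -- the data for `core`
  let V := {p : ℂ // C.IsTri p}
  let T : V → Finset (Fin 6) := fun v => Finset.univ.filter (fun i => i ∈ C.cols v.1)
  have memT : ∀ (v : V) (i : Fin 6), i ∈ T v ↔ i ∈ C.cols v.1 := by
    intro v i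
    simp [T]
  let P : V → Fin 6 → Set ℂ := fun v i =>
    Classical.epsilon (fun R => R ∈ C.regions ∧ v.1 ∈ closure R ∧ C.rc R = i)
  have hP : ∀ (v : V) (i : Fin 6), i ∈ T v →
      P v i ∈ C.regions ∧ v.1 ∈ closure (P v i) ∧ C.rc (P v i) = i := by
    intro v i hi
    rw [memT] at hi
    obtain ⟨R, hR⟩ := hi
    exact Classical.epsilon_spec (p := fun R => R ∈ C.regions ∧ v.1 ∈ closure R ∧ C.rc R = i) ⟨R, hR⟩
  have hTc : ∀ v : V, (T v).card = 3 := by
    intro v
    have h := hcols v.1 v.2
    rw [← h, ← Set.ncard_coe_finset]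
    congr 1
    ext i
    simp [T]
  have hdis : ∀ u v : V, Disjoint (T u) (T v) → Disjoint (C.cols u.1) (C.cols v.1) := by
    intro u v h
    rw [Set.disjoint_left]
    intro i hi hi'
    exact Finset.disjoint_left.1 h ((memT u i).2 hi) ((memT v i).2 hi')
  refine core (V := V) (Rg := Set ℂ) T P C.rc near (fun u v => C.lnk u.1 v.1) ⟨⟨p₀, hp₀⟩⟩ hTc
    (fun v i hi => (hP v i hi).2.2) ?_ ?_ ?_ ?_ ?_ ?_ ?_
  · -- finiteness
    intro v
    have h := C.finite_links hw v.1
    have h2 : {u : V | C.lnk u.1 v.1} = Subtype.val ⁻¹' {u | C.IsTri u ∧ C.lnk u v.1} := by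
      ext u
      simp only [Set.mem_ofPred_eq, Set.mem_preimage]
      exact ⟨fun h => ⟨u.2, h⟩, fun h => h.2⟩
    rw [h2]
    exact h.preimage Subtype.val_injective.injOn
  · intro u v i hu hv
    exact lnk_iff C hAlt hRad hNC hAdj hCR hcols u.2 v.2 (hP u i hu).1 (hP v i hv).1
      (hP u i hu).2.1 (hP v i hv).2.1 ((hP u i hu).2.2.trans (hP v i hv).2.2.symm)
  · rintro u v h ⟨X, hX, Y, hY, hc, hu, hv, -⟩
    exact Set.disjoint_left.1 (hdis u v h) ⟨X, hX, hu, rfl⟩ ⟨Y, hY, hv, hc.symm⟩
  · intro v i hi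
    obtain ⟨x, hx⟩ := (C.region_connected _ (hP v i hi).1).nonempty
    exact ⟨x, hx, x, hx, by simp⟩
  · intro u v u' h h1 h2
    exact no_opposite C hAlt hRad hNC hAdj hCR hcols u.2 v.2 u'.2 (hdis u u' h) h1 h2
  · intro v α β hαβ hα hβ
    have h := odd_links C hWs hw hCB hAlt hRad hNC hAdj hCF hCR hcols v.2 α β hαβ
      (fun h => hα ((memT v α).2 h)) (fun h => hβ ((memT v β).2 h))
    have h2 : {u | C.IsTri u ∧ α ∈ C.cols u ∧ β ∈ C.cols u ∧ C.lnk u v.1} =
        Subtype.val '' {u : V | α ∈ T u ∧ β ∈ T u ∧ C.lnk u.1 v.1} := by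
      ext u
      constructor
      · rintro ⟨h0, h1, h2, h3⟩
        exact ⟨⟨u, h0⟩, ⟨(memT ⟨u, h0⟩ α).2 h1, (memT ⟨u, h0⟩ β).2 h2, h3⟩, rfl⟩
      · rintro ⟨w, ⟨h1, h2, h3⟩, rfl⟩
        exact ⟨w.2, (memT w α).1 h1, (memT w β).1 h2, h3⟩
    rw [h2, Set.ncard_image_of_injective _ Subtype.val_injective] at h
    exact h
  · intro X Y hXY
    by_cases hX : X ∈ C.regions
    · by_cases hY : Y ∈ C.regions
      · have h := C.even_pairs hw hCB hX hY hXY
        have key : ∀ (u : V) (Z : Set ℂ), Z ∈ C.regions → ((∃ i ∈ T u, P u i = Z) ↔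
            u.1 ∈ closure Z) := by
          intro u Z hZ
          constructor
          · rintro ⟨i, hi, rfl⟩
            exact (hP u i hi).2.1
          · intro hu
            have hi : C.rc Z ∈ T u := (memT u _).2 ⟨Z, hZ, hu, rfl⟩
            exact ⟨C.rc Z, hi, hAdj u.1 _ (hP u _ hi).1 _ hZ (hP u _ hi).2.1 hu (hP u _ hi).2.2⟩
        have h2 : {u | C.IsTri u ∧ u ∈ closure X ∧ u ∈ closure Y} =
            Subtype.val '' {u : V | (∃ i ∈ T u, P u i = X) ∧ ∃ j ∈ T u, P u j = Y} := by
          ext u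
          constructor
          · rintro ⟨h0, h1, h2⟩
            exact ⟨⟨u, h0⟩, ⟨(key ⟨u, h0⟩ X hX).2 h1, (key ⟨u, h0⟩ Y hY).2 h2⟩, rfl⟩
          · rintro ⟨w, ⟨h1, h2⟩, rfl⟩
            exact ⟨w.2, (key w X hX).1 h1, (key w Y hY).1 h2⟩
        rw [h2, Set.ncard_image_of_injective _ Subtype.val_injective] at h
        exact h
      · have : {u : V | (∃ i ∈ T u, P u i = X) ∧ ∃ j ∈ T u, P u j = Y} = ∅ := by
          ext u
          simp only [Set.mem_ofPred_eq, Set.mem_empty_iff_false, iff_false, not_and]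
          rintro - ⟨j, hj, rfl⟩
          exact hY (hP u j hj).1
        rw [this]
        simp
    · have : {u : V | (∃ i ∈ T u, P u i = X) ∧ ∃ j ∈ T u, P u j = Y} = ∅ := by
        ext u
        simp only [Set.mem_ofPred_eq, Set.mem_empty_iff_false, iff_false, not_and]
        rintro ⟨j, hj, rfl⟩
        exact absurd (hP u j hj).1 hX
      rw [this]
      simp

/-- MP_4637ab_co: the least number of colours is `7` -/
theorem least_seven :
    IsLeast {k : ℕ | ∃ C : PolygonColoring (Fin k), C.DegLE3} 7 := by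
  constructor
  · obtain ⟨C, hC, -⟩ := exists_seven
    exact ⟨C, hC⟩
  · rintro k ⟨C, hC⟩
    by_contra hlt
    have hk : k ≤ 6 := by omega
    exact no_six (C.map (Fin.castLE hk) (Fin.castLE_injective hk)) hC

end PolyCol
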