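import Pool.Agent.Lib.PolyCol.Basic

/-!
# Module 1: every point has a local form

Proof sketch.  Fix `p`.  By `locally_finite` (disk of radius 1 around `p`) only finitely many borders and
vertices meet `closedBall p 1`.
* `p` in a region `R`: `R` open, take `ball p ε ⊆ R`, `D = ∅`.
* `p` on a border `b = openSegment x y` (so `p` is not a vertex): `D = {e, -e}`, `e = (y-x)/‖y-x‖`; `ε` smaller
  than `1`, the distances of `p` to `x`, `y`, to all other vertices in the disk and to the closures of all
  other borders meeting the disk (`p` is not in the closure of `b' ≠ b`: closure = segment = `b'` plus two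
  vertices).  A point `p + s e'` with `‖e'‖ = 1`, `e' ∉ {e,-e}`, is not on the line through `x,y`, so not in `b`.
* `p` a vertex: the borders ending at `p` are `openSegment p x_i`, at most 3 by `DegLE3` (`encard ≤ 3` gives
  finiteness), `D` = their directions (different borders have different directions, otherwise they
  intersect), `ε` smaller than their lengths, the distances to the other vertices in the disk and to
  the closures of the other borders meeting the disk (`p` is not in such a closure).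
In all cases points `p + s e`, `e ∉ D`, `0 < s < ε`, are in no border and no vertex, hence in a region
by `cover`.
-/

namespace PolyCol
namespace PolygonColoring

open Metric

namespace LF

/-- points on the open segment from `p` to `x` -/
theorem mem_openSegment_of_lt {p x : ℂ} (hx : x ≠ p) {s : ℝ} (hs : 0 < s) (hs' : s < ‖x - p‖) :
    p + s * ((x - p) / ‖x - p‖) ∈ openSegment ℝ p x := by
  have hL : 0 < ‖x - p‖ := norm_pos_iff.2 (sub_ne_zero.2 hx)
  rw [openSegment_eq_image']
  refine ⟨s / ‖x - p‖, ⟨by positivity, (div_lt_one hL).2 hs'⟩, ?_⟩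
  simp only [Complex.real_smul]
  push_cast
  ring

/-- the direction of a ray is determined by the segment -/
theorem eq_of_mem_openSegment {p x e : ℂ} (he : ‖e‖ = 1) {s : ℝ} (hs : 0 < s)
    (h : p + s * e ∈ openSegment ℝ p x) : e = (x - p) / ‖x - p‖ := by
  rw [openSegment_eq_image'] at h
  obtain ⟨t, ⟨ht0, ht1⟩, ht⟩ := h
  simp only [Complex.real_smul] at ht
  have h1 : (t : ℂ) * (x - p) = s * e := add_left_cancel ht
  have h2 : t * ‖x - p‖ = s := by
    have h3 := congrArg norm h1
    rw [norm_mul, norm_mul, he, Complex.norm_real, Complex.norm_real, Real.norm_of_nonneg ht0.le,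
      Real.norm_of_nonneg hs.le, mul_one] at h3
    exact h3
  have hL : ‖x - p‖ ≠ 0 := by
    intro h0
    rw [h0, mul_zero] at h2
    exact hs.ne h2
  have hLc : (‖x - p‖ : ℂ) ≠ 0 := by exact_mod_cast hL
  have htc : (t : ℂ) ≠ 0 := by exact_mod_cast ht0.ne'
  rw [eq_div_iff hLc]
  apply mul_left_cancel₀ htc
  rw [h1, ← h2]
  push_cast
  ring

end LF

variable {S : Type} (C : PolygonColoring S)

/-- a border whose closure contains `p` either contains `p` or ends at `p` -/
theorem border_of_mem_closure {b : Set ℂ} (hb : b ∈ C.borders) {p : ℂ} (hp : p ∈ closure b)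
    (hpb : p ∉ b) : p ∈ C.vertices ∧ ∃ x, x ≠ p ∧ b = openSegment ℝ p x := by
  obtain ⟨x, hx, y, hy, hxy, rfl⟩ := C.border_segment b hb
  rw [closure_openSegment, ← insert_endpoints_openSegment] at hp
  rcases hp with rfl | rfl | hp
  · exact ⟨hx, y, hxy.symm, rfl⟩
  · exact ⟨hy, x, hxy, openSegment_symm _ _ _⟩
  · exact absurd hp hpb

/-- a small disc around `p` meets only borders whose closure contains `p`, and no vertex except `p` -/
theorem exists_radius (p : ℂ) : ∃ ε : ℝ, 0 < ε ∧
    (∀ b ∈ C.borders, ∀ x ∈ b, dist x p < ε → p ∈ closure b) ∧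
    (∀ v ∈ C.vertices, dist v p < ε → v = p) := by
  obtain ⟨-, hbf, hvf⟩ := C.locally_finite p 1
  set F : Set (Set ℂ) := {b | b ∈ C.borders ∧ (b ∩ closedBall p 1).Nonempty ∧ p ∉ closure b} with hF
  have hFfin : F.Finite := hbf.subset (fun b hb => ⟨hb.1, hb.2.1⟩)
  have hK : IsClosed (⋃ b ∈ F, closure b) := hFfin.isClosed_biUnion (fun b _ => isClosed_closure)
  have hV : IsClosed ((C.vertices ∩ closedBall p 1) \ {p}) := (hvf.subset Set.sdiff_subset).isClosed
  have hU : IsOpen ((⋃ b ∈ F, closure b) ∪ ((C.vertices ∩ closedBall p 1) \ {p}))ᶜ :=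
    (hK.union hV).isOpen_compl
  have hpU : p ∈ ((⋃ b ∈ F, closure b) ∪ ((C.vertices ∩ closedBall p 1) \ {p}))ᶜ := by
    rintro (h | h)
    · obtain ⟨b, hb, hpb⟩ := Set.mem_iUnion₂.1 h
      exact hb.2.2 hpb
    · exact h.2 rfl
  obtain ⟨ε, hε, hball⟩ := Metric.isOpen_iff.1 hU p hpU
  refine ⟨min ε 1, lt_min hε one_pos, ?_, ?_⟩
  · intro b hb x hx hd
    by_contra hcl
    have h1 : x ∈ ball p ε := mem_ball.2 (lt_of_lt_of_le hd (min_le_left _ _))
    have h2 : x ∈ closedBall p 1 := mem_closedBall.2 (le_of_lt (lt_of_lt_of_le hd (min_le_right _ _)))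
    apply hball h1
    left
    exact Set.mem_iUnion₂.2 ⟨b, ⟨hb, ⟨x, hx, h2⟩, hcl⟩, subset_closure hx⟩
  · intro v hv hd
    by_contra hne
    have h1 : v ∈ ball p ε := mem_ball.2 (lt_of_lt_of_le hd (min_le_left _ _))
    have h2 : v ∈ closedBall p 1 := mem_closedBall.2 (le_of_lt (lt_of_lt_of_le hd (min_le_right _ _)))
    exact hball h1 (Or.inr ⟨⟨hv, h2⟩, hne⟩)

/-- distance of a point of a ray to its origin -/
theorem dist_ray (p : ℂ) {e : ℂ} (he : ‖e‖ = 1) {s : ℝ} (hs : 0 < s) : dist (p + s * e) p = s := by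
  rw [dist_eq_norm, add_sub_cancel_left, norm_mul, he, Complex.norm_real, Real.norm_of_nonneg hs.le,
    mul_one]

theorem ray_ne (p : ℂ) {e : ℂ} (he : ‖e‖ = 1) {s : ℝ} (hs : 0 < s) : p + s * e ≠ p := by
  intro h
  have h1 := dist_ray p he hs
  rw [h, dist_self] at h1
  exact hs.ne h1

theorem localForm_region {p : ℂ} {R : Set ℂ} (hR : R ∈ C.regions) (hp : p ∈ R) :
    ∃ ε D bd, C.LocalForm p ε D bd := by
  obtain ⟨ε, hε, hball⟩ := Metric.isOpen_iff.1 (C.region_open R hR) p hp
  refine ⟨ε, ∅, fun _ => ∅, hε, by simp, by simp, by simp, by simp, by simp, ?_⟩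
  intro e he _ s hs hsε
  refine ⟨R, hR, hball ?_⟩
  rw [mem_ball, dist_ray p he hs]
  exact hsε

theorem localForm_border {p : ℂ} {b : Set ℂ} (hb : b ∈ C.borders) (hp : p ∈ b) :
    ∃ ε D bd, C.LocalForm p ε D bd := by
  classical
  obtain ⟨x, hx, y, hy, hxy, hbe⟩ := C.border_segment b hb
  have hpv : p ∉ C.vertices := fun h => C.vertex_border p h b hb hp
  obtain ⟨ε, hε, hεb, hεv⟩ := C.exists_radius p
  set L : ℝ := ‖y - x‖ with hL
  have hLpos : 0 < L := norm_pos_iff.2 (sub_ne_zero.2 hxy.symm)
  have hLc : (L : ℂ) ≠ 0 := by exact_mod_cast hLpos.ne'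
  have hp' := hp
  rw [hbe, openSegment_eq_image'] at hp'
  obtain ⟨t, ⟨ht0, ht1⟩, ht⟩ := hp'
  simp only [Complex.real_smul] at ht
  set e₀ : ℂ := (y - x) / L with he₀
  have he₀n : ‖e₀‖ = 1 := by
    rw [he₀, norm_div, Complex.norm_real, Real.norm_of_nonneg hLpos.le, ← hL]
    exact div_self hLpos.ne'
  have hyx : y - x = L * e₀ := by
    rw [he₀]
    field_simp
  -- points p + s e₀ with |s| small are in b
  have hmem : ∀ s : ℝ, -(t * L) < s → s < (1 - t) * L → p + s * e₀ ∈ b := by
    intro s hs1 hs2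
    rw [hbe, openSegment_eq_image']
    refine ⟨t + s / L, ⟨?_, ?_⟩, ?_⟩
    · have : 0 < (t * L + s) / L := div_pos (by linarith) hLpos
      have h2 : (t * L + s) / L = t + s / L := by field_simp
      rwa [h2] at this
    · have : 0 < ((1 - t) * L - s) / L := div_pos (by linarith) hLpos
      have h2 : ((1 - t) * L - s) / L = 1 - t - s / L := by field_simp
      rw [h2] at this
      linarith
    · simp only [Complex.real_smul]
      rw [← ht, he₀]
      push_cast
      ring
  have hmem' : ∀ z ∈ b, ∃ s : ℝ, z = p + s * e₀ := by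
    intro z hz
    rw [hbe, openSegment_eq_image'] at hz
    obtain ⟨u, -, hu⟩ := hz
    simp only [Complex.real_smul] at hu
    refine ⟨(u - t) * L, ?_⟩
    rw [← hu, ← ht, hyx]
    push_cast
    ring
  have htL : 0 < t * L := mul_pos ht0 hLpos
  have htL' : 0 < (1 - t) * L := mul_pos (by linarith) hLpos
  refine ⟨min ε (min (t * L) ((1 - t) * L)), {e₀, -e₀}, fun _ => b, ?_, ?_, ?_, ?_, ?_, ?_, ?_⟩
  · exact lt_min hε (lt_min htL htL')
  · exact (Finset.card_le_two).trans (by norm_num)
  · intro _
    exact Finset.card_le_two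
  · intro e he
    rcases Finset.mem_insert.1 he with rfl | he
    · exact he₀n
    · rw [Finset.mem_singleton.1 he, norm_neg]
      exact he₀n
  · intro e _
    exact hb
  · intro e he s hs hsε
    have h1 : s < t * L := lt_of_lt_of_le hsε ((min_le_right _ _).trans (min_le_left _ _))
    have h2 : s < (1 - t) * L := lt_of_lt_of_le hsε ((min_le_right _ _).trans (min_le_right _ _))
    rcases Finset.mem_insert.1 he with rfl | he
    · exact hmem s (by linarith) h2
    · rw [Finset.mem_singleton.1 he]
      have h3 := hmem (-s) (by linarith) (by linarith)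
      have h4 : p + s * -e₀ = p + ((-s : ℝ) : ℂ) * e₀ := by
        push_cast
        ring
      show p + s * -e₀ ∈ b
      rw [h4]
      exact h3
  · intro e he heD s hs hsε
    have hd : dist (p + s * e) p < ε := by
      rw [dist_ray p he hs]
      exact lt_of_lt_of_le hsε (min_le_left _ _)
    rcases C.cover (p + s * e) with hv | ⟨b', hb', hmb⟩ | hR
    · exact absurd (hεv _ hv hd) (ray_ne p he hs)
    · exfalso
      have hcl := hεb b' hb' _ hmb hd
      by_cases hpb' : p ∈ b'
      · have hbb : b' = b := C.border_eq hb' hb hpb' hp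
        rw [hbb] at hmb
        obtain ⟨u, hu⟩ := hmem' _ hmb
        have h1 : (s : ℂ) * e = u * e₀ := add_left_cancel hu
        have h2 : s = |u| := by
          have h3 := congrArg norm h1
          rw [norm_mul, norm_mul, he, he₀n, Complex.norm_real, Complex.norm_real,
            Real.norm_of_nonneg hs.le, mul_one, mul_one, Real.norm_eq_abs] at h3
          exact h3
        have hsc : (s : ℂ) ≠ 0 := by exact_mod_cast hs.ne'
        apply heD
        rcases abs_choice u with h | h
        · rw [h] at h2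
          rw [← h2] at h1
          rw [mul_left_cancel₀ hsc h1]
          exact Finset.mem_insert_self _ _
        · rw [h] at h2
          have h4 : (u : ℂ) * e₀ = s * -e₀ := by
            rw [h2]
            push_cast
            ring
          rw [h4] at h1
          rw [mul_left_cancel₀ hsc h1]
          exact Finset.mem_insert_of_mem (Finset.mem_singleton_self _)
      · exact hpv (C.border_of_mem_closure hb' hcl hpb').1
    · exact hR

theorem localForm_vertex (hdeg : C.DegLE3) {p : ℂ} (hp : p ∈ C.vertices) :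
    ∃ ε D bd, C.LocalForm p ε D bd := by
  classical
  obtain ⟨ε, hε, hεb, hεv⟩ := C.exists_radius p
  set B : Set (Set ℂ) := {b | b ∈ C.borders ∧ ∃ x, x ≠ p ∧ b = openSegment ℝ p x} with hB
  have hcard : B.encard ≤ 3 := hdeg p hp
  have hBfin : B.Finite := Set.finite_of_encard_le_coe (k := 3) hcard
  -- the chosen other end point of a border at p
  have hex : ∀ b : Set ℂ, ∃ x : ℂ, b ∈ B → x ≠ p ∧ b = openSegment ℝ p x := by
    intro b
    by_cases h : b ∈ B
    · obtain ⟨x, hx⟩ := h.2
      exact ⟨x, fun _ => hx⟩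
    · exact ⟨0, fun h' => absurd h' h⟩
  choose xe hxe using hex
  set d : Set ℂ → ℂ := fun b => (xe b - p) / ‖xe b - p‖ with hd
  set T : Finset (Set ℂ) := hBfin.toFinset with hT
  have hTB : ∀ b, b ∈ T ↔ b ∈ B := fun b => hBfin.mem_toFinset
  have hTcard : T.card ≤ 3 := by
    have h1 : B.encard = T.card := hBfin.encard_eq_coe_toFinset_card
    rw [h1] at hcard
    exact_mod_cast hcard
  have hpos : ∀ b ∈ B, 0 < ‖xe b - p‖ := fun b hb => norm_pos_iff.2 (sub_ne_zero.2 (hxe b hb).1)
  -- a common lower bound for the lengths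
  obtain ⟨δ, hδ, hδB⟩ : ∃ δ : ℝ, 0 < δ ∧ ∀ b ∈ T, δ ≤ ‖xe b - p‖ := by
    rcases T.eq_empty_or_nonempty with h0 | h0
    · exact ⟨1, one_pos, by simp [h0]⟩
    · obtain ⟨b₀, hb₀, hmin⟩ := T.exists_min_image (fun b => ‖xe b - p‖) h0
      exact ⟨‖xe b₀ - p‖, hpos b₀ ((hTB b₀).1 hb₀), hmin⟩
  -- the border of a direction
  have hex2 : ∀ e : ℂ, ∃ b : Set ℂ, e ∈ T.image d → b ∈ T ∧ d b = e := by
    intro e
    by_cases h : e ∈ T.image d
    · obtain ⟨b, hb, hbe⟩ := Finset.mem_image.1 h
      exact ⟨b, fun _ => ⟨hb, hbe⟩⟩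
    · exact ⟨∅, fun h' => absurd h' h⟩
  choose bd hbd using hex2
  refine ⟨min ε δ, T.image d, bd, lt_min hε hδ, Finset.card_image_le.trans hTcard, ?_, ?_, ?_, ?_, ?_⟩
  · intro h
    exact absurd hp h
  · intro e he
    obtain ⟨b, hb, rfl⟩ := Finset.mem_image.1 he
    have h1 := hpos b ((hTB b).1 hb)
    show ‖(xe b - p) / ‖xe b - p‖‖ = 1
    rw [norm_div, Complex.norm_real, Real.norm_of_nonneg h1.le]
    exact div_self h1.ne'
  · intro e he
    exact ((hTB _).1 (hbd e he).1).1
  · intro e he s hs hsε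
    obtain ⟨h1, h2⟩ := hbd e he
    have h3 := hxe _ ((hTB _).1 h1)
    have h5 := LF.mem_openSegment_of_lt h3.1 hs
      (lt_of_lt_of_le hsε ((min_le_right _ _).trans (hδB _ h1)))
    have h6 : (xe (bd e) - p) / ‖xe (bd e) - p‖ = e := h2
    rw [← h3.2, h6] at h5
    exact h5
  · intro e he heD s hs hsε
    have hdist : dist (p + s * e) p < ε := by
      rw [dist_ray p he hs]
      exact lt_of_lt_of_le hsε (min_le_left _ _)
    rcases C.cover (p + s * e) with hv | ⟨b', hb', hmb⟩ | hR
    · exact absurd (hεv _ hv hdist) (ray_ne p he hs)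
    · exfalso
      have hcl := hεb b' hb' _ hmb hdist
      have hpb' : p ∉ b' := C.vertex_border p hp b' hb'
      obtain ⟨-, x, hx, hbx⟩ := C.border_of_mem_closure hb' hcl hpb'
      have hbB : b' ∈ B := ⟨hb', x, hx, hbx⟩
      have h3 := hxe b' hbB
      rw [h3.2] at hmb
      have h4 := LF.eq_of_mem_openSegment he hs hmb
      apply heD
      rw [h4]
      exact Finset.mem_image_of_mem d ((hTB b').2 hbB)
    · exact hR

theorem hasLocalForms (hdeg : C.DegLE3) : C.HasLocalForms := by
  intro p
  rcases C.cover p with hv | ⟨b, hb, hpb⟩ | ⟨R, hR, hpR⟩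
  · exact C.localForm_vertex hdeg hv
  · exact C.localForm_border hb hpb
  · exact C.localForm_region hR hpR

end PolygonColoring
end PolyCol
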