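import Pool.Agent.Lib.PolyCol.Winding
import Pool.Agent.Lib.PolyCol.ConstD

/-!
# Module 13a: odd number of colour changes on the unit circle of a triple point (imports are black boxes)

The colours `rc (Y j)` are not in `cols v` (`dist_ne_one`, every colour in `cols v` is the colour of a region with
`v` in its closure; a point of the arc is at distance `1` from `v`); choose an injection `ψ : ZMod 3 → Fin 6`
with range `(cols v)ᶜ` (3 elements) and `F` with `rc (Y j) = ψ (F j)`; `winding` with `cw_ne`, `cw_period`,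
`no_swap`, `const_false` (the hypotheses translate by injectivity of `ψ`); the sum of indicators is the
cardinality of the filtered range.
-/

namespace PolyCol
namespace PolygonColoring

open Metric

theorem odd_changes (C : PolygonColoring (Fin 6)) (hAlt : C.Alt) (hRad : C.Radial)
    (hNC : C.NearClosure) (hCR : C.CircReg)
    (hcols : ∀ p, C.IsTri p → (C.cols p).ncard = 3) {v : ℂ} (hv : C.IsTri v)
    {n : ℕ} {θ : ℤ → ℝ} {Y : ℤ → Set ℂ} (hw : C.CircleWord v n θ Y)
    (α β : Fin 6) (hαβ : α ≠ β) (hα : α ∉ C.cols v) (hβ : β ∉ C.cols v) :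
    Odd (∑ j ∈ Finset.range (6 * n),
      ind ((C.rc (Y j) = α ∧ C.rc (Y (j + 1)) = β) ∨ (C.rc (Y j) = β ∧ C.rc (Y (j + 1)) = α))) := by
  classical
  have h3 : (C.cols v).ncard = 3 := hcols v hv
  have hc3 : Nat.card ↥((C.cols v)ᶜ) = 3 := by
    have h := Set.ncard_add_ncard_compl (C.cols v)
    rw [h3, Nat.card_eq_fintype_card, Fintype.card_fin] at h
    rw [Nat.card_coe_set_eq]
    omega
  obtain ⟨e⟩ : Nonempty (↥((C.cols v)ᶜ) ≃ Fin 3) := ⟨Finite.equivFinOfCardEq hc3⟩
  set ψ : ZMod 3 → Fin 6 := fun x => ((e.symm x : ↥((C.cols v)ᶜ)) : Fin 6) with hψdef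
  have hψ : Function.Injective ψ := fun x y h => e.symm.injective (Subtype.ext h)
  have hmem : ∀ i, i ∉ C.cols v → ∃ x, ψ x = i := fun i hi => ⟨e ⟨i, hi⟩, by simp [hψdef]⟩
  have hr : C.cols v = (Set.range ψ)ᶜ := by
    ext i
    constructor
    · rintro hi ⟨x, rfl⟩
      exact (e.symm x).2 hi
    · intro hi
      by_contra hcon
      obtain ⟨x, hx⟩ := hmem i hcon
      exact hi ⟨x, hx⟩
  have hnot : ∀ j, C.rc (Y j) ∉ C.cols v := by
    rintro j ⟨R, hR, hvR, hRc⟩
    have hlt := hw.mono (show j < j + 1 by omega)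
    have hy := hw.arc j ((θ j + θ (j + 1)) / 2) (by linarith) (by linarith)
    refine C.dist_ne_one hR (hw.reg j) hRc hvR hy ?_
    rw [dist_eq_norm, sub_add_cancel_left, norm_neg, norm_cis]
  choose F hF using fun j => hmem _ (hnot j)
  have hF' : ∀ j, C.rc (Y j) = ψ (F j) := fun j => (hF j).symm
  obtain ⟨a, rfl⟩ := hmem α hα
  obtain ⟨b, rfl⟩ := hmem β hβ
  have hiff : ∀ j (x : ZMod 3), C.rc (Y j) = ψ x ↔ F j = x := by
    intro j x
    rw [hF']
    exact hψ.eq_iff
  have hw9 := winding n hw.n_pos F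
    (fun j => by
      have := C.cw_period hw j
      apply hψ
      rw [← hF', ← hF', this])
    (fun j h => C.cw_ne hw j (by rw [hF', hF', h]))
    (fun j hne h => C.no_swap hAlt hCR hw j (by rw [hF', hF']; exact fun h' => hne (hψ h'))
      ⟨by rw [hF', hF', h.1], by rw [hF', hF', h.2]⟩)
    (by
      rintro ⟨δ, hδ⟩
      exact const_false C hAlt hRad hNC hCR h3 hw ψ hψ hr F hF' δ hδ)
    a b (fun h => hαβ (by rw [h]))
  have hsum : ∑ j ∈ Finset.range (6 * n),
      ind ((C.rc (Y j) = ψ a ∧ C.rc (Y (j + 1)) = ψ b) ∨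
        (C.rc (Y j) = ψ b ∧ C.rc (Y (j + 1)) = ψ a)) =
      ((Finset.range (6 * n)).filter (fun j : ℕ =>
      (F j = a ∧ F (j + 1) = b) ∨ (F j = b ∧ F (j + 1) = a))).card := by
    rw [Finset.card_filter]
    refine Finset.sum_congr rfl fun j _ => ?_
    rw [hiff, hiff, hiff, hiff]
    unfold ind
    by_cases h : (F j = a ∧ F (j + 1) = b) ∨ (F j = b ∧ F (j + 1) = a)
    · rw [if_pos h, if_pos h]
    · rw [if_neg h, if_neg h]
  rw [hsum]
  exact hw9

end PolygonColoring
end PolyCol
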