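import Pool.Agent.Lib.PolyCol.Basic

/-!
# Module 5: regions at a point, sides of a border, triple points

Let `Word p a ε n τ X b`.
* `word_closure`: `p ∈ closure (X j)` (points `p + s cis θ`, `s → 0`).
* `word_regions`: a region `R` with `p ∈ closure R` is one of the `X j`: `R` contains a point
  `p + s cis θ` with `0 < s < ε` (if `p ∈ R` use that `R` is open), normalise `θ ∈ [a, a + 2π)`; `θ` is not a `τ j`
  (else the point is on a border) so it is `a` or in a sector.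
* `sides`: `b j ⊆ closure R ↔ R = X (j-1) ∨ R = X j` (`1 ≤ j ≤ n`): `x = p + s cis (τ j) ∈ b j`; a small disc
  around `x` is contained in sector `j-1` ∪ ray `j` ∪ sector `j` (polar coordinates / continuity of the
  argument), so a region with `x` in its closure is `X (j-1)` or `X j`; conversely `x` is in both
  closures (`θ → τ j ∓`), then `CloseBorder`.
* `tri_word`: if `p` is a triple point then `n = 3` and `X 0, X 1, X 2` are distinct, and conversely.
-/

namespace PolyCol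
namespace PolygonColoring

open Metric

variable {S : Type} (C : PolygonColoring S)

namespace TriAux

theorem exists_index (n : ℕ) (τ : ℕ → ℝ) (θ : ℝ) (h0 : τ 0 ≤ θ) (h1 : θ < τ (n + 1)) :
    ∃ j ≤ n, τ j ≤ θ ∧ θ < τ (j + 1) := by
  induction n with
  | zero => exact ⟨0, le_refl _, h0, h1⟩
  | succ m ih =>
    by_cases h : θ < τ (m + 1)
    · obtain ⟨j, hj, h2⟩ := ih h
      exact ⟨j, by omega, h2⟩
    · exact ⟨m + 1, le_refl _, not_lt.1 h, h1⟩

theorem exists_polar_Ico (z : ℂ) (a : ℝ) :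
    ∃ θ : ℝ, a ≤ θ ∧ θ < a + 2 * Real.pi ∧ z = (‖z‖ : ℂ) * cis θ := by
  obtain ⟨θ, hθ⟩ := exists_polar z
  have hp : (0 : ℝ) < 2 * Real.pi := by positivity
  refine ⟨toIcoMod hp a θ, left_le_toIcoMod hp a θ, toIcoMod_lt_right hp a θ, ?_⟩
  have : cis (toIcoMod hp a θ) = cis θ := by
    rw [cis_eq_iff]
    refine ⟨-toIcoDiv hp a θ, ?_⟩
    rw [toIcoMod, zsmul_eq_mul]
    push_cast
    ring
  rw [this]
  exact hθ

theorem dist_add_cis (p : ℂ) {s : ℝ} (hs : 0 ≤ s) (θ : ℝ) : dist p (p + s * cis θ) = s := by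
  rw [dist_eq_norm, show p - (p + s * cis θ) = -(s * cis θ) by ring, norm_neg, norm_mul, norm_cis,
    Complex.norm_real, mul_one, Real.norm_of_nonneg hs]

/-- near a point `p + s cis t₀` polar coordinates around `p` are close to `(s, t₀)` -/
theorem near_polar (p : ℂ) {s : ℝ} (hs : 0 < s) {ε : ℝ} (hε : s < ε) (t₀ η : ℝ) (hη : 0 < η) :
    ∃ δ : ℝ, 0 < δ ∧ ∀ y : ℂ, dist y (p + s * cis t₀) < δ →
      ∃ θ s' : ℝ, |θ - t₀| < η ∧ 0 < s' ∧ s' < ε ∧ y = p + s' * cis θ := by
  set x : ℂ := p + s * cis t₀ with hx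
  have hc : ∀ y : ℂ, (y - p) = (‖y - p‖ : ℂ) * cis (t₀ + Complex.arg ((y - p) * cis (-t₀))) := by
    intro y
    have h1 : (y - p) * cis (-t₀) =
        (‖(y - p) * cis (-t₀)‖ : ℂ) * cis (Complex.arg ((y - p) * cis (-t₀))) := by
      conv_lhs => rw [← Complex.norm_mul_exp_arg_mul_I ((y - p) * cis (-t₀))]
      rfl
    have h2 : ‖(y - p) * cis (-t₀)‖ = ‖y - p‖ := by rw [norm_mul, norm_cis, mul_one]
    rw [h2] at h1
    have h3 : cis t₀ * cis (-t₀) = 1 := by
      rw [← cis_add]; simp [cis]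
    calc (y - p) = cis t₀ * ((y - p) * cis (-t₀)) := by
            rw [show cis t₀ * ((y - p) * cis (-t₀)) = (y - p) * (cis t₀ * cis (-t₀)) by ring, h3,
              mul_one]
      _ = cis t₀ * ((‖y - p‖ : ℂ) * cis (Complex.arg ((y - p) * cis (-t₀)))) := by rw [← h1]
      _ = _ := by rw [cis_add]; ring
  have hval : (x - p) * cis (-t₀) = (s : ℂ) := by
    have h3 : cis t₀ * cis (-t₀) = 1 := by
      rw [← cis_add]; simp [cis]
    rw [hx, show (p + s * cis t₀ - p) * cis (-t₀) = s * (cis t₀ * cis (-t₀)) by ring, h3, mul_one]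
  have hcont : ContinuousAt (fun y : ℂ => Complex.arg ((y - p) * cis (-t₀))) x := by
    have h1 : ContinuousAt Complex.arg ((x - p) * cis (-t₀)) := by
      apply Complex.continuousAt_arg
      rw [hval]
      left
      simpa using hs
    have h2 : ContinuousAt (fun y : ℂ => (y - p) * cis (-t₀)) x := by fun_prop
    exact ContinuousAt.comp (f := fun y : ℂ => (y - p) * cis (-t₀)) h1 h2
  have hx0 : Complex.arg ((x - p) * cis (-t₀)) = 0 := by
    rw [hval]
    exact Complex.arg_ofReal_of_nonneg hs.le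
  have hnorm : ‖x - p‖ = s := by
    rw [hx, show p + s * cis t₀ - p = s * cis t₀ by ring, norm_mul, norm_cis, Complex.norm_real,
      mul_one, Real.norm_of_nonneg hs.le]
  have hcn : ContinuousAt (fun y : ℂ => ‖y - p‖) x := by fun_prop
  have e1 : ∀ᶠ y in nhds x, |Complex.arg ((y - p) * cis (-t₀))| < η := by
    have : Filter.Tendsto (fun y : ℂ => |Complex.arg ((y - p) * cis (-t₀))|) (nhds x)
        (nhds |Complex.arg ((x - p) * cis (-t₀))|) := hcont.abs
    rw [hx0, abs_zero] at this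
    exact this.eventually_lt_const hη
  have e2 : ∀ᶠ y in nhds x, 0 < ‖y - p‖ := by
    have : Filter.Tendsto (fun y : ℂ => ‖y - p‖) (nhds x) (nhds ‖x - p‖) := hcn
    rw [hnorm] at this
    exact this.eventually_const_lt hs
  have e3 : ∀ᶠ y in nhds x, ‖y - p‖ < ε := by
    have : Filter.Tendsto (fun y : ℂ => ‖y - p‖) (nhds x) (nhds ‖x - p‖) := hcn
    rw [hnorm] at this
    exact this.eventually_lt_const hε
  obtain ⟨δ, hδ, hδ'⟩ := Metric.eventually_nhds_iff.1 (e1.and (e2.and e3))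
  refine ⟨δ, hδ, fun y hy => ?_⟩
  obtain ⟨h1, h2, h3⟩ := hδ' hy
  refine ⟨t₀ + Complex.arg ((y - p) * cis (-t₀)), ‖y - p‖, ?_, h2, h3, ?_⟩
  · rw [show t₀ + Complex.arg ((y - p) * cis (-t₀)) - t₀ = Complex.arg ((y - p) * cis (-t₀)) by
      ring]
    exact h1
  · rw [← hc y]; ring

end TriAux

open TriAux

theorem word_closure {p : ℂ} {a ε : ℝ} {n : ℕ} {τ : ℕ → ℝ} {X b : ℕ → Set ℂ}
    (hW : C.Word p a ε n τ X b) (j : ℕ) (hj : j ≤ n) : p ∈ closure (X j) := by
  rw [Metric.mem_closure_iff]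
  intro δ hδ
  have hε := hW.ε_pos
  have hm := hW.mono j hj
  have hs : 0 < min ε δ / 2 := by positivity
  refine ⟨p + (min ε δ / 2 : ℝ) * cis ((τ j + τ (j + 1)) / 2), ?_, ?_⟩
  · refine hW.sector j hj _ (by linarith) (by linarith) _ hs ?_
    have := min_le_left ε δ
    linarith
  · rw [dist_add_cis p hs.le]
    have := min_le_right ε δ
    linarith

/-- a point of a region in the punctured disc lies in one of the `X j` -/
theorem TriAux.region_of_mem {p : ℂ} {a ε : ℝ} {n : ℕ} {τ : ℕ → ℝ} {X b : ℕ → Set ℂ}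
    (hW : C.Word p a ε n τ X b) (R : Set ℂ) (hR : R ∈ C.regions) {y : ℂ} (hy : y ∈ R)
    (hyp : y ≠ p) (hyε : dist y p < ε) : ∃ j ≤ n, R = X j := by
  obtain ⟨θ, h1, h2, h3⟩ := exists_polar_Ico (y - p) a
  have hs : 0 < ‖y - p‖ := norm_pos_iff.2 (sub_ne_zero.2 hyp)
  have hs' : ‖y - p‖ < ε := by rwa [← dist_eq_norm]
  have hy' : y = p + (‖y - p‖ : ℝ) * cis θ := by rw [← h3]; ring
  rw [← hW.start] at h1
  have h2' : θ < τ (n + 1) := by rw [hW.stop]; exact h2
  obtain ⟨j, hj, h4, h5⟩ := exists_index n τ θ h1 h2'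
  rcases h4.lt_or_eq with h4 | h4
  · refine ⟨j, hj, C.region_eq hR (hW.reg j hj) hy ?_⟩
    rw [hy']
    exact hW.sector j hj θ h4 h5 _ hs hs'
  · rcases Nat.eq_zero_or_pos j with h0 | h0
    · subst h0
      refine ⟨0, Nat.zero_le _, C.region_eq hR (hW.reg 0 (Nat.zero_le _)) hy ?_⟩
      rw [hy', ← h4, hW.start]
      exact hW.base _ hs hs'
    · exfalso
      have hb := hW.ray j h0 hj _ hs hs'
      rw [h4, ← hy'] at hb
      exact Set.disjoint_left.1 (C.border_region _ (hW.bord j h0 hj) R hR) hb hy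

theorem word_regions {p : ℂ} {a ε : ℝ} {n : ℕ} {τ : ℕ → ℝ} {X b : ℕ → Set ℂ}
    (hW : C.Word p a ε n τ X b) (R : Set ℂ) (hR : R ∈ C.regions) (hp : p ∈ closure R) :
    ∃ j ≤ n, R = X j := by
  have hε := hW.ε_pos
  by_cases hpR : p ∈ R
  · obtain ⟨δ, hδ, hδ'⟩ := Metric.isOpen_iff.1 (C.region_open R hR) p hpR
    have hs : 0 < min ε δ / 2 := by positivity
    have h1 : p + (min ε δ / 2 : ℝ) * cis a ∈ R := by
      apply hδ'
      rw [mem_ball, dist_comm, dist_add_cis p hs.le]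
      have := min_le_right ε δ
      linarith
    refine ⟨0, Nat.zero_le _, C.region_eq hR (hW.reg 0 (Nat.zero_le _)) h1 ?_⟩
    refine hW.base _ hs ?_
    have := min_le_left ε δ
    linarith
  · obtain ⟨y, hy, hyp⟩ := Metric.mem_closure_iff.1 hp ε hε
    refine TriAux.region_of_mem C hW R hR hy ?_ (by rwa [dist_comm])
    rintro rfl
    exact hpR hy

theorem sides (hCB : C.CloseBorder) {p : ℂ} {a ε : ℝ} {n : ℕ} {τ : ℕ → ℝ} {X b : ℕ → Set ℂ}
    (hW : C.Word p a ε n τ X b) (j : ℕ) (h1 : 1 ≤ j) (hj : j ≤ n) (R : Set ℂ)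
    (hR : R ∈ C.regions) : b j ⊆ closure R ↔ R = X (j - 1) ∨ R = X j := by
  have hε := hW.ε_pos
  have hs : 0 < ε / 2 := by positivity
  have hs' : ε / 2 < ε := by linarith
  obtain ⟨i, rfl⟩ : ∃ i, j = i + 1 := ⟨j - 1, by omega⟩
  have hi : i + 1 - 1 = i := by omega
  rw [hi]
  have hmi : τ i < τ (i + 1) := hW.mono i (by omega)
  have hmj : τ (i + 1) < τ (i + 1 + 1) := hW.mono (i + 1) hj
  have hxb : p + (ε / 2 : ℝ) * cis (τ (i + 1)) ∈ b (i + 1) := hW.ray (i + 1) h1 hj _ hs hs'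
  set η : ℝ := min (τ (i + 1) - τ i) (τ (i + 1 + 1) - τ (i + 1)) with hη
  have hηpos : 0 < η := lt_min (by linarith) (by linarith)
  have hη1 : η ≤ τ (i + 1) - τ i := min_le_left _ _
  have hη2 : η ≤ τ (i + 1 + 1) - τ (i + 1) := min_le_right _ _
  constructor
  · intro hb
    obtain ⟨δ, hδ, hδ'⟩ := near_polar p hs hs' (τ (i + 1)) η hηpos
    obtain ⟨y, hy, hyd⟩ := Metric.mem_closure_iff.1 (hb hxb) δ hδ
    rw [dist_comm] at hyd
    obtain ⟨θ, s', hθ, h0, h2, rfl⟩ := hδ' y hyd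
    rw [abs_lt] at hθ
    rcases lt_trichotomy θ (τ (i + 1)) with h | h | h
    · left
      exact C.region_eq hR (hW.reg i (by omega)) hy
        (hW.sector i (by omega) θ (by linarith) h _ h0 h2)
    · exfalso
      subst h
      exact Set.disjoint_left.1 (C.border_region _ (hW.bord (i + 1) h1 hj) R hR)
        (hW.ray (i + 1) h1 hj _ h0 h2) hy
    · right
      exact C.region_eq hR (hW.reg (i + 1) hj) hy
        (hW.sector (i + 1) hj θ h (by linarith) _ h0 h2)
  · intro h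
    refine hCB (b (i + 1)) (hW.bord (i + 1) h1 hj) R hR
      ⟨p + (ε / 2 : ℝ) * cis (τ (i + 1)), hxb, ?_⟩
    have hcont : Continuous fun t : ℝ => p + ((ε / 2 : ℝ) : ℂ) * cis t := by
      have := continuous_cis
      fun_prop
    rcases h with rfl | rfl
    · have hmem : τ (i + 1) ∈ closure (Set.Ioo (τ i) (τ (i + 1))) := by
        rw [closure_Ioo hmi.ne]
        exact ⟨hmi.le, le_refl _⟩
      have := map_mem_closure hcont hmem (t := X i) (by
        intro t ht
        exact hW.sector i (by omega) t ht.1 ht.2 _ hs hs')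
      exact this
    · have hmem : τ (i + 1) ∈ closure (Set.Ioo (τ (i + 1)) (τ (i + 1 + 1))) := by
        rw [closure_Ioo hmj.ne]
        exact ⟨le_refl _, hmj.le⟩
      have := map_mem_closure hcont hmem (t := X (i + 1)) (by
        intro t ht
        exact hW.sector (i + 1) hj t ht.1 ht.2 _ hs hs')
      exact this

theorem tri_word {p : ℂ} {a ε : ℝ} {n : ℕ} {τ : ℕ → ℝ} {X b : ℕ → Set ℂ}
    (hW : C.Word p a ε n τ X b) :
    C.IsTri p ↔ n = 3 ∧ X 0 ≠ X 1 ∧ X 1 ≠ X 2 ∧ X 0 ≠ X 2 := by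
  have hlast := hW.last
  constructor
  · rintro ⟨P, hP, Q, hQ, R, hR, hPQ, hQR, hPR, hpP, hpQ, hpR⟩
    obtain ⟨i, hi, rfl⟩ := C.word_regions hW P hP hpP
    obtain ⟨j, hj, rfl⟩ := C.word_regions hW Q hQ hpQ
    obtain ⟨k, hk, rfl⟩ := C.word_regions hW R hR hpR
    have hn := hW.n_le
    have hall : ∀ m, m ≤ n → n ≤ 2 → X m = X 0 ∨ X m = X 1 := by
      intro m hm h2
      have h3 : m = 0 ∨ m = 1 ∨ (m = 2 ∧ n = 2) := by omega
      rcases h3 with rfl | rfl | ⟨rfl, rfl⟩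
      · left; rfl
      · right; rfl
      · left; exact hlast
    have hn3 : n = 3 := by
      by_contra hne
      have h2 : n ≤ 2 := by omega
      rcases hall i hi h2 with e1 | e1 <;> rcases hall j hj h2 with e2 | e2 <;>
        rcases hall k hk h2 with e3 | e3 <;> simp_all
    refine ⟨hn3, ?_⟩
    subst hn3
    have hall3 : ∀ m, m ≤ 3 → X m = X 0 ∨ X m = X 1 ∨ X m = X 2 := by
      intro m hm
      have h3 : m = 0 ∨ m = 1 ∨ m = 2 ∨ m = 3 := by omega
      rcases h3 with rfl | rfl | rfl | rfl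
      · left; rfl
      · right; left; rfl
      · right; right; rfl
      · left; exact hlast
    refine ⟨fun h => ?_, fun h => ?_, fun h => ?_⟩
    all_goals
      rcases hall3 i hi with e1 | e1 | e1 <;> rcases hall3 j hj with e2 | e2 | e2 <;>
        rcases hall3 k hk with e3 | e3 | e3 <;> simp_all
  · rintro ⟨rfl, h01, h12, h02⟩
    exact ⟨X 0, hW.reg 0 (by omega), X 1, hW.reg 1 (by omega), X 2, hW.reg 2 (by omega),
      h01, h12, h02, C.word_closure hW 0 (by omega), C.word_closure hW 1 (by omega),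
      C.word_closure hW 2 (by omega)⟩

theorem tri_vertex (hw : ∀ p, ∃ a ε n τ X b, C.Word p a ε n τ X b) {p : ℂ} (hp : C.IsTri p) :
    p ∈ C.vertices := by
  obtain ⟨a, ε, n, τ, X, b, hW⟩ := hw p
  obtain ⟨hn, -⟩ := (C.tri_word hW).1 hp
  by_contra hv
  have := hW.n_le_two hv
  omega

theorem tri_cols (hw : ∀ p, ∃ a ε n τ X b, C.Word p a ε n τ X b) (hA : C.Adj) {p : ℂ}
    (hp : C.IsTri p) : (C.cols p).ncard = 3 := by
  obtain ⟨a, ε, n, τ, X, b, hW⟩ := hw p
  obtain ⟨rfl, h01, h12, h02⟩ := (C.tri_word hW).1 hp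
  have c0 := C.word_closure hW 0 (by omega)
  have c1 := C.word_closure hW 1 (by omega)
  have c2 := C.word_closure hW 2 (by omega)
  have r0 := hW.reg 0 (by omega)
  have r1 := hW.reg 1 (by omega)
  have r2 := hW.reg 2 (by omega)
  have e : C.cols p = {C.rc (X 0), C.rc (X 1), C.rc (X 2)} := by
    ext i
    simp only [cols, Set.mem_setOf_eq, Set.mem_insert_iff, Set.mem_singleton_iff]
    constructor
    · rintro ⟨R, hR, hpR, rfl⟩
      obtain ⟨m, hm, rfl⟩ := C.word_regions hW R hR hpR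
      have h3 : m = 0 ∨ m = 1 ∨ m = 2 ∨ m = 3 := by omega
      rcases h3 with rfl | rfl | rfl | rfl
      · left; rfl
      · right; left; rfl
      · right; right; rfl
      · left; rw [hW.last]
    · rintro (rfl | rfl | rfl)
      · exact ⟨X 0, r0, c0, rfl⟩
      · exact ⟨X 1, r1, c1, rfl⟩
      · exact ⟨X 2, r2, c2, rfl⟩
  rw [e]
  rw [Set.ncard_eq_three]
  exact ⟨_, _, _, fun h => h01 (hA p _ r0 _ r1 c0 c1 h), fun h => h02 (hA p _ r0 _ r2 c0 c2 h),
    fun h => h12 (hA p _ r1 _ r2 c1 c2 h), rfl⟩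

end PolygonColoring
end PolyCol
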