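import Mathlib

/-!
# Module 9: the combinatorial winding lemma (pure combinatorics)

`f : ℤ → ZMod 3` periodic with period `6 n`, `f (j+n) ≠ f j`, no swap (`f j = a, f (j+1) = b, f (j+n) = b, f (j+1+n) = a`
with `a ≠ b` is impossible), and the difference `f (j+n) - f j` is not constant.  Then for `α ≠ β` the number of
`j ∈ [0, 6n)` with `{f j, f (j+1)} = {α, β}` is odd.

Proof.  Let `c j ∈ {-1,0,1}` be the integer representative of `f (j+1) - f j` and `d j ∈ {1,2}` the integer
representative of `f (j+n) - f j`.  `c (j+n) - c j ≡ d (j+1) - d j (mod 3)`, the right side is in `{-1,0,1}`; the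
left side is in `{-1,0,1}` unless it is `±2`, which is a swap.  So `c (j+n) - c j = d (j+1) - d j` as
integers for all `j`.  Let `s j = ∑_{k<n} c (j+k)`.  Then `s (j+1) - s j = d (j+1) - d j`, so `s j = d j + C`, and
`s j ≡ f (j+n) - f j ≡ d j (mod 3)`, so `C = 3 m`.  Let `H = ∑_{j<6n} c j = ∑_{k<6} s (k n) = 18 m + ∑_{k<6} d (k n)`, the
same with base point `j` instead of `0`: `H = 18 m + ∑_{k<6} d (j + k n)` for all `j`.  `H ≡ f (6n) - f 0 = 0 (mod 3)`,
so the last sum is `6`, `9` or `12`; if it is `6` all `d j = 1`, if it is `12` all `d j = 2`, both excluded.  So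
`H = 18 m + 9`, `H / 3` is odd.  Finally for a closed walk with steps `0, ±1` on the triangle `ZMod 3` and total
`H = 3 w`, the number of steps between `α` and `β` (in either direction) is `≡ w (mod 2)`: signed numbers of
steps over the three edges `0→1`, `1→2`, `2→0` are all equal (to `w`).
-/

namespace PolyCol

namespace WindingAux

def cc (x y : ZMod 3) : ℤ := if y = x then 0 else if y = x + 1 then 1 else -1
def dd (x y : ZMod 3) : ℤ := if y = x + 1 then 1 else 2
def ee (α β x y : ZMod 3) : ℤ :=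
  (if x = α ∧ y = β then 1 else 0) - (if x = β ∧ y = α then 1 else 0)
def sg (α β : ZMod 3) : ℤ := if β = α + 1 then 1 else -1
/-- potential -/
def pot (α β x : ZMod 3) : ℤ :=
  if x = α then 0 else if x = β then 2 * sg α β * sg α β else sg α β * sg α β

lemma cc_dd : ∀ x x' y y' : ZMod 3, y ≠ x → y' ≠ x' → (x ≠ x' → ¬ (y = x' ∧ y' = x)) →
    cc y y' - cc x x' = dd x' y' - dd x y := by decide

lemma cc_cast : ∀ x y : ZMod 3, ((cc x y : ℤ) : ZMod 3) = y - x := by decide

lemma dd_cast : ∀ x y : ZMod 3, y ≠ x → ((dd x y : ℤ) : ZMod 3) = y - x := by decide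

lemma dd_range (x y : ZMod 3) : dd x y = 1 ∨ dd x y = 2 := by
  unfold dd; split_ifs <;> simp

lemma ee_cc : ∀ α β x y : ZMod 3, α ≠ β →
    3 * ee α β x y - sg α β * cc x y = pot α β y - pot α β x := by decide

lemma sg_sq (α β : ZMod 3) : sg α β = 1 ∨ sg α β = -1 := by
  unfold sg; split_ifs <;> simp

lemma shift_sum (c : ℤ → ℤ) (n : ℕ) (j : ℤ) :
    ∑ k ∈ Finset.range n, c (j + 1 + k) = ∑ k ∈ Finset.range n, c (j + k) + (c (j + n) - c j) := by
  have h1 := Finset.sum_range_succ (fun k : ℕ => c (j + k)) n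
  have h2 := Finset.sum_range_succ' (fun k : ℕ => c (j + k)) n
  have h3 : ∑ k ∈ Finset.range n, c (j + ((k + 1 : ℕ) : ℤ)) = ∑ k ∈ Finset.range n, c (j + 1 + k) := by
    refine Finset.sum_congr rfl fun k _ => ?_
    congr 1
    push_cast
    ring
  simp only [Nat.cast_zero, add_zero] at h2
  rw [h3] at h2
  linarith

lemma const_of_step (g : ℤ → ℤ) (h : ∀ j, g (j + 1) = g j) (j : ℤ) : g j = g 0 := by
  induction j using Int.induction_on with
  | zero => rfl
  | succ i ih => rw [h, ih]
  | pred i ih =>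
    have := h (-(i : ℤ) - 1)
    rw [← this]
    simpa using ih

lemma block_sum (c : ℤ → ℤ) (n m : ℕ) (j : ℤ) :
    ∑ i ∈ Finset.range (m * n), c (j + i)
      = ∑ k ∈ Finset.range m, ∑ i ∈ Finset.range n, c (j + k * n + i) := by
  induction m with
  | zero => simp
  | succ m ih =>
    rw [Finset.sum_range_succ, ← ih, Nat.succ_mul, Finset.sum_range_add]
    congr 1
    refine Finset.sum_congr rfl fun k _ => ?_
    congr 1
    push_cast
    ring

lemma tele_sum (f : ℤ → ZMod 3) (n : ℕ) (j : ℤ) :
    ((∑ k ∈ Finset.range n, cc (f (j + k)) (f (j + k + 1)) : ℤ) : ZMod 3) = f (j + n) - f j := by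
  induction n with
  | zero => simp
  | succ n ih =>
    rw [Finset.sum_range_succ, Int.cast_add, ih, cc_cast]
    push_cast
    rw [add_assoc j (n : ℤ) 1]
    ring

lemma tele_sum' (g : ℤ → ℤ) (n : ℕ) (j : ℤ) :
    ∑ k ∈ Finset.range n, (g (j + k + 1) - g (j + k)) = g (j + n) - g j := by
  induction n with
  | zero => simp
  | succ n ih =>
    rw [Finset.sum_range_succ, ih]
    push_cast
    rw [add_assoc j (n : ℤ) 1]
    ring

lemma count_parity (α β : ZMod 3) (hαβ : α ≠ β) (f : ℤ → ZMod 3) (N : ℕ) :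
    (((Finset.range N).filter (fun j : ℕ =>
      (f j = α ∧ f (j + 1) = β) ∨ (f j = β ∧ f (j + 1) = α))).card : ℤ)
      ≡ ∑ j ∈ Finset.range N, ee α β (f j) (f (j + 1)) [ZMOD 2] := by
  induction N with
  | zero => simp
  | succ N ih =>
    rw [Finset.sum_range_succ, Finset.range_add_one, Finset.filter_insert]
    split_ifs with h
    · rw [Finset.card_insert_of_notMem (by simp)]
      push_cast
      refine Int.ModEq.add ih ?_
      rcases h with h | h
      · unfold ee
        have h' : ¬ (f N = β ∧ f (N + 1) = α) := by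
          rintro ⟨h1, -⟩
          exact hαβ (h.1.symm.trans h1)
        rw [if_pos h, if_neg h']
        decide
      · unfold ee
        have h' : ¬ (f N = α ∧ f (N + 1) = β) := by
          rintro ⟨h1, -⟩
          exact hαβ (h1.symm.trans h.1)
        rw [if_pos h, if_neg h']
        decide
    · push Not at h
      have h1 : ¬ (f N = α ∧ f (N + 1) = β) := fun hh => h.1 hh.1 hh.2
      have h2 : ¬ (f N = β ∧ f (N + 1) = α) := fun hh => h.2 hh.1 hh.2
      unfold ee
      rw [if_neg h1, if_neg h2]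
      simpa [ee] using ih

end WindingAux

open WindingAux in
theorem winding (n : ℕ) (hn : 0 < n) (f : ℤ → ZMod 3) (hper : ∀ j, f (j + 6 * n) = f j)
    (h1 : ∀ j, f (j + n) ≠ f j)
    (h2 : ∀ j, f j ≠ f (j + 1) → ¬ (f (j + n) = f (j + 1) ∧ f (j + 1 + n) = f j))
    (h3 : ¬ ∃ δ, ∀ j, f (j + n) = f j + δ) (α β : ZMod 3) (hαβ : α ≠ β) :
    Odd ((Finset.range (6 * n)).filter (fun j : ℕ =>
      (f j = α ∧ f (j + 1) = β) ∨ (f j = β ∧ f (j + 1) = α))).card := by
  set c : ℤ → ℤ := fun j => cc (f j) (f (j + 1)) with hc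
  set d : ℤ → ℤ := fun j => dd (f j) (f (j + n)) with hd
  have hcd : ∀ j, c (j + n) - c j = d (j + 1) - d j := by
    intro j
    have := cc_dd (f j) (f (j + 1)) (f (j + n)) (f (j + 1 + n)) (h1 j) (h1 (j + 1)) (h2 j)
    simp only [hc, hd]
    rw [← this]
    congr 3
    ring
  set s : ℤ → ℤ := fun j => ∑ k ∈ Finset.range n, c (j + k) with hs
  have hsd : ∀ j, s (j + 1) - d (j + 1) = s j - d j := by
    intro j
    have := shift_sum c n j
    have h := hcd j
    simp only [hs]
    linarith
  have hsC : ∀ j, s j - d j = s 0 - d 0 := const_of_step (fun j => s j - d j) hsd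
  have h3C : (3 : ℤ) ∣ s 0 - d 0 := by
    have e1 : ((s 0 : ℤ) : ZMod 3) = f n - f 0 := by
      have := tele_sum f n 0
      simpa [hs, hc] using this
    have e2 : ((d 0 : ℤ) : ZMod 3) = f n - f 0 := by
      have := dd_cast (f 0) (f (0 + n)) (h1 0)
      simpa [hd] using this
    have e3 : ((s 0 - d 0 : ℤ) : ZMod 3) = 0 := by
      rw [Int.cast_sub, e1, e2, sub_self]
    exact (ZMod.intCast_zmod_eq_zero_iff_dvd _ 3).1 e3
  obtain ⟨m, hm⟩ := h3C
  set H : ℤ → ℤ := fun j => ∑ i ∈ Finset.range (6 * n), c (j + i) with hH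
  have hcper : ∀ j, c (j + 6 * n) = c j := by
    intro j
    simp only [hc]
    rw [hper j]
    congr 1
    rw [show j + 6 * (n : ℤ) + 1 = (j + 1) + 6 * n by ring, hper]
  have hHstep : ∀ j, H (j + 1) = H j := by
    intro j
    have := shift_sum c (6 * n) j
    simp only [hH]
    rw [this]
    have h := hcper j
    push_cast
    linarith
  have hHc : ∀ j, H j = H 0 := const_of_step H hHstep
  have hHd : ∀ j, H j = 18 * m + ∑ k ∈ Finset.range 6, d (j + k * n) := by
    intro j
    have hb := block_sum c n 6 j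
    simp only [hH]
    rw [hb]
    have : ∀ k ∈ Finset.range 6, ∑ i ∈ Finset.range n, c (j + k * n + i) = 3 * m + d (j + k * n) := by
      intro k _
      have := hsC (j + k * n)
      simp only [hs] at this ⊢
      rw [hs] at hm
      simp only at hm
      linarith
    rw [Finset.sum_congr rfl this, Finset.sum_add_distrib]
    simp
    ring
  have h3H : (3 : ℤ) ∣ H 0 := by
    have := tele_sum f (6 * n) 0
    have hp : f (0 + ((6 * n : ℕ) : ℤ)) = f 0 := by
      have := hper 0
      push_cast
      exact this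
    rw [hp, sub_self] at this
    have h := (ZMod.intCast_zmod_eq_zero_iff_dvd _ 3).1 this
    simpa [hH, hc] using h
  have hdr : ∀ j, d j = 1 ∨ d j = 2 := fun j => dd_range _ _
  have hH9 : H 0 = 18 * m + 9 := by
    have h0 := hHd 0
    obtain ⟨w, hw⟩ := h3H
    have key : (∑ k ∈ Finset.range 6, d (0 + k * n)) = 9 := by
      have hexp : ∀ j : ℤ, ∑ k ∈ Finset.range 6, d (j + k * n)
          = d j + d (j + n) + d (j + 2 * n) + d (j + 3 * n) + d (j + 4 * n) + d (j + 5 * n) := by
        intro j
        simp [Finset.sum_range_succ]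
      have hb1 : 6 ≤ ∑ k ∈ Finset.range 6, d (0 + k * n) := by
        rw [hexp]
        rcases hdr (0:ℤ) with h | h <;> rcases hdr (0 + (n:ℤ)) with h' | h' <;>
        rcases hdr (0 + 2 * (n:ℤ)) with h'' | h'' <;> rcases hdr (0 + 3 * (n:ℤ)) with h''' | h''' <;>
        rcases hdr (0 + 4 * (n:ℤ)) with h4 | h4 <;> rcases hdr (0 + 5 * (n:ℤ)) with h5 | h5 <;> omega
      have hb2 : ∑ k ∈ Finset.range 6, d (0 + k * n) ≤ 12 := by
        rw [hexp]
        rcases hdr (0:ℤ) with h | h <;> rcases hdr (0 + (n:ℤ)) with h' | h' <;>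
        rcases hdr (0 + 2 * (n:ℤ)) with h'' | h'' <;> rcases hdr (0 + 3 * (n:ℤ)) with h''' | h''' <;>
        rcases hdr (0 + 4 * (n:ℤ)) with h4 | h4 <;> rcases hdr (0 + 5 * (n:ℤ)) with h5 | h5 <;> omega
      have hne6 : ∑ k ∈ Finset.range 6, d (0 + k * n) ≠ 6 := by
        intro h6
        apply h3
        refine ⟨1, fun j => ?_⟩
        have hj := hHd j
        rw [hHc j, h0, h6, hexp] at hj
        have hdj : d j = 1 := by
          rcases hdr (j:ℤ) with h | h
          · exact h
          · exfalso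
            rcases hdr (j + (n:ℤ)) with h' | h' <;>
            rcases hdr (j + 2 * (n:ℤ)) with h'' | h'' <;> rcases hdr (j + 3 * (n:ℤ)) with h''' | h''' <;>
            rcases hdr (j + 4 * (n:ℤ)) with h4 | h4 <;> rcases hdr (j + 5 * (n:ℤ)) with h5 | h5 <;> omega
        have hcast := dd_cast (f j) (f (j + n)) (h1 j)
        have : dd (f j) (f (j + n)) = 1 := hdj
        rw [this] at hcast
        simp only [Int.cast_one] at hcast
        rw [hcast]
        ring
      have hne12 : ∑ k ∈ Finset.range 6, d (0 + k * n) ≠ 12 := by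
        intro h6
        apply h3
        refine ⟨2, fun j => ?_⟩
        have hj := hHd j
        rw [hHc j, h0, h6, hexp] at hj
        have hdj : d j = 2 := by
          rcases hdr (j:ℤ) with h | h
          · exfalso
            rcases hdr (j + (n:ℤ)) with h' | h' <;>
            rcases hdr (j + 2 * (n:ℤ)) with h'' | h'' <;> rcases hdr (j + 3 * (n:ℤ)) with h''' | h''' <;>
            rcases hdr (j + 4 * (n:ℤ)) with h4 | h4 <;> rcases hdr (j + 5 * (n:ℤ)) with h5 | h5 <;> omega
          · exact h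
        have hcast := dd_cast (f j) (f (j + n)) (h1 j)
        have : dd (f j) (f (j + n)) = 2 := hdj
        rw [this] at hcast
        have h2' : (2 : ZMod 3) = f (j + n) - f j := by
          rw [← hcast]; norm_num
        rw [h2']
        ring
      omega
    rw [h0, key]
  -- the edge count
  have hE : 3 * (∑ j ∈ Finset.range (6 * n), ee α β (f j) (f (j + 1))) = sg α β * (18 * m + 9) := by
    have ht := tele_sum' (fun j => pot α β (f j)) (6 * n) 0
    have hp : f (0 + ((6 * n : ℕ) : ℤ)) = f 0 := by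
      have := hper 0
      push_cast
      exact this
    simp only [hp, sub_self] at ht
    have hsum : ∑ k ∈ Finset.range (6 * n),
        (3 * ee α β (f (0 + k)) (f (0 + k + 1)) - sg α β * cc (f (0 + k)) (f (0 + k + 1))) = 0 := by
      refine Eq.trans ?_ ht
      exact Finset.sum_congr rfl fun k _ => ee_cc α β _ _ hαβ
    rw [Finset.sum_sub_distrib, ← Finset.mul_sum, ← Finset.mul_sum] at hsum
    have hH0 : ∑ k ∈ Finset.range (6 * n), cc (f (0 + k)) (f (0 + k + 1)) = 18 * m + 9 := by
      rw [← hH9]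
    rw [hH0] at hsum
    simp only [zero_add] at hsum
    linarith
  have hpar := count_parity α β hαβ f (6 * n)
  rw [← Int.odd_coe_nat]
  set X := ((Finset.range (6 * n)).filter (fun j : ℕ =>
      (f j = α ∧ f (j + 1) = β) ∨ (f j = β ∧ f (j + 1) = α))).card with hX
  set E := ∑ j ∈ Finset.range (6 * n), ee α β (f j) (f (j + 1)) with hEdef
  have hmod : (X : ℤ) % 2 = E % 2 := hpar
  rw [Int.odd_iff, hmod]
  rcases sg_sq α β with h | h <;> rw [h] at hE <;> omega

end PolyCol
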